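import Mathlib

set_option autoImplicit false

/-! The forest of cosets of two subgroups `A`, `B` of a group: vertices are the cosets `g A` and
`g B`, edges join `g A` and `g B`. -/

namespace Pool.Agent.GAR

open SimpleGraph

section Forest
variable {Γ : Type*} [Group Γ] (A B : Subgroup Γ)

/-- Vertices of the coset graph. -/
abbrev Vtx := (Γ ⧸ A) ⊕ (Γ ⧸ B)

/-- The coset graph. -/
def T : SimpleGraph (Vtx A B) where
  Adj u v := ∃ g : Γ, (u = Sum.inl (g : Γ ⧸ A) ∧ v = Sum.inr (g : Γ ⧸ B)) ∨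
    (u = Sum.inr (g : Γ ⧸ B) ∧ v = Sum.inl (g : Γ ⧸ A))
  symm := ⟨by
    rintro u v ⟨g, h | h⟩
    · exact ⟨g, Or.inr ⟨h.2, h.1⟩⟩
    · exact ⟨g, Or.inl ⟨h.2, h.1⟩⟩⟩
  loopless := ⟨by
    rintro u ⟨g, ⟨h, h'⟩ | ⟨h, h'⟩⟩
    · rw [h] at h'; exact absurd h' (by simp)
    · rw [h] at h'; exact absurd h' (by simp)⟩

variable {A B}

theorem coset_mul {C : Subgroup Γ} (g : Γ) {a : Γ} (ha : a ∈ C) :
    ((g * a : Γ) : Γ ⧸ C) = (g : Γ ⧸ C) := QuotientGroup.eq.2 (by simpa using ha)

theorem adj_inl {g : Γ} {v : Vtx A B} :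
    (T A B).Adj (Sum.inl (g : Γ ⧸ A)) v ↔ ∃ a ∈ A, v = Sum.inr ((g * a : Γ) : Γ ⧸ B) := by
  constructor
  · rintro ⟨k, ⟨h, h'⟩ | ⟨h, h'⟩⟩
    · refine ⟨g⁻¹ * k, ?_, ?_⟩
      · have := Sum.inl.inj h
        exact QuotientGroup.eq.1 this
      · rw [h']; simp
    · exact absurd h (by simp)
  · rintro ⟨a, ha, rfl⟩
    refine ⟨g * a, Or.inl ⟨?_, rfl⟩⟩
    congr 1
    exact QuotientGroup.eq.2 (by simpa using ha)

theorem adj_inr {g : Γ} {v : Vtx A B} :
    (T A B).Adj (Sum.inr (g : Γ ⧸ B)) v ↔ ∃ b ∈ B, v = Sum.inl ((g * b : Γ) : Γ ⧸ A) := by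
  constructor
  · rintro ⟨k, ⟨h, h'⟩ | ⟨h, h'⟩⟩
    · exact absurd h (by simp)
    · refine ⟨g⁻¹ * k, ?_, ?_⟩
      · have := Sum.inr.inj h
        exact QuotientGroup.eq.1 this
      · rw [h']; simp
  · rintro ⟨b, hb, rfl⟩
    refine ⟨g * b, Or.inr ⟨?_, rfl⟩⟩
    congr 1
    exact QuotientGroup.eq.2 (by simpa using hb)

/-- Two state predicates which grow along trails. -/
structure Grow (A B : Subgroup Γ) (PA PB : Γ → Prop) : Prop where
  start : ∀ a ∈ A, PB a
  stepA : ∀ g, PA g → ∀ a ∈ A, a ∉ B → PB (g * a)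
  stepB : ∀ g, PB g → ∀ b ∈ B, b ∉ A → PA (g * b)
  fin : ∀ g, PA g → g ∉ A

theorem Grow.trail {PA PB : Γ → Prop} (H : Grow A B PA PB) {u v : Vtx A B}
    (p : (T A B).Walk u v) : ∀ h : Γ, u = Sum.inl (h : Γ ⧸ A) → p.IsTrail → 0 < p.length →
      ∃ g : Γ, (v = Sum.inl ((h * g : Γ) : Γ ⧸ A) ∧
        s(Sum.inr ((h * g : Γ) : Γ ⧸ B), Sum.inl ((h * g : Γ) : Γ ⧸ A)) ∈ p.edges ∧ PA g) ∨
        (v = Sum.inr ((h * g : Γ) : Γ ⧸ B) ∧
        s(Sum.inl ((h * g : Γ) : Γ ⧸ A), Sum.inr ((h * g : Γ) : Γ ⧸ B)) ∈ p.edges ∧ PB g) := by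
  induction p using Walk.concatRec with
  | Hnil => intro h _ _ h0; simp at h0
  | @Hconcat u v w p hadj ih =>
    intro h hu ht _
    have hnd : p.IsTrail ∧ s(v, w) ∉ p.edges := by
      rw [Walk.isTrail_def, Walk.edges_concat, List.concat_eq_append, List.nodup_append] at ht
      refine ⟨⟨ht.1⟩, fun hm => ht.2.2 _ hm _ (by simp) rfl⟩
    rcases Nat.eq_zero_or_pos p.length with h0 | h0
    · have huv : u = v := Walk.eq_of_length_eq_zero h0
      subst huv
      subst hu
      obtain ⟨a, ha, rfl⟩ := adj_inl.1 hadj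
      refine ⟨a, Or.inr ⟨rfl, ?_, H.start a ha⟩⟩
      rw [Walk.edges_concat, List.concat_eq_append, List.mem_append]
      right
      have : ((h * a : Γ) : Γ ⧸ A) = (h : Γ ⧸ A) := coset_mul _ ha
      rw [this]; simp
    · obtain ⟨g, hg⟩ := ih h hu hnd.1 h0
      rcases hg with ⟨hv, he, hP⟩ | ⟨hv, he, hP⟩
      · subst hv
        obtain ⟨a, ha, rfl⟩ := adj_inl.1 hadj
        have haB : a ∉ B := by
          intro hb
          apply hnd.2
          have : ((h * g * a : Γ) : Γ ⧸ B) = ((h * g : Γ) : Γ ⧸ B) := coset_mul _ hb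
          rw [this, Sym2.eq_swap]; exact he
        refine ⟨g * a, Or.inr ⟨by rw [mul_assoc], ?_, H.stepA g hP a ha haB⟩⟩
        rw [Walk.edges_concat, List.concat_eq_append, List.mem_append]
        right
        have : ((h * (g * a) : Γ) : Γ ⧸ A) = ((h * g : Γ) : Γ ⧸ A) := by
          rw [← mul_assoc]; exact coset_mul _ ha
        rw [this, mul_assoc]; simp
      · subst hv
        obtain ⟨b, hb, rfl⟩ := adj_inr.1 hadj
        have hbA : b ∉ A := by
          intro ha
          apply hnd.2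
          have : ((h * g * b : Γ) : Γ ⧸ A) = ((h * g : Γ) : Γ ⧸ A) := coset_mul _ ha
          rw [this, Sym2.eq_swap]; exact he
        refine ⟨g * b, Or.inl ⟨by rw [mul_assoc], ?_, H.stepB g hP b hb hbA⟩⟩
        rw [Walk.edges_concat, List.concat_eq_append, List.mem_append]
        right
        have : ((h * (g * b) : Γ) : Γ ⧸ B) = ((h * g : Γ) : Γ ⧸ B) := by
          rw [← mul_assoc]; exact coset_mul _ hb
        rw [this, mul_assoc]; simp

theorem Grow.acyclic {PA PB : Γ → Prop} (H : Grow A B PA PB) : (T A B).IsAcyclic := by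
  classical
  have key : ∀ (h : Γ) (c : (T A B).Walk (Sum.inl (h : Γ ⧸ A)) (Sum.inl (h : Γ ⧸ A))),
      ¬ c.IsCycle := by
    intro h c hc
    have hl : 0 < c.length := by have := hc.three_le_length; omega
    obtain ⟨g, ⟨h1, -, h2⟩ | ⟨h1, -, -⟩⟩ := H.trail c h rfl hc.isTrail hl
    · have := QuotientGroup.eq.1 (Sum.inl.inj h1)
      exact H.fin g h2 (by simpa using this)
    · exact absurd h1 (by simp)
  intro v c hc
  rcases v with v | v
  · induction v using QuotientGroup.induction_on with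
    | H h => exact key h c hc
  · induction v using QuotientGroup.induction_on with
    | H h =>
      cases c with
      | nil => exact hc.not_nil (by simp)
      | @cons _ w _ hadj p =>
        obtain ⟨b, hb, rfl⟩ := adj_inr.1 hadj
        have hm : (Sum.inl ((h * b : Γ) : Γ ⧸ A)) ∈ (Walk.cons hadj p).support := by
          simp
        exact key _ _ (hc.rotate hm)

/-- Left translation. -/
def act (g : Γ) : Vtx A B → Vtx A B
  | Sum.inl v => Sum.inl (g • v)
  | Sum.inr v => Sum.inr (g • v)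

@[simp] theorem act_inl (g h : Γ) :
    act g (Sum.inl (h : Γ ⧸ A) : Vtx A B) = Sum.inl ((g * h : Γ) : Γ ⧸ A) := rfl

@[simp] theorem act_inr (g h : Γ) :
    act g (Sum.inr (h : Γ ⧸ B) : Vtx A B) = Sum.inr ((g * h : Γ) : Γ ⧸ B) := rfl

theorem act_mul (g h : Γ) (v : Vtx A B) : act (g * h) v = act g (act h v) := by
  rcases v with v | v
  · exact congrArg Sum.inl (mul_smul g h v)
  · exact congrArg Sum.inr (mul_smul g h v)

theorem act_one (v : Vtx A B) : act 1 v = v := by
  rcases v with v | v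
  · exact congrArg Sum.inl (one_smul Γ v)
  · exact congrArg Sum.inr (one_smul Γ v)

theorem act_inv_act (g : Γ) (v : Vtx A B) : act g⁻¹ (act g v) = v := by
  rw [← act_mul, inv_mul_cancel, act_one]

theorem act_act_inv (g : Γ) (v : Vtx A B) : act g (act g⁻¹ v) = v := by
  rw [← act_mul, mul_inv_cancel, act_one]

theorem adj_act (g : Γ) {u v : Vtx A B} (h : (T A B).Adj u v) :
    (T A B).Adj (act g u) (act g v) := by
  obtain ⟨k, ⟨rfl, rfl⟩ | ⟨rfl, rfl⟩⟩ := h
  · exact ⟨g * k, Or.inl ⟨rfl, rfl⟩⟩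
  · exact ⟨g * k, Or.inr ⟨rfl, rfl⟩⟩

/-- Left translation as a graph homomorphism. -/
def actHom (g : Γ) : (T A B) →g (T A B) := ⟨act g, fun h => adj_act g h⟩

/-- Translate of a walk. -/
def walkAct (g : Γ) {u v : Vtx A B} (p : (T A B).Walk u v) :
    (T A B).Walk (act g u) (act g v) := p.map (actHom g)

theorem support_walkAct (g : Γ) {u v : Vtx A B} (p : (T A B).Walk u v) :
    (walkAct g p).support = p.support.map (act g) := Walk.support_map _ _

/-- `u` and `v` are joined by a walk inside the vertex set `X`. -/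
def Conn (X : Set (Vtx A B)) (u v : Vtx A B) : Prop :=
  ∃ p : (T A B).Walk u v, ∀ x ∈ p.support, x ∈ X

theorem Conn.refl {X : Set (Vtx A B)} {u : Vtx A B} (h : u ∈ X) : Conn X u u :=
  ⟨Walk.nil, by simpa using h⟩

theorem Conn.symm {X : Set (Vtx A B)} {u v : Vtx A B} (h : Conn X u v) : Conn X v u := by
  obtain ⟨p, hp⟩ := h
  exact ⟨p.reverse, by simpa using hp⟩

theorem Conn.trans {X : Set (Vtx A B)} {u v w : Vtx A B} (h : Conn X u v) (h' : Conn X v w) :
    Conn X u w := by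
  obtain ⟨p, hp⟩ := h
  obtain ⟨q, hq⟩ := h'
  refine ⟨p.append q, fun x hx => ?_⟩
  rcases (Walk.mem_support_append_iff _ _).1 hx with h | h
  · exact hp x h
  · exact hq x h

theorem Conn.mono {X Y : Set (Vtx A B)} (hXY : X ⊆ Y) {u v : Vtx A B} (h : Conn X u v) :
    Conn Y u v := by
  obtain ⟨p, hp⟩ := h
  exact ⟨p, fun x hx => hXY (hp x hx)⟩

theorem Conn.act {X : Set (Vtx A B)} {g : Γ} (hX : ∀ x ∈ X, act g x ∈ X) {u v : Vtx A B}
    (h : Conn X u v) : Conn X (GAR.act g u) (GAR.act g v) := by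
  obtain ⟨p, hp⟩ := h
  refine ⟨walkAct g p, fun x hx => ?_⟩
  rw [support_walkAct, List.mem_map] at hx
  obtain ⟨y, hy, rfl⟩ := hx
  exact hX y (hp y hy)

/-- **Fixed vertices.** In a forest, let `X` be a connected set of vertices, invariant under `F`,
and `w` a vertex fixed by `F` all of whose neighbours are moved by `F`. If `w` is joined to a
vertex of `X`, then `w ∈ X`. -/
theorem mem_of_fixed (hac : (T A B).IsAcyclic) (X : Set (Vtx A B)) (F : Γ)
    (hX : ∀ u ∈ X, ∀ v ∈ X, Conn X u v) (hF : ∀ x ∈ X, act F x ∈ X) (w : Vtx A B)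
    (hw : act F w = w) (hq : ∀ q, (T A B).Adj w q → act F q ≠ q) (p : Vtx A B) (hp : p ∈ X)
    (hr : (T A B).Reachable w p) : w ∈ X := by
  classical
  by_contra hwX
  obtain ⟨W⟩ := hr
  obtain ⟨π, hπ⟩ : ∃ π : (T A B).Walk w p, π.IsPath := ⟨W.bypass, W.bypass_isPath⟩
  cases π with
  | nil => exact hwX hp
  | @cons _ q _ hadj π' =>
    rw [Walk.cons_isPath_iff] at hπ
    have hne := hq q hadj
    obtain ⟨W1, hW1⟩ := hX p hp (act F p) (hF p hp)
    have hadjF : (T A B).Adj w (act F q) := by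
      have := adj_act F hadj
      rwa [hw] at this
    -- the walk from q to F q which avoids w
    let W2 : (T A B).Walk (act F q) (act F p) := walkAct F π'
    have hW2 : w ∉ W2.support := by
      intro hm
      rw [support_walkAct, List.mem_map] at hm
      obtain ⟨y, hy, hy'⟩ := hm
      have : y = w := by
        have h1 : act F y = w := hy'
        rw [← act_inv_act F y, h1]
        conv_lhs => rw [← hw]
        rw [act_inv_act]
      exact hπ.2 (this ▸ hy)
    let V : (T A B).Walk q (act F q) := (π'.append W1).append W2.reverse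
    have hV : w ∉ V.support := by
      intro hm
      rw [Walk.mem_support_append_iff, Walk.mem_support_append_iff] at hm
      rcases hm with (hm | hm) | hm
      · exact hπ.2 hm
      · exact hwX (hW1 _ hm)
      · rw [Walk.support_reverse, List.mem_reverse] at hm
        exact hW2 hm
    have hb := (isAcyclic_iff_forall_adj_isBridge.1 hac) hadj
    rw [isBridge_iff_forall_walk_mem_edges] at hb
    have := hb (Walk.cons hadjF V.reverse)
    rw [Walk.edges_cons, List.mem_cons] at this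
    rcases this with h | h
    · rw [Sym2.eq_iff] at h
      rcases h with ⟨-, h⟩ | ⟨h, h'⟩
      · exact hne h.symm
      · rw [h'] at hadj
        exact (T A B).loopless.irrefl _ hadj
    · rw [Walk.edges_reverse, List.mem_reverse] at h
      exact hV (Walk.fst_mem_support_of_mem_edges _ h)

/-- **Finiteness.** Let the coset graph be a forest and let the subgroup `G` be generated by
elements fixing one of finitely many vertices (all in the component of the base vertex). Then the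
vertices `w` of that component which are fixed by some `F` in `G` moving all neighbours of `w` lie
in finitely many `G`-orbits. -/
theorem exists_finite (hac : (T A B).IsAcyclic) (G : Subgroup Γ) (V : Set (Vtx A B))
    (hV : V.Finite)
    (hr : ∀ v ∈ V, (T A B).Reachable (Sum.inl ((1 : Γ) : Γ ⧸ A)) v)
    (hgen : G ≤ Subgroup.closure {s | s ∈ G ∧ ∃ v ∈ V, act s v = v}) :
    ∃ S : Set (Vtx A B), S.Finite ∧ ∀ F ∈ G, ∀ w : Vtx A B, act F w = w →
      (∀ q, (T A B).Adj w q → act F q ≠ q) →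
      (T A B).Reachable w (Sum.inl ((1 : Γ) : Γ ⧸ A)) → ∃ σ ∈ S, ∃ g ∈ G, w = act g σ := by
  classical
  set o : Vtx A B := Sum.inl ((1 : Γ) : Γ ⧸ A) with ho
  have hw : ∀ v : V, ∃ p : (T A B).Walk o v.1, True := fun v => by
    obtain ⟨p⟩ := hr v.1 v.2
    exact ⟨p, trivial⟩
  choose p _ using hw
  have : Finite V := hV.to_subtype
  let S : Set (Vtx A B) := {o} ∪ ⋃ v : V, {x | x ∈ (p v).support}
  have hS : S.Finite := (Set.finite_singleton _).union
    (Set.finite_iUnion fun v => List.finite_toSet _)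
  let X : Set (Vtx A B) := {x | ∃ g ∈ G, ∃ σ ∈ S, x = act g σ}
  have hXact : ∀ g ∈ G, ∀ x ∈ X, act g x ∈ X := by
    rintro g hg x ⟨k, hk, σ, hσ, rfl⟩
    exact ⟨g * k, G.mul_mem hg hk, σ, hσ, (act_mul _ _ _).symm⟩
  have hSX : S ⊆ X := fun σ hσ => ⟨1, G.one_mem, σ, hσ, (act_one _).symm⟩
  have hoS : o ∈ S := Or.inl rfl
  have hoV : ∀ v : V, Conn X o v.1 := fun v =>
    ⟨p v, fun x hx => hSX (Or.inr (Set.mem_iUnion.2 ⟨v, hx⟩))⟩
  have hoσ : ∀ σ ∈ S, Conn X o σ := by
    rintro σ (hσ | hσ)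
    · rw [Set.mem_singleton_iff] at hσ
      subst hσ
      exact Conn.refl (hSX hoS)
    · obtain ⟨v, hv⟩ := Set.mem_iUnion.1 hσ
      refine ⟨(p v).takeUntil σ hv, fun x hx => hSX (Or.inr (Set.mem_iUnion.2 ⟨v, ?_⟩))⟩
      exact (p v).support_takeUntil_subset_support hv hx
  have hgo : ∀ g ∈ G, Conn X (act g o) o := by
    have h1 : ∀ g ∈ Subgroup.closure {s | s ∈ G ∧ ∃ v ∈ V, act s v = v},
        g ∈ G ∧ Conn X (act g o) o := by
      intro g hg
      induction hg using Subgroup.closure_induction with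
      | mem s hs =>
        obtain ⟨hsG, v, hv, hfix⟩ := hs
        refine ⟨hsG, ?_⟩
        have h2 := (hoV ⟨v, hv⟩).act (hXact s hsG)
        have h3 : act s v = v := hfix
        simp only [h3] at h2
        exact h2.trans (hoV ⟨v, hv⟩).symm
      | one => exact ⟨G.one_mem, by rw [act_one]; exact Conn.refl (hSX hoS)⟩
      | mul a b _ _ ha hb =>
        refine ⟨G.mul_mem ha.1 hb.1, ?_⟩
        rw [act_mul]
        exact (hb.2.act (hXact a ha.1)).trans ha.2
      | inv a _ ha =>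
        refine ⟨G.inv_mem ha.1, ?_⟩
        have := ha.2.act (hXact a⁻¹ (G.inv_mem ha.1))
        rw [act_inv_act] at this
        exact this.symm
    exact fun g hg => (h1 g (hgen hg)).2
  have hox : ∀ x ∈ X, Conn X o x := by
    rintro x ⟨g, hg, σ, hσ, rfl⟩
    exact (hgo g hg).symm.trans ((hoσ σ hσ).act (hXact g hg))
  refine ⟨S, hS, fun F hF w hw hq hrw => ?_⟩
  have := mem_of_fixed hac X F (fun u hu v hv => (hox u hu).symm.trans (hox v hv))
    (hXact F hF) w hw hq o (hSX hoS) hrw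
  obtain ⟨g, hg, σ, hσ, h⟩ := this
  exact ⟨σ, hσ, g, hg, h⟩

end Forest

end Pool.Agent.GAR
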