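import Mathlib
import Pool.Agent.GAR.Forest

set_option autoImplicit false

/-! Affine and triangular automorphisms of `K[x, y]`: their coset graph is a forest. -/

namespace Pool.Agent.GAR

open MvPolynomial

/-- The group of `R`-automorphisms of `R[x, y]`, `x = X 0`, `y = X 1`. -/
abbrev Aut2 (R : Type*) [CommRing R] := MvPolynomial (Fin 2) R ≃ₐ[R] MvPolynomial (Fin 2) R

section Degree

theorem linear_form {R : Type*} [CommRing R] (p : MvPolynomial (Fin 2) R)
    (hp : p.totalDegree ≤ 1) :
    ∃ c a b : R, p = C c + C a * X 0 + C b * X 1 := by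
  refine ⟨coeff 0 p, coeff (Finsupp.single 0 1) p, coeff (Finsupp.single 1 1) p, ?_⟩
  ext s
  by_cases h0 : s = 0
  · subst h0; simp
  by_cases h1 : s = Finsupp.single 0 1
  · subst h1
    simp only [coeff_add, coeff_C_mul, coeff_X, coeff_C, Finsupp.single_left_inj
      (one_ne_zero : (1 : ℕ) ≠ 0)]
    rw [if_neg (fun h => h0 h.symm)]; simp
  by_cases h2 : s = Finsupp.single 1 1
  · subst h2
    simp only [coeff_add, coeff_C_mul, coeff_X, coeff_C, Finsupp.single_left_inj
      (one_ne_zero : (1 : ℕ) ≠ 0)]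
    rw [if_neg (fun h => h0 h.symm)]; simp
  have hs : 1 < s 0 + s 1 := by
    by_contra hc
    have : (s 0 = 0 ∧ s 1 = 0) ∨ (s 0 = 1 ∧ s 1 = 0) ∨ (s 0 = 0 ∧ s 1 = 1) := by omega
    rcases this with ⟨ha, hb⟩ | ⟨ha, hb⟩ | ⟨ha, hb⟩
    · exact h0 (by ext i; fin_cases i <;> simp [ha, hb])
    · exact h1 (by ext i; fin_cases i <;> simp [ha, hb])
    · exact h2 (by ext i; fin_cases i <;> simp [ha, hb])
  have hs' : p.totalDegree < ∑ i ∈ s.support, s i := by
    have : ∑ i ∈ s.support, s i = s 0 + s 1 := by
      have := Finsupp.sum_fintype s (fun _ e => e) (fun _ => rfl)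
      rw [Finsupp.sum] at this
      rw [this, Fin.sum_univ_two]
    omega
  rw [coeff_eq_zero_of_totalDegree_lt hs']
  simp [coeff_C_mul, coeff_X, coeff_C, Ne.symm h0, Ne.symm h1, Ne.symm h2]

theorem one_le_deg {R : Type*} [CommRing R] [Nontrivial R] (g : Aut2 R) (i : Fin 2) :
    1 ≤ (g (X i)).totalDegree := by
  by_contra h
  have h0 : (g (X i)).totalDegree = 0 := by omega
  rw [totalDegree_eq_zero_iff_eq_C] at h0
  have h1 : g (X i) = g (C (coeff 0 (g (X i)))) := by
    conv_lhs => rw [h0]
    exact (g.commutes _).symm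
  have h2 := congrArg (coeff (Finsupp.single i 1)) (g.injective h1)
  rw [coeff_X, if_pos rfl, coeff_C, if_neg] at h2
  · exact one_ne_zero h2
  · intro h3
    exact one_ne_zero (Finsupp.single_eq_zero.1 h3.symm)

variable {K : Type*} [Field K]

theorem totalDegree_pow_eq (f : MvPolynomial (Fin 2) K) (hf : f ≠ 0) (n : ℕ) :
    (f ^ n).totalDegree = n * f.totalDegree := by
  induction n with
  | zero => simp
  | succ n ih =>
    rw [pow_succ, totalDegree_mul_of_isDomain (pow_ne_zero _ hf) hf, ih]; ring

theorem totalDegree_C_mul {f : MvPolynomial (Fin 2) K} {c : K} (hc : c ≠ 0) :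
    (C c * f).totalDegree = f.totalDegree := by
  by_cases hf : f = 0
  · simp [hf]
  · rw [totalDegree_mul_of_isDomain (by simpa using hc) hf, totalDegree_C, zero_add]

theorem totalDegree_aeval {f : MvPolynomial (Fin 2) K} (hf : 1 ≤ f.totalDegree)
    (p : Polynomial K) : (Polynomial.aeval f p).totalDegree = p.natDegree * f.totalDegree := by
  have hf0 : f ≠ 0 := by rintro rfl; simp at hf
  have hle : ∀ q : Polynomial K,
      (Polynomial.aeval f q).totalDegree ≤ q.natDegree * f.totalDegree := by
    intro q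
    rw [Polynomial.aeval_eq_sum_range]
    refine totalDegree_finsetSum_le fun i hi => ?_
    rw [smul_eq_C_mul]
    refine (totalDegree_mul _ _).trans ?_
    rw [totalDegree_C, zero_add, totalDegree_pow_eq f hf0]
    exact Nat.mul_le_mul_right _ (by simpa [Nat.lt_succ_iff] using hi)
  rcases Nat.eq_zero_or_pos p.natDegree with h0 | h0
  · rw [Polynomial.eq_C_of_natDegree_eq_zero h0, Polynomial.aeval_C]
    simp [algebraMap_eq]
  · have hp0 : p ≠ 0 := by rintro rfl; simp at h0
    have h1 := Polynomial.eraseLead_add_C_mul_X_pow p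
    have h2 : (Polynomial.aeval f p) = Polynomial.aeval f p.eraseLead +
        C p.leadingCoeff * f ^ p.natDegree := by
      conv_lhs => rw [← h1]
      rw [map_add, map_mul, Polynomial.aeval_C, map_pow, Polynomial.aeval_X, algebraMap_eq]
    have h3 : (C p.leadingCoeff * f ^ p.natDegree).totalDegree =
        p.natDegree * f.totalDegree := by
      rw [totalDegree_C_mul (by simpa using hp0), totalDegree_pow_eq f hf0]
    have h4 : (Polynomial.aeval f p.eraseLead).totalDegree <
        (C p.leadingCoeff * f ^ p.natDegree).totalDegree := by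
      rw [h3]
      refine (hle _).trans_lt ?_
      have := Polynomial.eraseLead_natDegree_le p
      exact Nat.mul_lt_mul_of_pos_right (by omega) (by omega)
    rw [h2, totalDegree_add_eq_right_of_totalDegree_lt h4, h3]

end Degree

section Groups
variable {K : Type*} [Field K]

/-- The affine group: the automorphisms which preserve total degree at most one. -/
def affG (K : Type*) [Field K] : Subgroup (Aut2 K) where
  carrier := {g | ∀ p, p.totalDegree ≤ 1 ↔ (g p).totalDegree ≤ 1}
  mul_mem' := fun {a b} ha hb p => (hb p).trans (ha (b p))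
  one_mem' := fun _ => Iff.rfl
  inv_mem' := fun {a} ha p => by
    have h := ha (a⁻¹ p)
    have h2 : a (a⁻¹ p) = p := by
      change (a * a⁻¹) p = p
      rw [mul_inv_cancel]; rfl
    rw [h2] at h
    exact h.symm

theorem mul_ap (g h : Aut2 K) (p : MvPolynomial (Fin 2) K) : (g * h) p = g (h p) := rfl

theorem inv_ap (g : Aut2 K) (p : MvPolynomial (Fin 2) K) : g⁻¹ (g p) = p := by
  change (g⁻¹ * g) p = p
  rw [inv_mul_cancel]; rfl

theorem ap_inv (g : Aut2 K) (p : MvPolynomial (Fin 2) K) : g (g⁻¹ p) = p := by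
  change (g * g⁻¹) p = p
  rw [mul_inv_cancel]; rfl

theorem ap_C (g : Aut2 K) (c : K) : g (C c) = C c := g.commutes c

theorem mem_affG_of (g : Aut2 K) (h0 : (g (X 0)).totalDegree ≤ 1)
    (h1 : (g (X 1)).totalDegree ≤ 1) : g ∈ affG K := by
  have key : ∀ p : MvPolynomial (Fin 2) K, p.totalDegree ≤ 1 → (g p).totalDegree ≤ 1 := by
    intro p hp
    obtain ⟨c, a, b, rfl⟩ := linear_form p hp
    rw [map_add, map_add, map_mul, map_mul, ap_C, ap_C, ap_C]
    refine (totalDegree_add _ _).trans (max_le ((totalDegree_add _ _).trans (max_le ?_ ?_)) ?_)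
    · simp
    · exact (totalDegree_mul _ _).trans (by simpa using h0)
    · exact (totalDegree_mul _ _).trans (by simpa using h1)
  intro p
  refine ⟨key p, fun hp => ?_⟩
  let V := restrictTotalDegree (Fin 2) K 1
  have hmap : ∀ v ∈ V, g.toLinearMap v ∈ V := fun v hv => by
    rw [mem_restrictTotalDegree] at hv ⊢
    exact key v hv
  have hinj : Function.Injective (g.toLinearMap.restrict hmap) := by
    intro u v huv
    have := congrArg Subtype.val huv
    exact Subtype.ext (g.injective this)
  have hsurj := LinearMap.injective_iff_surjective.1 hinj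
  obtain ⟨⟨q, hq⟩, hq2⟩ := hsurj ⟨g p, (mem_restrictTotalDegree _ _ _).2 hp⟩
  have h3 : g q = g p := congrArg Subtype.val hq2
  rw [← g.injective h3]
  exact (mem_restrictTotalDegree _ _ _).1 hq

/-- Polynomials in `y`. -/
theorem mem_supp_iff {R : Type*} [CommRing R] (p : MvPolynomial (Fin 2) R) :
    p ∈ supported R ({1} : Set (Fin 2)) ↔ ∃ q : Polynomial R, p = Polynomial.aeval (X 1) q := by
  rw [supported, Set.image_singleton, Algebra.adjoin_singleton_eq_range_aeval]
  constructor
  · rintro ⟨q, hq⟩; exact ⟨q, hq.symm⟩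
  · rintro ⟨q, hq⟩; exact ⟨q, hq.symm⟩

theorem ap_aeval {R : Type*} [CommRing R] (g : Aut2 R) (f : MvPolynomial (Fin 2) R)
    (q : Polynomial R) : g (Polynomial.aeval f q) = Polynomial.aeval (g f) q :=
  (Polynomial.aeval_algHom_apply g f q).symm

theorem X1_supp {R : Type*} [CommRing R] : (X 1 : MvPolynomial (Fin 2) R) ∈
    supported R ({1} : Set (Fin 2)) := (mem_supp_iff _).2 ⟨Polynomial.X, by simp⟩

theorem supp_ap {R : Type*} [CommRing R] (g : Aut2 R) (h : g (X 1) ∈ supported R {1})
    {p : MvPolynomial (Fin 2) R} (hp : p ∈ supported R ({1} : Set (Fin 2))) :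
    g p ∈ supported R ({1} : Set (Fin 2)) := by
  obtain ⟨q, rfl⟩ := (mem_supp_iff p).1 hp
  rw [ap_aeval]
  exact Polynomial.aeval_mem_adjoin_singleton _ _ |> fun h' =>
    (Algebra.adjoin_le (by simpa using h) : Algebra.adjoin R {g (X 1)} ≤ supported R {1}) h'

/-- Explicit triangular form. -/
def IsTri (g : Aut2 K) : Prop :=
  ∃ a b c : K, ∃ p ∈ supported K ({1} : Set (Fin 2)), a ≠ 0 ∧ b ≠ 0 ∧
    g (X 0) = C a * X 0 + p ∧ g (X 1) = C b * X 1 + C c

theorem C_supp {R : Type*} [CommRing R] (c : R) : (C c : MvPolynomial (Fin 2) R) ∈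
    supported R ({1} : Set (Fin 2)) := Subalgebra.algebraMap_mem _ c

/-- The triangular group. -/
def triG (K : Type*) [Field K] : Subgroup (Aut2 K) where
  carrier := {g | IsTri g}
  mul_mem' := by
    rintro g h ⟨a, b, c, p, hp, ha, hb, h0, h1⟩ ⟨a', b', c', p', hp', ha', hb', h0', h1'⟩
    refine ⟨a' * a, b' * b, b' * c + c', C a' * p + g p', ?_, mul_ne_zero ha' ha,
      mul_ne_zero hb' hb, ?_, ?_⟩
    · refine Subalgebra.add_mem _ (Subalgebra.mul_mem _ (C_supp _) hp) (supp_ap g ?_ hp')
      rw [h1]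
      exact Subalgebra.add_mem _ (Subalgebra.mul_mem _ (C_supp _) X1_supp) (C_supp _)
    · rw [mul_ap, h0', map_add, map_mul, ap_C, h0, C_mul]; ring
    · rw [mul_ap, h1', map_add, map_mul, ap_C, ap_C, h1, C_mul, C_add, C_mul]; ring
  one_mem' := ⟨1, 1, 0, 0, Subalgebra.zero_mem _, one_ne_zero, one_ne_zero, by simp, by simp⟩
  inv_mem' := by
    rintro g ⟨a, b, c, p, hp, ha, hb, h0, h1⟩
    have e1 : g⁻¹ (X 1) = C b⁻¹ * X 1 + C (-(b⁻¹ * c)) := by
      apply g.injective
      change g (g⁻¹ (X 1)) = _
      rw [ap_inv, map_add, map_mul, ap_C, ap_C, h1, mul_add, ← mul_assoc, ← C_mul, ← C_mul,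
        inv_mul_cancel₀ hb, C_1, one_mul, C_neg]; ring
    have e2 : g⁻¹ p ∈ supported K ({1} : Set (Fin 2)) := by
      refine supp_ap _ ?_ hp
      rw [e1]
      exact Subalgebra.add_mem _ (Subalgebra.mul_mem _ (C_supp _) X1_supp) (C_supp _)
    refine ⟨a⁻¹, b⁻¹, -(b⁻¹ * c), -(C a⁻¹ * g⁻¹ p), Subalgebra.neg_mem _
      (Subalgebra.mul_mem _ (C_supp _) e2), inv_ne_zero ha, inv_ne_zero hb, ?_, e1⟩
    apply g.injective
    change g (g⁻¹ (X 0)) = _
    rw [ap_inv, map_add, map_neg, map_mul, map_mul, ap_C, ap_inv, h0, mul_add, ← mul_assoc,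
      ← C_mul, inv_mul_cancel₀ ha, C_1, one_mul]; ring

theorem mem_triG {g : Aut2 K} : g ∈ triG K ↔ IsTri g := Iff.rfl

/-- The state predicates. -/
def PB (g : Aut2 K) : Prop :=
  (g (X 0)).totalDegree ≤ (g (X 1)).totalDegree ∧ 1 ≤ (g (X 1)).totalDegree

/-- The state predicates. -/
def PA (g : Aut2 K) : Prop :=
  (g (X 1)).totalDegree < (g (X 0)).totalDegree ∧ 1 ≤ (g (X 1)).totalDegree

theorem X_ne_C (i : Fin 2) (c : K) : (X i : MvPolynomial (Fin 2) K) ≠ C c := by
  intro h
  have := congrArg totalDegree h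
  simp at this

theorem totalDegree_add_C (f : MvPolynomial (Fin 2) K) (c : K) (hf : 1 ≤ f.totalDegree) :
    (f + C c).totalDegree = f.totalDegree :=
  totalDegree_add_eq_left_of_totalDegree_lt (by rw [totalDegree_C]; omega)

theorem grow : Grow (affG K) (triG K) PA PB where
  start := fun a ha => by
    have h0 : (a (X 0)).totalDegree ≤ 1 := (ha _).1 (by simp)
    exact ⟨h0.trans (one_le_deg a 1), one_le_deg a 1⟩
  fin := fun g hg hA => by
    have h0 : (g (X 0)).totalDegree ≤ 1 := (hA _).1 (by simp)
    have := hg.1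
    have := hg.2
    omega
  stepA := fun g hg a ha haB => by
    have h0 : (a (X 0)).totalDegree ≤ 1 := (ha _).1 (by simp)
    have h1 : (a (X 1)).totalDegree ≤ 1 := (ha _).1 (by simp)
    obtain ⟨c, u, v, e0⟩ := linear_form _ h0
    obtain ⟨c', u', v', e1⟩ := linear_form _ h1
    have hu' : u' ≠ 0 := by
      rintro rfl
      apply haB
      have hv' : v' ≠ 0 := by
        rintro rfl
        have := one_le_deg a 1
        rw [e1] at this
        simp at this
      refine ⟨u, v', c', C v * X 1 + C c, ?_, ?_, hv', ?_, ?_⟩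
      · exact Subalgebra.add_mem _ (Subalgebra.mul_mem _ (C_supp _) X1_supp) (C_supp _)
      · rintro rfl
        -- a x = c + v y, a y = c' + v' y
        have h2 : a (X 0 - C (v / v') * X 1) = a (C (c - v / v' * c')) := by
          rw [map_sub, map_mul, ap_C, ap_C, e0, e1, C_sub, C_mul, C_0]
          have : (C v : MvPolynomial (Fin 2) K) = C (v / v') * C v' := by
            rw [← C_mul, div_mul_cancel₀ _ hv']
          rw [this]; ring
        have h3 := congrArg (coeff (Finsupp.single 0 1)) (a.injective h2)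
        rw [coeff_sub, coeff_C_mul, coeff_X, coeff_X, coeff_C, if_pos rfl, if_neg, if_neg] at h3
        · simp at h3
        · intro h; exact one_ne_zero (Finsupp.single_eq_zero.1 h.symm)
        · simp [Finsupp.single_left_inj]
      · rw [e0]; ring
      · rw [e1]; simp [add_comm]
    obtain ⟨hlt, hone⟩ := hg
    have key : ∀ c a b : K, a ≠ 0 →
        (C c + C a * g (X 0) + C b * g (X 1)).totalDegree = (g (X 0)).totalDegree := by
      intro c a b hab
      have e : C c + C a * g (X 0) + C b * g (X 1) =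
          C a * g (X 0) + (C b * g (X 1) + C c) := by ring
      rw [e, totalDegree_add_eq_left_of_totalDegree_lt, totalDegree_C_mul hab]
      rw [totalDegree_C_mul hab]
      refine (totalDegree_add _ _).trans_lt (max_lt ?_ ?_)
      · exact ((totalDegree_mul _ _).trans (by rw [totalDegree_C, zero_add])).trans_lt hlt
      · rw [totalDegree_C]; omega
    have f0 : ((g * a) (X 0)).totalDegree ≤ (g (X 0)).totalDegree := by
      rw [mul_ap, e0, map_add, map_add, map_mul, map_mul, ap_C, ap_C, ap_C]
      refine (totalDegree_add _ _).trans (max_le ((totalDegree_add _ _).trans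
        (max_le ?_ ?_)) ?_)
      · simp
      · exact (totalDegree_mul _ _).trans (by rw [totalDegree_C, zero_add])
      · exact ((totalDegree_mul _ _).trans (by rw [totalDegree_C, zero_add])).trans hlt.le
    have f1 : ((g * a) (X 1)).totalDegree = (g (X 0)).totalDegree := by
      rw [mul_ap, e1, map_add, map_add, map_mul, map_mul, ap_C, ap_C, ap_C]
      exact key _ _ _ hu'
    refine ⟨by rw [f1]; exact f0, by rw [f1]; omega⟩
  stepB := fun g hg b hb hbA => by
    obtain ⟨u, v, c, p, hp, hu, hv, e0, e1⟩ := hb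
    obtain ⟨q, rfl⟩ := (mem_supp_iff p).1 hp
    obtain ⟨hle, hone⟩ := hg
    have hq : 2 ≤ q.natDegree := by
      by_contra hq
      apply hbA
      refine mem_affG_of b ?_ ?_
      · rw [e0]
        refine (totalDegree_add _ _).trans (max_le ?_ ?_)
        · exact (totalDegree_mul _ _).trans (by simp)
        · rw [totalDegree_aeval (by simp)]; simp; omega
      · rw [e1]
        refine (totalDegree_add _ _).trans (max_le ?_ ?_)
        · exact (totalDegree_mul _ _).trans (by simp)
        · simp
    have f1 : ((g * b) (X 1)).totalDegree = (g (X 1)).totalDegree := by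
      rw [mul_ap, e1, map_add, map_mul, ap_C, ap_C, totalDegree_add_C _ _
        (by rw [totalDegree_C_mul hv]; exact hone), totalDegree_C_mul hv]
    have f2 : (Polynomial.aeval (g (X 1)) q).totalDegree =
        q.natDegree * (g (X 1)).totalDegree := totalDegree_aeval hone q
    have f3 : 2 * (g (X 1)).totalDegree ≤ q.natDegree * (g (X 1)).totalDegree :=
      Nat.mul_le_mul_right _ hq
    have f0 : ((g * b) (X 0)).totalDegree = q.natDegree * (g (X 1)).totalDegree := by
      rw [mul_ap, e0, map_add, map_mul, ap_C, ap_aeval,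
        totalDegree_add_eq_right_of_totalDegree_lt, f2]
      rw [f2, totalDegree_C_mul hu]; omega
    exact ⟨by rw [f0, f1]; omega, by rw [f1]; exact hone⟩

/-- The coset graph of the affine and the triangular group is a forest. -/
theorem acyclic : (T (affG K) (triG K)).IsAcyclic := grow.acyclic

end Groups

end Pool.Agent.GAR
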