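import Mathlib
import Pool.Agent.GAR.Forest

set_option autoImplicit false

/-! Trails in the coset graph along which a size function grows. -/

namespace Pool.Agent.GAR

open SimpleGraph

section Mono
variable {Γ : Type*} [Group Γ] {A B : Subgroup Γ}

/-- State predicates and size functions which grow along trails. -/
structure GrowD (A B : Subgroup Γ) (PA PB : Γ → Prop) (dA dB : Γ → ℕ) : Prop
    extends Grow A B PA PB where
  startD : ∀ a ∈ A, dA 1 ≤ dB a
  stepAD : ∀ g, PA g → ∀ a ∈ A, a ∉ B → dA g ≤ dB (g * a)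
  stepBD : ∀ g, PB g → ∀ b ∈ B, b ∉ A → dB g ≤ dA (g * b)

/-- The vertex `x` has size at most `D`. -/
def Sm (dA dB : Γ → ℕ) (D : ℕ) (x : Vtx A B) : Prop :=
  ∃ k : Γ, (x = Sum.inl (k : Γ ⧸ A) ∧ dA k ≤ D) ∨ (x = Sum.inr (k : Γ ⧸ B) ∧ dB k ≤ D)

theorem Sm.mono {dA dB : Γ → ℕ} {D E : ℕ} (h : D ≤ E) {x : Vtx A B} (hx : Sm dA dB D x) :
    Sm dA dB E x := by
  obtain ⟨k, ⟨h1, h2⟩ | ⟨h1, h2⟩⟩ := hx
  · exact ⟨k, Or.inl ⟨h1, h2.trans h⟩⟩
  · exact ⟨k, Or.inr ⟨h1, h2.trans h⟩⟩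

theorem GrowD.trail {PA PB : Γ → Prop} {dA dB : Γ → ℕ} (H : GrowD A B PA PB dA dB)
    {u v : Vtx A B} (p : (T A B).Walk u v) : u = Sum.inl ((1 : Γ) : Γ ⧸ A) → p.IsTrail →
      0 < p.length →
      ∃ g : Γ, (v = Sum.inl ((g : Γ) : Γ ⧸ A) ∧
        s(Sum.inr ((g : Γ) : Γ ⧸ B), Sum.inl ((g : Γ) : Γ ⧸ A)) ∈ p.edges ∧ PA g ∧
        ∀ x ∈ p.support, Sm dA dB (dA g) x) ∨
        (v = Sum.inr ((g : Γ) : Γ ⧸ B) ∧
        s(Sum.inl ((g : Γ) : Γ ⧸ A), Sum.inr ((g : Γ) : Γ ⧸ B)) ∈ p.edges ∧ PB g ∧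
        ∀ x ∈ p.support, Sm dA dB (dB g) x) := by
  induction p using Walk.concatRec with
  | Hnil => intro _ _ h0; simp at h0
  | @Hconcat u v w p hadj ih =>
    intro hu ht _
    have hnd : p.IsTrail ∧ s(v, w) ∉ p.edges := by
      rw [Walk.isTrail_def, Walk.edges_concat, List.concat_eq_append, List.nodup_append] at ht
      refine ⟨⟨ht.1⟩, fun hm => ht.2.2 _ hm _ (by simp) rfl⟩
    have hsup : ∀ x ∈ (p.concat hadj).support, x ∈ p.support ∨ x = w := by
      intro x hx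
      rw [Walk.support_concat, List.mem_append] at hx
      simpa using hx
    rcases Nat.eq_zero_or_pos p.length with h0 | h0
    · have huv : u = v := Walk.eq_of_length_eq_zero h0
      subst huv
      subst hu
      obtain ⟨a, ha, rfl⟩ := adj_inl.1 hadj
      have hp0 : ∀ x ∈ p.support, x = Sum.inl ((1 : Γ) : Γ ⧸ A) := by
        intro x hx
        have := Walk.nil_iff_support_eq.1 (Walk.length_eq_zero_iff.1 h0)
        rw [this] at hx
        simpa using hx
      refine ⟨a, Or.inr ⟨by rw [one_mul], ?_, H.start a ha, ?_⟩⟩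
      · rw [Walk.edges_concat, List.concat_eq_append, List.mem_append]
        right
        have : ((1 * a : Γ) : Γ ⧸ A) = ((1 : Γ) : Γ ⧸ A) := coset_mul _ ha
        rw [one_mul] at this
        rw [this]; simp
      · intro x hx
        rcases hsup x hx with h | h
        · exact ⟨1, Or.inl ⟨hp0 x h, H.startD a ha⟩⟩
        · exact ⟨a, Or.inr ⟨by rw [h, one_mul], le_rfl⟩⟩
    · obtain ⟨g, hg⟩ := ih hu hnd.1 h0
      rcases hg with ⟨hv, he, hP, hs⟩ | ⟨hv, he, hP, hs⟩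
      · subst hv
        obtain ⟨a, ha, rfl⟩ := adj_inl.1 hadj
        have haB : a ∉ B := by
          intro hb
          apply hnd.2
          have : ((g * a : Γ) : Γ ⧸ B) = ((g : Γ) : Γ ⧸ B) := coset_mul _ hb
          rw [this, Sym2.eq_swap]; exact he
        refine ⟨g * a, Or.inr ⟨rfl, ?_, H.stepA g hP a ha haB, ?_⟩⟩
        · rw [Walk.edges_concat, List.concat_eq_append, List.mem_append]
          right
          have : ((g * a : Γ) : Γ ⧸ A) = ((g : Γ) : Γ ⧸ A) := coset_mul _ ha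
          rw [this]; simp
        · intro x hx
          rcases hsup x hx with h | h
          · exact (hs x h).mono (H.stepAD g hP a ha haB)
          · exact ⟨g * a, Or.inr ⟨h, le_rfl⟩⟩
      · subst hv
        obtain ⟨b, hb, rfl⟩ := adj_inr.1 hadj
        have hbA : b ∉ A := by
          intro ha
          apply hnd.2
          have : ((g * b : Γ) : Γ ⧸ A) = ((g : Γ) : Γ ⧸ A) := coset_mul _ ha
          rw [this, Sym2.eq_swap]; exact he
        refine ⟨g * b, Or.inl ⟨rfl, ?_, H.stepB g hP b hb hbA, ?_⟩⟩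
        · rw [Walk.edges_concat, List.concat_eq_append, List.mem_append]
          right
          have : ((g * b : Γ) : Γ ⧸ B) = ((g : Γ) : Γ ⧸ B) := coset_mul _ hb
          rw [this]; simp
        · intro x hx
          rcases hsup x hx with h | h
          · exact (hs x h).mono (H.stepBD g hP b hb hbA)
          · exact ⟨g * b, Or.inl ⟨h, le_rfl⟩⟩

theorem GrowD.conn {PA PB : Γ → Prop} {dA dB : Γ → ℕ} (H : GrowD A B PA PB dA dB)
    (hA : ∀ g, ∀ a ∈ A, dA (g * a) ≤ dA g) {g : Γ} {D : ℕ} (hg : dA g ≤ D)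
    (hr : (T A B).Reachable (Sum.inl ((1 : Γ) : Γ ⧸ A)) (Sum.inl (g : Γ ⧸ A))) :
    Conn {x : Vtx A B | Sm dA dB D x} (Sum.inl ((1 : Γ) : Γ ⧸ A)) (Sum.inl (g : Γ ⧸ A)) := by
  classical
  obtain ⟨W⟩ := hr
  have hp := W.bypass_isPath
  obtain ⟨p, hpp⟩ : ∃ p, p = W.bypass := ⟨_, rfl⟩
  rw [← hpp] at hp
  rcases Nat.eq_zero_or_pos p.length with h0 | h0
  · have h1 := Walk.eq_of_length_eq_zero h0
    rw [h1]
    exact Conn.refl ⟨g, Or.inl ⟨rfl, hg⟩⟩
  · obtain ⟨k, ⟨h1, -, -, h2⟩ | ⟨h1, -⟩⟩ := H.trail p rfl hp.isTrail h0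
    · refine ⟨p, fun x hx => (h2 x hx).mono (le_trans ?_ hg)⟩
      have h3 := QuotientGroup.eq.1 (Sum.inl.inj h1)
      have h4 := hA g _ h3
      rwa [mul_inv_cancel_left] at h4
    · exact absurd h1 (by simp)

/-- **Orbits.** Let the coset graph be a forest, `S` a connected set of vertices containing the
base vertex `o`, and let the subgroup `G` be generated by elements which fix a vertex of `S` or
map `o` into `S`. If a vertex `w` of the component of `o` is fixed by an element of `G` which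
moves all neighbours of `w`, then `w` lies in `G S`. -/
theorem mem_orbit (hac : (T A B).IsAcyclic) (G : Subgroup Γ) (S : Set (Vtx A B))
    (hoS : Sum.inl ((1 : Γ) : Γ ⧸ A) ∈ S)
    (hS : ∀ σ ∈ S, Conn S (Sum.inl ((1 : Γ) : Γ ⧸ A)) σ)
    (hgen : G ≤ Subgroup.closure {s | s ∈ G ∧
      ((∃ v ∈ S, act s v = v) ∨ act s (Sum.inl ((1 : Γ) : Γ ⧸ A)) ∈ S)}) :
    ∀ F ∈ G, ∀ w : Vtx A B, act F w = w →
      (∀ q, (T A B).Adj w q → act F q ≠ q) →
      (T A B).Reachable w (Sum.inl ((1 : Γ) : Γ ⧸ A)) → ∃ σ ∈ S, ∃ g ∈ G, w = act g σ := by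
  set o : Vtx A B := Sum.inl ((1 : Γ) : Γ ⧸ A) with ho
  let X : Set (Vtx A B) := {x | ∃ g ∈ G, ∃ σ ∈ S, x = act g σ}
  have hXact : ∀ g ∈ G, ∀ x ∈ X, act g x ∈ X := by
    rintro g hg x ⟨k, hk, σ, hσ, rfl⟩
    exact ⟨g * k, G.mul_mem hg hk, σ, hσ, (act_mul _ _ _).symm⟩
  have hSX : S ⊆ X := fun σ hσ => ⟨1, G.one_mem, σ, hσ, (act_one _).symm⟩
  have hoσ : ∀ σ ∈ S, Conn X o σ := fun σ hσ => (hS σ hσ).mono hSX
  have hgo : ∀ g ∈ G, Conn X (act g o) o := by
    have h1 : ∀ g ∈ Subgroup.closure {s | s ∈ G ∧ ((∃ v ∈ S, act s v = v) ∨ act s o ∈ S)},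
        g ∈ G ∧ Conn X (act g o) o := by
      intro g hg
      induction hg using Subgroup.closure_induction with
      | mem s hs =>
        obtain ⟨hsG, ⟨v, hv, hfix⟩ | hs⟩ := hs
        · refine ⟨hsG, ?_⟩
          have h2 := (hoσ v hv).act (hXact s hsG)
          have h3 : act s v = v := hfix
          simp only [h3] at h2
          exact h2.trans (hoσ v hv).symm
        · exact ⟨hsG, (hoσ _ hs).symm⟩
      | one => exact ⟨G.one_mem, by rw [act_one]; exact Conn.refl (hSX hoS)⟩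
      | mul a b _ _ ha hb =>
        refine ⟨G.mul_mem ha.1 hb.1, ?_⟩
        rw [act_mul]
        exact (hb.2.act (hXact a ha.1)).trans ha.2
      | inv a _ ha =>
        refine ⟨G.inv_mem ha.1, ?_⟩
        have := ha.2.act (hXact a⁻¹ (G.inv_mem ha.1))
        rw [act_inv_act] at this
        exact this.symm
    exact fun g hg => (h1 g (hgen hg)).2
  have hox : ∀ x ∈ X, Conn X o x := by
    rintro x ⟨g, hg, σ, hσ, rfl⟩
    exact (hgo g hg).symm.trans ((hoσ σ hσ).act (hXact g hg))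
  intro F hF w hw hq hrw
  have := mem_of_fixed hac X F (fun u hu v hv => (hox u hu).symm.trans (hox v hv))
    (hXact F hF) w hw hq o (hSX hoS) hrw
  obtain ⟨g, hg, σ, hσ, h⟩ := this
  exact ⟨σ, hσ, g, hg, h⟩

end Mono

end Pool.Agent.GAR
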