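import Mathlib
import Pool.Agent.GAR.Aut
import Pool.Agent.GAR.Mono

set_option autoImplicit false

/-! Base change of automorphisms, the automorphisms `F z n` and the vertices `w n`. -/

namespace Pool.Agent.GAR

open MvPolynomial

section BaseChange
variable {R : Type*} [CommRing R] (S : Type*) [CommRing S] [Algebra R S]

/-- Base change of an automorphism, as a homomorphism. -/
noncomputable def bcHom (g : Aut2 R) : MvPolynomial (Fin 2) S →ₐ[S] MvPolynomial (Fin 2) S :=
  aeval fun i => map (algebraMap R S) (g (X i))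

theorem bcHom_map (g : Aut2 R) (p : MvPolynomial (Fin 2) R) :
    bcHom S g (map (algebraMap R S) p) = map (algebraMap R S) (g p) := by
  induction p using MvPolynomial.induction_on with
  | C a =>
    rw [map_C]
    have : g (C a) = C a := g.commutes a
    rw [this, map_C]
    exact (bcHom S g).commutes _
  | add p q hp hq => rw [map_add, map_add, map_add, map_add, hp, hq]
  | mul_X p i hp =>
    rw [map_mul, map_mul, map_mul, map_mul, hp, map_X]
    congr 1
    exact aeval_X _ _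

theorem bcHom_mul (g h : Aut2 R) : bcHom S (g * h) = (bcHom S g).comp (bcHom S h) := by
  ext1 i
  rw [AlgHom.comp_apply]
  have e : ∀ k : Aut2 R, bcHom S k (X i) = map (algebraMap R S) (k (X i)) :=
    fun k => aeval_X _ _
  rw [e, e, bcHom_map]; rfl

theorem bcHom_one : bcHom S (1 : Aut2 R) = AlgHom.id S _ := by
  ext1 i
  have e : ∀ k : Aut2 R, bcHom S k (X i) = map (algebraMap R S) (k (X i)) :=
    fun k => aeval_X _ _
  rw [e]
  change map _ (X i) = X i
  rw [map_X]

/-- Base change of automorphisms. -/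
noncomputable def bc : Aut2 R →* Aut2 S where
  toFun g := AlgEquiv.ofAlgHom (bcHom S g) (bcHom S g⁻¹)
    (by rw [← bcHom_mul, mul_inv_cancel, bcHom_one])
    (by rw [← bcHom_mul, inv_mul_cancel, bcHom_one])
  map_one' := by
    apply AlgEquiv.ext
    intro p
    change bcHom S 1 p = p
    rw [bcHom_one]; rfl
  map_mul' g h := by
    apply AlgEquiv.ext
    intro p
    change bcHom S (g * h) p = bcHom S g (bcHom S h p)
    rw [bcHom_mul]; rfl

theorem bc_map (g : Aut2 R) (p : MvPolynomial (Fin 2) R) :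
    bc S g (map (algebraMap R S) p) = map (algebraMap R S) (g p) := bcHom_map S g p

theorem bc_X (g : Aut2 R) (i : Fin 2) : bc S g (X i) = map (algebraMap R S) (g (X i)) :=
  aeval_X _ _

end BaseChange

section TheAutomorphisms
variable {R : Type*} [CommRing R]

/-- The polynomial `z x + y ^ n`. -/
noncomputable def fpol (z : R) (n : ℕ) : MvPolynomial (Fin 2) R := C z * X 0 + X 1 ^ n

/-- The endomorphism `exp (e f ^ 2 D)`, `D y = z`, `D x = - n y ^ (n - 1)`. -/
noncomputable def Fhom (z : R) (n : ℕ) (e : R) :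
    MvPolynomial (Fin 2) R →ₐ[R] MvPolynomial (Fin 2) R :=
  aeval ![X 0 - C e * fpol z n ^ 2 * ∑ i ∈ Finset.range n,
    (X 1 + C (z * e) * fpol z n ^ 2) ^ i * X 1 ^ (n - 1 - i), X 1 + C (z * e) * fpol z n ^ 2]

theorem Fhom_X1 (z : R) (n : ℕ) (e : R) :
    Fhom z n e (X 1) = X 1 + C (z * e) * fpol z n ^ 2 := by
  rw [Fhom, aeval_X]; rfl

theorem Fhom_X0 (z : R) (n : ℕ) (e : R) :
    Fhom z n e (X 0) = X 0 - C e * fpol z n ^ 2 * ∑ i ∈ Finset.range n,
    (X 1 + C (z * e) * fpol z n ^ 2) ^ i * X 1 ^ (n - 1 - i) := by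
  rw [Fhom, aeval_X]; rfl

theorem Fhom_f (z : R) (n : ℕ) (e : R) : Fhom z n e (fpol z n) = fpol z n := by
  have hC : Fhom z n e (C z) = C z := (Fhom z n e).commutes z
  have h := geom_sum₂_mul (X 1 + C (z * e) * fpol z n ^ 2 : MvPolynomial (Fin 2) R) (X 1) n
  rw [add_sub_cancel_left] at h
  conv_lhs => rw [fpol]
  rw [map_add, map_mul, map_pow, hC, Fhom_X0, Fhom_X1]
  have h2 : (X 1 + C (z * e) * fpol z n ^ 2 : MvPolynomial (Fin 2) R) ^ n = X 1 ^ n +
      (∑ i ∈ Finset.range n, (X 1 + C (z * e) * fpol z n ^ 2) ^ i * X 1 ^ (n - 1 - i)) *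
      (C (z * e) * fpol z n ^ 2) := by rw [h]; ring
  rw [h2, C_mul]
  conv_rhs => rw [fpol]
  ring

theorem Fhom_comp [IsDomain R] {z : R} (hz : z ≠ 0) (n : ℕ) (e : R) :
    (Fhom z n e).comp (Fhom z n (-e)) = AlgHom.id R _ := by
  have hC : Fhom z n e (C z) = C z := (Fhom z n e).commutes z
  have hC' : Fhom z n (-e) (C z) = C z := (Fhom z n (-e)).commutes z
  have h1 : Fhom z n e (Fhom z n (-e) (X 1)) = X 1 := by
    rw [Fhom_X1, map_add, map_mul, map_pow, Fhom_X1, Fhom_f]
    have : Fhom z n e (C (z * -e)) = C (z * -e) := (Fhom z n e).commutes _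
    rw [this, mul_neg, C_neg]; ring
  have h0 : Fhom z n e (Fhom z n (-e) (X 0)) = X 0 := by
    have h3 : Fhom z n e (Fhom z n (-e) (fpol z n)) = fpol z n := by rw [Fhom_f, Fhom_f]
    have h4 : Fhom z n e (Fhom z n (-e) (fpol z n)) =
        C z * Fhom z n e (Fhom z n (-e) (X 0)) + X 1 ^ n := by
      conv_lhs => rw [fpol]
      rw [map_add, map_mul, map_pow, hC', map_add, map_mul, map_pow, hC, h1]
    rw [h3] at h4
    have h5 : C z * X 0 = C z * Fhom z n e (Fhom z n (-e) (X 0)) := by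
      have := h4
      rw [fpol] at this
      exact add_right_cancel this
    exact (mul_left_cancel₀ (by simpa using hz) h5).symm
  ext1 i
  fin_cases i
  · exact h0
  · exact h1

/-- The automorphism `F = exp (f ^ 2 D)` of `R[x, y]`, `f = z x + y ^ n`, `D f = 0`, `D y = z`. -/
noncomputable def F [IsDomain R] {z : R} (hz : z ≠ 0) (n : ℕ) : Aut2 R :=
  AlgEquiv.ofAlgHom (Fhom z n 1) (Fhom z n (-1)) (Fhom_comp hz n 1)
    (by have := Fhom_comp hz n (-1); rwa [neg_neg] at this)

theorem F_X1 [IsDomain R] {z : R} (hz : z ≠ 0) (n : ℕ) :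
    F hz n (X 1) = X 1 + C z * fpol z n ^ 2 := by
  change Fhom z n 1 (X 1) = _
  rw [Fhom_X1, mul_one]

theorem F_f [IsDomain R] {z : R} (hz : z ≠ 0) (n : ℕ) :
    F hz n (fpol z n) = fpol z n := Fhom_f z n 1

end TheAutomorphisms

section Elementary
variable {K : Type*} [Field K]

/-- The swap of `x` and `y`. -/
noncomputable def swap : Aut2 K :=
  AlgEquiv.ofAlgHom (aeval ![X 1, X 0]) (aeval ![X 1, X 0])
    (by ext1 i; fin_cases i <;> simp) (by ext1 i; fin_cases i <;> simp)

theorem swap_X0 : (swap : Aut2 K) (X 0) = X 1 := by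
  change aeval ![X 1, X 0] (X 0) = _
  rw [aeval_X]; rfl

theorem swap_X1 : (swap : Aut2 K) (X 1) = X 0 := by
  change aeval ![X 1, X 0] (X 1) = _
  rw [aeval_X]; rfl

theorem swap_mem : (swap : Aut2 K) ∈ affG K :=
  mem_affG_of _ (by rw [swap_X0]; simp) (by rw [swap_X1]; simp)

/-- The elementary automorphism `x ↦ x + q (y)`. -/
noncomputable def elem (q : Polynomial K) : Aut2 K :=
  AlgEquiv.ofAlgHom (aeval ![X 0 + Polynomial.aeval (X 1) q, X 1])
    (aeval ![X 0 - Polynomial.aeval (X 1) q, X 1])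
    (by
      ext1 i; fin_cases i
      · simp [← Polynomial.aeval_algHom_apply]
      · simp)
    (by
      ext1 i; fin_cases i
      · simp [← Polynomial.aeval_algHom_apply]
      · simp)

theorem elem_X0 (q : Polynomial K) : elem q (X 0) = X 0 + Polynomial.aeval (X 1) q := by
  change aeval ![X 0 + Polynomial.aeval (X 1) q, X 1] (X 0) = _
  rw [aeval_X]; rfl

theorem elem_X1 (q : Polynomial K) : elem q (X 1) = X 1 := by
  change aeval ![X 0 + Polynomial.aeval (X 1) q, X 1] (X 1) = _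
  rw [aeval_X]; rfl

theorem elem_mem (q : Polynomial K) : elem q ∈ triG K :=
  ⟨1, 1, 0, Polynomial.aeval (X 1) q, (mem_supp_iff _).2 ⟨q, rfl⟩, one_ne_zero, one_ne_zero,
    by rw [elem_X0]; simp, by rw [elem_X1]; simp⟩

/-- `ψ x = y`, `ψ y = x + c y ^ n`. -/
noncomputable def psi (c : K) (n : ℕ) : Aut2 K :=
  elem (Polynomial.C c * Polynomial.X ^ n) * swap

theorem psi_X0 (c : K) (n : ℕ) : psi c n (X 0) = X 1 := by
  rw [psi, mul_ap, swap_X0, elem_X1]

theorem psi_X1 (c : K) (n : ℕ) : psi c n (X 1) = X 0 + C c * X 1 ^ n := by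
  rw [psi, mul_ap, swap_X1, elem_X0, map_mul, Polynomial.aeval_C, map_pow, Polynomial.aeval_X]
  rfl

/-- The base vertex. -/
noncomputable abbrev o (K : Type*) [Field K] : Vtx (affG K) (triG K) :=
  Sum.inl ((1 : Aut2 K) : Aut2 K ⧸ affG K)

/-- The vertex `g B`. -/
noncomputable abbrev vB (g : Aut2 K) : Vtx (affG K) (triG K) :=
  Sum.inr (g : Aut2 K ⧸ triG K)

theorem reach {g : Aut2 K} (hg : g ∈ affG K ⊔ triG K) :
    (T (affG K) (triG K)).Reachable (o K) (Sum.inl (g : Aut2 K ⧸ affG K)) := by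
  rw [Subgroup.sup_eq_closure] at hg
  induction hg using Subgroup.closure_induction with
  | mem s hs =>
    rcases hs with hs | hs
    · have : ((s : Aut2 K) : Aut2 K ⧸ affG K) = ((1 : Aut2 K) : Aut2 K ⧸ affG K) := by
        have := coset_mul (1 : Aut2 K) hs
        rwa [one_mul] at this
      rw [this]
    · have h1 : (T (affG K) (triG K)).Adj (o K) (vB 1) := ⟨1, Or.inl ⟨rfl, rfl⟩⟩
      have h2 : (T (affG K) (triG K)).Adj (vB s) (Sum.inl (s : Aut2 K ⧸ affG K)) :=
        ⟨s, Or.inr ⟨rfl, rfl⟩⟩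
      have h3 : vB s = vB (1 : Aut2 K) := by
        have := coset_mul (1 : Aut2 K) hs
        rw [one_mul] at this
        exact congrArg Sum.inr this
      rw [h3] at h2
      exact h1.reachable.trans h2.reachable
  | one => exact SimpleGraph.Reachable.refl _
  | mul a b _ _ ha hb =>
    exact ha.trans (by have := hb.map (actHom a); simpa [o, actHom, mul_one] using this)
  | inv a _ ha =>
    have := ha.map (actHom a⁻¹)
    have h2 : (T (affG K) (triG K)).Reachable (Sum.inl ((a⁻¹ : Aut2 K) : Aut2 K ⧸ affG K))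
        (o K) := by simpa [o, actHom, mul_one] using this
    exact h2.symm

theorem reach_vB {g : Aut2 K} (hg : g ∈ affG K ⊔ triG K) :
    (T (affG K) (triG K)).Reachable (o K) (vB g) :=
  (reach hg).trans (SimpleGraph.Adj.reachable ⟨g, Or.inl ⟨rfl, rfl⟩⟩)

theorem psi_mem (c : K) (n : ℕ) : psi c n ∈ affG K ⊔ triG K :=
  Subgroup.mul_mem _ ((le_sup_right : triG K ≤ _) (elem_mem _))
    ((le_sup_left : affG K ≤ _) swap_mem)

end Elementary

section Fixed
variable {R : Type*} [CommRing R] [IsDomain R] {K : Type*} [Field K] [Algebra R K]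

/-- The vertex `w n`. -/
noncomputable abbrev wv (K : Type*) [Field K] [Algebra R K] (z : R) (n : ℕ) :
    Vtx (affG K) (triG K) := vB (psi (algebraMap R K z)⁻¹ n)

omit [IsDomain R] in
theorem map_fpol (S : Type*) [CommRing S] [Algebra R S] (z : R) (n : ℕ) :
    map (algebraMap R S) (fpol z n) = C (algebraMap R S z) * X 0 + X 1 ^ n := by
  rw [fpol, map_add, map_mul, map_C, map_X, map_pow, map_X]

omit [IsDomain R] in
theorem psi_f (hinj : Function.Injective (algebraMap R K)) {z : R} (hz : z ≠ 0) (n : ℕ) :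
    C (algebraMap R K z)⁻¹ * map (algebraMap R K) (fpol z n) =
      psi (algebraMap R K z)⁻¹ n (X 1) := by
  have hz' : algebraMap R K z ≠ 0 := fun h => hz (hinj (by rw [h, map_zero]))
  rw [psi_X1, map_fpol, mul_add, ← mul_assoc, ← C_mul, inv_mul_cancel₀ hz', C_1, one_mul]

/-- The conjugate of `F` is triangular. -/
theorem conj_F (hinj : Function.Injective (algebraMap R K)) {z : R} (hz : z ≠ 0) (n : ℕ) :
    ((psi (algebraMap R K z)⁻¹ n)⁻¹ * bc K (F hz n) * psi (algebraMap R K z)⁻¹ n) (X 1) = X 1 ∧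
    ((psi (algebraMap R K z)⁻¹ n)⁻¹ * bc K (F hz n) * psi (algebraMap R K z)⁻¹ n) (X 0) =
      X 0 + C (algebraMap R K z ^ 3) * X 1 ^ 2 := by
  have hz' : algebraMap R K z ≠ 0 := fun h => hz (hinj (by rw [h, map_zero]))
  set ψ := psi (algebraMap R K z)⁻¹ n with hψ
  have h1 : C (algebraMap R K z)⁻¹ * map (algebraMap R K) (fpol z n) = ψ (X 1) :=
    psi_f hinj hz n
  have h2 : bc K (F hz n) (ψ (X 1)) = ψ (X 1) := by
    rw [← h1, map_mul, ap_C, bc_map, F_f]
  have h3 : map (algebraMap R K) (fpol z n) = C (algebraMap R K z) * ψ (X 1) := by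
    rw [← h1, ← mul_assoc, ← C_mul, mul_inv_cancel₀ hz', C_1, one_mul]
  constructor
  · rw [mul_ap, mul_ap, h2, inv_ap]
  · rw [mul_ap, mul_ap]
    have h4 : ψ (X 0) = X 1 := psi_X0 _ _
    rw [h4, bc_X, F_X1, map_add, map_mul, map_pow, map_X, map_C, h3]
    apply ψ.injective
    change ψ (ψ⁻¹ _) = _
    rw [ap_inv, map_add, map_mul, map_pow ψ, h4, ap_C, C_pow]
    ring

theorem F_fix (hinj : Function.Injective (algebraMap R K)) {z : R} (hz : z ≠ 0) (n : ℕ) :
    act (bc K (F hz n)) (wv K z n) = wv K z n := by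
  set ψ := psi (algebraMap R K z)⁻¹ n with hψ
  obtain ⟨h1, h0⟩ := conj_F (K := K) hinj hz n
  rw [← hψ] at h1 h0
  have hm : ψ⁻¹ * bc K (F hz n) * ψ ∈ triG K :=
    ⟨1, 1, 0, C (algebraMap R K z ^ 3) * X 1 ^ 2,
      Subalgebra.mul_mem _ (C_supp _) (Subalgebra.pow_mem _ X1_supp _), one_ne_zero,
      one_ne_zero, by rw [h0]; simp, by rw [h1]; simp⟩
  have := coset_mul ψ hm
  rw [mul_assoc, mul_inv_cancel_left] at this
  change Sum.inr _ = Sum.inr _
  exact congrArg Sum.inr this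

theorem F_move (hinj : Function.Injective (algebraMap R K)) {z : R} (hz : z ≠ 0) (n : ℕ)
    (q : Vtx (affG K) (triG K)) (hq : (T (affG K) (triG K)).Adj (wv K z n) q) :
    act (bc K (F hz n)) q ≠ q := by
  have hz' : algebraMap R K z ≠ 0 := fun h => hz (hinj (by rw [h, map_zero]))
  set ψ := psi (algebraMap R K z)⁻¹ n with hψ
  obtain ⟨h1, h0⟩ := conj_F (K := K) hinj hz n
  rw [← hψ] at h1 h0
  obtain ⟨b, hb, rfl⟩ := adj_inr.1 hq
  intro h
  have h2 := QuotientGroup.eq.1 (Sum.inl.inj h)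
  obtain ⟨ε, hε⟩ : ∃ ε, ψ⁻¹ * bc K (F hz n) * ψ = ε := ⟨_, rfl⟩
  rw [hε] at h1 h0
  have hε2 : bc K (F hz n) = ψ * ε * ψ⁻¹ := by rw [← hε]; group
  have h3 : b⁻¹ * ε⁻¹ * b ∈ affG K := by
    have e : (bc K (F hz n) * (ψ * b))⁻¹ * (ψ * b) = b⁻¹ * ε⁻¹ * b := by
      rw [hε2]; group
    have h2' : (bc K (F hz n) * (ψ * b))⁻¹ * (ψ * b) ∈ affG K := h2
    rwa [e] at h2'
  have h4 : b⁻¹ * ε * b ∈ affG K := by
    have := (affG K).inv_mem h3
    have e : (b⁻¹ * ε⁻¹ * b)⁻¹ = b⁻¹ * ε * b := by group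
    rwa [e] at this
  obtain ⟨u, v, c, p, hp, hu, hv, e0, e1⟩ := hb
  have h5 : ((b⁻¹ * ε * b) (X 0)).totalDegree ≤ 1 := (h4 _).1 (by simp)
  have hεp : ε p = p := by
    obtain ⟨q, rfl⟩ := (mem_supp_iff p).1 hp
    rw [ap_aeval, h1]
  have h6 : ε (b (X 0)) = b (X 0 + C (u * algebraMap R K z ^ 3) *
      (C v⁻¹ * (X 1 + C (-c))) ^ 2) := by
    rw [map_add b, map_mul b, map_pow b, map_mul b, map_add b, ap_C, ap_C, ap_C, e0, e1,
      map_add, map_mul, ap_C, h0, hεp]
    have : C v⁻¹ * (C v * X 1 + C c + C (-c)) = (X 1 : MvPolynomial (Fin 2) K) := by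
      rw [add_assoc, ← C_add, add_neg_cancel, C_0, add_zero, ← mul_assoc, ← C_mul,
        inv_mul_cancel₀ hv, C_1, one_mul]
    rw [this, C_mul]; ring
  have h7 : (b⁻¹ * ε * b) (X 0) = X 0 + C (u * algebraMap R K z ^ 3) *
      (C v⁻¹ * (X 1 + C (-c))) ^ 2 := by
    rw [mul_ap, mul_ap, h6, inv_ap]
  have h8 : (C (u * algebraMap R K z ^ 3) * (C v⁻¹ * (X 1 + C (-c))) ^ 2 :
      MvPolynomial (Fin 2) K).totalDegree = 2 := by
    have h9 : (X 1 + C (-c) : MvPolynomial (Fin 2) K).totalDegree = 1 := by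
      rw [totalDegree_add_C _ _ (by simp)]; simp
    rw [totalDegree_C_mul (mul_ne_zero hu (pow_ne_zero _ hz')), totalDegree_pow_eq,
      totalDegree_C_mul (inv_ne_zero hv), h9]
    refine mul_ne_zero (by simpa using hv) ?_
    rintro h; rw [h] at h9; simp at h9
  rw [h7, totalDegree_add_eq_right_of_totalDegree_lt (by rw [h8]; simp), h8] at h5
  omega

end Fixed

section Degrees
variable {R : Type*} [CommRing R] [IsDomain R] {K : Type*} [Field K] [Algebra R K]

omit [IsDomain R] in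
theorem totalDegree_map_inj (hinj : Function.Injective (algebraMap R K))
    (p : MvPolynomial (Fin 2) R) :
    (map (algebraMap R K) p).totalDegree = p.totalDegree := by
  rw [totalDegree, totalDegree, support_map_of_injective _ hinj]

omit [IsDomain R] in
/-- The vertices in the orbit of `w n` have size at least `n`. -/
theorem size_orbit (hinj : Function.Injective (algebraMap R K)) {z : R} (hz : z ≠ 0)
    (hu : ¬ IsUnit z) (n : ℕ) (γ : Aut2 R) (k : Aut2 K)
    (h : act (bc K γ) (vB k) = wv K z n) : n ≤ (k (X 1)).totalDegree := by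
  have hz' : algebraMap R K z ≠ 0 := fun h => hz (hinj (by rw [h, map_zero]))
  have h1 := QuotientGroup.eq.1 (Sum.inr.inj h)
  have h1' : (bc K γ * k)⁻¹ * psi (algebraMap R K z)⁻¹ n ∈ triG K := h1
  obtain ⟨u, v, c, p, hp, hu', hv, e0, e1⟩ := h1'
  have e2 : psi (algebraMap R K z)⁻¹ n (X 1) = bc K γ (C v * k (X 1) + C c) := by
    obtain ⟨g, hg⟩ : ∃ g, bc K γ * k = g := ⟨_, rfl⟩
    rw [hg] at e1
    have := congrArg g e1
    rw [mul_ap, ap_inv, map_add, map_mul, ap_C, ap_C, ← hg, mul_ap] at this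
    rw [this, map_add, map_mul, ap_C, ap_C]
  have e3 : C (algebraMap R K z)⁻¹ * map (algebraMap R K) (γ⁻¹ (fpol z n)) =
      C v * k (X 1) + C c := by
    rw [← psi_f hinj hz] at e2
    have := congrArg ((bc K γ)⁻¹ : Aut2 K) e2
    rw [inv_ap, map_mul, ap_C] at this
    have hi : (bc K γ)⁻¹ = bc K γ⁻¹ := (map_inv (bc K) γ).symm
    rw [hi, bc_map] at this
    exact this
  have e4 : (γ⁻¹ (fpol z n)).totalDegree = (k (X 1)).totalDegree := by
    have := congrArg totalDegree e3
    rw [totalDegree_C_mul (inv_ne_zero hz'), totalDegree_map_inj hinj,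
      totalDegree_add_C _ _ (by rw [totalDegree_C_mul hv]; exact one_le_deg k 1),
      totalDegree_C_mul hv] at this
    exact this
  obtain ⟨M, hM, hzM⟩ := exists_max_ideal_of_mem_nonunits (show z ∈ nonunits R from hu)
  let _ : Field (R ⧸ M) := Ideal.Quotient.field M
  have hz0 : algebraMap R (R ⧸ M) z = 0 := Ideal.Quotient.eq_zero_iff_mem.2 hzM
  have e5 : map (algebraMap R (R ⧸ M)) (γ⁻¹ (fpol z n)) = (bc (R ⧸ M) γ⁻¹ (X 1)) ^ n := by
    rw [← bc_map, map_fpol, hz0, C_0, zero_mul, zero_add, map_pow]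
  have hX : (bc (R ⧸ M) γ⁻¹ (X 1)) ≠ 0 := by
    intro h0
    have := one_le_deg (bc (R ⧸ M) γ⁻¹) 1
    rw [h0] at this
    simp at this
  have e6 : (map (algebraMap R (R ⧸ M)) (γ⁻¹ (fpol z n))).totalDegree ≤
      (γ⁻¹ (fpol z n)).totalDegree := Finset.sup_mono (support_map_subset _ _)
  rw [e5, totalDegree_pow_eq _ hX, e4] at e6
  exact (Nat.le_mul_of_pos_right n (one_le_deg (bc (R ⧸ M) γ⁻¹) 1)).trans e6

/-- The size functions. -/
noncomputable def dA (g : Aut2 K) : ℕ := max (g (X 0)).totalDegree (g (X 1)).totalDegree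

/-- The size functions. -/
noncomputable def dB (g : Aut2 K) : ℕ := (g (X 1)).totalDegree

theorem growD : GrowD (affG K) (triG K) PA PB dA dB where
  toGrow := grow
  startD := fun a _ => by
    change max (X 0 : MvPolynomial (Fin 2) K).totalDegree (X 1).totalDegree ≤ _
    have := one_le_deg a 1
    simpa [dB] using this
  stepAD := fun g hg a ha haB => by
    have h := (grow.stepA g hg a ha haB)
    obtain ⟨c, u, v, e0⟩ := linear_form _ ((ha (X 0)).1 (by simp))
    have hX : g (X 0) = (g * a) (a⁻¹ (X 0)) := by rw [mul_ap, ap_inv]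
    obtain ⟨c', u', v', e1⟩ := linear_form (a⁻¹ (X 0)) (((affG K).inv_mem ha _).1 (by simp))
    have h2 : (g (X 0)).totalDegree ≤ ((g * a) (X 1)).totalDegree := by
      rw [hX, e1, map_add, map_add, map_mul, map_mul, ap_C, ap_C, ap_C]
      refine (totalDegree_add _ _).trans (max_le ((totalDegree_add _ _).trans
        (max_le ?_ ?_)) ?_)
      · simp
      · exact ((totalDegree_mul _ _).trans (by rw [totalDegree_C, zero_add])).trans h.1
      · exact (totalDegree_mul _ _).trans (by rw [totalDegree_C, zero_add])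
    exact max_le h2 (hg.1.le.trans h2)
  stepBD := fun g hg b hb hbA => by
    have h := (grow.stepB g hg b hb hbA)
    obtain ⟨u, v, c, p, hp, hu, hv, e0, e1⟩ := hb
    refine le_trans (le_of_eq ?_) (le_max_right _ _)
    rw [dB, mul_ap, e1, map_add, map_mul, ap_C, ap_C, totalDegree_add_C _ _
        (by rw [totalDegree_C_mul hv]; exact hg.2), totalDegree_C_mul hv]

theorem dA_mul (g : Aut2 K) (a : Aut2 K) (ha : a ∈ affG K) : dA (g * a) ≤ dA g := by
  have key : ∀ i, ((g * a) (X i)).totalDegree ≤ dA g := by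
    intro i
    obtain ⟨c, u, v, e⟩ := linear_form (a (X i)) ((ha _).1 (by simp))
    rw [mul_ap, e, map_add, map_add, map_mul, map_mul, ap_C, ap_C, ap_C]
    refine (totalDegree_add _ _).trans (max_le ((totalDegree_add _ _).trans
        (max_le ?_ ?_)) ?_)
    · simp
    · exact ((totalDegree_mul _ _).trans (by rw [totalDegree_C, zero_add])).trans
        (le_max_left _ _)
    · exact ((totalDegree_mul _ _).trans (by rw [totalDegree_C, zero_add])).trans
        (le_max_right _ _)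
  exact max_le (key 0) (key 1)

end Degrees

section Main
variable {R : Type*} [CommRing R] [IsDomain R] {K : Type*} [Field K] [Algebra R K]

/-- **Main theorem, general form.** Let `H` be generated by automorphisms over `R` which over `K`
are affine, or triangular, or tame of degree at most `D`. Then `F z n` is not in `H` for
`n > D`. -/
theorem F_notMem (hinj : Function.Injective (algebraMap R K)) {z : R} (hz : z ≠ 0)
    (hu : ¬ IsUnit z) (D : ℕ) (hD : 1 ≤ D) (s : Set (Aut2 R))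
    (hs : ∀ g ∈ s, bc K g ∈ affG K ∨ bc K g ∈ triG K ∨
      (bc K g ∈ affG K ⊔ triG K ∧ dA (bc K g) ≤ D)) (n : ℕ) (hn : D < n) :
    F hz n ∉ Subgroup.closure s := by
  intro hF
  let X0 : Set (Vtx (affG K) (triG K)) := {x | Sm dA dB D x}
  let S : Set (Vtx (affG K) (triG K)) := {x | Conn X0 (o K) x}
  have ho0 : o K ∈ X0 := ⟨1, Or.inl ⟨rfl, by
    change max (X 0 : MvPolynomial (Fin 2) K).totalDegree (X 1).totalDegree ≤ _
    simpa using hD⟩⟩
  have hoS : o K ∈ S := Conn.refl ho0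
  have hS : ∀ σ ∈ S, Conn S (o K) σ := by
    classical
    rintro σ ⟨p, hp⟩
    refine ⟨p, fun x hx => ⟨p.takeUntil x hx, fun y hy => hp y ?_⟩⟩
    exact p.support_takeUntil_subset_support hx hy
  have hv1 : vB (1 : Aut2 K) ∈ S := by
    have h1 : (T (affG K) (triG K)).Adj (o K) (vB 1) := ⟨1, Or.inl ⟨rfl, rfl⟩⟩
    refine ⟨SimpleGraph.Walk.cons h1 SimpleGraph.Walk.nil, fun x hx => ?_⟩
    simp only [SimpleGraph.Walk.support_cons, SimpleGraph.Walk.support_nil, List.mem_cons,
      List.not_mem_nil, or_false] at hx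
    rcases hx with rfl | rfl
    · exact ho0
    · refine ⟨1, Or.inr ⟨rfl, ?_⟩⟩
      change (X 1 : MvPolynomial (Fin 2) K).totalDegree ≤ _
      simpa using hD
  let G : Subgroup (Aut2 K) := (Subgroup.closure s).map (bc K)
  have hgen : G ≤ Subgroup.closure {t | t ∈ G ∧
      ((∃ v ∈ S, act t v = v) ∨ act t (Sum.inl ((1 : Aut2 K) : Aut2 K ⧸ affG K)) ∈ S)} := by
    change (Subgroup.closure s).map (bc K) ≤ _
    rw [MonoidHom.map_closure, Subgroup.closure_le]
    rintro _ ⟨g, hg, rfl⟩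
    refine Subgroup.subset_closure ⟨⟨g, Subgroup.subset_closure hg, rfl⟩, ?_⟩
    rcases hs g hg with h | h | ⟨h, h'⟩
    · refine Or.inl ⟨o K, hoS, ?_⟩
      have := coset_mul (1 : Aut2 K) h
      rw [one_mul] at this
      change Sum.inl ((bc K g * 1 : Aut2 K) : Aut2 K ⧸ affG K) = _
      rw [mul_one, this]
    · refine Or.inl ⟨vB 1, hv1, ?_⟩
      have := coset_mul (1 : Aut2 K) h
      rw [one_mul] at this
      change Sum.inr ((bc K g * 1 : Aut2 K) : Aut2 K ⧸ triG K) = _
      rw [mul_one, this]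
    · refine Or.inr ?_
      have := growD.conn (fun g a ha => dA_mul g a ha) h' (reach h)
      change Conn X0 (o K) (Sum.inl ((bc K g * 1 : Aut2 K) : Aut2 K ⧸ affG K))
      rw [mul_one]
      exact this
  obtain ⟨σ, hσ, g, hg, hw⟩ := mem_orbit acyclic G S hoS hS hgen (bc K (F hz n))
    ⟨F hz n, hF, rfl⟩ (wv K z n) (F_fix hinj hz n) (F_move hinj hz n)
    (reach_vB (psi_mem _ _)).symm
  obtain ⟨γ, -, rfl⟩ := hg
  have hσ0 : σ ∈ X0 := by
    obtain ⟨p, hp⟩ := hσ
    exact hp σ p.end_mem_support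
  obtain ⟨k, ⟨rfl, -⟩ | ⟨rfl, hk⟩⟩ := hσ0
  · exact absurd hw (by simp [act])
  · have := size_orbit hinj hz hu n γ k hw.symm
    have h2 : (k (X 1)).totalDegree ≤ D := hk
    omega

end Main

end Pool.Agent.GAR
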