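import Mathlib
import Pool.Agent.GAR.Orbits

set_option autoImplicit false

/-! Affine and triangular automorphisms of `R[x, y]` over a commutative ring. -/

namespace Pool.Agent.GAR

open MvPolynomial

section ArtDefs

/-- The affine automorphisms. -/
def affR (R : Type*) [CommRing R] : Set (Aut2 R) := {φ | ∀ i, (φ (X i)).totalDegree ≤ 1}

/-- The triangular automorphisms. -/
def triR (R : Type*) [CommRing R] : Set (Aut2 R) :=
  {φ | ∀ i, ∃ c : R, IsUnit c ∧ ∃ p ∈ supported R {j : Fin 2 | i < j}, φ (X i) = C c * X i + p}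

/-- The tame subgroup. -/
noncomputable def TAR (R : Type*) [CommRing R] : Subgroup (Aut2 R) := Subgroup.closure (affR R ∪ triR R)

/-- An algebraic one-parameter subgroup, parameters in `R`. -/
def IsOne {R : Type*} [CommRing R] (g : Multiplicative R →* Aut2 R) : Prop :=
  ∃ P : Fin 2 → Polynomial (MvPolynomial (Fin 2) R),
    ∀ (t : R) (i : Fin 2), g (Multiplicative.ofAdd t) (X i) = (P i).eval (C t)

end ArtDefs

end Pool.Agent.GAR
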