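import Mathlib
import Pool.Agent.GAR.ArtDefs

set_option autoImplicit false

/-! The one-parameter subgroup `t ↦ (x ↦ x / (1 - t ν x), y ↦ y)` for a nilpotent `ν`. -/

namespace Pool.Agent.GAR

open MvPolynomial

section Exp
variable {R : Type*} [CommRing R]

/-- The inverse of `1 - t ν x`. -/
noncomputable def Sg (ν : R) (M : ℕ) (t : R) : MvPolynomial (Fin 2) R :=
  ∑ i ∈ Finset.range M, (C t * (C ν * X 0)) ^ i

theorem Sg_mul {ν : R} {M : ℕ} (hν : ν ^ M = 0) (t : R) :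
    (1 - C t * (C ν * X 0)) * Sg ν M t = 1 := by
  rw [Sg, mul_neg_geom_sum]
  have : (C t * (C ν * X 0) : MvPolynomial (Fin 2) R) ^ M =
      C (ν ^ M) * (C t ^ M * X 0 ^ M) := by
    rw [mul_pow, mul_pow, C_pow]; ring
  rw [this, hν, C_0, zero_mul, sub_zero]

/-- The endomorphism `x ↦ x / (1 - t ν x)`. -/
noncomputable def Uend (ν : R) (M : ℕ) (t : R) :
    MvPolynomial (Fin 2) R →ₐ[R] MvPolynomial (Fin 2) R :=
  aeval ![X 0 * Sg ν M t, X 1]

theorem Uend_X0 (ν : R) (M : ℕ) (t : R) : Uend ν M t (X 0) = X 0 * Sg ν M t := by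
  rw [Uend, aeval_X]; rfl

theorem Uend_X1 (ν : R) (M : ℕ) (t : R) : Uend ν M t (X 1) = X 1 := by
  rw [Uend, aeval_X]; rfl

theorem Uend_C (ν : R) (M : ℕ) (t c : R) : Uend ν M t (C c) = C c := (Uend ν M t).commutes c

theorem Uend_Sg {ν : R} {M : ℕ} (hν : ν ^ M = 0) (s t : R) :
    Sg ν M s * Uend ν M s (Sg ν M t) = Sg ν M (s + t) := by
  have h1 := Sg_mul hν s
  have h2 := congrArg (Uend ν M s) (Sg_mul hν t)
  rw [map_mul, map_one, map_sub, map_one, map_mul, map_mul, Uend_C, Uend_C, Uend_X0] at h2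
  have h3 := Sg_mul hν (s + t)
  have h4 : (1 - C (s + t) * (C ν * X 0)) * (Sg ν M s * Uend ν M s (Sg ν M t)) = 1 := by
    have e : (1 - C (s + t) * (C ν * X 0) : MvPolynomial (Fin 2) R) =
        (1 - C s * (C ν * X 0)) - C t * (C ν * X 0) := by
      rw [C_add]; ring
    have e2 : (1 - C (s + t) * (C ν * X 0)) * Sg ν M s =
        1 - C t * (C ν * (X 0 * Sg ν M s)) := by
      rw [e, sub_mul, h1]; ring
    rw [← mul_assoc, e2, h2]
  calc Sg ν M s * Uend ν M s (Sg ν M t)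
      = ((1 - C (s + t) * (C ν * X 0)) * Sg ν M (s + t)) *
        (Sg ν M s * Uend ν M s (Sg ν M t)) := by rw [h3, one_mul]
    _ = Sg ν M (s + t) * ((1 - C (s + t) * (C ν * X 0)) *
        (Sg ν M s * Uend ν M s (Sg ν M t))) := by ring
    _ = Sg ν M (s + t) := by rw [h4, mul_one]

theorem Uend_comp {ν : R} {M : ℕ} (hν : ν ^ M = 0) (s t : R) :
    (Uend ν M s).comp (Uend ν M t) = Uend ν M (s + t) := by
  ext1 i
  fin_cases i
  · change Uend ν M s (Uend ν M t (X 0)) = Uend ν M (s + t) (X 0)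
    rw [Uend_X0, Uend_X0, map_mul, Uend_X0, mul_assoc, Uend_Sg hν]
  · change Uend ν M s (Uend ν M t (X 1)) = Uend ν M (s + t) (X 1)
    rw [Uend_X1, Uend_X1, Uend_X1]

theorem Uend_zero {ν : R} {M : ℕ} (hν : ν ^ M = 0) :
    Uend ν M 0 = AlgHom.id R _ := by
  have h := Sg_mul hν 0
  rw [C_0, zero_mul, sub_zero, one_mul] at h
  ext1 i
  fin_cases i
  · change Uend ν M 0 (X 0) = X 0
    rw [Uend_X0, h, mul_one]
  · change Uend ν M 0 (X 1) = X 1
    rw [Uend_X1]

/-- The one-parameter subgroup. -/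
noncomputable def U {ν : R} {M : ℕ} (hν : ν ^ M = 0) : Multiplicative R →* Aut2 R where
  toFun t := AlgEquiv.ofAlgHom (Uend ν M t.toAdd) (Uend ν M (-t.toAdd))
    (by rw [Uend_comp hν, add_neg_cancel, Uend_zero hν])
    (by rw [Uend_comp hν, neg_add_cancel, Uend_zero hν])
  map_one' := by
    apply AlgEquiv.ext
    intro p
    change Uend ν M 0 p = p
    rw [Uend_zero hν]; rfl
  map_mul' s t := by
    apply AlgEquiv.ext
    intro p
    change Uend ν M (s.toAdd + t.toAdd) p = Uend ν M s.toAdd (Uend ν M t.toAdd p)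
    rw [← Uend_comp hν]; rfl

theorem U_X0 {ν : R} {M : ℕ} (hν : ν ^ M = 0) (t : R) :
    U hν (Multiplicative.ofAdd t) (X 0) = X 0 * Sg ν M t := Uend_X0 ν M t

theorem U_X1 {ν : R} {M : ℕ} (hν : ν ^ M = 0) (t : R) :
    U hν (Multiplicative.ofAdd t) (X 1) = X 1 := Uend_X1 ν M t

theorem isOne_U {ν : R} {M : ℕ} (hν : ν ^ M = 0) : IsOne (U hν) := by
  refine ⟨![∑ i ∈ Finset.range M, Polynomial.C (X 0 * (C ν * X 0) ^ i) * Polynomial.X ^ i,
    Polynomial.C (X 1)], fun t i => ?_⟩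
  fin_cases i
  · change U hν (Multiplicative.ofAdd t) (X 0) = (∑ i ∈ Finset.range M,
      Polynomial.C (X 0 * (C ν * X 0) ^ i : MvPolynomial (Fin 2) R) *
        Polynomial.X ^ i).eval (C t)
    rw [U_X0, Sg, Polynomial.eval_finsetSum, Finset.mul_sum]
    refine Finset.sum_congr rfl fun j _ => ?_
    rw [Polynomial.eval_mul, Polynomial.eval_C, Polynomial.eval_pow, Polynomial.eval_X, mul_pow]
    ring
  · change U hν (Multiplicative.ofAdd t) (X 1) = (Polynomial.C (X 1)).eval (C t)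
    rw [U_X1, Polynomial.eval_C]

/-- The second order expansion. -/
theorem U_second {ν : R} {M : ℕ} (hν : ν ^ M = 0) (t : R) :
    U hν (Multiplicative.ofAdd t) (X 0) - X 0 - C (t * ν) * X 0 ^ 2 =
      C (ν * ν) * (C t ^ 2 * X 0 ^ 3 * Sg ν M t) := by
  have h := Sg_mul hν t
  have h1 : Sg ν M t = 1 + C t * (C ν * X 0) * Sg ν M t := by
    linear_combination h
  rw [U_X0, C_mul, C_mul]
  linear_combination (X 0 + C t * C ν * X 0 ^ 2) * h1

end Exp

end Pool.Agent.GAR
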