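import Mathlib
import Pool.Agent.GAR.ArtDefs

set_option autoImplicit false

/-! The one-parameter subgroup `t ↦ (x ↦ x / (1 - t ρ(y) x), y ↦ y)` for a nilpotent `ρ(y)`. -/

namespace Pool.Agent.GAR

open MvPolynomial

section Exp2
variable {R : Type*} [CommRing R]

/-- The inverse of `1 - t ρ(y) x`. -/
noncomputable def Sr (r : Polynomial R) (M : ℕ) (t : R) : MvPolynomial (Fin 2) R :=
  ∑ i ∈ Finset.range M, (C t * (Polynomial.aeval (X 1) r * X 0)) ^ i

theorem Sr_mul {r : Polynomial R} {M : ℕ} (hr : r ^ M = 0) (t : R) :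
    (1 - C t * (Polynomial.aeval (X 1) r * X 0)) * Sr r M t = 1 := by
  rw [Sr, mul_neg_geom_sum]
  have : (C t * (Polynomial.aeval (X 1) r * X 0) : MvPolynomial (Fin 2) R) ^ M =
      Polynomial.aeval (X 1) (r ^ M) * (C t ^ M * X 0 ^ M) := by
    rw [mul_pow, mul_pow, map_pow]; ring
  rw [this, hr, map_zero, zero_mul, sub_zero]

/-- The endomorphism `x ↦ x / (1 - t ρ(y) x)`. -/
noncomputable def Vend (r : Polynomial R) (M : ℕ) (t : R) :
    MvPolynomial (Fin 2) R →ₐ[R] MvPolynomial (Fin 2) R :=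
  aeval ![X 0 * Sr r M t, X 1]

theorem Vend_X0 (r : Polynomial R) (M : ℕ) (t : R) : Vend r M t (X 0) = X 0 * Sr r M t := by
  rw [Vend, aeval_X]; rfl

theorem Vend_X1 (r : Polynomial R) (M : ℕ) (t : R) : Vend r M t (X 1) = X 1 := by
  rw [Vend, aeval_X]; rfl

theorem Vend_C (r : Polynomial R) (M : ℕ) (t c : R) : Vend r M t (C c) = C c :=
  (Vend r M t).commutes c

theorem Vend_r (r : Polynomial R) (M : ℕ) (t : R) (q : Polynomial R) :
    Vend r M t (Polynomial.aeval (X 1) q) = Polynomial.aeval (X 1) q := by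
  rw [← Polynomial.aeval_algHom_apply, Vend_X1]

theorem Vend_Sr {r : Polynomial R} {M : ℕ} (hr : r ^ M = 0) (s t : R) :
    Sr r M s * Vend r M s (Sr r M t) = Sr r M (s + t) := by
  have h1 := Sr_mul hr s
  have h2 := congrArg (Vend r M s) (Sr_mul hr t)
  rw [map_mul, map_one, map_sub, map_one, map_mul, map_mul, Vend_C, Vend_r, Vend_X0] at h2
  have h3 := Sr_mul hr (s + t)
  set ρ : MvPolynomial (Fin 2) R := Polynomial.aeval (X 1) r with hρ
  have h4 : (1 - C (s + t) * (ρ * X 0)) * (Sr r M s * Vend r M s (Sr r M t)) = 1 := by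
    have e : (1 - C (s + t) * (ρ * X 0) : MvPolynomial (Fin 2) R) =
        (1 - C s * (ρ * X 0)) - C t * (ρ * X 0) := by
      rw [C_add]; ring
    have e2 : (1 - C (s + t) * (ρ * X 0)) * Sr r M s =
        1 - C t * (ρ * (X 0 * Sr r M s)) := by
      rw [e, sub_mul, h1]; ring
    rw [← mul_assoc, e2, h2]
  calc Sr r M s * Vend r M s (Sr r M t)
      = ((1 - C (s + t) * (ρ * X 0)) * Sr r M (s + t)) *
        (Sr r M s * Vend r M s (Sr r M t)) := by rw [h3, one_mul]
    _ = Sr r M (s + t) * ((1 - C (s + t) * (ρ * X 0)) *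
        (Sr r M s * Vend r M s (Sr r M t))) := by ring
    _ = Sr r M (s + t) := by rw [h4, mul_one]

theorem Vend_comp {r : Polynomial R} {M : ℕ} (hr : r ^ M = 0) (s t : R) :
    (Vend r M s).comp (Vend r M t) = Vend r M (s + t) := by
  ext1 i
  fin_cases i
  · change Vend r M s (Vend r M t (X 0)) = Vend r M (s + t) (X 0)
    rw [Vend_X0, Vend_X0, map_mul, Vend_X0, mul_assoc, Vend_Sr hr]
  · change Vend r M s (Vend r M t (X 1)) = Vend r M (s + t) (X 1)
    rw [Vend_X1, Vend_X1, Vend_X1]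

theorem Vend_zero {r : Polynomial R} {M : ℕ} (hr : r ^ M = 0) :
    Vend r M 0 = AlgHom.id R _ := by
  have h := Sr_mul hr 0
  rw [C_0, zero_mul, sub_zero, one_mul] at h
  ext1 i
  fin_cases i
  · change Vend r M 0 (X 0) = X 0
    rw [Vend_X0, h, mul_one]
  · change Vend r M 0 (X 1) = X 1
    rw [Vend_X1]

/-- The one-parameter subgroup. -/
noncomputable def V {r : Polynomial R} {M : ℕ} (hr : r ^ M = 0) :
    Multiplicative R →* Aut2 R where
  toFun t := AlgEquiv.ofAlgHom (Vend r M t.toAdd) (Vend r M (-t.toAdd))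
    (by rw [Vend_comp hr, add_neg_cancel, Vend_zero hr])
    (by rw [Vend_comp hr, neg_add_cancel, Vend_zero hr])
  map_one' := by
    apply AlgEquiv.ext
    intro p
    change Vend r M 0 p = p
    rw [Vend_zero hr]; rfl
  map_mul' s t := by
    apply AlgEquiv.ext
    intro p
    change Vend r M (s.toAdd + t.toAdd) p = Vend r M s.toAdd (Vend r M t.toAdd p)
    rw [← Vend_comp hr]; rfl

theorem V_X0 {r : Polynomial R} {M : ℕ} (hr : r ^ M = 0) (t : R) :
    V hr (Multiplicative.ofAdd t) (X 0) = X 0 * Sr r M t := Vend_X0 r M t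

theorem V_X1 {r : Polynomial R} {M : ℕ} (hr : r ^ M = 0) (t : R) :
    V hr (Multiplicative.ofAdd t) (X 1) = X 1 := Vend_X1 r M t

theorem isOne_V {r : Polynomial R} {M : ℕ} (hr : r ^ M = 0) : IsOne (V hr) := by
  refine ⟨![∑ i ∈ Finset.range M, Polynomial.C (X 0 * (Polynomial.aeval (X 1) r * X 0) ^ i) *
    Polynomial.X ^ i, Polynomial.C (X 1)], fun t i => ?_⟩
  fin_cases i
  · change V hr (Multiplicative.ofAdd t) (X 0) = (∑ i ∈ Finset.range M,
      Polynomial.C (X 0 * (Polynomial.aeval (X 1) r * X 0) ^ i : MvPolynomial (Fin 2) R) *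
        Polynomial.X ^ i).eval (C t)
    rw [V_X0, Sr, Polynomial.eval_finsetSum, Finset.mul_sum]
    refine Finset.sum_congr rfl fun j _ => ?_
    rw [Polynomial.eval_mul, Polynomial.eval_C, Polynomial.eval_pow, Polynomial.eval_X, mul_pow]
    ring
  · change V hr (Multiplicative.ofAdd t) (X 1) = (Polynomial.C (X 1)).eval (C t)
    rw [V_X1, Polynomial.eval_C]

/-- The second order expansion. -/
theorem V_second {r : Polynomial R} {M : ℕ} (hr : r ^ M = 0) (t : R) :
    V hr (Multiplicative.ofAdd t) (X 0) - X 0 - C t * (Polynomial.aeval (X 1) r * X 0 ^ 2) =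
      (Polynomial.aeval (X 1) r * Polynomial.aeval (X 1) r) *
        (C t ^ 2 * X 0 ^ 3 * Sr r M t) := by
  have h := Sr_mul hr t
  set ρ : MvPolynomial (Fin 2) R := Polynomial.aeval (X 1) r with hρ
  have h1 : Sr r M t = 1 + C t * (ρ * X 0) * Sr r M t := by
    linear_combination h
  rw [V_X0]
  linear_combination (X 0 + C t * ρ * X 0 ^ 2) * h1

end Exp2

end Pool.Agent.GAR
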