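import Mathlib
import Pool.Agent.GAR.ArtDefs

set_option autoImplicit false

/-! A space of vector fields on the plane over a `ℚ`-algebra `R` which is stable under the
conjugation by tame automorphisms and contains `y ^ q ∂x` and `x ^ 2 ∂x` is everything. -/

namespace Pool.Agent.GAR

open MvPolynomial

section Vand
variable {R : Type*} [CommRing R] [Algebra ℚ R]

/-- Extraction of coefficients from the values at the natural numbers. -/
theorem vand {M : Type*} [AddCommGroup M] [Module R M] (B : Submodule R M) (n : ℕ) (v : ℕ → M)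
    (h : ∀ c : ℕ, ∑ p ∈ Finset.range n, (c : R) ^ p • v p ∈ B) (p : ℕ) (hp : p < n) :
    v p ∈ B := by
  let _ : Module ℚ (M ⧸ B) := Module.compHom _ (algebraMap ℚ R)
  have hs : ∀ (q : ℚ) (x : M ⧸ B), q • x = (algebraMap ℚ R q) • x := fun _ _ => rfl
  rw [← Submodule.Quotient.mk_eq_zero]
  rw [← Module.forall_dual_apply_eq_zero_iff ℚ]
  intro f
  let P : Polynomial ℚ := ∑ p ∈ Finset.range n,
    Polynomial.C (f (Submodule.Quotient.mk (v p))) * Polynomial.X ^ p
  have hP : ∀ c : ℕ, P.eval (c : ℚ) = 0 := by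
    intro c
    have h1 := (Submodule.Quotient.mk_eq_zero B).2 (h c)
    have h2 := congrArg f h1
    rw [map_zero] at h2
    rw [← h2, Polynomial.eval_finsetSum]
    rw [← Submodule.mkQ_apply, map_sum, map_sum]
    refine Finset.sum_congr rfl fun i _ => ?_
    rw [Polynomial.eval_mul, Polynomial.eval_C, Polynomial.eval_pow, Polynomial.eval_X, map_smul,
      Submodule.mkQ_apply]
    have h3 : ((c : R) ^ i) • (Submodule.Quotient.mk (v i) : M ⧸ B) =
        ((c : ℚ) ^ i) • (Submodule.Quotient.mk (v i) : M ⧸ B) := by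
      rw [hs, map_pow, map_natCast]
    rw [h3, map_smul, smul_eq_mul, mul_comm]
  have hP0 : P = 0 := by
    apply Polynomial.eq_zero_of_infinite_isRoot
    refine (Set.infinite_range_of_injective (Nat.cast_injective (R := ℚ))).mono ?_
    rintro _ ⟨c, rfl⟩
    exact hP c
  have h4 : P.coeff p = f (Submodule.Quotient.mk (v p)) := by
    simp only [P, Polynomial.finsetSum_coeff, Polynomial.coeff_C_mul, Polynomial.coeff_X_pow]
    rw [Finset.sum_eq_single p]
    · simp
    · intro b _ hb
      rw [if_neg (Ne.symm hb), mul_zero]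
    · intro hb
      exact absurd (Finset.mem_range.2 hp) hb
  rw [← h4, hP0, Polynomial.coeff_zero]

/-- Extraction of coefficients of pairs of polynomials. -/
theorem vand2 (B : Submodule R (Fin 2 → MvPolynomial (Fin 2) R))
    (P : Fin 2 → Polynomial (MvPolynomial (Fin 2) R))
    (h : ∀ c : R, (fun i => (P i).eval (C c)) ∈ B) (p : ℕ) :
    (fun i => (P i).coeff p) ∈ B := by
  have key := vand B (max (P 0).natDegree (P 1).natDegree + p + 1)
    (fun p i => (P i).coeff p) (fun c => ?_) p (by omega)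
  · exact key
  · have h1 := h (c : R)
    convert h1 using 1
    ext1 i
    rw [Finset.sum_apply]
    have hd : (P i).natDegree < max (P 0).natDegree (P 1).natDegree + p + 1 := by
      have h0 : (P 0).natDegree ≤ max (P 0).natDegree (P 1).natDegree := le_max_left _ _
      have h1 : (P 1).natDegree ≤ max (P 0).natDegree (P 1).natDegree := le_max_right _ _
      fin_cases i
      · change (P 0).natDegree < _
        omega
      · change (P 1).natDegree < _
        omega
    rw [Polynomial.eval_eq_sum_range' hd]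
    refine Finset.sum_congr rfl fun j _ => ?_
    rw [Pi.smul_apply, smul_eq_C_mul, C_pow, mul_comm]

end Vand

section Elem
variable {R : Type*} [CommRing R]

/-- `x ↦ x + c y ^ m`. -/
noncomputable def eX (c : R) (m : ℕ) : Aut2 R :=
  AlgEquiv.ofAlgHom (aeval ![X 0 + C c * X 1 ^ m, X 1]) (aeval ![X 0 - C c * X 1 ^ m, X 1])
    (by
      ext1 i; fin_cases i
      · simp [algHom_C]
      · simp)
    (by
      ext1 i; fin_cases i
      · simp [algHom_C]
      · simp)

theorem eX_X0 (c : R) (m : ℕ) : eX c m (X 0) = X 0 + C c * X 1 ^ m := by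
  change aeval ![X 0 + C c * X 1 ^ m, X 1] (X 0) = _
  rw [aeval_X]; rfl

theorem eX_X1 (c : R) (m : ℕ) : eX c m (X 1) = X 1 := by
  change aeval ![X 0 + C c * X 1 ^ m, X 1] (X 1) = _
  rw [aeval_X]; rfl

theorem eX_inv_X0 (c : R) (m : ℕ) : (eX c m)⁻¹ (X 0) = X 0 - C c * X 1 ^ m := by
  change aeval ![X 0 - C c * X 1 ^ m, X 1] (X 0) = _
  rw [aeval_X]; rfl

theorem eX_inv_X1 (c : R) (m : ℕ) : (eX c m)⁻¹ (X 1) = X 1 := by
  change aeval ![X 0 - C c * X 1 ^ m, X 1] (X 1) = _
  rw [aeval_X]; rfl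

/-- The swap. -/
noncomputable def sw2 (R : Type*) [CommRing R] : Aut2 R :=
  AlgEquiv.ofAlgHom (aeval ![X 1, X 0]) (aeval ![X 1, X 0])
    (by ext1 i; fin_cases i <;> simp) (by ext1 i; fin_cases i <;> simp)

theorem sw2_X0 : sw2 R (X 0) = X 1 := by
  change aeval ![X 1, X 0] (X 0) = _
  rw [aeval_X]; rfl

theorem sw2_X1 : sw2 R (X 1) = X 0 := by
  change aeval ![X 1, X 0] (X 1) = _
  rw [aeval_X]; rfl

theorem sw2_inv_X0 : (sw2 R)⁻¹ (X 0) = X 1 := by
  change aeval ![X 1, X 0] (X 0) = _
  rw [aeval_X]; rfl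

theorem sw2_inv_X1 : (sw2 R)⁻¹ (X 1) = X 0 := by
  change aeval ![X 1, X 0] (X 1) = _
  rw [aeval_X]; rfl

theorem totalDegree_X_le (i : Fin 2) : (X i : MvPolynomial (Fin 2) R).totalDegree ≤ 1 := by
  have := totalDegree_monomial_le (Finsupp.single i 1) (1 : R)
  refine this.trans ?_
  simp

theorem sw2_mem : sw2 R ∈ TAR R := by
  refine Subgroup.subset_closure (Or.inl fun i => ?_)
  fin_cases i
  · change (sw2 R (X 0)).totalDegree ≤ 1
    rw [sw2_X0]
    exact totalDegree_X_le 1
  · change (sw2 R (X 1)).totalDegree ≤ 1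
    rw [sw2_X1]
    exact totalDegree_X_le 0

theorem X1_mem_supported : (X 1 : MvPolynomial (Fin 2) R) ∈
    supported R {j : Fin 2 | (0 : Fin 2) < j} := by
  rw [supported]
  exact Algebra.subset_adjoin ⟨1, by simp, rfl⟩

theorem eX_mem (c : R) (m : ℕ) : eX c m ∈ TAR R := by
  refine Subgroup.subset_closure (Or.inr fun i => ?_)
  fin_cases i
  · refine ⟨1, isUnit_one, C c * X 1 ^ m, ?_, ?_⟩
    · exact Subalgebra.mul_mem _ (Subalgebra.algebraMap_mem _ c)
        (Subalgebra.pow_mem _ X1_mem_supported _)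
    · change eX c m (X 0) = C 1 * X 0 + _
      rw [eX_X0, C_1, one_mul]
  · refine ⟨1, isUnit_one, 0, Subalgebra.zero_mem _, ?_⟩
    change eX c m (X 1) = C 1 * X 1 + _
    rw [eX_X1, C_1, one_mul, add_zero]

/-- The conjugate of the vector field `v 0 ∂x + v 1 ∂y`. -/
noncomputable def actD (g : Aut2 R) (v : Fin 2 → MvPolynomial (Fin 2) R) :
    Fin 2 → MvPolynomial (Fin 2) R := fun i => g (mkDerivation R v (g⁻¹ (X i)))

theorem actD_sw2 (f h : MvPolynomial (Fin 2) R) :
    actD (sw2 R) ![f, h] = ![sw2 R h, sw2 R f] := by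
  ext1 i
  fin_cases i
  · change sw2 R (mkDerivation R ![f, h] ((sw2 R)⁻¹ (X 0))) = sw2 R h
    rw [sw2_inv_X0, mkDerivation_X]; rfl
  · change sw2 R (mkDerivation R ![f, h] ((sw2 R)⁻¹ (X 1))) = sw2 R f
    rw [sw2_inv_X1, mkDerivation_X]; rfl

theorem actD_eX (c : R) (m : ℕ) (f h : MvPolynomial (Fin 2) R) :
    actD (eX c m) ![f, h] =
      ![eX c m f - C c * ((m : MvPolynomial (Fin 2) R) * X 1 ^ (m - 1)) * eX c m h,
        eX c m h] := by
  ext1 i
  fin_cases i
  · change eX c m (mkDerivation R ![f, h] ((eX c m)⁻¹ (X 0))) = _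
    rw [eX_inv_X0, map_sub, mkDerivation_X, Derivation.leibniz, Derivation.leibniz_pow,
      mkDerivation_X, derivation_C, smul_zero, add_zero]
    simp only [Matrix.cons_val_zero, Matrix.cons_val_one, smul_eq_mul, nsmul_eq_mul, map_sub,
      map_mul, map_pow, eX_X1, map_natCast]
    have : eX c m (C c) = C c := (eX c m).commutes c
    rw [this]
    change _ = eX c m f - C c * ((m : MvPolynomial (Fin 2) R) * X 1 ^ (m - 1)) * eX c m h
    ring
  · change eX c m (mkDerivation R ![f, h] ((eX c m)⁻¹ (X 1))) = eX c m h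
    rw [eX_inv_X1, mkDerivation_X]; rfl

end Elem

section Top
variable {R : Type*} [CommRing R] [Algebra ℚ R]

omit [Algebra ℚ R] in
theorem eX_pow (c : R) (m l : ℕ) : eX c m (X 0 ^ l) = (X 0 + C c * X 1 ^ m) ^ l := by
  rw [map_pow, eX_X0]

/-- **All vector fields.** -/
theorem lie_top (B : Submodule R (Fin 2 → MvPolynomial (Fin 2) R))
    (hconj : ∀ g ∈ TAR R, ∀ v ∈ B, actD g v ∈ B)
    (h1 : ∀ q : ℕ, (![X 1 ^ q, 0] : Fin 2 → MvPolynomial (Fin 2) R) ∈ B)
    (h2 : (![X 0 ^ 2, 0] : Fin 2 → MvPolynomial (Fin 2) R) ∈ B) : B = ⊤ := by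
  have hd : ∀ P : Polynomial (MvPolynomial (Fin 2) R), P.coeff 1 =
      (Polynomial.derivative P).eval 0 := by
    intro P
    rw [← Polynomial.coeff_zero_eq_eval_zero, Polynomial.coeff_derivative]
    simp
  have hder : ∀ w : MvPolynomial (Fin 2) R, Polynomial.derivative
      (Polynomial.C (X 0) + Polynomial.X * Polynomial.C w) = Polynomial.C w := by
    intro w
    simp
  -- the fields `x y ^ m ∂x`
  have s1 : ∀ m : ℕ, (![X 0 * X 1 ^ m, 0] : Fin 2 → MvPolynomial (Fin 2) R) ∈ B := by
    intro m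
    let P : Polynomial (MvPolynomial (Fin 2) R) :=
      (Polynomial.C (X 0) + Polynomial.X * Polynomial.C (X 1 ^ m)) ^ 2
    have h := vand2 B ![P, 0] (fun c => ?_) 1
    · have h3 := B.smul_mem (algebraMap ℚ R (1 / 2)) h
      convert h3 using 1
      ext1 i
      fin_cases i
      · change X 0 * X 1 ^ m = (algebraMap ℚ R (1 / 2)) • P.coeff 1
        have e : P.coeff 1 = C 2 * (X 0 * X 1 ^ m) := by
          rw [hd, Polynomial.derivative_pow, hder, Polynomial.eval_mul, Polynomial.eval_mul,
            Polynomial.eval_C, Polynomial.eval_pow, Polynomial.eval_C, Polynomial.eval_add,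
            Polynomial.eval_C, Polynomial.eval_mul, Polynomial.eval_X, zero_mul, add_zero,
            map_ofNat C]
          norm_num
          ring
        rw [e, smul_eq_C_mul, ← mul_assoc, ← C_mul]
        have : algebraMap ℚ R (1 / 2) * 2 = 1 := by
          rw [← map_ofNat (algebraMap ℚ R) 2, ← map_mul]
          norm_num
        rw [this, C_1, one_mul]
      · change (0 : MvPolynomial (Fin 2) R) = (algebraMap ℚ R (1 / 2)) •
          ((0 : Polynomial (MvPolynomial (Fin 2) R))).coeff 1
        simp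
    · have := hconj (eX c m) (eX_mem c m) _ h2
      rw [actD_eX, eX_pow, map_zero, mul_zero, sub_zero] at this
      convert this using 1
      ext1 i
      fin_cases i
      · change P.eval (C c) = (X 0 + C c * X 1 ^ m) ^ 2
        simp [P]
      · change (0 : Polynomial (MvPolynomial (Fin 2) R)).eval (C c) = 0
        simp
  -- the fields `x ^ l ∂y` and `x ^ l y ∂y`
  have s2 : ∀ l : ℕ, (![0, X 0 ^ l] : Fin 2 → MvPolynomial (Fin 2) R) ∈ B := by
    intro l
    have := hconj (sw2 R) sw2_mem _ (h1 l)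
    rwa [actD_sw2, map_zero, map_pow, sw2_X1] at this
  have s3 : ∀ l : ℕ, (![0, X 1 * X 0 ^ l] : Fin 2 → MvPolynomial (Fin 2) R) ∈ B := by
    intro l
    have := hconj (sw2 R) sw2_mem _ (s1 l)
    rwa [actD_sw2, map_zero, map_mul, map_pow, sw2_X1, sw2_X0] at this
  -- first order terms of conjugates
  have s4 : ∀ (l k e : ℕ), (![0, X 1 ^ e * X 0 ^ l] : Fin 2 → MvPolynomial (Fin 2) R) ∈ B →
      (![-((k : MvPolynomial (Fin 2) R) * X 1 ^ (k - 1) * (X 1 ^ e * X 0 ^ l)),
        X 1 ^ e * ((l : MvPolynomial (Fin 2) R) * X 0 ^ (l - 1) * X 1 ^ k)] :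
        Fin 2 → MvPolynomial (Fin 2) R) ∈ B := by
    intro l k e hl
    let Q : Polynomial (MvPolynomial (Fin 2) R) :=
      Polynomial.C (X 0) + Polynomial.X * Polynomial.C (X 1 ^ k)
    let P0 : Polynomial (MvPolynomial (Fin 2) R) :=
      -(Polynomial.X * (Polynomial.C ((k : MvPolynomial (Fin 2) R) * X 1 ^ (k - 1) * X 1 ^ e) *
        Q ^ l))
    let P1 : Polynomial (MvPolynomial (Fin 2) R) := Polynomial.C (X 1 ^ e) * Q ^ l
    have hQ : ∀ t : MvPolynomial (Fin 2) R, Q.eval t = X 0 + t * X 1 ^ k := by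
      intro t
      simp [Q]
    have h := vand2 B ![P0, P1] (fun c => ?_) 1
    · convert h using 1
      ext1 i
      fin_cases i
      · change -((k : MvPolynomial (Fin 2) R) * X 1 ^ (k - 1) * (X 1 ^ e * X 0 ^ l)) = P0.coeff 1
        rw [Polynomial.coeff_neg, Polynomial.coeff_X_mul, Polynomial.coeff_zero_eq_eval_zero,
          Polynomial.eval_mul, Polynomial.eval_C, Polynomial.eval_pow, hQ]
        ring
      · change X 1 ^ e * ((l : MvPolynomial (Fin 2) R) * X 0 ^ (l - 1) * X 1 ^ k) = P1.coeff 1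
        have hQ' : Polynomial.derivative Q = Polynomial.C (X 1 ^ k) := hder _
        rw [Polynomial.coeff_C_mul, hd, Polynomial.derivative_pow, hQ', Polynomial.eval_mul,
          Polynomial.eval_mul, Polynomial.eval_C, Polynomial.eval_pow, hQ, Polynomial.eval_C,
          zero_mul, add_zero]
    · have := hconj (eX c k) (eX_mem c k) _ hl
      rw [actD_eX, map_mul, map_pow, map_pow, eX_X0, eX_X1, map_zero, zero_sub] at this
      convert this using 1
      ext1 i
      fin_cases i
      · change P0.eval (C c) = -(C c * ((k : MvPolynomial (Fin 2) R) * X 1 ^ (k - 1)) *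
            (X 1 ^ e * (X 0 + C c * X 1 ^ k) ^ l))
        rw [Polynomial.eval_neg, Polynomial.eval_mul, Polynomial.eval_mul, Polynomial.eval_X,
          Polynomial.eval_C, Polynomial.eval_pow, hQ]
        ring
      · change P1.eval (C c) = X 1 ^ e * (X 0 + C c * X 1 ^ k) ^ l
        rw [Polynomial.eval_mul, Polynomial.eval_C, Polynomial.eval_pow, hQ]
  have s5 : ∀ l m : ℕ, (![X 0 ^ l * X 1 ^ m, 0] : Fin 2 → MvPolynomial (Fin 2) R) ∈ B := by
    intro l m
    have e1 := s4 l (m + 1) 0 (by simpa using s2 l)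
    have e2 := s4 l m 1 (by simpa using s3 l)
    have e3 := B.sub_mem e2 e1
    convert e3 using 1
    ext1 i
    fin_cases i
    · change X 0 ^ l * X 1 ^ m =
        -((m : MvPolynomial (Fin 2) R) * X 1 ^ (m - 1) * (X 1 ^ 1 * X 0 ^ l)) -
        -(((m + 1 : ℕ) : MvPolynomial (Fin 2) R) * X 1 ^ (m + 1 - 1) * (X 1 ^ 0 * X 0 ^ l))
      rcases m with _ | m
      · simp
      · simp only [Nat.add_sub_cancel]
        push_cast
        ring
    · change (0 : MvPolynomial (Fin 2) R) =
        X 1 ^ 1 * ((l : MvPolynomial (Fin 2) R) * X 0 ^ (l - 1) * X 1 ^ m) -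
        X 1 ^ 0 * ((l : MvPolynomial (Fin 2) R) * X 0 ^ (l - 1) * X 1 ^ (m + 1))
      ring
  have s6 : ∀ l m : ℕ, (![0, X 0 ^ m * X 1 ^ l] : Fin 2 → MvPolynomial (Fin 2) R) ∈ B := by
    intro l m
    have := hconj (sw2 R) sw2_mem _ (s5 l m)
    rw [actD_sw2, map_zero, map_mul, map_pow, map_pow, sw2_X1, sw2_X0] at this
    rwa [mul_comm] at this
  have mon : ∀ (s : Fin 2 →₀ ℕ) (a : R), (monomial s a : MvPolynomial (Fin 2) R) =
      C a * (X 0 ^ s 0 * X 1 ^ s 1) := by
    intro s a
    rw [monomial_eq, Finsupp.prod_fintype _ _ (fun i => pow_zero _), Fin.prod_univ_two]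
  have t0 : ∀ f : MvPolynomial (Fin 2) R, (![f, 0] : Fin 2 → MvPolynomial (Fin 2) R) ∈ B := by
    intro f
    induction f using MvPolynomial.induction_on' with
    | monomial s a =>
      have := B.smul_mem a (s5 (s 0) (s 1))
      convert this using 1
      ext1 i
      fin_cases i
      · change monomial s a = a • (X 0 ^ s 0 * X 1 ^ s 1)
        rw [mon, smul_eq_C_mul]
      · change (0 : MvPolynomial (Fin 2) R) = a • 0
        rw [smul_zero]
    | add p q hp hq =>
      have := B.add_mem hp hq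
      convert this using 1
      ext1 i
      fin_cases i
      · rfl
      · change (0 : MvPolynomial (Fin 2) R) = 0 + 0
        rw [add_zero]
  have t1 : ∀ f : MvPolynomial (Fin 2) R, (![0, f] : Fin 2 → MvPolynomial (Fin 2) R) ∈ B := by
    intro f
    induction f using MvPolynomial.induction_on' with
    | monomial s a =>
      have := B.smul_mem a (s6 (s 1) (s 0))
      convert this using 1
      ext1 i
      fin_cases i
      · change (0 : MvPolynomial (Fin 2) R) = a • 0
        rw [smul_zero]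
      · change monomial s a = a • (X 0 ^ s 0 * X 1 ^ s 1)
        rw [mon, smul_eq_C_mul]
    | add p q hp hq =>
      have := B.add_mem hp hq
      convert this using 1
      ext1 i
      fin_cases i
      · change (0 : MvPolynomial (Fin 2) R) = 0 + 0
        rw [add_zero]
      · rfl
  rw [eq_top_iff]
  intro v _
  have := B.add_mem (t0 (v 0)) (t1 (v 1))
  convert this using 1
  ext1 i
  fin_cases i
  · change v 0 = v 0 + 0
    rw [add_zero]
  · change v 1 = 0 + v 1
    rw [zero_add]

end Top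

end Pool.Agent.GAR
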