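import Mathlib
import Pool.Agent.GAR.ArtDefs

set_option autoImplicit false

/-! From `R / nilradical` to `R`: the automorphisms of `R[x, y]` congruent to the identity. -/

namespace Pool.Agent.GAR

open MvPolynomial

section Ideals
variable {R : Type*} [CommRing R]

/-- The ideal of the polynomials with coefficients in `I`. -/
noncomputable abbrev E (I : Ideal R) : Ideal (MvPolynomial (Fin 2) R) := Ideal.map C I

theorem E_map (I : Ideal R) (φ : MvPolynomial (Fin 2) R →ₐ[R] MvPolynomial (Fin 2) R)
    {f : MvPolynomial (Fin 2) R} (hf : f ∈ E I) : φ f ∈ E I := by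
  have h1 := Ideal.mem_map_of_mem (φ : MvPolynomial (Fin 2) R →+* MvPolynomial (Fin 2) R) hf
  rw [E, Ideal.map_map] at h1
  have h2 : (φ : MvPolynomial (Fin 2) R →+* MvPolynomial (Fin 2) R).comp C = C := by
    ext1 r
    exact φ.commutes r
  rwa [h2] at h1

theorem E_mul {I J : Ideal R} {f g : MvPolynomial (Fin 2) R} (hf : f ∈ E I) (hg : g ∈ E J) :
    f * g ∈ E (I * J) := by
  rw [E, Ideal.map_mul]
  exact Ideal.mul_mem_mul hf hg

theorem E_mono {I J : Ideal R} (h : I ≤ J) : E I ≤ E J := Ideal.map_mono h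

theorem C_mem_E {I : Ideal R} {a : R} (ha : a ∈ I) : (C a : MvPolynomial (Fin 2) R) ∈ E I :=
  Ideal.mem_map_of_mem _ ha

theorem E_bot : E (⊥ : Ideal R) = ⊥ := Ideal.map_bot

/-- `θ` is the identity modulo `I`. -/
theorem cong_all {I : Ideal R} (θ : MvPolynomial (Fin 2) R →ₐ[R] MvPolynomial (Fin 2) R)
    (h : ∀ i, θ (X i) - X i ∈ E I) (f : MvPolynomial (Fin 2) R) : θ f - f ∈ E I := by
  induction f using MvPolynomial.induction_on with
  | C a =>
    have : θ (C a) = C a := θ.commutes a
    rw [this, sub_self]; exact Ideal.zero_mem _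
  | add p q hp hq =>
    have := Ideal.add_mem _ hp hq
    rw [map_add]
    convert this using 1; ring
  | mul_X p i hp =>
    have := Ideal.add_mem _ (Ideal.mul_mem_left _ (θ p) (h i)) (Ideal.mul_mem_right (X i) _ hp)
    rw [map_mul]
    convert this using 1; ring

theorem cong_mul {I J : Ideal R} (θ : MvPolynomial (Fin 2) R →ₐ[R] MvPolynomial (Fin 2) R)
    (h : ∀ i, θ (X i) - X i ∈ E I) {f : MvPolynomial (Fin 2) R} (hf : f ∈ E J) :
    θ f - f ∈ E (J * I) := by
  have hf' : f ∈ Ideal.span (C '' (J : Set R)) := hf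
  induction hf' using Submodule.span_induction with
  | mem x hx =>
    obtain ⟨a, -, rfl⟩ := hx
    have : θ (C a) = C a := θ.commutes a
    rw [this, sub_self]; exact Ideal.zero_mem _
  | zero => rw [map_zero, sub_zero]; exact Ideal.zero_mem _
  | add x y hx hy h1 h2 =>
    have := Ideal.add_mem _ (h1 hx) (h2 hy)
    rw [map_add]
    convert this using 1; ring
  | smul a x hx h1 =>
    have e1 := Ideal.mul_mem_left _ (θ a) (h1 hx)
    have e2 := E_mul (I := J) (J := I) hx (cong_all θ h a)
    have := Ideal.add_mem _ e1 e2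
    rw [smul_eq_mul, map_mul]
    convert this using 1; ring

/-- The derivation is the first order part. -/
theorem deriv_mem {I : Ideal R} {v : Fin 2 → MvPolynomial (Fin 2) R} (hv : ∀ i, v i ∈ E I)
    (f : MvPolynomial (Fin 2) R) : mkDerivation R v f ∈ E I := by
  induction f using MvPolynomial.induction_on with
  | C a => rw [derivation_C]; exact Ideal.zero_mem _
  | add p q hp hq => rw [map_add]; exact Ideal.add_mem _ hp hq
  | mul_X p i hp =>
    rw [Derivation.leibniz, mkDerivation_X, smul_eq_mul, smul_eq_mul]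
    exact Ideal.add_mem _ (Ideal.mul_mem_left _ _ (hv i)) (Ideal.mul_mem_left _ _ hp)

theorem first_order {I J : Ideal R} (hIJ : I * I ≤ J) {v : Fin 2 → MvPolynomial (Fin 2) R}
    (hv : ∀ i, v i ∈ E I) (h : MvPolynomial (Fin 2) R →ₐ[R] MvPolynomial (Fin 2) R)
    (hh : ∀ i, h (X i) - X i - v i ∈ E J) (f : MvPolynomial (Fin 2) R) :
    h f - f - mkDerivation R v f ∈ E J := by
  induction f using MvPolynomial.induction_on with
  | C a =>
    have : h (C a) = C a := h.commutes a
    rw [this, sub_self, derivation_C, sub_zero]; exact Ideal.zero_mem _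
  | add p q hp hq =>
    have := Ideal.add_mem _ hp hq
    rw [map_add, map_add]
    convert this using 1; ring
  | mul_X p i hp =>
    have e1 := Ideal.mul_mem_right (h (X i)) _ hp
    have e2 := Ideal.mul_mem_left _ (p + mkDerivation R v p) (hh i)
    have e3 := E_mono hIJ (E_mul (deriv_mem hv p) (hv i))
    have := Ideal.add_mem _ (Ideal.add_mem _ e1 e2) e3
    rw [Derivation.leibniz, mkDerivation_X, smul_eq_mul, smul_eq_mul, map_mul]
    convert this using 1; ring

/-- An endomorphism congruent to the identity modulo a nilpotent ideal is bijective. -/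
theorem bij_of_cong {N : Ideal R} {k : ℕ} (hN : N ^ k = ⊥)
    (θ : MvPolynomial (Fin 2) R →ₐ[R] MvPolynomial (Fin 2) R)
    (h : ∀ i, θ (X i) - X i ∈ E N) : Function.Bijective θ := by
  constructor
  · rw [injective_iff_map_eq_zero]
    intro f hf
    have key : ∀ j : ℕ, f ∈ E (N ^ j) := by
      intro j
      induction j with
      | zero =>
        rw [pow_zero, Ideal.one_eq_top, E, Ideal.map_top]; trivial
      | succ j ih =>
        have := cong_mul θ h ih
        rw [hf, zero_sub, ← pow_succ] at this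
        simpa using this
    have := key k
    rw [hN, E_bot] at this
    exact this
  · have key : ∀ n j : ℕ, j + n = k → ∀ f ∈ E (N ^ j), ∃ p, θ p = f := by
      intro n
      induction n with
      | zero =>
        intro j hj f hf
        rw [add_zero] at hj
        subst hj
        rw [hN, E_bot] at hf
        have hf' : f = 0 := hf
        exact ⟨0, by rw [map_zero, hf']⟩
      | succ n ih =>
        intro j hj f hf
        have h1 := cong_mul θ h hf
        rw [← pow_succ] at h1
        have h2 : f - θ f ∈ E (N ^ (j + 1)) := by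
          rw [← neg_sub]; exact (Ideal.neg_mem_iff _).2 h1
        obtain ⟨p, hp⟩ := ih (j + 1) (by omega) _ h2
        exact ⟨f + p, by rw [map_add, hp]; ring⟩
    intro f
    refine key k 0 (by omega) f ?_
    rw [pow_zero, Ideal.one_eq_top, E, Ideal.map_top]; trivial

/-- The finitely generated ideal of the coefficients. -/
theorem exists_coeff_ideal (f : Fin 2 → MvPolynomial (Fin 2) R) {N : Ideal R}
    (h : ∀ i, f i ∈ E N) : ∃ N' : Ideal R, N' ≤ N ∧ N'.FG ∧ ∀ i, f i ∈ E N' := by
  classical
  refine ⟨Ideal.span (((Finset.univ : Finset (Fin 2)).biUnion fun i =>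
    (f i).support.image fun m => coeff m (f i) : Finset R) : Set R), ?_, ⟨_, rfl⟩, ?_⟩
  · rw [Ideal.span_le]
    intro a ha
    rw [Finset.mem_coe, Finset.mem_biUnion] at ha
    obtain ⟨i, -, hi⟩ := ha
    obtain ⟨m, -, rfl⟩ := Finset.mem_image.1 hi
    exact mem_map_C_iff.1 (h i) m
  · intro i
    rw [mem_map_C_iff]
    intro m
    by_cases hm : coeff m (f i) = 0
    · rw [hm]; exact Ideal.zero_mem _
    · refine Ideal.subset_span (Finset.mem_coe.2 (Finset.mem_biUnion.2 ⟨i, Finset.mem_univ _,
        Finset.mem_image.2 ⟨m, mem_support_iff.2 hm, rfl⟩⟩))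

theorem nilp_of_fg {N : Ideal R} (hN : N ≤ nilradical R) (hfg : N.FG) : ∃ k, N ^ k = ⊥ := by
  obtain ⟨k, hk⟩ := Ideal.exists_pow_le_of_le_radical_of_fg (I := N) (J := ⊥) hN hfg
  exact ⟨k, le_bot_iff.1 hk⟩

/-- The same for an ideal of nilpotent elements. -/
theorem bij_of_cong' {N : Ideal R} (hN : N ≤ nilradical R)
    (θ : MvPolynomial (Fin 2) R →ₐ[R] MvPolynomial (Fin 2) R)
    (h : ∀ i, θ (X i) - X i ∈ E N) : Function.Bijective θ := by
  obtain ⟨N', h1, h2, h3⟩ := exists_coeff_ideal _ h
  obtain ⟨k, hk⟩ := nilp_of_fg (h1.trans hN) h2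
  exact bij_of_cong hk θ h3

end Ideals

section Lifting
variable {R : Type*} [CommRing R]

theorem lift_poly (N : Ideal R) (q : MvPolynomial (Fin 2) (R ⧸ N)) :
    ∃ p : MvPolynomial (Fin 2) R, map (algebraMap R (R ⧸ N)) p = q ∧
      p.support ⊆ q.support := by
  classical
  have hs : ∀ a : R ⧸ N, ∃ b : R, algebraMap R (R ⧸ N) b = a := Ideal.Quotient.mk_surjective
  choose l hl using hs
  refine ⟨∑ m ∈ q.support, monomial m (l (coeff m q)), ?_, ?_⟩
  · rw [map_sum]
    conv_rhs => rw [as_sum q]
    refine Finset.sum_congr rfl fun m _ => ?_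
    rw [map_monomial, hl]
  · intro m hm
    by_contra hc
    rw [mem_support_iff, coeff_sum] at hm
    apply hm
    refine Finset.sum_eq_zero fun s hs => ?_
    rw [coeff_monomial, if_neg]
    rintro rfl
    exact hc hs

theorem map_eq_iff (N : Ideal R) (p q : MvPolynomial (Fin 2) R) :
    map (algebraMap R (R ⧸ N)) p = map (algebraMap R (R ⧸ N)) q ↔ p - q ∈ E N := by
  rw [mem_map_C_iff, ← sub_eq_zero, ← map_sub]
  constructor
  · intro h m
    have := congrArg (coeff m) h
    rw [coeff_map, coeff_zero] at this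
    exact Ideal.Quotient.eq_zero_iff_mem.1 this
  · intro h
    ext m
    rw [coeff_map, coeff_zero]
    exact Ideal.Quotient.eq_zero_iff_mem.2 (h m)

theorem map_aeval_eq (N : Ideal R) (q : Fin 2 → MvPolynomial (Fin 2) R)
    (g : Aut2 (R ⧸ N)) (hq : ∀ i, map (algebraMap R (R ⧸ N)) (q i) = g (X i))
    (f : MvPolynomial (Fin 2) R) :
    map (algebraMap R (R ⧸ N)) (aeval q f) = g (map (algebraMap R (R ⧸ N)) f) := by
  induction f using MvPolynomial.induction_on with
  | C a =>
    rw [map_C, aeval_C, algebraMap_eq, map_C]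
    exact (g.commutes _).symm
  | add p r hp hr => rw [map_add, map_add, map_add, map_add, hp, hr]
  | mul_X p i hp => rw [map_mul, map_mul, map_mul, map_mul, hp, aeval_X, map_X, hq]

/-- Lifting of automorphisms along an ideal of nilpotent elements. -/
theorem lift_aut {N : Ideal R} (hN : N ≤ nilradical R) (g : Aut2 (R ⧸ N))
    (q : Fin 2 → MvPolynomial (Fin 2) R)
    (hq : ∀ i, map (algebraMap R (R ⧸ N)) (q i) = g (X i)) :
    ∃ g' : Aut2 R, (∀ i, g' (X i) = q i) ∧ bc (R ⧸ N) g' = g := by
  have hr : ∀ i, ∃ p, map (algebraMap R (R ⧸ N)) p = g⁻¹ (X i) := fun i =>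
    ⟨_, (lift_poly N (g⁻¹ (X i))).choose_spec.1⟩
  choose r hr using hr
  have c1 : Function.Bijective ((aeval q : MvPolynomial (Fin 2) R →ₐ[R]
      MvPolynomial (Fin 2) R).comp (aeval r)) := by
    refine bij_of_cong' hN _ fun i => ?_
    rw [← map_eq_iff, AlgHom.comp_apply, aeval_X, map_aeval_eq N q g hq, hr, map_X]
    exact g.apply_symm_apply _
  have c2 : Function.Bijective ((aeval r : MvPolynomial (Fin 2) R →ₐ[R]
      MvPolynomial (Fin 2) R).comp (aeval q)) := by
    refine bij_of_cong' hN _ fun i => ?_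
    rw [← map_eq_iff, AlgHom.comp_apply, aeval_X, map_aeval_eq N r g⁻¹ hr, hq, map_X]
    exact g.symm_apply_apply _
  have hb : Function.Bijective (aeval q : MvPolynomial (Fin 2) R →ₐ[R]
      MvPolynomial (Fin 2) R) := by
    constructor
    · exact Function.Injective.of_comp (f := (aeval r : MvPolynomial (Fin 2) R →ₐ[R]
        MvPolynomial (Fin 2) R)) c2.1
    · exact Function.Surjective.of_comp (g := (aeval r : MvPolynomial (Fin 2) R →ₐ[R]
        MvPolynomial (Fin 2) R)) c1.2
  refine ⟨AlgEquiv.ofBijective _ hb, fun i => ?_, ?_⟩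
  · exact aeval_X _ _
  · apply AlgEquiv.coe_toAlgHom_injective
    ext1 i
    change bc (R ⧸ N) (AlgEquiv.ofBijective _ hb) (X i) = g (X i)
    rw [bc_X]
    change map _ (aeval q (X i)) = _
    rw [aeval_X, hq]

theorem vars_sub {S : Type*} [CommRing S] {p : MvPolynomial (Fin 2) R}
    {q : MvPolynomial (Fin 2) S} (h : p.support ⊆ q.support) : p.vars ⊆ q.vars := by
  intro i hi
  rw [mem_vars_iff_mem_support] at hi ⊢
  obtain ⟨d, hd, hi⟩ := hi
  exact ⟨d, h hd, hi⟩

/-- Tame automorphisms lift to tame automorphisms. -/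
theorem lift_tame' {N : Ideal R} (hN : N ≤ nilradical R) {g : Aut2 (R ⧸ N)}
    (hg : g ∈ TAR (R ⧸ N)) : ∃ g' ∈ TAR R, bc (R ⧸ N) g' = g := by
  induction hg using Subgroup.closure_induction with
  | mem g hg =>
    rcases hg with hg | hg
    · have hp := fun i => lift_poly N (g (X i))
      choose q hq hs using hp
      obtain ⟨g', h1, h2⟩ := lift_aut hN g q hq
      refine ⟨g', Subgroup.subset_closure (Or.inl fun i => ?_), h2⟩
      rw [h1]
      exact (Finset.sup_mono (hs i)).trans (hg i)
    · have hp : ∀ i, ∃ q : MvPolynomial (Fin 2) R, map (algebraMap R (R ⧸ N)) q = g (X i) ∧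
          ∃ c : R, IsUnit c ∧ ∃ p ∈ supported R {j : Fin 2 | i < j}, q = C c * X i + p := by
        intro i
        obtain ⟨c, hc, p, hp, he⟩ := hg i
        obtain ⟨c', hc'⟩ : ∃ c', algebraMap R (R ⧸ N) c' = c := Ideal.Quotient.mk_surjective c
        obtain ⟨d, hd⟩ := hc.exists_right_inv
        obtain ⟨d', hd'⟩ : ∃ d', algebraMap R (R ⧸ N) d' = d := Ideal.Quotient.mk_surjective d
        have hu : c' * d' - 1 ∈ N := by
          rw [← Ideal.Quotient.eq_zero_iff_mem]
          change algebraMap R (R ⧸ N) (c' * d' - 1) = 0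
          rw [map_sub, map_mul, hc', hd', hd, map_one, sub_self]
        have hn : IsNilpotent (c' * d' - 1) := mem_nilradical.1 (hN hu)
        have hcu : IsUnit c' := by
          have := hn.isUnit_add_one
          rw [sub_add_cancel] at this
          exact isUnit_of_mul_isUnit_left this
        obtain ⟨p', hp', hs⟩ := lift_poly N p
        refine ⟨C c' * X i + p', ?_, c', hcu, p', ?_, rfl⟩
        · rw [map_add, map_mul, map_C, map_X, hc', hp', he]
        · rw [mem_supported] at hp ⊢
          exact (Finset.coe_subset.2 (vars_sub hs)).trans hp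
      choose q hq hs using hp
      obtain ⟨g', h1, h2⟩ := lift_aut hN g q hq
      refine ⟨g', Subgroup.subset_closure (Or.inr fun i => ?_), h2⟩
      rw [h1]
      exact hs i
  | one => exact ⟨1, Subgroup.one_mem _, map_one _⟩
  | mul a b _ _ ha hb =>
    obtain ⟨a', ha, rfl⟩ := ha
    obtain ⟨b', hb, rfl⟩ := hb
    exact ⟨a' * b', Subgroup.mul_mem _ ha hb, map_mul _ _ _⟩
  | inv a _ ha =>
    obtain ⟨a', ha, rfl⟩ := ha
    exact ⟨a'⁻¹, Subgroup.inv_mem _ ha, map_inv _ _⟩

end Lifting

end Pool.Agent.GAR
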