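import Mathlib
import Pool.Agent.GAR.ArtLift
import Pool.Agent.GAR.ArtLie

set_option autoImplicit false

/-! First order parts of the automorphisms in a subgroup `H` of `Aut R[x, y]`. -/

namespace Pool.Agent.GAR

open MvPolynomial

section WB
variable {R : Type*} [CommRing R]

theorem mul_ap' (g h : Aut2 R) (p : MvPolynomial (Fin 2) R) : (g * h) p = g (h p) := rfl

theorem inv_ap' (g : Aut2 R) (p : MvPolynomial (Fin 2) R) : g⁻¹ (g p) = p := by
  change (g⁻¹ * g) p = p
  rw [inv_mul_cancel]; rfl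

theorem ap_inv' (g : Aut2 R) (p : MvPolynomial (Fin 2) R) : g (g⁻¹ p) = p := by
  change (g * g⁻¹) p = p
  rw [mul_inv_cancel]; rfl

theorem ap_C' (g : Aut2 R) (c : R) : g (C c) = C c := g.commutes c

theorem E_ap (I : Ideal R) (g : Aut2 R) {f : MvPolynomial (Fin 2) R} (hf : f ∈ E I) :
    g f ∈ E I := E_map I (g : MvPolynomial (Fin 2) R →ₐ[R] MvPolynomial (Fin 2) R) hf

/-- The first order parts of the elements of `H`. -/
def W (H : Subgroup (Aut2 R)) (I J : Ideal R) (v : Fin 2 → MvPolynomial (Fin 2) R) : Prop :=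
  (∀ i, v i ∈ E I) ∧ ∃ h ∈ H, ∀ i, h (X i) - X i - v i ∈ E J

theorem W.add {H : Subgroup (Aut2 R)} {I J : Ideal R} (h1 : I * I ≤ J) (h2 : J ≤ I)
    {v w : Fin 2 → MvPolynomial (Fin 2) R} (hv : W H I J v) (hw : W H I J w) :
    W H I J (v + w) := by
  obtain ⟨hv1, g, hg, hv2⟩ := hv
  obtain ⟨hw1, h, hh, hw2⟩ := hw
  refine ⟨fun i => Ideal.add_mem _ (hv1 i) (hw1 i), g * h, H.mul_mem hg hh, fun i => ?_⟩
  have hc : ∀ i, (g : MvPolynomial (Fin 2) R →ₐ[R] MvPolynomial (Fin 2) R) (X i) - X i ∈ E I := by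
    intro i
    have := Ideal.add_mem _ (hv1 i) (E_mono h2 (hv2 i))
    change g (X i) - X i ∈ E I
    convert this using 1; ring
  have e1 := E_ap J g (hw2 i)
  have e2 : g (w i) - w i ∈ E J := E_mono h1 (cong_mul
    (g : MvPolynomial (Fin 2) R →ₐ[R] MvPolynomial (Fin 2) R) hc (hw1 i))
  have := Ideal.add_mem _ (Ideal.add_mem _ e1 e2) (hv2 i)
  rw [mul_ap', Pi.add_apply]
  convert this using 1
  rw [map_sub, map_sub]
  ring

theorem W.zero (H : Subgroup (Aut2 R)) (I J : Ideal R) : W H I J 0 :=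
  ⟨fun _ => Ideal.zero_mem _, 1, H.one_mem, fun i => by
    change X i - X i - 0 ∈ E J
    rw [sub_self, sub_zero]; exact Ideal.zero_mem _⟩

/-- The vector fields `v` such that `a v` is a first order part for all `a ∈ I`. -/
def BW (H : Subgroup (Aut2 R)) {I J : Ideal R} (h1 : I * I ≤ J) (h2 : J ≤ I) :
    Submodule R (Fin 2 → MvPolynomial (Fin 2) R) where
  carrier := {v | ∀ a ∈ I, W H I J (a • v)}
  add_mem' := fun {v w} hv hw a ha => by
    rw [smul_add]
    exact (hv a ha).add h1 h2 (hw a ha)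
  zero_mem' := fun a _ => by
    rw [smul_zero]
    exact W.zero H I J
  smul_mem' := fun r v hv a ha => by
    rw [smul_smul]
    exact hv _ (Ideal.mul_mem_right r I ha)

theorem mem_BW {H : Subgroup (Aut2 R)} {I J : Ideal R} (h1 : I * I ≤ J) (h2 : J ≤ I)
    {v : Fin 2 → MvPolynomial (Fin 2) R} :
    v ∈ BW H h1 h2 ↔ ∀ a ∈ I, W H I J (a • v) := Iff.rfl

theorem smul_mem_E {I : Ideal R} {a : R} (ha : a ∈ I) (v : Fin 2 → MvPolynomial (Fin 2) R)
    (i : Fin 2) : (a • v) i ∈ E I := by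
  rw [Pi.smul_apply, smul_eq_C_mul]
  exact Ideal.mul_mem_right _ _ (C_mem_E ha)

theorem mkDerivation_smul' (a : R) (v : Fin 2 → MvPolynomial (Fin 2) R)
    (f : MvPolynomial (Fin 2) R) : mkDerivation R (a • v) f = a • mkDerivation R v f := by
  have : mkDerivation R (a • v) = a • mkDerivation R v := by
    apply derivation_ext
    intro i
    rw [mkDerivation_X, Derivation.smul_apply, mkDerivation_X, Pi.smul_apply]
  rw [this, Derivation.smul_apply]

theorem BW_conj {H : Subgroup (Aut2 R)} {I J : Ideal R} (h1 : I * I ≤ J) (h2 : J ≤ I)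
    {g : Aut2 R} (hg : g ∈ H) {v : Fin 2 → MvPolynomial (Fin 2) R} (hv : v ∈ BW H h1 h2) :
    actD g v ∈ BW H h1 h2 := by
  intro a ha
  obtain ⟨e1, h, hh, e2⟩ := hv a ha
  refine ⟨smul_mem_E ha _, g * h * g⁻¹, H.mul_mem (H.mul_mem hg hh) (H.inv_mem hg),
    fun i => ?_⟩
  have e3 := first_order h1 e1 (h : MvPolynomial (Fin 2) R →ₐ[R] MvPolynomial (Fin 2) R) e2
    (g⁻¹ (X i))
  have e4 := E_ap J g e3
  rw [map_sub, map_sub, ap_inv', mkDerivation_smul', map_smul] at e4
  exact e4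

theorem BW_eX {H : Subgroup (Aut2 R)} (hH : TAR R ≤ H) {I J : Ideal R} (h1 : I * I ≤ J)
    (h2 : J ≤ I) (q : ℕ) : ![X 1 ^ q, 0] ∈ BW H h1 h2 := by
  intro a ha
  refine ⟨smul_mem_E ha _, eX a q, hH (eX_mem a q), fun i => ?_⟩
  fin_cases i
  · change eX a q (X 0) - X 0 - a • (X 1 ^ q) ∈ E J
    rw [eX_X0, smul_eq_C_mul]
    have : (X 0 + C a * X 1 ^ q - X 0 - C a * X 1 ^ q : MvPolynomial (Fin 2) R) = 0 := by ring
    rw [this]; exact Ideal.zero_mem _
  · change eX a q (X 1) - X 1 - a • (0 : MvPolynomial (Fin 2) R) ∈ E J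
    rw [eX_X1, smul_zero, sub_self, sub_zero]; exact Ideal.zero_mem _

theorem W_top {H : Subgroup (Aut2 R)} {I J : Ideal R} (h1 : I * I ≤ J) (h2 : J ≤ I)
    (hB : BW H h1 h2 = ⊤) (v : Fin 2 → MvPolynomial (Fin 2) R) (hv : ∀ i, v i ∈ E I) :
    W H I J v := by
  have h3 : v ∈ I • (⊤ : Submodule R (Fin 2 → MvPolynomial (Fin 2) R)) := by
    have e : v = ∑ i, ∑ m ∈ (v i).support, (coeff m (v i)) •
        (Pi.single i (monomial m 1) : Fin 2 → MvPolynomial (Fin 2) R) := by
      ext1 l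
      rw [Finset.sum_apply, Finset.sum_eq_single l]
      · rw [Finset.sum_apply]
        conv_lhs => rw [as_sum (v l)]
        refine Finset.sum_congr rfl fun m _ => ?_
        rw [Pi.smul_apply, Pi.single_eq_same, smul_monomial, smul_eq_mul, mul_one]
      · intro b _ hb
        rw [Finset.sum_apply]
        refine Finset.sum_eq_zero fun m _ => ?_
        rw [Pi.smul_apply, Pi.single_eq_of_ne (Ne.symm hb), smul_zero]
      · intro hl
        exact absurd (Finset.mem_univ _) hl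
    rw [e]
    refine Submodule.sum_mem _ fun i _ => Submodule.sum_mem _ fun m _ => ?_
    exact Submodule.smul_mem_smul (mem_map_C_iff.1 (hv i) m) trivial
  refine Submodule.smul_induction_on h3 ?_ ?_
  · intro a ha w _
    have : w ∈ BW H h1 h2 := by rw [hB]; trivial
    exact this a ha
  · intro x y hx hy
    exact hx.add h1 h2 hy

end WB

end Pool.Agent.GAR
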