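import Mathlib
import Pool.Agent.GAR.ArtTop
import Pool.Agent.GAR.ArtExp2

set_option autoImplicit false

/-! If the nilradical of `R` is finitely generated and all automorphisms over `R / nilradical`
are tame, the tame automorphisms of `R[x, y]` and one one-parameter subgroup generate. -/

namespace Pool.Agent.GAR

open MvPolynomial

section VWs
variable {R : Type*} [CommRing R]

theorem actD_smul (g : Aut2 R) (r : R) (v : Fin 2 → MvPolynomial (Fin 2) R) :
    actD g (r • v) = r • actD g v := by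
  ext1 i
  change g (mkDerivation R (r • v) (g⁻¹ (X i))) = r • g (mkDerivation R v (g⁻¹ (X i)))
  rw [mkDerivation_smul', map_smul]

theorem W.conj {H : Subgroup (Aut2 R)} {I J : Ideal R} (h1 : I * I ≤ J)
    {g : Aut2 R} (hg : g ∈ H) {v : Fin 2 → MvPolynomial (Fin 2) R} (hv : W H I J v) :
    W H I J (actD g v) := by
  obtain ⟨e1, h, hh, e2⟩ := hv
  refine ⟨fun i => E_ap I g (deriv_mem e1 _), g * h * g⁻¹,
    H.mul_mem (H.mul_mem hg hh) (H.inv_mem hg), fun i => ?_⟩
  have e3 := first_order h1 e1 (h : MvPolynomial (Fin 2) R →ₐ[R] MvPolynomial (Fin 2) R) e2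
    (g⁻¹ (X i))
  have e4 := E_ap J g e3
  rw [map_sub, map_sub, ap_inv'] at e4
  exact e4

/-- The vector fields all of whose multiples are first order parts. -/
def VW (H : Subgroup (Aut2 R)) {I J : Ideal R} (h1 : I * I ≤ J) (h2 : J ≤ I) :
    Submodule R (Fin 2 → MvPolynomial (Fin 2) R) where
  carrier := {v | ∀ r : R, W H I J (r • v)}
  add_mem' := fun {v w} hv hw r => by
    rw [smul_add]
    exact (hv r).add h1 h2 (hw r)
  zero_mem' := fun r => by
    rw [smul_zero]
    exact W.zero H I J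
  smul_mem' := fun s v hv r => by
    rw [smul_smul]
    exact hv _

theorem VW_conj {H : Subgroup (Aut2 R)} {I J : Ideal R} (h1 : I * I ≤ J) (h2 : J ≤ I)
    {g : Aut2 R} (hg : g ∈ H) {v : Fin 2 → MvPolynomial (Fin 2) R} (hv : v ∈ VW H h1 h2) :
    actD g v ∈ VW H h1 h2 := fun r => by
  rw [← actD_smul]
  exact (hv r).conj h1 hg

theorem W_eX {H : Subgroup (Aut2 R)} (hH : TAR R ≤ H) {I J : Ideal R} {a : R} (ha : a ∈ I)
    (q : ℕ) : W H I J (a • (![X 1 ^ q, 0] : Fin 2 → MvPolynomial (Fin 2) R)) := by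
  refine ⟨smul_mem_E ha _, eX a q, hH (eX_mem a q), fun i => ?_⟩
  fin_cases i
  · change eX a q (X 0) - X 0 - a • (X 1 ^ q) ∈ E J
    rw [eX_X0, smul_eq_C_mul]
    have : (X 0 + C a * X 1 ^ q - X 0 - C a * X 1 ^ q : MvPolynomial (Fin 2) R) = 0 := by ring
    rw [this]; exact Ideal.zero_mem _
  · change eX a q (X 1) - X 1 - a • (0 : MvPolynomial (Fin 2) R) ∈ E J
    rw [eX_X1, smul_zero, sub_self, sub_zero]; exact Ideal.zero_mem _

variable [Algebra ℚ R]

/-- From `ν x ^ 2 ∂x` to all multiples of `ν`. -/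
theorem VW_nu {H : Subgroup (Aut2 R)} (hH : TAR R ≤ H) {I J : Ideal R} (h1 : I * I ≤ J)
    (h2 : J ≤ I) {ν : R} (hν : ν ∈ I)
    (h : ν • (![X 0 ^ 2, 0] : Fin 2 → MvPolynomial (Fin 2) R) ∈ VW H h1 h2)
    (v : Fin 2 → MvPolynomial (Fin 2) R) : ν • v ∈ VW H h1 h2 := by
  have key : (VW H h1 h2).comap (LinearMap.lsmul R (Fin 2 → MvPolynomial (Fin 2) R) ν) = ⊤ := by
    apply lie_top
    · intro g hg v hv
      change ν • actD g v ∈ VW H h1 h2
      rw [← actD_smul]
      exact VW_conj h1 h2 (hH hg) hv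
    · intro q
      change ν • (![X 1 ^ q, 0] : Fin 2 → MvPolynomial (Fin 2) R) ∈ VW H h1 h2
      intro r
      rw [smul_smul]
      exact W_eX hH (Ideal.mul_mem_left _ _ hν) q
    · exact h
  have : v ∈ (VW H h1 h2).comap (LinearMap.lsmul R (Fin 2 → MvPolynomial (Fin 2) R) ν) := by
    rw [key]; trivial
  exact this

/-- The translation `y ↦ y + c`. -/
noncomputable def tY (c : R) : Aut2 R := sw2 R * eX c 0 * sw2 R

omit [Algebra ℚ R] in
theorem tY_mem (c : R) : tY c ∈ TAR R :=
  Subgroup.mul_mem _ (Subgroup.mul_mem _ sw2_mem (eX_mem c 0)) sw2_mem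

omit [Algebra ℚ R] in
theorem sw2_inv : (sw2 R)⁻¹ = sw2 R := rfl

omit [Algebra ℚ R] in
theorem tY_X0 (c : R) : tY c (X 0) = X 0 := by
  rw [tY, mul_ap', mul_ap', sw2_X0, eX_X1, sw2_X1]

omit [Algebra ℚ R] in
theorem tY_X1 (c : R) : tY c (X 1) = X 1 + C c := by
  rw [tY, mul_ap', mul_ap', sw2_X1, eX_X0, pow_zero, mul_one, map_add, sw2_X0, ap_C']

omit [Algebra ℚ R] in
theorem tY_inv_X0 (c : R) : (tY c)⁻¹ (X 0) = X 0 := by
  rw [tY, mul_inv_rev, mul_inv_rev, sw2_inv, mul_ap', mul_ap', sw2_X0, eX_inv_X1, sw2_X1]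

omit [Algebra ℚ R] in
theorem tY_inv_X1 (c : R) : (tY c)⁻¹ (X 1) = X 1 - C c := by
  rw [tY, mul_inv_rev, mul_inv_rev, sw2_inv, mul_ap', mul_ap', sw2_X1, eX_inv_X0, pow_zero,
    mul_one, map_sub, sw2_X0, ap_C']

omit [Algebra ℚ R] in
theorem actD_tY (c : R) (f : MvPolynomial (Fin 2) R) :
    actD (tY c) ![f, 0] = ![tY c f, 0] := by
  ext1 i
  fin_cases i
  · change tY c (mkDerivation R ![f, 0] ((tY c)⁻¹ (X 0))) = tY c f
    rw [tY_inv_X0, mkDerivation_X]; rfl
  · change tY c (mkDerivation R ![f, 0] ((tY c)⁻¹ (X 1))) = 0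
    rw [tY_inv_X1, map_sub, mkDerivation_X, derivation_C, sub_zero]
    exact map_zero _

/-- From `ρ(y) x ^ 2 ∂x` to the coefficients of `ρ`. -/
theorem VW_coeff {H : Subgroup (Aut2 R)} (hH : TAR R ≤ H) {I J : Ideal R} (h1 : I * I ≤ J)
    (h2 : J ≤ I) (ν : ℕ → R) (n : ℕ) : (∀ i < n, ν i ∈ I) →
    (![(∑ i ∈ Finset.range n, C (ν i) * X 1 ^ i) * X 0 ^ 2, 0] :
      Fin 2 → MvPolynomial (Fin 2) R) ∈ VW H h1 h2 →
    ∀ i < n, ∀ v : Fin 2 → MvPolynomial (Fin 2) R, ν i • v ∈ VW H h1 h2 := by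
  induction n with
  | zero => intro _ _ i hi; omega
  | succ n ih =>
    intro hν h
    let P : Polynomial (MvPolynomial (Fin 2) R) :=
      (∑ i ∈ Finset.range (n + 1), Polynomial.C (C (ν i)) *
        (Polynomial.X + Polynomial.C (X 1)) ^ i) * Polynomial.C (X 0 ^ 2)
    have hP := vand2 (VW H h1 h2) ![P, 0] (fun c => ?_) n
    · have hPn : P.coeff n = C (ν n) * X 0 ^ 2 := by
        simp only [P, Polynomial.coeff_mul_C, Polynomial.finsetSum_coeff,
          Polynomial.coeff_C_mul, Polynomial.coeff_X_add_C_pow]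
        rw [Finset.sum_eq_single n]
        · simp
        · intro b hb hbn
          have : b < n := by
            have := Finset.mem_range.1 hb
            omega
          rw [Nat.choose_eq_zero_of_lt this]; simp
        · intro hn
          exact absurd (Finset.mem_range.2 (Nat.lt_succ_self n)) hn
      have h3 : ν n • (![X 0 ^ 2, 0] : Fin 2 → MvPolynomial (Fin 2) R) ∈ VW H h1 h2 := by
        convert hP using 1
        ext1 i
        fin_cases i
        · change ν n • (X 0 ^ 2) = P.coeff n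
          rw [hPn, smul_eq_C_mul]
        · change ν n • (0 : MvPolynomial (Fin 2) R) =
            (0 : Polynomial (MvPolynomial (Fin 2) R)).coeff n
          simp
      have h4 := VW_nu hH h1 h2 (hν n (Nat.lt_succ_self n)) h3
      have h5 := (VW H h1 h2).sub_mem h (h4 ![X 1 ^ n * X 0 ^ 2, 0])
      have h6 := ih (fun i hi => hν i (by omega)) (by
        convert h5 using 1
        ext1 i
        fin_cases i
        · change ((∑ i ∈ Finset.range n, C (ν i) * X 1 ^ i) * X 0 ^ 2 :
              MvPolynomial (Fin 2) R) =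
            (∑ i ∈ Finset.range (n + 1), C (ν i) * X 1 ^ i) * X 0 ^ 2 -
              ν n • (X 1 ^ n * X 0 ^ 2)
          rw [Finset.sum_range_succ, smul_eq_C_mul]
          ring
        · change (0 : MvPolynomial (Fin 2) R) = 0 - ν n • 0
          simp)
      intro i hi v
      rcases Nat.lt_succ_iff_lt_or_eq.1 hi with hi' | rfl
      · exact h6 i hi' v
      · exact h4 v
    · have := VW_conj h1 h2 (hH (tY_mem c)) h
      rw [actD_tY] at this
      convert this using 1
      ext1 i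
      fin_cases i
      · change P.eval (C c) = tY c ((∑ i ∈ Finset.range (n + 1), C (ν i) * X 1 ^ i) * X 0 ^ 2)
        simp only [P, Polynomial.eval_mul, Polynomial.eval_finsetSum, Polynomial.eval_C,
          Polynomial.eval_pow, Polynomial.eval_add, Polynomial.eval_X, map_mul, map_sum, map_pow,
          tY_X0, tY_X1, ap_C']
        rw [add_comm (C c : MvPolynomial (Fin 2) R) (X 1)]
      · change (0 : Polynomial (MvPolynomial (Fin 2) R)).eval (C c) = 0
        simp

end VWs

end Pool.Agent.GAR
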