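import Mathlib
import Pool.Agent.GAR.ArtOne

set_option autoImplicit false

/-! The positive halves: generation of `Aut R[x, y]` from the tame automorphisms modulo the
nilradical. -/

namespace Pool.Agent.GAR

open MvPolynomial

section Level
variable {R : Type*} [CommRing R]

/-- If all first order parts at every level occur, everything congruent to `1` is in `H`. -/
theorem mem_of_levels {H : Subgroup (Aut2 R)} {N : Ideal R} {k : ℕ} (hN : N ^ k = ⊥)
    (hW : ∀ j, 1 ≤ j → ∀ v : Fin 2 → MvPolynomial (Fin 2) R, (∀ i, v i ∈ E (N ^ j)) →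
      W H (N ^ j) (N ^ (j + 1)) v) :
    ∀ n j : ℕ, 1 ≤ j → k ≤ j + n → ∀ g : Aut2 R, (∀ i, g (X i) - X i ∈ E (N ^ j)) → g ∈ H := by
  intro n
  induction n with
  | zero =>
    intro j hj hk g hg
    have hj0 : N ^ j = ⊥ := by
      rw [eq_bot_iff, ← hN]
      exact Ideal.pow_le_pow_right (by omega)
    have : g = 1 := by
      apply AlgEquiv.coe_toAlgHom_injective
      ext1 i
      have h2 := hg i
      rw [hj0, E_bot] at h2
      have h3 : g (X i) - X i = 0 := h2
      exact sub_eq_zero.1 h3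
    rw [this]; exact H.one_mem
  | succ n ih =>
    intro j hj hk g hg
    obtain ⟨-, h, hh, hw⟩ := hW j hj (fun i => g (X i) - X i) hg
    have h3 : h⁻¹ * g ∈ H := by
      refine ih (j + 1) (by omega) (by omega) _ fun i => ?_
      have h4 := E_ap _ h⁻¹ (hw i)
      have h5 : h (X i) - X i - (g (X i) - X i) = h (X i) - g (X i) := by ring
      rw [h5, map_sub, inv_ap'] at h4
      rw [mul_ap', ← neg_sub]
      exact (Ideal.neg_mem_iff _).2 h4
    have := H.mul_mem hh h3
    rwa [mul_inv_cancel_left] at this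

theorem exists_antideriv [Algebra ℚ R] (f : MvPolynomial (Fin 2) R) :
    ∃ F : MvPolynomial (Fin 2) R, pderiv 0 F = f := by
  induction f using MvPolynomial.induction_on' with
  | monomial s a =>
    refine ⟨monomial (s + Finsupp.single 0 1) (algebraMap ℚ R (1 / (s 0 + 1)) * a), ?_⟩
    rw [pderiv_monomial]
    congr 1
    · rw [add_tsub_cancel_right]
    · have : algebraMap ℚ R (1 / (s 0 + 1)) * ((s 0 : R) + 1) = 1 := by
        have e : ((s 0 : R) + 1) = algebraMap ℚ R (s 0 + 1) := by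
          rw [map_add, map_natCast, map_one]
        rw [e, ← map_mul]
        have : (1 / ((s 0 : ℚ) + 1)) * (s 0 + 1) = 1 := by
          have : ((s 0 : ℚ) + 1) ≠ 0 := by positivity
          field_simp
        rw [this, map_one]
      simp only [Finsupp.coe_add, Pi.add_apply, Finsupp.single_eq_same, Nat.cast_add,
        Nat.cast_one]
      calc algebraMap ℚ R (1 / (s 0 + 1)) * a * ((s 0 : R) + 1)
          = (algebraMap ℚ R (1 / (s 0 + 1)) * ((s 0 : R) + 1)) * a := by ring
        _ = a := by rw [this, one_mul]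
  | add p q hp hq =>
    obtain ⟨F, hF⟩ := hp
    obtain ⟨G, hG⟩ := hq
    exact ⟨F + G, by rw [map_add, hF, hG]⟩

theorem mkDerivation_C0 (a : R) (f : MvPolynomial (Fin 2) R) :
    mkDerivation R (![C a, 0] : Fin 2 → MvPolynomial (Fin 2) R) f = C a * pderiv 0 f := by
  have : mkDerivation R (![C a, 0] : Fin 2 → MvPolynomial (Fin 2) R) =
      (C a : MvPolynomial (Fin 2) R) • (pderiv 0 : Derivation R (MvPolynomial (Fin 2) R)
        (MvPolynomial (Fin 2) R)) := by
    apply derivation_ext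
    intro i
    rw [mkDerivation_X, Derivation.smul_apply]
    fin_cases i
    · change C a = C a • pderiv 0 (X 0)
      rw [pderiv_X_self, smul_eq_mul, mul_one]
    · change 0 = C a • pderiv 0 (X 1)
      rw [pderiv_X_of_ne (by decide), smul_zero]
  rw [this, Derivation.smul_apply, smul_eq_mul]

/-- The commutator with a translation. -/
theorem W_comm {H : Subgroup (Aut2 R)} (hH : TAR R ≤ H) {N : Ideal R} {j : ℕ} (hj : 2 ≤ j)
    {a b : R} (ha : a ∈ N ^ (j - 1)) (hb : b ∈ N) {w w' : Fin 2 → MvPolynomial (Fin 2) R}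
    (hw : ∀ i, pderiv 0 (w' i) = w i) (h1 : W H N (N ^ 2) (b • w')) :
    W H (N ^ j) (N ^ (j + 1)) ((a * b) • w) := by
  obtain ⟨-, h, hh, he⟩ := h1
  have hab : a * b ∈ N ^ j := by
    have := Ideal.mul_mem_mul ha hb
    rwa [← pow_succ, Nat.sub_add_cancel (by omega)] at this
  set τ : Aut2 R := eX a 0 with hτ
  have hτH : τ ∈ H := hH (eX_mem a 0)
  refine ⟨smul_mem_E hab _, h⁻¹ * (τ * h * τ⁻¹),
    H.mul_mem (H.inv_mem hh) (H.mul_mem (H.mul_mem hτH hh) (H.inv_mem hτH)), fun i => ?_⟩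
  -- `h` is the identity modulo `N`
  have hN2 : N ^ 2 ≤ N := Ideal.pow_le_self (by norm_num)
  have hc : ∀ i, (h : MvPolynomial (Fin 2) R →ₐ[R] MvPolynomial (Fin 2) R) (X i) - X i ∈
      E N := by
    intro i
    have := Ideal.add_mem _ (E_mono hN2 (he i)) (smul_mem_E hb w' i)
    change h (X i) - X i ∈ E N
    convert this using 1; ring
  have hc' : ∀ i, ((h⁻¹ : Aut2 R) : MvPolynomial (Fin 2) R →ₐ[R] MvPolynomial (Fin 2) R) (X i) -
      X i ∈ E N := by
    intro i
    have := E_ap N h⁻¹ (hc i)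
    change h⁻¹ (h (X i) - X i) ∈ E N at this
    rw [map_sub, inv_ap'] at this
    change h⁻¹ (X i) - X i ∈ E N
    rw [← neg_sub]
    exact (Ideal.neg_mem_iff _).2 this
  -- the translation
  have ht0 : ∀ i, τ (X i) - X i = (![C a, 0] : Fin 2 → MvPolynomial (Fin 2) R) i := by
    intro i
    fin_cases i
    · change τ (X 0) - X 0 = C a
      rw [hτ, eX_X0]; ring
    · change τ (X 1) - X 1 = 0
      rw [hτ, eX_X1, sub_self]
  have ht1 : ∀ i, τ⁻¹ (X i) = X i - (![C a, 0] : Fin 2 → MvPolynomial (Fin 2) R) i := by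
    intro i
    fin_cases i
    · change τ⁻¹ (X 0) = X 0 - C a
      rw [hτ, eX_inv_X0]; ring
    · change τ⁻¹ (X 1) = X 1 - 0
      rw [hτ, eX_inv_X1, sub_zero]
  have hfix : ∀ (g : Aut2 R) (i : Fin 2), g ((![C a, 0] : Fin 2 → MvPolynomial (Fin 2) R) i) =
      (![C a, 0] : Fin 2 → MvPolynomial (Fin 2) R) i := by
    intro g i
    fin_cases i
    · exact ap_C' g a
    · exact map_zero g
  have hta : ∀ i, (![C a, 0] : Fin 2 → MvPolynomial (Fin 2) R) i ∈ E (N ^ (j - 1)) := by
    intro i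
    fin_cases i
    · exact C_mem_E ha
    · exact Ideal.zero_mem _
  -- Taylor expansion
  have hT : ∀ f : MvPolynomial (Fin 2) R, τ f - f - C a * pderiv 0 f ∈
      E (N ^ (j - 1) * N ^ (j - 1)) := by
    intro f
    rw [← mkDerivation_C0]
    refine first_order le_rfl hta
      (τ : MvPolynomial (Fin 2) R →ₐ[R] MvPolynomial (Fin 2) R) (fun i => ?_) f
    change τ (X i) - X i - _ ∈ _
    rw [ht0, sub_self]; exact Ideal.zero_mem _
  -- the error terms
  have e1 : C b * (τ (w' i) - w' i - C a * w i) ∈ E (N ^ (j + 1)) := by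
    have := E_mul (C_mem_E hb) (hT (w' i))
    rw [hw] at this
    refine E_mono ?_ this
    rw [← pow_add, ← pow_succ']
    exact Ideal.pow_le_pow_right (by omega)
  have hτc : ∀ i, (τ : MvPolynomial (Fin 2) R →ₐ[R] MvPolynomial (Fin 2) R) (X i) - X i ∈
      E (N ^ (j - 1)) := by
    intro i
    change τ (X i) - X i ∈ _
    rw [ht0]; exact hta i
  set e : MvPolynomial (Fin 2) R := h (X i) - X i - (b • w') i with hedef
  have e2 : τ e - e ∈ E (N ^ (j + 1)) := by
    have := cong_mul (τ : MvPolynomial (Fin 2) R →ₐ[R] MvPolynomial (Fin 2) R) hτc (he i)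
    rw [← pow_add] at this
    refine E_mono (Ideal.pow_le_pow_right (by omega)) this
  have e3 : h⁻¹ (((a * b) • w) i) - ((a * b) • w) i ∈ E (N ^ (j + 1)) := by
    have := cong_mul ((h⁻¹ : Aut2 R) : MvPolynomial (Fin 2) R →ₐ[R] MvPolynomial (Fin 2) R) hc'
      (smul_mem_E hab w i)
    rwa [← pow_succ] at this
  -- the computation
  have hu : (τ * h * τ⁻¹) (X i) - h (X i) - ((a * b) • w) i ∈ E (N ^ (j + 1)) := by
    have hx : h (X i) = X i + (b • w') i + e := by rw [hedef]; ring
    have h5 : (τ * h * τ⁻¹) (X i) = τ (h (X i)) -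
        (![C a, 0] : Fin 2 → MvPolynomial (Fin 2) R) i := by
      rw [mul_ap', mul_ap', ht1, map_sub, map_sub, hfix, hfix]
    have h6 : τ (X i) = X i + (![C a, 0] : Fin 2 → MvPolynomial (Fin 2) R) i := by
      rw [← ht0]; ring
    have h7 : τ ((b • w') i) = C b * τ (w' i) := by
      rw [Pi.smul_apply, map_smul, smul_eq_C_mul]
    have h8 : (b • w') i = C b * w' i := by rw [Pi.smul_apply, smul_eq_C_mul]
    have h9 : ((a * b) • w) i = C a * C b * w i := by
      rw [Pi.smul_apply, smul_eq_C_mul, C_mul]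
    have := Ideal.add_mem _ e1 e2
    rw [h5, hx, map_add, map_add, h6, h7, h8, h9]
    convert this using 1; ring
  have h10 := Ideal.add_mem _ (E_ap _ h⁻¹ hu) e3
  rw [mul_ap']
  rw [map_sub, map_sub, inv_ap'] at h10
  convert h10 using 1; ring

/-- From level one to all levels. -/
theorem W_all [Algebra ℚ R] {H : Subgroup (Aut2 R)} (hH : TAR R ≤ H) {N : Ideal R}
    (h1 : ∀ v : Fin 2 → MvPolynomial (Fin 2) R, (∀ i, v i ∈ E N) → W H N (N ^ 2) v)
    (j : ℕ) (hj : 1 ≤ j) (v : Fin 2 → MvPolynomial (Fin 2) R) (hv : ∀ i, v i ∈ E (N ^ j)) :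
    W H (N ^ j) (N ^ (j + 1)) v := by
  rcases Nat.eq_or_lt_of_le hj with rfl | hj2
  · simp only [pow_one] at hv ⊢
    exact h1 v hv
  · have k1 : N ^ j * N ^ j ≤ N ^ (j + 1) := by
      rw [← pow_add]; exact Ideal.pow_le_pow_right (by omega)
    have k2 : N ^ (j + 1) ≤ N ^ j := Ideal.pow_le_pow_right (by omega)
    refine W_top k1 k2 ?_ v hv
    rw [eq_top_iff]
    intro w _ c hc
    choose w' hw' using fun i => exists_antideriv (w i)
    have hc' : c ∈ N ^ (j - 1) * N := by
      rw [← pow_succ, Nat.sub_add_cancel hj]; exact hc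
    refine Submodule.mul_induction_on hc' ?_ ?_
    · intro a ha b hb
      exact W_comm hH hj2 ha hb hw' (h1 _ (smul_mem_E hb w'))
    · intro x y hx hy
      rw [add_smul]
      exact hx.add k1 k2 hy

end Level

end Pool.Agent.GAR
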