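import Mathlib
import Pool.Agent.GAR.ArtGen

set_option autoImplicit false

/-! The positive halves of the criterion. -/

namespace Pool.Agent.GAR

open MvPolynomial

section Pos
variable {R : Type*} [CommRing R]

/-- The automorphism `x ↦ x + c x ^ 2` for a nilpotent `c`. -/
theorem exists_sq {N : Ideal R} (hN : N ≤ nilradical R) {c : R} (hc : c ∈ N) :
    ∃ h : Aut2 R, h (X 0) = X 0 + C c * X 0 ^ 2 ∧ h (X 1) = X 1 := by
  let θ : MvPolynomial (Fin 2) R →ₐ[R] MvPolynomial (Fin 2) R :=
    aeval ![X 0 + C c * X 0 ^ 2, X 1]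
  have h0 : θ (X 0) = X 0 + C c * X 0 ^ 2 := by
    change aeval ![X 0 + C c * X 0 ^ 2, X 1] (X 0) = _
    rw [aeval_X]; rfl
  have h1 : θ (X 1) = X 1 := by
    change aeval ![X 0 + C c * X 0 ^ 2, X 1] (X 1) = _
    rw [aeval_X]; rfl
  have hb : Function.Bijective θ := by
    refine bij_of_cong' hN θ fun i => ?_
    fin_cases i
    · change θ (X 0) - X 0 ∈ E N
      rw [h0, add_sub_cancel_left]
      exact Ideal.mul_mem_right _ _ (C_mem_E hc)
    · change θ (X 1) - X 1 ∈ E N
      rw [h1, sub_self]; exact Ideal.zero_mem _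
  exact ⟨AlgEquiv.ofBijective θ hb, h0, h1⟩

/-- The automorphisms of degree at most `d`. -/
def degR (R : Type*) [CommRing R] (d : ℕ) : Set (Aut2 R) :=
  {g | ∀ i, (g (X i)).totalDegree ≤ d}

variable [Algebra ℚ R]

omit [Algebra ℚ R] in
theorem reduce_to {H : Subgroup (Aut2 R)} (hH : TAR R ≤ H)
    (hred : ∀ g : Aut2 (R ⧸ nilradical R), g ∈ TAR (R ⧸ nilradical R))
    (hc : ∀ g : Aut2 R, (∀ i, g (X i) - X i ∈ E (nilradical R)) → g ∈ H) : H = ⊤ := by
  rw [eq_top_iff]
  intro f _
  obtain ⟨f', hf', he⟩ := lift_tame' le_rfl (hred (bc (R ⧸ nilradical R) f))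
  have h3 : f'⁻¹ * f ∈ H := by
    refine hc _ fun i => ?_
    rw [mul_ap']
    have h1 : f (X i) - f' (X i) ∈ E (nilradical R) := by
      rw [← map_eq_iff, ← bc_X, ← bc_X, he]
    have h2 := E_ap _ f'⁻¹ h1
    rwa [map_sub, inv_ap'] at h2
  have := H.mul_mem (hH hf') h3
  rwa [mul_inv_cancel_left] at this

/-- **Degree two suffices.** -/
theorem pos_two (hred : ∀ g : Aut2 (R ⧸ nilradical R), g ∈ TAR (R ⧸ nilradical R)) :
    Subgroup.closure (affR R ∪ triR R ∪ degR R 2) = ⊤ := by
  set H := Subgroup.closure (affR R ∪ triR R ∪ degR R 2) with hHdef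
  have hH : TAR R ≤ H := Subgroup.closure_mono Set.subset_union_left
  refine reduce_to hH hred fun u hu => ?_
  obtain ⟨N, hN, hfg, hc⟩ := exists_coeff_ideal _ hu
  obtain ⟨k, hk⟩ := nilp_of_fg hN hfg
  have h1 : N * N ≤ N ^ 2 := by rw [pow_two]
  have h2 : N ^ 2 ≤ N := Ideal.pow_le_self (by norm_num)
  have hB : BW H h1 h2 = ⊤ := by
    rw [eq_top_iff]
    intro v _ a ha
    have h3 : a • (![X 0 ^ 2, 0] : Fin 2 → MvPolynomial (Fin 2) R) ∈ VW H h1 h2 := by
      intro r
      rw [smul_smul]
      have hra : r * a ∈ N := Ideal.mul_mem_left _ _ ha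
      obtain ⟨h, e0, e1⟩ := exists_sq hN hra
      refine ⟨smul_mem_E hra _, h, Subgroup.subset_closure (Or.inr fun i => ?_), fun i => ?_⟩
      · fin_cases i
        · change (h (X 0)).totalDegree ≤ 2
          rw [e0]
          refine (totalDegree_add _ _).trans (max_le ((totalDegree_X_le 0).trans (by norm_num))
            ?_)
          refine (totalDegree_mul _ _).trans ?_
          rw [totalDegree_C, zero_add]
          refine (totalDegree_pow _ _).trans ?_
          have := totalDegree_X_le (R := R) 0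
          omega
        · change (h (X 1)).totalDegree ≤ 2
          rw [e1]
          exact (totalDegree_X_le 1).trans (by norm_num)
      · fin_cases i
        · change h (X 0) - X 0 - (r * a) • (X 0 ^ 2) ∈ E (N ^ 2)
          rw [e0, smul_eq_C_mul, add_sub_cancel_left, sub_self]
          exact Ideal.zero_mem _
        · change h (X 1) - X 1 - (r * a) • (0 : MvPolynomial (Fin 2) R) ∈ E (N ^ 2)
          rw [e1, smul_zero, sub_self, sub_zero]; exact Ideal.zero_mem _
    have := VW_nu hH h1 h2 ha h3 v 1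
    rwa [one_smul] at this
  refine mem_of_levels hk (fun j hj v hv => W_all hH (fun v hv => W_top h1 h2 hB v hv) j hj v hv)
    k 1 le_rfl (by omega) u fun i => ?_
  rw [pow_one]; exact hc i

/-- **One one-parameter subgroup suffices.** -/
theorem pos_one (hnil : (nilradical R).FG)
    (hred : ∀ g : Aut2 (R ⧸ nilradical R), g ∈ TAR (R ⧸ nilradical R)) :
    ∃ g : Multiplicative R →* Aut2 R, IsOne g ∧
      Subgroup.closure (affR R ∪ triR R ∪ Set.range g) = ⊤ := by
  set N := nilradical R with hNdef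
  obtain ⟨k, hk⟩ := nilp_of_fg (N := N) le_rfl hnil
  obtain ⟨n, s, hs⟩ := Submodule.fg_iff_exists_fin_generating_family.1 hnil
  let ν : ℕ → R := fun i => if h : i < n then s ⟨i, h⟩ else 0
  have hνN : ∀ i, ν i ∈ N := by
    intro i
    by_cases h : i < n
    · simp only [ν, dif_pos h]
      rw [← hs]
      exact Submodule.subset_span ⟨_, rfl⟩
    · simp only [ν, dif_neg h]
      exact Ideal.zero_mem _
  let r : Polynomial R := ∑ i ∈ Finset.range n, Polynomial.C (ν i) * Polynomial.X ^ i
  have hr : r ^ k = 0 := by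
    have h1 : r ∈ Ideal.map Polynomial.C N :=
      Ideal.sum_mem _ fun i _ => Ideal.mul_mem_right _ _ (Ideal.mem_map_of_mem _ (hνN i))
    have h2 := Ideal.pow_mem_pow h1 k
    rw [← Ideal.map_pow, hk, Ideal.map_bot] at h2
    exact h2
  have hρ : (Polynomial.aeval (X 1 : MvPolynomial (Fin 2) R)) r =
      ∑ i ∈ Finset.range n, C (ν i) * X 1 ^ i := by
    simp only [r, map_sum, map_mul, Polynomial.aeval_C, map_pow, Polynomial.aeval_X]
    rfl
  have hρN : (Polynomial.aeval (X 1 : MvPolynomial (Fin 2) R)) r ∈ E N := by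
    rw [hρ]
    exact Ideal.sum_mem _ fun i _ => Ideal.mul_mem_right _ _ (C_mem_E (hνN i))
  refine ⟨V hr, isOne_V hr, ?_⟩
  set H := Subgroup.closure (affR R ∪ triR R ∪ Set.range (V hr)) with hHdef
  have hH : TAR R ≤ H := Subgroup.closure_mono Set.subset_union_left
  refine reduce_to hH hred fun u hu => ?_
  have h1 : N * N ≤ N ^ 2 := by rw [pow_two]
  have h2 : N ^ 2 ≤ N := Ideal.pow_le_self (by norm_num)
  have hV : (![(∑ i ∈ Finset.range n, C (ν i) * X 1 ^ i) * X 0 ^ 2, 0] :
      Fin 2 → MvPolynomial (Fin 2) R) ∈ VW H h1 h2 := by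
    intro t
    rw [← hρ]
    refine ⟨fun i => ?_, V hr (Multiplicative.ofAdd t),
      Subgroup.subset_closure (Or.inr ⟨_, rfl⟩), fun i => ?_⟩
    · fin_cases i
      · change t • (Polynomial.aeval (X 1 : MvPolynomial (Fin 2) R) r * X 0 ^ 2) ∈ E N
        rw [smul_eq_C_mul]
        exact Ideal.mul_mem_left _ _ (Ideal.mul_mem_right _ _ hρN)
      · change t • (0 : MvPolynomial (Fin 2) R) ∈ E N
        rw [smul_zero]; exact Ideal.zero_mem _
    · fin_cases i
      · change V hr (Multiplicative.ofAdd t) (X 0) - X 0 -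
          t • (Polynomial.aeval (X 1 : MvPolynomial (Fin 2) R) r * X 0 ^ 2) ∈ E (N ^ 2)
        rw [smul_eq_C_mul, V_second]
        refine Ideal.mul_mem_right _ _ ?_
        have := E_mul hρN hρN
        rwa [← pow_two] at this
      · change V hr (Multiplicative.ofAdd t) (X 1) - X 1 -
          t • (0 : MvPolynomial (Fin 2) R) ∈ E (N ^ 2)
        rw [V_X1, smul_zero, sub_self, sub_zero]; exact Ideal.zero_mem _
  have hco := VW_coeff hH h1 h2 ν n (fun i _ => hνN i) hV
  have hB : BW H h1 h2 = ⊤ := by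
    rw [eq_top_iff]
    intro v _ a ha
    have key : ∀ a ∈ Submodule.span R (Set.range s), a • v ∈ VW H h1 h2 := by
      intro a ha
      induction ha using Submodule.span_induction with
      | mem x hx =>
        obtain ⟨i, rfl⟩ := hx
        have := hco i i.2 v
        simp only [ν, dif_pos i.2] at this
        exact this
      | zero => rw [zero_smul]; exact Submodule.zero_mem _
      | add x y _ _ hx hy => rw [add_smul]; exact Submodule.add_mem _ hx hy
      | smul c x _ hx => rw [smul_assoc]; exact Submodule.smul_mem _ _ hx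
    have := key a (hs ▸ ha) 1
    rwa [one_smul] at this
  refine mem_of_levels hk (fun j hj v hv => W_all hH (fun v hv => W_top h1 h2 hB v hv) j hj v hv)
    k 1 le_rfl (by omega) u fun i => ?_
  rw [pow_one]; exact hu i

end Pos

end Pool.Agent.GAR
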