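import Mathlib
import Pool.Agent.GAR.Aut

set_option autoImplicit false

/-! A coordinate `d² x + u y + d y^N` of `R[x, y]`. -/

namespace Pool.Agent.GAR

open MvPolynomial

theorem exists_gam {R : Type*} [CommRing R] [IsDomain R] {d u e h : R} (hd : d ≠ 0)
    (he : e * u + d ^ 2 * h = 1) (N : ℕ) :
    ∃ g : Aut2 R, g (X 1) = C (d ^ 2) * X 0 + C u * X 1 + C d * X 1 ^ N ∧
      C (d ^ 2) * g (X 0) =
        X 1 - C e * g (X 1) + C (d * e ^ (N + 1)) * g (X 1) ^ N := by
  let P := MvPolynomial (Fin 2) R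
  let x : P := X 0
  let y : P := X 1
  let D : P := C d
  let U : P := C u
  let E : P := C e
  let H : P := C h
  have hE : E * U + D ^ 2 * H = 1 := by
    have := congrArg (C : R → P) he
    simpa [E, U, D, H, P] using this
  have hD : D ^ 2 ≠ 0 :=
    pow_ne_zero _ fun h0 => hd (C_injective (Fin 2) R (h0.trans C_0.symm))
  let f : P := D ^ 2 * x + U * y + D * y ^ N
  let w : P := D ^ 2 * x + E * y - D * E ^ (N + 1) * y ^ N
  -- the first coordinate
  obtain ⟨Q, hQ⟩ := sub_dvd_pow_sub_pow f (U * y) N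
  obtain ⟨Q', hQ'⟩ := sub_dvd_pow_sub_pow (E * U) 1 N
  let G : P := H * y - E * x - D * E * H * Q' * y ^ N + E ^ (N + 1) * (D * x + y ^ N) * Q
  have hG : D ^ 2 * G = y - E * f + D * E ^ (N + 1) * f ^ N := by
    have h1 : f ^ N = (U * y) ^ N + D * (D * x + y ^ N) * Q := by
      have e1 : f - U * y = D * (D * x + y ^ N) := by
        change D ^ 2 * x + U * y + D * y ^ N - U * y = _; ring
      rw [e1] at hQ
      linear_combination hQ
    have h2 : (E * U) ^ N = 1 - D ^ 2 * H * Q' := by
      rw [one_pow] at hQ'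
      have e2 : E * U - 1 = -(D ^ 2 * H) := by linear_combination hE
      rw [e2] at hQ'
      linear_combination hQ'
    rw [h1]
    change D ^ 2 * (H * y - E * x - D * E * H * Q' * y ^ N +
      E ^ (N + 1) * (D * x + y ^ N) * Q) = y - E * (D ^ 2 * x + U * y + D * y ^ N) +
      D * E ^ (N + 1) * ((U * y) ^ N + D * (D * x + y ^ N) * Q)
    have h3 : E ^ (N + 1) * (U * y) ^ N = E * (E * U) ^ N * y ^ N := by
      rw [mul_pow, mul_pow]; ring
    have h4 : D * E ^ (N + 1) * ((U * y) ^ N + D * (D * x + y ^ N) * Q) =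
        D * (E * (E * U) ^ N * y ^ N) + D * E ^ (N + 1) * (D * (D * x + y ^ N) * Q) := by
      rw [← h3]; ring
    rw [h4, h2]
    linear_combination y * hE
  obtain ⟨Q2, hQ2⟩ := sub_dvd_pow_sub_pow w (E * y) N
  let G' : P := H * y - U * x - D * H * E ^ N * y ^ N - (D * x - E ^ (N + 1) * y ^ N) * Q2
  have hG' : D ^ 2 * G' = y - U * w - D * w ^ N := by
    have h1 : w ^ N = (E * y) ^ N + D * (D * x - E ^ (N + 1) * y ^ N) * Q2 := by
      have e1 : w - E * y = D * (D * x - E ^ (N + 1) * y ^ N) := by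
        change D ^ 2 * x + E * y - D * E ^ (N + 1) * y ^ N - E * y = _; ring
      rw [e1] at hQ2
      linear_combination hQ2
    rw [h1]
    change D ^ 2 * (H * y - U * x - D * H * E ^ N * y ^ N -
      (D * x - E ^ (N + 1) * y ^ N) * Q2) = y - U * (D ^ 2 * x + E * y -
      D * E ^ (N + 1) * y ^ N) - D * ((E * y) ^ N + D * (D * x - E ^ (N + 1) * y ^ N) * Q2)
    rw [mul_pow]
    linear_combination (y - D * E ^ N * y ^ N) * hE
  let phi : P →ₐ[R] P := aeval ![G, f]
  let psi : P →ₐ[R] P := aeval ![G', w]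
  have p0 : phi x = G := aeval_X ![G, f] 0
  have p1 : phi y = f := aeval_X ![G, f] 1
  have q0 : psi x = G' := aeval_X ![G', w] 0
  have q1 : psi y = w := aeval_X ![G', w] 1
  have pC : ∀ r : R, phi (C r) = C r := fun r => phi.commutes r
  have qC : ∀ r : R, psi (C r) = C r := fun r => psi.commutes r
  have pD : phi D = D := pC d
  have pU : phi U = U := pC u
  have pE : phi E = E := pC e
  have qD : psi D = D := qC d
  have qU : psi U = U := qC u
  have qE : psi E = E := qC e
  have hqf : psi f = y := by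
    change psi (D ^ 2 * x + U * y + D * y ^ N) = y
    rw [map_add, map_add, map_mul, map_mul, map_mul, map_pow, map_pow, qD, qU, q0, q1, hG']
    ring
  have hpw : phi w = y := by
    change phi (D ^ 2 * x + E * y - D * E ^ (N + 1) * y ^ N) = y
    rw [map_sub, map_add, map_mul, map_mul, map_mul, map_mul, map_pow, map_pow, map_pow, pD, pE,
      p0, p1, hG]
    ring
  have hqG : psi G = x := by
    apply mul_left_cancel₀ hD
    have : psi (D ^ 2 * G) = D ^ 2 * psi G := by rw [map_mul, map_pow, qD]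
    rw [← this, hG, map_add, map_sub, map_mul, map_mul, map_mul, map_pow, map_pow, qD, qE, hqf, q1]
    change D ^ 2 * x + E * y - D * E ^ (N + 1) * y ^ N - E * y + D * E ^ (N + 1) * y ^ N = D ^ 2 * x
    ring
  have hpG' : phi G' = x := by
    apply mul_left_cancel₀ hD
    have : phi (D ^ 2 * G') = D ^ 2 * phi G' := by rw [map_mul, map_pow, pD]
    rw [← this, hG', map_sub, map_sub, map_mul, map_mul, map_pow, pD, pU, hpw, p1]
    change D ^ 2 * x + U * y + D * y ^ N - U * y - D * y ^ N = D ^ 2 * x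
    ring
  have c1 : phi.comp psi = AlgHom.id R P := by
    apply MvPolynomial.algHom_ext
    intro i
    fin_cases i
    · change phi (psi x) = x
      rw [q0, hpG']
    · change phi (psi y) = y
      rw [q1, hpw]
  have c2 : psi.comp phi = AlgHom.id R P := by
    apply MvPolynomial.algHom_ext
    intro i
    fin_cases i
    · change psi (phi x) = x
      rw [p0, hqG]
    · change psi (phi y) = y
      rw [p1, hqf]
  refine ⟨AlgEquiv.ofAlgHom phi psi c1 c2, ?_, ?_⟩
  · change phi y = _
    rw [p1]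
    change D ^ 2 * x + U * y + D * y ^ N = C (d ^ 2) * X 0 + C u * X 1 + C d * X 1 ^ N
    rw [C_pow]
  · change C (d ^ 2) * phi x = X 1 - C e * phi y + C (d * e ^ (N + 1)) * phi y ^ N
    rw [p0, p1, C_pow, C_mul, C_pow]
    exact hG

end Pool.Agent.GAR
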