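import Mathlib
import Pool.Agent.GAR.Orbits

set_option autoImplicit false

/-! Edges of the coset forest in the orbits of the edges `(b, a_d)`, where `b` is the vertex of
`y` and `a_d` the vertex of `{y, x + y ^ N / d}` (helper20). -/

namespace Pool.Agent.GAR

open MvPolynomial

section Q
variable {R : Type*} [CommRing R]

/-- `c + a y + b (d x + y ^ N)`. -/
noncomputable def Qp (d : R) (N : ℕ) (c a b : R) : MvPolynomial (Fin 2) R :=
  C c + C a * X 1 + C b * fpol d N

variable {d : R} {N : ℕ}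

theorem single_ne (i : Fin 2) {a b : ℕ} (h : a ≠ b) :
    (Finsupp.single i a : Fin 2 →₀ ℕ) ≠ Finsupp.single i b := by
  intro h1
  exact h (by simpa using DFunLike.congr_fun h1 i)

theorem single_zero_ne_single_one {a b : ℕ} (h : a ≠ 0) :
    (Finsupp.single 0 a : Fin 2 →₀ ℕ) ≠ Finsupp.single 1 b := by
  intro h1
  have := DFunLike.congr_fun h1 0
  simp at this
  exact h this

theorem coeff_fpol_zero (hN : 2 ≤ N) : coeff 0 (fpol d N) = 0 := by
  rw [fpol, coeff_add, coeff_C_mul, coeff_X, coeff_X_pow, if_neg, if_neg]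
  · simp
  · intro h
    have := DFunLike.congr_fun h 1
    simp at this
    omega
  · intro h
    have := DFunLike.congr_fun h 0
    simp at this

theorem coeff_fpol_y (hN : 2 ≤ N) : coeff (Finsupp.single 1 1) (fpol d N) = 0 := by
  rw [fpol, coeff_add, coeff_C_mul, coeff_X, coeff_X_pow, if_neg, if_neg]
  · simp
  · exact single_ne 1 (by omega)
  · exact single_zero_ne_single_one one_ne_zero

theorem coeff_fpol_yN (_hN : 2 ≤ N) : coeff (Finsupp.single 1 N) (fpol d N) = 1 := by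
  rw [fpol, coeff_add, coeff_C_mul, coeff_X, coeff_X_pow, if_neg, if_pos rfl]
  · simp
  · exact single_zero_ne_single_one one_ne_zero

theorem coeff_fpol_x (hN : 2 ≤ N) : coeff (Finsupp.single 0 1) (fpol d N) = d := by
  rw [fpol, coeff_add, coeff_C_mul, coeff_X, coeff_X_pow, if_pos rfl, if_neg]
  · simp
  · intro h
    have := DFunLike.congr_fun h 1
    simp at this
    omega

theorem coeff_Qp_zero (hN : 2 ≤ N) (c a b : R) : coeff 0 (Qp d N c a b) = c := by
  rw [Qp, coeff_add, coeff_add, coeff_C_mul, coeff_C_mul, coeff_fpol_zero hN, coeff_C, if_pos rfl,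
    coeff_X, if_neg]
  · simp
  · intro h
    have := DFunLike.congr_fun h 1
    simp at this

theorem coeff_Qp_y (hN : 2 ≤ N) (c a b : R) :
    coeff (Finsupp.single 1 1) (Qp d N c a b) = a := by
  rw [Qp, coeff_add, coeff_add, coeff_C_mul, coeff_C_mul, coeff_fpol_y hN, coeff_C, if_neg,
    coeff_X, if_pos rfl]
  · simp
  · intro h
    have := DFunLike.congr_fun h 1
    simp at this

theorem coeff_Qp_yN (hN : 2 ≤ N) (c a b : R) :
    coeff (Finsupp.single 1 N) (Qp d N c a b) = b := by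
  rw [Qp, coeff_add, coeff_add, coeff_C_mul, coeff_C_mul, coeff_fpol_yN hN, coeff_C, if_neg,
    coeff_X, if_neg]
  · simp
  · exact single_ne 1 (by omega)
  · intro h
    have := DFunLike.congr_fun h 1
    simp at this
    omega

theorem coeff_Qp_x (hN : 2 ≤ N) (c a b : R) :
    coeff (Finsupp.single 0 1) (Qp d N c a b) = b * d := by
  rw [Qp, coeff_add, coeff_add, coeff_C_mul, coeff_C_mul, coeff_fpol_x hN, coeff_C, if_neg,
    coeff_X, if_neg]
  · simp
  · exact (single_zero_ne_single_one one_ne_zero).symm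
  · intro h
    have := DFunLike.congr_fun h 0
    simp at this

theorem map_Qp {S : Type*} [CommRing S] (f : R →+* S) (c a b : R) :
    map f (Qp d N c a b) = Qp (f d) N (f c) (f a) (f b) := by
  rw [Qp, Qp, fpol, fpol]
  simp

/-- Integrality. -/
theorem exists_Qp {K : Type*} [Field K] [Algebra R K]
    (hinj : Function.Injective (algebraMap R K)) (hN : 2 ≤ N) {P : MvPolynomial (Fin 2) R}
    {c a b : K} (h : map (algebraMap R K) P = Qp (algebraMap R K d) N c a b) :
    ∃ c' a' b' : R, P = Qp d N c' a' b' ∧ algebraMap R K c' = c ∧ algebraMap R K a' = a ∧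
      algebraMap R K b' = b := by
  have h0 := congrArg (coeff 0) h
  have h1 := congrArg (coeff (Finsupp.single 1 1)) h
  have h2 := congrArg (coeff (Finsupp.single 1 N)) h
  rw [coeff_map, coeff_Qp_zero hN] at h0
  rw [coeff_map, coeff_Qp_y hN] at h1
  rw [coeff_map, coeff_Qp_yN hN] at h2
  refine ⟨_, _, _, map_injective _ hinj ?_, h0, h1, h2⟩
  rw [map_Qp, h0, h1, h2, h]

end Q

section Vert
variable {K : Type*} [Field K]

/-- The automorphism `x ↦ x + y ^ N / d`. -/
noncomputable def ae (d : K) (N : ℕ) : Aut2 K := elem (Polynomial.C d⁻¹ * Polynomial.X ^ N)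

theorem ae_X0 (d : K) (N : ℕ) : ae d N (X 0) = X 0 + C d⁻¹ * X 1 ^ N := by
  rw [ae, elem_X0, map_mul, Polynomial.aeval_C, map_pow, Polynomial.aeval_X, algebraMap_eq]

theorem ae_X1 (d : K) (N : ℕ) : ae d N (X 1) = X 1 := elem_X1 _

theorem ae_mem (d : K) (N : ℕ) : ae d N ∈ triG K := elem_mem _

/-- The vertex `a_d`. -/
noncomputable abbrev va (d : K) (N : ℕ) : Vtx (affG K) (triG K) :=
  Sum.inl (ae d N : Aut2 K ⧸ affG K)

theorem ae_lin {d : K} (hd : d ≠ 0) (N : ℕ) {p : MvPolynomial (Fin 2) K}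
    (hp : p.totalDegree ≤ 1) : ∃ c a b : K, ae d N p = Qp d N c a b := by
  obtain ⟨c, a, b, rfl⟩ := linear_form p hp
  refine ⟨c, b, a * d⁻¹, ?_⟩
  rw [map_add, map_add, map_mul, map_mul, ap_C, ap_C, ap_C, ae_X0, ae_X1, Qp, fpol]
  have h1 : (C a : MvPolynomial (Fin 2) K) = C (a * d⁻¹) * C d := by
    rw [← C_mul, mul_assoc, inv_mul_cancel₀ hd, mul_one]
  rw [h1, C_mul]
  have h2 : (C d⁻¹ : MvPolynomial (Fin 2) K) * C d = 1 := by
    rw [← C_mul, inv_mul_cancel₀ hd, C_1]
  linear_combination (C a * C d⁻¹ * X 1 ^ N) * h2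

end Vert

section Int
variable {R : Type*} [CommRing R] [IsDomain R] {K : Type*} [Field K] [Algebra R K]

omit [IsDomain R] in
/-- If `γ` maps `a_d'` to `a_d`, then `γ y` and `γ f_d'` are combinations of `1, y, f_d`. -/
theorem mat_of_act (hinj : Function.Injective (algebraMap R K)) {N : ℕ} (hN : 2 ≤ N) {d d' : R}
    (hd : d ≠ 0) (hd' : d' ≠ 0) {γ : Aut2 R}
    (h : act (bc K γ) (va (algebraMap R K d') N) = va (algebraMap R K d) N) :
    (∃ c a b : R, γ (X 1) = Qp d N c a b) ∧ (∃ c a b : R, γ (fpol d' N) = Qp d N c a b) := by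
  have hdK : algebraMap R K d ≠ 0 := fun h0 => hd (hinj (by rw [h0, map_zero]))
  have hdK' : algebraMap R K d' ≠ 0 := fun h0 => hd' (hinj (by rw [h0, map_zero]))
  have h1 : (ae (algebraMap R K d) N)⁻¹ * (bc K γ * ae (algebraMap R K d') N) ∈ affG K := by
    have h2 : Sum.inl ((bc K γ * ae (algebraMap R K d') N : Aut2 K) : Aut2 K ⧸ affG K) =
      (va (algebraMap R K d) N : Vtx (affG K) (triG K)) := h
    exact QuotientGroup.eq.1 (Sum.inl.inj h2).symm
  obtain ⟨A, hA⟩ : ∃ A : Aut2 K,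
      A = (ae (algebraMap R K d) N)⁻¹ * (bc K γ * ae (algebraMap R K d') N) := ⟨_, rfl⟩
  rw [← hA] at h1
  have h3 : bc K γ * ae (algebraMap R K d') N = ae (algebraMap R K d) N * A := by
    rw [hA]; group
  have key : ∀ p : MvPolynomial (Fin 2) K, p.totalDegree ≤ 1 →
      ∃ c a b : K, bc K γ (ae (algebraMap R K d') N p) = Qp (algebraMap R K d) N c a b := by
    intro p hp
    obtain ⟨c, a, b, h4⟩ := ae_lin hdK N ((h1 p).1 hp)
    refine ⟨c, a, b, ?_⟩
    rw [← mul_ap, h3, mul_ap, h4]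
  constructor
  · obtain ⟨c, a, b, h4⟩ := key (X 1) (by simp)
    rw [ae_X1, bc_X] at h4
    obtain ⟨c', a', b', h5, -⟩ := exists_Qp hinj hN h4
    exact ⟨c', a', b', h5⟩
  · obtain ⟨c, a, b, h4⟩ := key (C (algebraMap R K d') * X 0)
      ((totalDegree_mul _ _).trans (by simp))
    have h6 : ae (algebraMap R K d') N (C (algebraMap R K d') * X 0) =
        map (algebraMap R K) (fpol d' N) := by
      rw [map_mul, ap_C, ae_X0, map_fpol, mul_add, ← mul_assoc, ← C_mul, mul_inv_cancel₀ hdK',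
        C_1, one_mul]
    rw [h6, bc_map] at h4
    obtain ⟨c', a', b', h5, -⟩ := exists_Qp hinj hN h4
    exact ⟨c', a', b', h5⟩

theorem ap_Qp {R : Type*} [CommRing R] (γ : Aut2 R) (d : R) (N : ℕ) (c a b : R) :
    γ (Qp d N c a b) = C c + C a * γ (X 1) + C b * γ (fpol d N) := by
  have hC : ∀ r : R, γ (C r) = C r := γ.commutes
  rw [Qp, map_add, map_add, map_mul, map_mul, hC, hC, hC]

theorem Qp_lin {R : Type*} [CommRing R] (d : R) (N : ℕ) (r s t c a b c' a' b' : R) :
    C r + C s * Qp d N c a b + C t * Qp d N c' a' b' =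
      Qp d N (r + s * c + t * c') (s * a + t * a') (s * b + t * b') := by
  simp only [Qp, C_add, C_mul]
  ring

theorem X1_eq_Qp {R : Type*} [CommRing R] (d : R) (N : ℕ) :
    (X 1 : MvPolynomial (Fin 2) R) = Qp d N 0 1 0 := by
  simp [Qp]

theorem fpol_eq_Qp {R : Type*} [CommRing R] (d : R) (N : ℕ) :
    fpol d N = Qp d N 0 0 1 := by
  simp [Qp]

omit [IsDomain R] in
/-- The determinant is a unit. -/
theorem det_unit (hinj : Function.Injective (algebraMap R K)) {N : ℕ} (hN : 2 ≤ N) {d d' : R}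
    (hd : d ≠ 0) (hd' : d' ≠ 0) {γ : Aut2 R}
    (h : act (bc K γ) (va (algebraMap R K d') N) = va (algebraMap R K d) N)
    {c0 a0 b0 c1 a1 b1 : R} (h0 : γ (X 1) = Qp d N c0 a0 b0)
    (h1 : γ (fpol d' N) = Qp d N c1 a1 b1) : IsUnit (a0 * b1 - b0 * a1) := by
  have h' : act (bc K γ⁻¹) (va (algebraMap R K d) N) = va (algebraMap R K d') N := by
    rw [← h, map_inv, act_inv_act]
  obtain ⟨⟨s0, t0, u0, e0⟩, ⟨s1, t1, u1, e1⟩⟩ := mat_of_act hinj hN hd' hd h'
  have f0 : (X 1 : MvPolynomial (Fin 2) R) = γ (γ⁻¹ (X 1)) := by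
    change _ = (γ * γ⁻¹) (X 1)
    rw [mul_inv_cancel]; rfl
  have f1 : fpol d N = γ (γ⁻¹ (fpol d N)) := by
    change _ = (γ * γ⁻¹) (fpol d N)
    rw [mul_inv_cancel]; rfl
  rw [e0, ap_Qp, h0, h1, Qp_lin] at f0
  rw [e1, ap_Qp, h0, h1, Qp_lin] at f1
  have g1 := congrArg (coeff (Finsupp.single 1 1)) f0
  have g2 := congrArg (coeff (Finsupp.single 1 N)) f0
  have g3 := congrArg (coeff (Finsupp.single 1 1)) f1
  have g4 := congrArg (coeff (Finsupp.single 1 N)) f1
  rw [X1_eq_Qp d N, coeff_Qp_y hN, coeff_Qp_y hN] at g1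
  rw [X1_eq_Qp d N, coeff_Qp_yN hN, coeff_Qp_yN hN] at g2
  rw [fpol_eq_Qp, coeff_Qp_y hN, coeff_Qp_y hN] at g3
  rw [fpol_eq_Qp, coeff_Qp_yN hN, coeff_Qp_yN hN] at g4
  refine IsUnit.of_mul_eq_one (t0 * u1 - u0 * t1) ?_
  -- det M * det M' = 1
  have : (a0 * b1 - b0 * a1) * (t0 * u1 - u0 * t1) =
      (t0 * a0 + u0 * a1) * (t1 * b0 + u1 * b1) - (t0 * b0 + u0 * b1) * (t1 * a0 + u1 * a1) := by
    ring
  rw [this, ← g1, ← g2, ← g3, ← g4]
  ring

omit [IsDomain R] in
/-- The vertices in the orbit of `a_d'` have size at least `N`. -/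
theorem size_va (hinj : Function.Injective (algebraMap R K)) {d' : R} (hd' : d' ≠ 0)
    (hu : ¬ IsUnit d') (N : ℕ) (γ : Aut2 R) (k : Aut2 K)
    (h : act (bc K γ) (va (algebraMap R K d') N) =
      (Sum.inl (k : Aut2 K ⧸ affG K) : Vtx (affG K) (triG K))) : N ≤ dA k := by
  have hdK' : algebraMap R K d' ≠ 0 := fun h0 => hd' (hinj (by rw [h0, map_zero]))
  have h1 : k⁻¹ * (bc K γ * ae (algebraMap R K d') N) ∈ affG K := by
    have h2 : Sum.inl ((bc K γ * ae (algebraMap R K d') N : Aut2 K) : Aut2 K ⧸ affG K) =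
      (Sum.inl (k : Aut2 K ⧸ affG K) : Vtx (affG K) (triG K)) := h
    exact QuotientGroup.eq.1 (Sum.inl.inj h2).symm
  have h2 := dA_mul k _ h1
  rw [mul_inv_cancel_left] at h2
  have h6 : ae (algebraMap R K d') N (C (algebraMap R K d') * X 0) =
      map (algebraMap R K) (fpol d' N) := by
    rw [map_mul, ap_C, ae_X0, map_fpol, mul_add, ← mul_assoc, ← C_mul, mul_inv_cancel₀ hdK',
      C_1, one_mul]
  have h3 : (γ (fpol d' N)).totalDegree ≤ dA k := by
    refine le_trans (le_trans (le_of_eq ?_) (le_max_left _ _)) h2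
    rw [← totalDegree_map_inj (K := K) hinj, ← bc_map, ← h6, ← mul_ap, map_mul, ap_C,
      totalDegree_C_mul hdK']
  obtain ⟨M, hM, hzM⟩ := exists_max_ideal_of_mem_nonunits (show d' ∈ nonunits R from hu)
  let _ : Field (R ⧸ M) := Ideal.Quotient.field M
  have hz0 : algebraMap R (R ⧸ M) d' = 0 := Ideal.Quotient.eq_zero_iff_mem.2 hzM
  have e5 : map (algebraMap R (R ⧸ M)) (γ (fpol d' N)) = (bc (R ⧸ M) γ (X 1)) ^ N := by
    rw [← bc_map, map_fpol, hz0, C_0, zero_mul, zero_add, map_pow]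
  have hX : (bc (R ⧸ M) γ (X 1)) ≠ 0 := by
    intro h0
    have := one_le_deg (bc (R ⧸ M) γ) 1
    rw [h0] at this
    simp at this
  have e6 : (map (algebraMap R (R ⧸ M)) (γ (fpol d' N))).totalDegree ≤
      (γ (fpol d' N)).totalDegree := Finset.sup_mono (support_map_subset _ _)
  rw [e5, totalDegree_pow_eq _ hX] at e6
  exact ((Nat.le_mul_of_pos_right N (one_le_deg (bc (R ⧸ M) γ) 1)).trans e6).trans h3

/-- A polynomial `c + a y + b (0 x + y ^ N)` is a polynomial in `y`. -/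
theorem Qp_zero_supp {L : Type*} [Field L] (N : ℕ) (c a b : L) :
    Qp (0 : L) N c a b ∈ supported L ({1} : Set (Fin 2)) := by
  rw [Qp, fpol, C_0, zero_mul, zero_add]
  exact Subalgebra.add_mem _ (Subalgebra.add_mem _ (C_supp _)
    (Subalgebra.mul_mem _ (C_supp _) X1_supp))
    (Subalgebra.mul_mem _ (C_supp _) (Subalgebra.pow_mem _ X1_supp _))

/-- An automorphism does not map `x` and `y` into `L[y]`. -/
theorem not_both_supp {L : Type*} [Field L] (g : Aut2 L)
    (h0 : g (X 0) ∈ supported L ({1} : Set (Fin 2)))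
    (h1 : g (X 1) ∈ supported L ({1} : Set (Fin 2))) : False := by
  have h2 : ∀ p, g p ∈ supported L ({1} : Set (Fin 2)) := by
    intro p
    induction p using MvPolynomial.induction_on with
    | C a => rw [ap_C]; exact C_supp _
    | add p q hp hq => rw [map_add]; exact Subalgebra.add_mem _ hp hq
    | mul_X p i hp =>
      rw [map_mul]
      refine Subalgebra.mul_mem _ hp ?_
      fin_cases i
      · exact h0
      · exact h1
  have h3 := h2 (g⁻¹ (X 0))
  rw [ap_inv, X_mem_supported] at h3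
  exact absurd h3 (by simp)

theorem coeff_lin_pow {L : Type*} [Field L] (N : ℕ) (c a : L) :
    coeff (Finsupp.single 1 N) ((C c + C a * X 1 : MvPolynomial (Fin 2) L) ^ N) = a ^ N := by
  rw [add_comm, add_pow, coeff_sum, Finset.sum_eq_single N]
  · rw [Nat.sub_self, pow_zero, mul_one, Nat.choose_self, Nat.cast_one, mul_one, mul_pow,
      ← C_pow, coeff_C_mul, coeff_X_pow, if_pos rfl, mul_one]
  · intro b hb hbN
    have : (C a * X 1 : MvPolynomial (Fin 2) L) ^ b * C c ^ (N - b) * ((N.choose b : ℕ) :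
        MvPolynomial (Fin 2) L) = C (a ^ b * c ^ (N - b) * (N.choose b : L)) * X 1 ^ b := by
      rw [mul_pow, C_mul, C_mul, C_pow, C_pow, map_natCast]
      ring
    rw [this, coeff_C_mul, coeff_X_pow, if_neg, mul_zero]
    exact single_ne 1 hbN
  · intro h
    exact absurd (Finset.self_mem_range_succ N) h

omit [IsDomain R] in
/-- Reduction modulo a prime over `d`. -/
theorem red_det {L : Type*} [Field L] (π : R →+* L) {N : ℕ} (hN : 2 ≤ N) {d d' : R}
    (hπ : π d = 0) {γ : Aut2 R} {c0 a0 b0 c1 a1 b1 : R} (h0 : γ (X 1) = Qp d N c0 a0 b0)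
    (h1 : γ (fpol d' N) = Qp d N c1 a1 b1) (hb0 : π b0 = 0) :
    π b1 = π a0 ^ N := by
  let _ : Algebra R L := π.toAlgebra
  have hal : ∀ r : R, algebraMap R L r = π r := fun _ => rfl
  have e0 : bc L γ (X 1) = Qp 0 N (π c0) (π a0) (π b0) := by
    rw [bc_X, h0, map_Qp, hal, hal, hal, hal, hπ]
  have e1 : bc L γ (C (π d') * X 0 + X 1 ^ N) = Qp 0 N (π c1) (π a1) (π b1) := by
    rw [← hal d', ← map_fpol, bc_map, h1, map_Qp, hal, hal, hal, hal, hπ]
  have hd' : π d' = 0 := by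
    by_contra hne
    refine not_both_supp (bc L γ) ?_ (by rw [e0]; exact Qp_zero_supp _ _ _ _)
    have e2 : bc L γ (X 0) = C (π d')⁻¹ *
        (bc L γ (C (π d') * X 0 + X 1 ^ N) - bc L γ (X 1) ^ N) := by
      rw [map_add, map_mul, map_pow, ap_C, add_sub_cancel_right, ← mul_assoc, ← C_mul,
        inv_mul_cancel₀ hne, C_1, one_mul]
    rw [e2, e1, e0]
    exact Subalgebra.mul_mem _ (C_supp _) (Subalgebra.sub_mem _ (Qp_zero_supp _ _ _ _)
      (Subalgebra.pow_mem _ (Qp_zero_supp _ _ _ _) _))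
  rw [hd', C_0, zero_mul, zero_add, map_pow, e0, hb0] at e1
  have e3 := congrArg (coeff (Finsupp.single 1 N)) e1
  rw [coeff_Qp_yN hN, Qp, C_0, zero_mul, add_zero, coeff_lin_pow] at e3
  exact e3.symm

omit [IsDomain R] in
/-- **No loop.** The edge `(ψ b, a_d)` is not in the orbits of the edges `(b, a_d')`. -/
theorem no_loop (hinj : Function.Injective (algebraMap R K)) {N : ℕ} (hN : 2 ≤ N)
    {d u e f d' : R} (hd : d ≠ 0) (hd' : d' ≠ 0) (heu : e * u + d ^ 2 * f = 1)
    {L : Type*} [Field L] (π₀ π₁ : R →+* L) (h0 : π₀ d = 0) (h1 : π₁ d = 0)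
    (hun : ∀ a : R, IsUnit a → π₀ a = π₀ u ^ (N + 1) → π₁ a = π₁ u ^ (N + 1) → False)
    {ψ : Aut2 K} (hψ : ψ (X 1) = Qp (algebraMap R K d) N 0
      (algebraMap R K u * (algebraMap R K d ^ 2)⁻¹) (algebraMap R K d)⁻¹)
    {γ : Aut2 R} (hB : act (bc K γ) (vB 1) = vB ψ)
    (hA : act (bc K γ) (va (algebraMap R K d') N) = va (algebraMap R K d) N) : False := by
  have hdK : algebraMap R K d ≠ 0 := fun h0 => hd (hinj (by rw [h0, map_zero]))
  obtain ⟨⟨c0, a0, b0, e0⟩, ⟨c1, a1, b1, e1⟩⟩ := mat_of_act hinj hN hd hd' hA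
  have hdet := det_unit hinj hN hd hd' hA e0 e1
  -- the first row
  have hrow : a0 * d = b0 * u := by
    have h2 := QuotientGroup.eq.1 (Sum.inr.inj hB)
    have h2' : (bc K γ * 1)⁻¹ * ψ ∈ triG K := h2
    rw [mul_one] at h2'
    obtain ⟨v, v', c, p, hp, hu', hv, -, f1⟩ := h2'
    have f2 : ψ (X 1) = C v' * bc K γ (X 1) + C c := by
      have := congrArg (bc K γ) f1
      rw [mul_ap, ap_inv, map_add, map_mul, ap_C, ap_C] at this
      exact this
    rw [hψ, bc_X, e0, map_Qp] at f2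
    have f3 : (C v' * Qp (algebraMap R K d) N (algebraMap R K c0) (algebraMap R K a0)
        (algebraMap R K b0) + C c : MvPolynomial (Fin 2) K) = Qp (algebraMap R K d) N
        (v' * algebraMap R K c0 + c) (v' * algebraMap R K a0) (v' * algebraMap R K b0) := by
      simp only [Qp, C_add, C_mul]
      ring
    rw [f3] at f2
    have g1 := congrArg (coeff (Finsupp.single 1 1)) f2
    have g2 := congrArg (coeff (Finsupp.single 1 N)) f2
    rw [coeff_Qp_y hN, coeff_Qp_y hN] at g1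
    rw [coeff_Qp_yN hN, coeff_Qp_yN hN] at g2
    apply hinj
    rw [map_mul, map_mul]
    apply mul_left_cancel₀ hv
    rw [← mul_assoc, ← g1, ← mul_assoc, ← g2]
    field_simp
  obtain ⟨cc, hcc⟩ : ∃ cc, cc = e * a0 + d * f * b0 := ⟨_, rfl⟩
  have hb0 : b0 = d * cc := by
    rw [hcc]
    linear_combination (-b0) * heu - e * hrow
  have ha0 : a0 = u * cc := by
    rw [hcc]
    linear_combination (-a0) * heu + d * f * hrow
  have hcu : IsUnit cc := by
    have : a0 * b1 - b0 * a1 = cc * (u * b1 - d * a1) := by rw [ha0, hb0]; ring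
    rw [this] at hdet
    exact isUnit_of_mul_isUnit_left hdet
  obtain ⟨w, hw⟩ := hcu
  have key : ∀ π : R →+* L, π d = 0 →
      π ((a0 * b1 - b0 * a1) * (↑w⁻¹ : R) ^ (N + 1)) = π u ^ (N + 1) := by
    intro π hπ
    have hb : π b0 = 0 := by rw [hb0, map_mul, hπ, zero_mul]
    have h3 := red_det π hN hπ e0 e1 hb
    have h4 : π cc * π (↑w⁻¹ : R) = 1 := by
      rw [← map_mul, ← hw, Units.mul_inv, map_one]
    rw [map_mul, map_sub, map_mul, map_mul, hb, zero_mul, sub_zero, h3, map_pow, ha0, map_mul]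
    calc π u * π cc * (π u * π cc) ^ N * π (↑w⁻¹ : R) ^ (N + 1)
        = π u ^ (N + 1) * (π cc * π (↑w⁻¹ : R)) ^ (N + 1) := by ring
      _ = π u ^ (N + 1) := by rw [h4, one_pow, mul_one]
  exact hun _ (hdet.mul ((Units.isUnit w⁻¹).pow _)) (key π₀ h0) (key π₁ h1)

end Int

end Pool.Agent.GAR
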