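import Mathlib

set_option autoImplicit false

/-! Edge weights on a forest with values in a group have a potential; in a free group an element
which has roots of all orders is trivial (helper20). -/

namespace Pool.Agent.GAR

open SimpleGraph

section Pot
variable {V : Type*} {G : SimpleGraph V} {M : Type*} [Group M]

/-- The weight of a walk. -/
def wsum (w : V → V → M) {u v : V} (p : G.Walk u v) : M :=
  (p.darts.map fun d => w d.fst d.snd).prod

theorem wsum_concat (w : V → V → M) {u v x : V} (p : G.Walk u v) (h : G.Adj v x) :
    wsum w (p.concat h) = wsum w p * w v x := by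
  rw [wsum, Walk.darts_concat, List.concat_eq_append, List.map_append, List.prod_append]
  simp [wsum]

open Classical in
/-- The weight of the path from `r` to `v`. -/
noncomputable def pot (G : SimpleGraph V) (w : V → V → M) (r v : V) : M :=
  if h : G.Reachable r v then wsum w h.some.bypass else 1

theorem pot_eq (hG : G.IsAcyclic) (w : V → V → M) {r v : V} (p : G.Walk r v) (hp : p.IsPath) :
    pot G w r v = wsum w p := by
  classical
  have h : G.Reachable r v := ⟨p⟩
  rw [pot, dif_pos h]
  have h1 : h.some.bypass.IsPath := h.some.bypass_isPath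
  have h2 := (hG.subsingleton_path r v).elim ⟨_, h1⟩ ⟨p, hp⟩
  have h3 : (h.some.bypass) = p := by
    convert Subtype.mk.inj h2
  rw [h3]

theorem pot_adj (hG : G.IsAcyclic) (w : V → V → M)
    (hw : ∀ u v, G.Adj u v → w v u = (w u v)⁻¹)
    {r u v : V} (hr : G.Reachable r u) (h : G.Adj u v) : pot G w r v = pot G w r u * w u v := by
  classical
  obtain ⟨W⟩ := hr
  obtain ⟨p, hp⟩ : ∃ p : G.Walk r u, p.IsPath := ⟨W.bypass, W.bypass_isPath⟩
  by_cases hv : v ∈ p.support
  · obtain ⟨q, hq⟩ : ∃ q : G.Walk r v, q.IsPath :=
      ⟨p.takeUntil v hv, hp.takeUntil hv⟩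
    have h1 := hG.path_concat hq hp h.symm hv
    rw [pot_eq hG w p hp, pot_eq hG w q hq, h1, wsum_concat, hw u v h]
    group
  · have hq : (p.concat h).IsPath := hp.concat hv h
    rw [pot_eq hG w p hp, pot_eq hG w _ hq, wsum_concat]

/-- Antisymmetric edge weights on a forest have a potential. -/
theorem exists_potential (hG : G.IsAcyclic) (w : V → V → M)
    (hw : ∀ u v, G.Adj u v → w v u = (w u v)⁻¹) :
    ∃ h : V → M, ∀ u v, G.Adj u v → h v = h u * w u v := by
  classical
  have hr : ∀ v, G.Reachable (G.connectedComponentMk v).out v := fun v =>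
    ConnectedComponent.exact (Quot.out_eq _)
  refine ⟨fun v => pot G w (G.connectedComponentMk v).out v, fun u v h => ?_⟩
  have he : G.connectedComponentMk v = G.connectedComponentMk u :=
    ConnectedComponent.sound h.symm.reachable
  simp only [he]
  exact pot_adj hG w hw (hr u) h

/-- A potential of invariant weights is invariant up to a constant on components. -/
theorem potential_inv {w : V → V → M} {h : V → M} (hh : ∀ u v, G.Adj u v → h v = h u * w u v)
    {f : V → V} (hf : ∀ u v, G.Adj u v → G.Adj (f u) (f v))
    (hw : ∀ u v, G.Adj u v → w (f u) (f v) = w u v) {u v : V} (hr : G.Reachable u v) :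
    (h (f u))⁻¹ * h (f v) = (h u)⁻¹ * h v := by
  obtain ⟨p⟩ := hr
  induction p with
  | nil => simp
  | @cons a b c hab p ih =>
    have h1 := hh a b hab
    have h2 := hh (f a) (f b) (hf a b hab)
    rw [hw a b hab] at h2
    rw [h1, h2] at ih
    rw [mul_inv_rev, mul_inv_rev, mul_assoc, mul_assoc] at ih
    exact mul_left_cancel ih

/-- A potential changes by elements of the subgroup `S` along walks in a set of vertices all
whose edges have weights in `S`. -/
theorem potential_mem {w : V → V → M} {h : V → M} (hh : ∀ u v, G.Adj u v → h v = h u * w u v)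
    (S : Subgroup M) {X : Set V} (hX : ∀ u v, G.Adj u v → u ∈ X → v ∈ X → w u v ∈ S) {u v : V}
    (p : G.Walk u v) (hp : ∀ x ∈ p.support, x ∈ X) : (h u)⁻¹ * h v ∈ S := by
  induction p with
  | nil => simp
  | @cons a b c hab p ih =>
    have h1 := ih fun x hx => hp x (by simp [hx])
    have h2 := hX a b hab (hp a (by simp)) (hp b (by simp))
    rw [hh a b hab, mul_inv_rev, mul_assoc] at h1
    have h3 := S.mul_mem h2 h1
    rwa [mul_inv_cancel_left] at h3

end Pot

section Free
variable {α : Type*}

open FreeGroup in
/-- Powers of nontrivial elements of a free group are long. -/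
theorem le_norm_pow [DecidableEq α] {x : FreeGroup α} (hx : x ≠ 1) (n : ℕ) :
    n ≤ (x ^ n).norm := by
  rcases Nat.eq_zero_or_pos n with rfl | hn
  · exact Nat.zero_le _
  have h1 : (x ^ n).toWord = reduceCyclically.conjugator x.toWord ++
      (List.replicate n (reduceCyclically x.toWord)).flatten ++
        invRev (reduceCyclically.conjugator x.toWord) := by
    rw [toWord_pow, reduceCyclically.reduce_flatten_replicate isReduced_toWord,
      if_neg (by omega)]
  have h2 : reduceCyclically x.toWord ≠ [] := by
    intro h
    have h3 := reduceCyclically.conj_conjugator_reduceCyclically x.toWord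
    rw [h, List.append_nil] at h3
    apply hx
    have h4 := congrArg mk h3
    rw [mk_toWord, ← mul_mk, ← inv_mk, mul_inv_cancel] at h4
    exact h4.symm
  have h3 : 1 ≤ (reduceCyclically x.toWord).length := List.length_pos_iff.2 h2
  rw [FreeGroup.norm, h1, List.length_append, List.length_append, List.length_flatten, List.map_replicate,
    List.sum_replicate, smul_eq_mul]
  have : n * 1 ≤ n * (reduceCyclically x.toWord).length := Nat.mul_le_mul_left _ h3
  omega

/-- In a free group an element which has roots of all orders is trivial. -/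
theorem free_div {x : FreeGroup α} (h : ∀ n : ℕ, n ≠ 0 → ∃ y : FreeGroup α, y ^ n = x) :
    x = 1 := by
  classical
  by_contra hx
  obtain ⟨y, hy⟩ := h (x.norm + 1) (by omega)
  have hy1 : y ≠ 1 := by
    rintro rfl
    rw [one_pow] at hy
    exact hx hy.symm
  have := le_norm_pow hy1 (x.norm + 1)
  rw [hy] at this
  omega

/-- Free groups are torsion free. -/
theorem free_tor {x : FreeGroup α} {n : ℕ} (hn : n ≠ 0) (h : x ^ n = 1) : x = 1 := by
  apply pow_left_injective hn
  simpa using h

end Free

end Pool.Agent.GAR
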