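import Mathlib
import Pool.Agent.GAR.Orbits

set_option autoImplicit false

/-! The theorem over a domain of characteristic zero. -/

namespace Pool.Agent.GAR

open MvPolynomial

section Final
variable {R : Type*} [CommRing R]

/-- Degrees in a one-parameter family are bounded. -/
theorem degree_family {S : Type*} [CommRing S] [Algebra S R]
    (P : Polynomial (MvPolynomial (Fin 2) R)) (t : S) :
    (P.eval (C (algebraMap S R t))).totalDegree ≤
      P.support.sup fun k => (P.coeff k).totalDegree := by
  rw [Polynomial.eval_eq_sum, Polynomial.sum]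
  refine totalDegree_finsetSum_le fun k hk => ?_
  refine (totalDegree_mul _ _).trans ?_
  rw [← C_pow, totalDegree_C, add_zero]
  exact Finset.le_sup (f := fun k => (P.coeff k).totalDegree) hk

theorem totalDegree_map_le' {S : Type*} [CommRing S] [Algebra R S]
    (p : MvPolynomial (Fin 2) R) : (map (algebraMap R S) p).totalDegree ≤ p.totalDegree :=
  Finset.sup_mono (support_map_subset _ _)

theorem bc_affine (K : Type*) [Field K] [Algebra R K] {φ : Aut2 R}
    (h : ∀ i, (φ (X i)).totalDegree ≤ 1) : bc K φ ∈ affG K :=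
  mem_affG_of _ (by rw [bc_X]; exact (totalDegree_map_le' _).trans (h 0))
    (by rw [bc_X]; exact (totalDegree_map_le' _).trans (h 1))

theorem bc_triangular (K : Type*) [Field K] [Algebra R K] {φ : Aut2 R}
    (h : ∀ i, ∃ c : R, IsUnit c ∧ ∃ p ∈ supported R {j : Fin 2 | i < j},
      φ (X i) = C c * X i + p) : bc K φ ∈ triG K := by
  obtain ⟨a, ha, p, hp, h0⟩ := h 0
  obtain ⟨b, hb, q, hq, h1⟩ := h 1
  have e0 : {j : Fin 2 | 0 < j} = {1} := by ext j; fin_cases j <;> simp
  have e1 : {j : Fin 2 | 1 < j} = ∅ := by ext j; fin_cases j <;> simp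
  rw [e0] at hp
  rw [e1, supported_empty] at hq
  obtain ⟨c, rfl⟩ := Algebra.mem_bot.1 hq
  obtain ⟨p', rfl⟩ := (mem_supp_iff p).1 hp
  refine ⟨algebraMap R K a, algebraMap R K b, algebraMap R K c,
    map (algebraMap R K) (Polynomial.aeval (X 1) p'), (mem_supp_iff _).2
      ⟨p'.map (algebraMap R K), ?_⟩, (ha.map (algebraMap R K)).ne_zero,
      (hb.map (algebraMap R K)).ne_zero, ?_, ?_⟩
  · rw [Polynomial.aeval_def, Polynomial.aeval_def, Polynomial.hom_eval₂, map_X,
      Polynomial.eval₂_map]
    congr 1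
    ext r; simp [algebraMap_eq]
  · rw [bc_X, h0, map_add, map_mul, map_C, map_X]
  · rw [bc_X, h1, map_add, map_mul, map_C, map_X, algebraMap_eq, map_C]

variable [IsDomain R]

/-- **Final form**, given the theorem of Jung over one algebraically closed field. -/
theorem final (K : Type*) [Field K] [Algebra R K] (hinj : Function.Injective (algebraMap R K))
    (jung : ∀ g : Aut2 K, g ∈ affG K ⊔ triG K) {z : R} (hz : z ≠ 0) (hu : ¬ IsUnit z)
    (d m : ℕ) {S : Type*} [CommRing S] [Algebra S R]
    (g : Fin m → (Multiplicative S →* Aut2 R))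
    (hg : ∀ j, ∃ P : Fin 2 → Polynomial (MvPolynomial (Fin 2) R), ∀ (t : S) (i : Fin 2),
      g j (Multiplicative.ofAdd t) (X i) = (P i).eval (C (algebraMap S R t))) :
    {n | F hz n ∈ Subgroup.closure
      ({φ : Aut2 R | ∀ i, (φ (X i)).totalDegree ≤ 1} ∪
       {φ : Aut2 R | ∀ i, ∃ c : R, IsUnit c ∧ ∃ p ∈ supported R {j : Fin 2 | i < j},
          φ (X i) = C c * X i + p} ∪
       {φ : Aut2 R | ∀ i, (φ (X i)).totalDegree ≤ d} ∪
       ⋃ j, Set.range (g j))}.Finite := by
  choose P hP using hg
  let N : ℕ := Finset.univ.sup fun j : Fin m => Finset.univ.sup fun i : Fin 2 =>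
    (P j i).support.sup fun k => ((P j i).coeff k).totalDegree
  have hN : ∀ j (x : Multiplicative S) (i : Fin 2), (g j x (X i)).totalDegree ≤ N := by
    intro j x i
    have h1 := hP j (Multiplicative.toAdd x) i
    rw [ofAdd_toAdd] at h1
    rw [h1]
    refine (degree_family (P j i) _).trans ?_
    refine le_trans ?_ (Finset.le_sup (f := fun j : Fin m => Finset.univ.sup fun i : Fin 2 =>
      (P j i).support.sup fun k => ((P j i).coeff k).totalDegree) (Finset.mem_univ j))
    exact Finset.le_sup (f := fun i : Fin 2 =>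
      (P j i).support.sup fun k => ((P j i).coeff k).totalDegree) (Finset.mem_univ i)
  have hdeg : ∀ φ : Aut2 R, (∀ i, (φ (X i)).totalDegree ≤ max 1 (max d N)) →
      dA (bc K φ) ≤ max 1 (max d N) := by
    intro φ h
    refine max_le ?_ ?_
    · rw [bc_X]; exact (totalDegree_map_le' _).trans (h 0)
    · rw [bc_X]; exact (totalDegree_map_le' _).trans (h 1)
  refine (Set.finite_Iic (max 1 (max d N))).subset fun n hn => ?_
  by_contra hlt
  rw [Set.mem_Iic, not_le] at hlt
  refine F_notMem (K := K) hinj hz hu (max 1 (max d N)) (le_max_left _ _) _ ?_ n hlt hn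
  rintro φ (((h | h) | h) | h)
  · exact Or.inl (bc_affine K h)
  · exact Or.inr (Or.inl (bc_triangular K h))
  · refine Or.inr (Or.inr ⟨jung _, hdeg φ fun i => (h i).trans ?_⟩)
    exact le_max_of_le_right (le_max_left _ _)
  · obtain ⟨j, x, rfl⟩ := Set.mem_iUnion.1 h
    refine Or.inr (Or.inr ⟨jung _, hdeg _ fun i => (hN j x i).trans ?_⟩)
    exact le_max_of_le_right (le_max_right _ _)

end Final

end Pool.Agent.GAR
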