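import Mathlib
import Pool.Agent.GAR.Aut

set_option autoImplicit false

/-! Jung's theorem from Rentschler's theorem: over an algebraically closed field of
characteristic zero the affine and the triangular automorphisms generate `Aut K[x, y]`. -/

namespace Pool.Agent.GAR

open MvPolynomial

section Jung
variable {K : Type*} [Field K]

/-- The swap of the two variables and the shears `x ↦ x + p(y)`. -/
def elemSet (K : Type*) [Field K] : Set (Aut2 K) :=
  {phi : Aut2 K | phi (X 0) = X 1 ∧ phi (X 1) = X 0} ∪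
    {phi : Aut2 K | phi (X 1) = X 1 ∧
      ∃ p ∈ supported K ({1} : Set (Fin 2)), phi (X 0) = X 0 + p}

theorem closure_elemSet_le : Subgroup.closure (elemSet K) ≤ affG K ⊔ triG K := by
  rw [Subgroup.closure_le]
  rintro phi (⟨h0, h1⟩ | ⟨h1, p, hp, h0⟩)
  · refine (le_sup_left : affG K ≤ affG K ⊔ triG K) (mem_affG_of _ ?_ ?_)
    · rw [h0]; simp
    · rw [h1]; simp
  · refine (le_sup_right : triG K ≤ affG K ⊔ triG K) ?_
    exact ⟨1, 1, 0, p, hp, one_ne_zero, one_ne_zero, by simpa using h0, by simpa using h1⟩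

theorem pderiv_supp {p : MvPolynomial (Fin 2) K} (hp : p ∈ supported K ({1} : Set (Fin 2))) :
    pderiv 0 p = 0 := by
  obtain ⟨q, rfl⟩ := (mem_supp_iff p).1 hp
  rw [Polynomial.aeval_eq_sum_range, map_sum]
  refine Finset.sum_eq_zero fun i _ => ?_
  rw [Derivation.map_smul, Derivation.leibniz_pow, pderiv_X_of_ne (by decide)]
  simp

theorem coeff_pderiv0 (p : MvPolynomial (Fin 2) K) (m : Fin 2 →₀ ℕ) :
    coeff m (pderiv 0 p) = coeff (m + Finsupp.single 0 1) p * ((m 0 : K) + 1) := by
  induction p using MvPolynomial.induction_on' with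
  | monomial u a =>
    rw [pderiv_monomial, coeff_monomial, coeff_monomial]
    by_cases h : u = m + Finsupp.single 0 1
    · subst h
      simp
    · rw [if_neg h]
      split_ifs with h2
      · by_cases h3 : u 0 = 0
        · rw [h3]; simp
        · exfalso
          apply h
          rw [← h2]
          ext i
          fin_cases i
          · simp; omega
          · simp
      · simp
  | add p q hp hq =>
    rw [map_add, coeff_add, coeff_add, hp, hq, add_mul]

theorem supp_of_pderiv [CharZero K] {p : MvPolynomial (Fin 2) K} (h : pderiv 0 p = 0) :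
    p ∈ supported K ({1} : Set (Fin 2)) := by
  rw [mem_supported]
  intro i hi
  rw [Set.mem_singleton_iff]
  by_contra h1
  have hi0 : i = 0 := by
    fin_cases i
    · rfl
    · exact absurd rfl h1
  subst hi0
  rw [Finset.mem_coe, mem_vars_iff_mem_support] at hi
  obtain ⟨d, hd, hd0⟩ := hi
  rw [Finsupp.mem_support_iff] at hd0
  have h2 := coeff_pderiv0 p (d - Finsupp.single 0 1)
  have h3 : d - Finsupp.single 0 1 + Finsupp.single 0 1 = d := by
    ext i
    fin_cases i
    · simp; omega
    · simp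
  rw [h, h3, coeff_zero] at h2
  rcases mul_eq_zero.1 h2.symm with h4 | h4
  · exact (mem_support_iff.1 hd) h4
  · exact Nat.cast_add_one_ne_zero _ h4

theorem iterate_mul_X0 (q : MvPolynomial (Fin 2) K) (n : ℕ) :
    (fun r => pderiv (R := K) (0 : Fin 2) r)^[n + 1] (q * X 0) =
      (fun r => pderiv (R := K) (0 : Fin 2) r)^[n + 1] q * X 0 +
        ((n : MvPolynomial (Fin 2) K) + 1) * (fun r => pderiv (R := K) (0 : Fin 2) r)^[n] q := by
  induction n with
  | zero =>
    simp only [zero_add, Function.iterate_one, Function.iterate_zero, id_eq, Nat.cast_zero,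
      one_mul]
    rw [Derivation.leibniz, pderiv_X_self]
    simp only [smul_eq_mul, mul_one]
    ring
  | succ n ih =>
    rw [Function.iterate_succ_apply', ih, Function.iterate_succ_apply' _ (n + 1) q,
      Function.iterate_succ_apply' _ n q]
    simp only [map_add, Derivation.leibniz, pderiv_X_self, smul_eq_mul, mul_one,
      Derivation.map_natCast, Derivation.map_one_eq_zero, Nat.cast_add, Nat.cast_one]
    ring

theorem iterate_mul_X1 (q : MvPolynomial (Fin 2) K) (n : ℕ) :
    (fun r => pderiv (R := K) (0 : Fin 2) r)^[n] (q * X 1) =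
      (fun r => pderiv (R := K) (0 : Fin 2) r)^[n] q * X 1 := by
  induction n with
  | zero => rfl
  | succ n ih =>
    rw [Function.iterate_succ_apply', ih, Function.iterate_succ_apply']
    simp only [Derivation.leibniz, smul_eq_mul]
    rw [pderiv_X_of_ne (by decide)]
    ring

theorem iterate_zero_fun (n : ℕ) :
    (fun r => pderiv (R := K) (0 : Fin 2) r)^[n] 0 = 0 := by
  induction n with
  | zero => rfl
  | succ n ih => rw [Function.iterate_succ_apply, map_zero, ih]

theorem iterate_add_fun (n : ℕ) (p q : MvPolynomial (Fin 2) K) :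
    (fun r => pderiv (R := K) (0 : Fin 2) r)^[n] (p + q) =
      (fun r => pderiv (R := K) (0 : Fin 2) r)^[n] p +
      (fun r => pderiv (R := K) (0 : Fin 2) r)^[n] q := by
  induction n generalizing p q with
  | zero => rfl
  | succ n ih => rw [Function.iterate_succ_apply, map_add, ih]; rfl

theorem pderiv_nilp (p : MvPolynomial (Fin 2) K) :
    ∃ n : ℕ, (fun r => pderiv (R := K) (0 : Fin 2) r)^[n] p = 0 := by
  induction p using MvPolynomial.induction_on with
  | C a => exact ⟨1, by simp⟩
  | add p q hp hq =>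
    obtain ⟨n, hn⟩ := hp
    obtain ⟨m, hm⟩ := hq
    refine ⟨n + m, ?_⟩
    rw [iterate_add_fun]
    have e1 : (fun r => pderiv (R := K) (0 : Fin 2) r)^[n + m] p = 0 := by
      rw [add_comm, Function.iterate_add_apply, hn, iterate_zero_fun]
    have e2 : (fun r => pderiv (R := K) (0 : Fin 2) r)^[n + m] q = 0 := by
      rw [Function.iterate_add_apply, hm, iterate_zero_fun]
    rw [e1, e2, add_zero]
  | mul_X p i hp =>
    obtain ⟨n, hn⟩ := hp
    have hn1 : (fun r => pderiv (R := K) (0 : Fin 2) r)^[n + 1] p = 0 := by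
      rw [add_comm, Function.iterate_add_apply, hn, iterate_zero_fun]
    refine ⟨n + 1, ?_⟩
    fin_cases i
    · change (fun r => pderiv (R := K) (0 : Fin 2) r)^[n + 1] (p * X 0) = 0
      rw [iterate_mul_X0, hn, hn1]; ring
    · change (fun r => pderiv (R := K) (0 : Fin 2) r)^[n + 1] (p * X 1) = 0
      rw [iterate_mul_X1, hn1]; ring

/-- The conjugate of `∂/∂x` by an automorphism. -/
noncomputable def conjD (g : Aut2 K) :
    Derivation K (MvPolynomial (Fin 2) K) (MvPolynomial (Fin 2) K) :=
  Derivation.mk' (g.toLinearMap ∘ₗ (pderiv (R := K) (0 : Fin 2)).toLinearMap ∘ₗ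
    (g⁻¹ : Aut2 K).toLinearMap) (fun a b => by
      change g (pderiv (R := K) (0 : Fin 2) (g⁻¹ (a * b))) =
        a • g (pderiv (R := K) (0 : Fin 2) (g⁻¹ b)) +
          b • g (pderiv (R := K) (0 : Fin 2) (g⁻¹ a))
      rw [map_mul, Derivation.leibniz, map_add, smul_eq_mul, smul_eq_mul, map_mul, map_mul,
        ap_inv, ap_inv, smul_eq_mul, smul_eq_mul])

theorem conjD_apply (g : Aut2 K) (p : MvPolynomial (Fin 2) K) :
    conjD g p = g (pderiv (R := K) (0 : Fin 2) (g⁻¹ p)) := rfl

theorem conjD_nilp (g : Aut2 K) (p : MvPolynomial (Fin 2) K) :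
    ∃ n : ℕ, (fun q => conjD g q)^[n] p = 0 := by
  obtain ⟨n, hn⟩ := pderiv_nilp (g⁻¹ p)
  have hs : Function.Semiconj (fun q => g q) (fun r => pderiv (R := K) (0 : Fin 2) r)
      (fun q => conjD g q) := fun q => by
    change g (pderiv (R := K) (0 : Fin 2) q) = conjD g (g q)
    rw [conjD_apply, inv_ap]
  have h := (hs.iterate_right n) (g⁻¹ p)
  refine ⟨n, ?_⟩
  rw [hn] at h
  simp only [ap_inv, map_zero] at h
  exact h.symm

/-- The core of the argument: an automorphism which preserves the fibration by `y` up to the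
derivation is triangular. -/
theorem tri_of [IsAlgClosed K] [CharZero K] (be : Aut2 K) (h1 : pderiv 0 (be (X 1)) = 0)
    (a : MvPolynomial (Fin 2) K) (ha : a ∈ supported K ({1} : Set (Fin 2)))
    (h0 : pderiv 0 (be (X 0)) = be a) : be ∈ triG K := by
  obtain ⟨q, hq⟩ := (mem_supp_iff _).1 (supp_of_pderiv h1)
  have hq1 : q.natDegree = 1 := by
    have h2 : (X 1 : MvPolynomial (Fin 2) K) = Polynomial.aeval (be⁻¹ (X 1)) q := by
      rw [← ap_aeval, ← hq, inv_ap]
    have h3 := congrArg totalDegree h2
    rw [totalDegree_aeval (one_le_deg _ _), totalDegree_X] at h3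
    exact Nat.eq_one_of_mul_eq_one_right h3.symm
  obtain ⟨b, hb, c, rfl⟩ := (Polynomial.natDegree_eq_one).1 hq1
  have e1 : be (X 1) = C b * X 1 + C c := by
    rw [hq]; simp [algebraMap_eq]
  have hsup : be (X 1) ∈ supported K ({1} : Set (Fin 2)) := supp_of_pderiv h1
  have hba := supp_ap be hsup ha
  obtain ⟨r, hr⟩ := (mem_supp_iff _).1 hba
  -- the remainder
  have hp : be (X 0) - be a * X 0 ∈ supported K ({1} : Set (Fin 2)) := by
    apply supp_of_pderiv
    rw [map_sub, Derivation.leibniz, h0, pderiv_X_self, pderiv_supp hba]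
    simp
  obtain ⟨s, hs⟩ := (mem_supp_iff _).1 hp
  have e0 : be (X 0) = Polynomial.aeval (X 1) r * X 0 + Polynomial.aeval (X 1) s := by
    rw [← hs, ← hr]; ring
  -- no root
  have hdeg : r.degree = 0 := by
    by_contra hne
    obtain ⟨y0, hy⟩ := IsAlgClosed.exists_root r hne
    let ev : MvPolynomial (Fin 2) K →ₐ[K] MvPolynomial (Fin 2) K := aeval ![X 0, C y0]
    have hev1 : ev (X 1) = C y0 := by simp [ev]
    have hev0 : ev (X 0) = X 0 := by simp [ev]
    have hevp : ∀ t : Polynomial K, ev (Polynomial.aeval (X 1) t) = C (t.eval y0) := by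
      intro t
      rw [← Polynomial.aeval_algHom_apply, hev1, ← algebraMap_eq,
        Polynomial.aeval_algebraMap_apply, Polynomial.coe_aeval_eq_eval]
    have hcomp : ev.comp (be : MvPolynomial (Fin 2) K →ₐ[K] MvPolynomial (Fin 2) K) =
        (Algebra.ofId K (MvPolynomial (Fin 2) K)).comp (aeval ![s.eval y0, b * y0 + c]) := by
      apply MvPolynomial.algHom_ext
      intro i
      fin_cases i
      · change ev (be (X 0)) = Algebra.ofId K (MvPolynomial (Fin 2) K)
          (aeval ![s.eval y0, b * y0 + c] (X 0))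
        rw [e0, map_add, map_mul, hevp, hevp, hy, aeval_X, Algebra.ofId_apply, algebraMap_eq]
        simp
      · change ev (be (X 1)) = Algebra.ofId K (MvPolynomial (Fin 2) K)
          (aeval ![s.eval y0, b * y0 + c] (X 1))
        rw [e1, map_add, map_mul, hev1, aeval_X, Algebra.ofId_apply, algebraMap_eq]
        have hC : ∀ z : K, ev (C z) = C z := fun z => by simp [ev]
        rw [hC, hC]
        simp
    have h5 := DFunLike.congr_fun hcomp (be⁻¹ (X 0))
    change ev (be (be⁻¹ (X 0))) = Algebra.ofId K (MvPolynomial (Fin 2) K) _ at h5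
    rw [ap_inv, hev0, Algebra.ofId_apply, algebraMap_eq] at h5
    exact X_ne_C _ _ h5
  have hr0 : r = Polynomial.C (r.coeff 0) := Polynomial.eq_C_of_degree_eq_zero hdeg
  have hr1 : r.coeff 0 ≠ 0 := by
    intro h
    rw [h, Polynomial.C_0] at hr0
    rw [hr0, Polynomial.degree_zero] at hdeg
    exact absurd hdeg (by decide)
  refine ⟨r.coeff 0, b, c, Polynomial.aeval (X 1) s, (mem_supp_iff _).2 ⟨s, rfl⟩, hr1, hb, ?_, e1⟩
  rw [e0]
  conv_lhs => rw [hr0]
  simp [algebraMap_eq]

/-- Rentschler's theorem, as a statement: a locally nilpotent derivation of `K[x, y]` is, up to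
elementary automorphisms, of the form `h(y) ∂/∂x`. -/
def RentschlerStatement (K : Type*) [Field K] : Prop :=
  ∀ D : Derivation K (MvPolynomial (Fin 2) K) (MvPolynomial (Fin 2) K),
    (∀ p, ∃ n : ℕ, (fun q => D q)^[n] p = 0) →
      ∃ al ∈ Subgroup.closure ({phi : Aut2 K | phi (X 0) = X 1 ∧ phi (X 1) = X 0} ∪
          {phi : Aut2 K | phi (X 1) = X 1 ∧
            ∃ p ∈ supported K ({1} : Set (Fin 2)), phi (X 0) = X 0 + p}),
        D (al (X 1)) = 0 ∧ ∃ h ∈ supported K ({1} : Set (Fin 2)), D (al (X 0)) = al h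

/-- Jung's theorem from Rentschler's theorem. -/
theorem jung_of [IsAlgClosed K] [CharZero K] (hR : RentschlerStatement K) (g : Aut2 K) :
    g ∈ affG K ⊔ triG K := by
  obtain ⟨al, hal, hD1, h, hh, hD0⟩ := hR (conjD g) (conjD_nilp g)
  have hal' : al ∈ affG K ⊔ triG K := closure_elemSet_le hal
  rw [conjD_apply] at hD1 hD0
  have hbe : g⁻¹ * al ∈ triG K := by
    refine tri_of _ ?_ h hh ?_
    · apply g.injective
      change g (pderiv 0 (g⁻¹ (al (X 1)))) = g 0
      rw [hD1, map_zero]
    · apply g.injective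
      change g (pderiv 0 (g⁻¹ (al (X 0)))) = g (g⁻¹ (al h))
      rw [hD0, ap_inv]
  have e : g = al * (g⁻¹ * al)⁻¹ := by group
  rw [e]
  exact mul_mem hal' (inv_mem ((le_sup_right : triG K ≤ affG K ⊔ triG K) hbe))

end Jung

end Pool.Agent.GAR
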