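import Pool.Agent.GAR.RentStep

/-! Rentschler's theorem: over an algebraically closed field of characteristic zero a locally
nilpotent derivation of `K[x, y]` is conjugate, by a tame automorphism, to `h(y) ∂/∂x`
(helper20, part B of MP_cf7cfc_al). -/

namespace Pool.Agent.GAR.Rent

open MvPolynomial

variable {K : Type*} [Field K]
variable {D : Derivation K (MvPolynomial (Fin 2) K) (MvPolynomial (Fin 2) K)}

/-- the root used in the shear -/
theorem Mx.exists_root [IsAlgClosed K] [CharZero K] {v u r : ℕ} (h : Mx D v u)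
    (hr : v + 1 = r * (u + 1)) :
    ∃ c : K, eval ![-c, 1] (tp D v u (X 0)) + c * r * eval ![-c, 1] (tp D v u (X 1)) = 0 := by
  have hr0 : r ≠ 0 := by
    rintro rfl
    omega
  obtain ⟨g, hg⟩ : ∃ g : Polynomial K, g = uni (tp D v u (X 0))
      - Polynomial.C (r : K) * Polynomial.X * uni (tp D v u (X 1)) := ⟨_, rfl⟩
  have hc : g.coeff (u + 1) ≠ 0 := by
    have h1 : (uni (tp D v u (X 0))).coeff (u + 1) = 0 := by
      rw [uni_coeff]
      refine Finset.sum_eq_zero fun s hs => ?_
      rw [if_neg]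
      intro hu
      have h2 := wt_zero (mem_support_iff.1 hs)
      rw [← hu] at h2
      have h3 : (v + 1) * (u + 1) ≤ v * (u + 1) := by
        rw [← h2]
        exact Nat.le_add_right _ _
      have h4 := Nat.le_of_mul_le_mul_right h3 (Nat.succ_pos u)
      omega
    have h2 : (uni (tp D v u (X 1))).coeff u = coeff (Finsupp.single 0 u) (tp D v u (X 1)) := by
      rw [uni_coeff, Finset.sum_eq_single (Finsupp.single 0 u)]
      · rw [if_pos]
        simp
      · intro s hs hne
        rw [if_neg]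
        intro hu
        apply hne
        have h2 := wt_one (mem_support_iff.1 hs)
        rw [← hu] at h2
        have h3 : (u + 1) * s 1 = 0 := by
          have : (v + 1) * u = u * (v + 1) := by ring
          omega
        have h4 : s 1 = 0 := by
          rcases Nat.mul_eq_zero.1 h3 with h | h
          · omega
          · exact h
        rw [single_zero_of h4, ← hu]
      · intro hns
        rw [notMem_support_iff] at hns
        rw [hns]
        simp
    rw [hg, Polynomial.coeff_sub, h1, mul_assoc, Polynomial.coeff_C_mul, Polynomial.coeff_X_mul,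
      h2, zero_sub]
    exact neg_ne_zero.2 (mul_ne_zero (Nat.cast_ne_zero.2 hr0) h.coeff_one)
  have hdeg : g.degree ≠ 0 := by
    intro h0
    have h1 := Polynomial.le_degree_of_ne_zero hc
    rw [h0] at h1
    have : ((u + 1 : ℕ) : WithBot ℕ) ≤ ((0 : ℕ) : WithBot ℕ) := h1
    rw [Nat.cast_le] at this
    omega
  obtain ⟨l, hl⟩ := IsAlgClosed.exists_root g hdeg
  refine ⟨-l, ?_⟩
  rw [neg_neg, ← uni_eval, ← uni_eval]
  have h1 : g.eval l = 0 := hl
  rw [hg] at h1
  simp only [Polynomial.eval_sub, Polynomial.eval_mul, Polynomial.eval_C, Polynomial.eval_X] at h1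
  linear_combination h1

/-- the top part kills `x + c y ^ r` -/
theorem Mx.kills [CharZero K] (hD : LND D) {v u r : ℕ} (h : Mx D v u)
    (hr : v + 1 = r * (u + 1)) {c : K}
    (hc : eval ![-c, 1] (tp D v u (X 0)) + c * r * eval ![-c, 1] (tp D v u (X 1)) = 0) :
    tp D v u (X 0 + C c * X 1 ^ r) = 0 := by
  have hE := (h.dTop hD).lnd hD
  have hr0 : r ≠ 0 := by
    rintro rfl
    omega
  refine hE.eq_zero_of_dvd ?_
  have h1 := dvd_sub_rho c r (tp D v u (X 0 + C c * X 1 ^ r))
  have h2 : rho c r (tp D v u (X 0 + C c * X 1 ^ r)) = 0 := by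
    have e1 : rho c r (tp D v u (X 0)) = C (eval ![-c, 1] (tp D v u (X 0))) * X 1 ^ v := by
      refine rho_hom c r v fun s hs => ?_
      have := wt_zero hs
      rw [hr] at this
      have h3 : (u + 1) * (r * s 0 + s 1) = (u + 1) * v := by
        rw [← Nat.mul_comm v, ← this]
        ring
      exact Nat.eq_of_mul_eq_mul_left (Nat.succ_pos u) h3
    have e2 : rho c r (tp D v u (X 1)) = C (eval ![-c, 1] (tp D v u (X 1))) * X 1 ^ (u * r) := by
      refine rho_hom c r (u * r) fun s hs => ?_
      have := wt_one hs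
      rw [hr] at this
      have h3 : (u + 1) * (r * s 0 + s 1) = (u + 1) * (u * r) := by
        have : (u + 1) * (r * s 0 + s 1) = r * (u + 1) * s 0 + (u + 1) * s 1 := by ring
        rw [this]
        linarith
      exact Nat.eq_of_mul_eq_mul_left (Nat.succ_pos u) h3
    have e3 : tp D v u (X 0 + C c * X 1 ^ r)
        = tp D v u (X 0) + C (c * r) * X 1 ^ (r - 1) * tp D v u (X 1) := by
      rw [map_add, Derivation.leibniz, derivation_C, smul_zero, add_zero, Derivation.leibniz_pow,
        smul_eq_mul, nsmul_eq_mul, smul_eq_mul, map_mul, map_natCast]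
      ring
    have e4 : rho c r (X 1) = X 1 := by simp [rho]
    have e5 : rho c r (C (c * r)) = C (c * r) := by
      rw [← algebraMap_eq, AlgHom.commutes]
    rw [e3, map_add, map_mul, map_mul, map_pow, e1, e2, e4, e5]
    have e6 : v = (r - 1) + u * r := by
      have : r * (u + 1) = u * r + r := by ring
      omega
    have e6' : (X 1 : MvPolynomial (Fin 2) K) ^ v = X 1 ^ (r - 1) * X 1 ^ (u * r) := by
      rw [← pow_add, ← e6]
    have e7 : C (c * r) * X 1 ^ (r - 1) * (C (eval ![-c, 1] (tp D v u (X 1))) * X 1 ^ (u * r))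
        = C (c * r * eval ![-c, 1] (tp D v u (X 1))) * (X 1 : MvPolynomial (Fin 2) K) ^ v := by
      rw [e6', map_mul C (c * r)]
      ring
    rw [e7, ← add_mul, ← map_add, hc, map_zero, zero_mul]
  rw [h2, sub_zero] at h1
  exact h1

/-- the reduction step when `u + 1` divides `v + 1` -/
theorem Mx.step [IsAlgClosed K] [CharZero K] (hD : LND D) {v u : ℕ} (h : Mx D v u)
    (hd : (u + 1) ∣ (v + 1)) :
    ∃ (c : K) (r : ℕ),
      (∀ j, coeff (Finsupp.single 1 j) (conj (tau c r) D (X 0)) ≠ 0 → j < v) ∧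
      (∀ i, coeff (Finsupp.single 0 i) (conj (tau c r) D (X 1)) ≠ 0 → i < u + 1) := by
  obtain ⟨r, hr⟩ := hd
  rw [mul_comm] at hr
  obtain ⟨c, hc⟩ := h.exists_root hr
  have hk := h.kills hD hr hc
  have hT := h.dTop hD
  have hX1 : ∀ n : ℕ, (X 1 : MvPolynomial (Fin 2) K) ^ n ∈ Wm K (v + 1) (u + 1)
      {(n : ℤ) * (u + 1)} := by
    intro n
    induction n with
    | zero =>
      have := mono_mem (K := K) (a := v + 1) (b := u + 1) 0
      simpa using this
    | succ n ih =>
      rw [pow_succ]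
      refine Wm_mul ?_ ih (X_mem 1)
      rintro _ rfl _ rfl
      simp only [Matrix.cons_val_one, Matrix.cons_val_zero, Set.mem_singleton_iff]
      push_cast
      ring
  have hsh : ∀ (c : K) (i : Fin 2), sh c r (X i) ∈
      Wm K (v + 1) (u + 1) {![(v : ℤ) + 1, (u : ℤ) + 1] i} := by
    intro c i
    fin_cases i
    · change sh c r (X 0) ∈ Wm K (v + 1) (u + 1) {(v : ℤ) + 1}
      rw [sh_zero]
      refine add_mem (X_mem (K := K) (a := v + 1) (b := u + 1) 0) ?_
      rw [C_mul']
      refine Submodule.smul_mem _ _ ?_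
      have h1 := hX1 r
      have h2 : (r : ℤ) * (u + 1) = v + 1 := by exact_mod_cast hr.symm
      rw [h2] at h1
      exact h1
    · change sh c r (X 1) ∈ Wm K (v + 1) (u + 1) {(u : ℤ) + 1}
      rw [sh_one]
      exact X_mem (K := K) (a := v + 1) (b := u + 1) 1
  refine ⟨c, r, fun j hj => ?_, fun i hi => ?_⟩
  · rw [conj_apply, tau_apply, tau_symm_apply, sh_zero] at hj
    have h1 := hT.top (Top.of_hom (hsh c 0))
    rw [sh_zero, hk] at h1
    have h2 := (Top.map (sh (-c) r) (hsh (-c)) h1).2
    rw [map_zero, sub_zero] at h2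
    have h3 := mem_Wm.1 h2 _ hj
    rw [wt_apply, Set.mem_Iio] at h3
    simp at h3
    have h4 : ((u : ℤ) + 1) * j < (u + 1) * v := by linarith
    have h5 : (0 : ℤ) < u + 1 := by positivity
    have h6 := lt_of_mul_lt_mul_left h4 h5.le
    exact_mod_cast h6
  · rw [conj_apply, tau_apply, tau_symm_apply, sh_one] at hi
    have h2 := (Top.map (sh (-c) r) (hsh (-c)) (hT 1)).mem_le
    have h3 := mem_Wm.1 h2 _ hi
    rw [wt_apply, Set.mem_Iic] at h3
    simp at h3
    have h4 : ((v : ℤ) + 1) * i ≤ (v + 1) * u := by linarith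
    have h5 : (0 : ℤ) < v + 1 := by positivity
    have h6 := le_of_mul_le_mul_left h4 h5
    have h7 : i ≤ u := by exact_mod_cast h6
    omega

/-! ### the swap -/

/-- the swap of the variables -/
noncomputable def sw (K : Type*) [Field K] :
    MvPolynomial (Fin 2) K ≃ₐ[K] MvPolynomial (Fin 2) K :=
  renameEquiv K (Equiv.swap 0 1)

theorem sw_apply (p : MvPolynomial (Fin 2) K) : sw K p = rename (Equiv.swap 0 1) p := rfl

theorem sw_symm_apply (p : MvPolynomial (Fin 2) K) :
    (sw K).symm p = rename (Equiv.swap 0 1) p := rfl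

theorem sw_zero : sw K (X 0) = X 1 := by
  rw [sw_apply, rename_X, Equiv.swap_apply_left]

theorem sw_one : sw K (X 1) = X 0 := by
  rw [sw_apply, rename_X, Equiv.swap_apply_right]

theorem coeff_sw_one (p : MvPolynomial (Fin 2) K) (j : ℕ) :
    coeff (Finsupp.single 1 j) ((sw K).symm p) = coeff (Finsupp.single 0 j) p := by
  have h := coeff_rename_mapDomain (Equiv.swap (0 : Fin 2) 1) (Equiv.injective _) p
    (Finsupp.single 0 j)
  rw [Finsupp.mapDomain_single, Equiv.swap_apply_left] at h
  rw [sw_symm_apply]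
  exact h

theorem coeff_sw_zero (p : MvPolynomial (Fin 2) K) (j : ℕ) :
    coeff (Finsupp.single 0 j) ((sw K).symm p) = coeff (Finsupp.single 1 j) p := by
  have h := coeff_rename_mapDomain (Equiv.swap (0 : Fin 2) 1) (Equiv.injective _) p
    (Finsupp.single 1 j)
  rw [Finsupp.mapDomain_single, Equiv.swap_apply_right] at h
  rw [sw_symm_apply]
  exact h

theorem Mx.swap {v u : ℕ} (h : Mx D v u) : Mx (conj (sw K) D) u v := by
  refine ⟨?_, ?_, ?_, ?_⟩
  · rw [conj_apply, sw_zero, coeff_sw_one]
    exact h.hu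
  · intro j hj
    rw [conj_apply, sw_zero, coeff_sw_one] at hj
    exact h.hu' j hj
  · rw [conj_apply, sw_one, coeff_sw_zero]
    exact h.hv
  · intro j hj
    rw [conj_apply, sw_one, coeff_sw_zero] at hj
    exact h.hv' j hj

/-! ### the theorem -/

/-- the group of tame automorphisms -/
noncomputable def Tm (K : Type*) [Field K] : Subgroup (MvPolynomial (Fin 2) K ≃ₐ[K] MvPolynomial (Fin 2) K) :=
  Subgroup.closure ({phi | phi (X 0) = X 1 ∧ phi (X 1) = X 0} ∪
    {phi | phi (X 1) = X 1 ∧ ∃ p ∈ supported K {(1 : Fin 2)}, phi (X 0) = X 0 + p})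

theorem sw_mem : sw K ∈ Tm K := Subgroup.subset_closure (Or.inl ⟨sw_zero, sw_one⟩)

theorem tau_mem (c : K) (r : ℕ) : tau c r ∈ Tm K := by
  refine Subgroup.subset_closure (Or.inr ⟨?_, C c * X 1 ^ r, ?_, ?_⟩)
  · rw [tau_apply, sh_one]
  · refine mul_mem ?_ (pow_mem (X_mem_supported.2 (Set.mem_singleton _)) _)
    rw [← algebraMap_eq]
    exact Subalgebra.algebraMap_mem _ _
  · rw [tau_apply, sh_zero]

/-- the conclusion -/
def Good (D : Derivation K (MvPolynomial (Fin 2) K) (MvPolynomial (Fin 2) K)) : Prop :=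
  ∃ al ∈ Tm K, D (al (X 1)) = 0 ∧ ∃ h ∈ supported K {(1 : Fin 2)}, D (al (X 0)) = al h

theorem Good.of_conj {e : MvPolynomial (Fin 2) K ≃ₐ[K] MvPolynomial (Fin 2) K} (he : e ∈ Tm K)
    (h : Good (conj e D)) : Good D := by
  obtain ⟨al, hal, h1, h, hh, h2⟩ := h
  refine ⟨e * al, mul_mem he hal, ?_, h, hh, ?_⟩
  · rw [conj_apply] at h1
    have := congrArg e h1
    rw [AlgEquiv.apply_symm_apply, map_zero] at this
    exact this
  · rw [conj_apply] at h2
    have := congrArg e h2
    rw [AlgEquiv.apply_symm_apply] at this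
    exact this

theorem mem_supported_of_pderiv [CharZero K] {h : MvPolynomial (Fin 2) K}
    (h0 : pderiv 0 h = 0) : h ∈ supported K {(1 : Fin 2)} := by
  rw [mem_supported]
  intro i hi
  rw [Finset.mem_coe, mem_vars_iff_mem_support] at hi
  obtain ⟨s, hs, his⟩ := hi
  fin_cases i
  · exfalso
    have hs0 : s 0 ≠ 0 := Finsupp.mem_support_iff.1 his
    have h1 := coeff_pderiv (i := (0 : Fin 2)) h (s - Finsupp.single 0 1)
    have h2 : s - Finsupp.single 0 1 + Finsupp.single 0 1 = s := by
      refine tsub_add_cancel_of_le ?_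
      rw [Finsupp.single_le_iff]
      omega
    rw [h2, h0, coeff_zero] at h1
    have h3 := mul_eq_zero.1 h1.symm
    rcases h3 with h3 | h3
    · exact (mem_support_iff.1 hs) h3
    · exact (Nat.cast_add_one_ne_zero _) h3
  · rfl

theorem Good.of_one [CharZero K] (hD : LND D) (h1 : D (X 1) = 0) : Good D := by
  have hp : ∀ p, D p = pderiv 0 p * D (X 0) := by
    intro p
    have h2 : D = (D (X 0)) • (pderiv 0 : Derivation K (MvPolynomial (Fin 2) K) _) := by
      refine derivation_ext fun i => ?_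
      fin_cases i
      · change D (X 0) = (D (X 0) • (pderiv 0 : Derivation K (MvPolynomial (Fin 2) K) _)) (X 0)
        rw [Derivation.smul_apply, pderiv_X_self, smul_eq_mul, mul_one]
      · change D (X 1) = (D (X 0) • (pderiv 0 : Derivation K (MvPolynomial (Fin 2) K) _)) (X 1)
        rw [Derivation.smul_apply, pderiv_X_of_ne (by decide), smul_zero, h1]
    conv_lhs => rw [h2]
    rw [Derivation.smul_apply, smul_eq_mul, mul_comm]
  refine ⟨1, one_mem _, h1, D (X 0), ?_, rfl⟩
  have h2 : D (D (X 0)) = 0 := hD.eq_zero_of_dvd ⟨pderiv 0 (D (X 0)), by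
    rw [hp (D (X 0)), mul_comm]⟩
  rw [hp (D (X 0))] at h2
  rcases mul_eq_zero.1 h2 with h3 | h3
  · exact mem_supported_of_pderiv h3
  · rw [h3]
    exact zero_mem _

theorem good_of_bound [IsAlgClosed K] [CharZero K] (N : ℕ) :
    ∀ (D : Derivation K (MvPolynomial (Fin 2) K) (MvPolynomial (Fin 2) K)) (A B : ℕ), LND D →
      (∀ j, coeff (Finsupp.single 1 j) (D (X 0)) ≠ 0 → j < A) →
      (∀ i, coeff (Finsupp.single 0 i) (D (X 1)) ≠ 0 → i < B) → A + B ≤ N → Good D := by
  induction N with
  | zero =>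
    intro D A B hD hA hB hN
    have h1 : D (X 1) = 0 := by
      by_contra h1
      obtain ⟨i, hi⟩ := pure_one hD h1
      have := hB i hi
      omega
    exact Good.of_one hD h1
  | succ N ih =>
    intro D A B hD hA hB hN
    by_cases h1 : D (X 1) = 0
    · exact Good.of_one hD h1
    by_cases h0 : D (X 0) = 0
    · refine Good.of_conj sw_mem (Good.of_one (hD.conj _) ?_)
      rw [conj_apply, sw_one, h0, map_zero]
    obtain ⟨v, u, h⟩ := exists_Mx hD h0 h1
    have hvA := hA v h.hv
    have huB := hB u h.hu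
    rcases h.dvd hD with hd | hd
    · refine Good.of_conj sw_mem ?_
      obtain ⟨c, r, hj, hi⟩ := h.swap.step (hD.conj _) hd
      refine Good.of_conj (tau_mem c r) ?_
      exact ih _ u (v + 1) ((hD.conj _).conj _) hj hi (by omega)
    · obtain ⟨c, r, hj, hi⟩ := h.step hD hd
      refine Good.of_conj (tau_mem c r) ?_
      exact ih _ v (u + 1) (hD.conj _) hj hi (by omega)

theorem good [IsAlgClosed K] [CharZero K] (hD : LND D) : Good D := by
  have hb : ∀ (q : MvPolynomial (Fin 2) K) (k : Fin 2) (j : ℕ),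
      coeff (Finsupp.single k j) q ≠ 0 → j < q.totalDegree + 1 := by
    intro q k j hj
    have h1 := le_totalDegree (mem_support_iff.2 hj)
    rw [Finsupp.sum_single_index rfl] at h1
    omega
  exact good_of_bound _ D _ _ hD (hb _ _) (hb _ _) le_rfl

end Pool.Agent.GAR.Rent

namespace Pool.Agent.GAR

open MvPolynomial

/-- **Rentschler's theorem** over an algebraically closed field of characteristic zero. -/
theorem rentschler {K : Type*} [Field K] [IsAlgClosed K] [CharZero K]
    (D : Derivation K (MvPolynomial (Fin 2) K) (MvPolynomial (Fin 2) K))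
    (hD : ∀ p, ∃ n : ℕ, (fun q => D q)^[n] p = 0) :
    ∃ al : MvPolynomial (Fin 2) K ≃ₐ[K] MvPolynomial (Fin 2) K,
      al ∈ Subgroup.closure
        ({phi : MvPolynomial (Fin 2) K ≃ₐ[K] MvPolynomial (Fin 2) K |
            phi (X 0) = X 1 ∧ phi (X 1) = X 0} ∪
          {phi : MvPolynomial (Fin 2) K ≃ₐ[K] MvPolynomial (Fin 2) K |
            phi (X 1) = X 1 ∧ ∃ p ∈ supported K {(1 : Fin 2)}, phi (X 0) = X 0 + p}) ∧
      D (al (X 1)) = 0 ∧ ∃ h ∈ supported K {(1 : Fin 2)}, D (al (X 0)) = al h := by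
  obtain ⟨al, h1, h2, h3⟩ := Rent.good (D := D) hD
  exact ⟨al, h1, h2, h3⟩

end Pool.Agent.GAR
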