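import Mathlib
import Pool.Agent.GAR.Final
import Pool.Agent.GAR.Jung
import Pool.Agent.GAR.Rentschler

set_option autoImplicit false

/-! The theorem for ring automorphisms of `R[x, y]` which map `R` onto itself (automorphisms of
the fibration, which may move the base): part D, helper20. -/

namespace Pool.Agent.GAR

open MvPolynomial

/-- Jung's theorem over an algebraically closed field of characteristic zero. -/
theorem jung {K : Type*} [Field K] [IsAlgClosed K] [CharZero K] (g : Aut2 K) :
    g ∈ affG K ⊔ triG K :=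
  jung_of (fun D hD => rentschler D hD) g

section Semi
variable {R : Type*} [CommRing R]

/-- Ring automorphisms of `R` acting on the coefficients. -/
noncomputable def cf (s : RingAut R) : RingAut (MvPolynomial (Fin 2) R) := mapEquiv (Fin 2) s

theorem cf_apply (s : RingAut R) (p : MvPolynomial (Fin 2) R) : cf s p = map (s : R →+* R) p :=
  rfl

theorem cf_C (s : RingAut R) (r : R) : cf s (C r) = C (s r) := by
  rw [cf_apply, map_C]; rfl

theorem cf_X (s : RingAut R) (i : Fin 2) : cf s (X i) = X i := by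
  rw [cf_apply, map_X]

theorem cf_mul (s t : RingAut R) : cf (s * t) = cf s * cf t := by
  apply RingEquiv.ext
  intro p
  change map _ p = map _ (map _ p)
  rw [map_map]
  rfl

theorem cf_one : cf (1 : RingAut R) = 1 := by
  apply RingEquiv.ext
  intro p
  change map _ p = p
  exact map_id p

theorem cf_inv (s : RingAut R) : cf s⁻¹ = (cf s)⁻¹ := by
  rw [eq_inv_iff_mul_eq_one, ← cf_mul, inv_mul_cancel, cf_one]

/-- Automorphisms over `R` as ring automorphisms. -/
noncomputable def res : Aut2 R →* RingAut (MvPolynomial (Fin 2) R) where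
  toFun g := g.toRingEquiv
  map_one' := rfl
  map_mul' _ _ := rfl

theorem res_apply (g : Aut2 R) (p : MvPolynomial (Fin 2) R) : res g p = g p := rfl

theorem raut_mul_apply {A : Type*} [Semiring A] (f g : RingAut A) (p : A) :
    (f * g) p = f (g p) := rfl

theorem raut_inv_apply {A : Type*} [Semiring A] (f : RingAut A) (p : A) :
    f⁻¹ (f p) = p := by
  rw [← raut_mul_apply, inv_mul_cancel]; rfl

theorem raut_apply_inv {A : Type*} [Semiring A] (f : RingAut A) (p : A) :
    f (f⁻¹ p) = p := by
  rw [← raut_mul_apply, mul_inv_cancel]; rfl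

/-- Make an automorphism over `R` from a ring automorphism which fixes `R`. -/
noncomputable def mk (f : RingAut (MvPolynomial (Fin 2) R)) (hf : ∀ r, f (C r) = C r) : Aut2 R :=
  AlgEquiv.ofRingEquiv (f := f) (fun r => hf r)

theorem res_mk (f : RingAut (MvPolynomial (Fin 2) R)) (hf : ∀ r, f (C r) = C r) :
    res (mk f hf) = f := rfl

theorem mk_apply (f : RingAut (MvPolynomial (Fin 2) R)) (hf : ∀ r, f (C r) = C r)
    (p : MvPolynomial (Fin 2) R) : mk f hf p = f p := rfl

theorem cj_fix (s : RingAut R) (g : Aut2 R) (r : R) :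
    (cf s * res g * (cf s)⁻¹) (C r) = C r := by
  rw [← cf_inv, raut_mul_apply, raut_mul_apply, cf_C, res_apply]
  have : g (C (s⁻¹ r)) = C (s⁻¹ r) := g.commutes _
  rw [this, cf_C, raut_apply_inv]

/-- Conjugation by a coefficient automorphism. -/
noncomputable def cj (s : RingAut R) : Aut2 R →* Aut2 R where
  toFun g := mk (cf s * res g * (cf s)⁻¹) (cj_fix s g)
  map_one' := by
    apply AlgEquiv.ext
    intro p
    rw [mk_apply, map_one, mul_one, mul_inv_cancel]
    rfl
  map_mul' g h := by
    apply AlgEquiv.ext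
    intro p
    have e : cf s * res (g * h) * (cf s)⁻¹
        = (cf s * res g * (cf s)⁻¹) * (cf s * res h * (cf s)⁻¹) := by
      rw [map_mul]
      group
    exact DFunLike.congr_fun e p

theorem res_cj (s : RingAut R) (g : Aut2 R) : res (cj s g) = cf s * res g * (cf s)⁻¹ := rfl

theorem cj_X (s : RingAut R) (g : Aut2 R) (i : Fin 2) : cj s g (X i) = cf s (g (X i)) := by
  change (cf s * res g * (cf s)⁻¹) (X i) = _
  rw [← cf_inv, raut_mul_apply, raut_mul_apply, cf_X, res_apply]

theorem totalDegree_cf_le (s : RingAut R) (p : MvPolynomial (Fin 2) R) :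
    (cf s p).totalDegree ≤ p.totalDegree :=
  Finset.sup_mono (support_map_subset _ _)

/-- The generators over `R`: automorphisms of degree at most `D` and triangular ones. -/
def gens (R : Type*) [CommRing R] (D : ℕ) : Set (Aut2 R) :=
  {g | (∀ i, (g (X i)).totalDegree ≤ D) ∨
    ∀ i, ∃ c : R, IsUnit c ∧ ∃ p ∈ supported R {j : Fin 2 | i < j}, g (X i) = C c * X i + p}

theorem cf_supported (s : RingAut R) (t : Set (Fin 2)) {p : MvPolynomial (Fin 2) R}
    (hp : p ∈ supported R t) : cf s p ∈ supported R t := by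
  rw [mem_supported] at hp ⊢
  intro i hi
  apply hp
  rw [Finset.mem_coe, mem_vars_iff_mem_support] at hi ⊢
  obtain ⟨m, hm, him⟩ := hi
  exact ⟨m, support_map_subset _ _ hm, him⟩

theorem cj_gens (s : RingAut R) {D : ℕ} {g : Aut2 R} (hg : g ∈ gens R D) :
    cj s g ∈ gens R D := by
  rcases hg with h | h
  · refine Or.inl fun i => ?_
    rw [cj_X]
    exact (totalDegree_cf_le _ _).trans (h i)
  · refine Or.inr fun i => ?_
    obtain ⟨c, hc, p, hp, h1⟩ := h i
    refine ⟨s c, hc.map (s : R →+* R), cf s p, cf_supported s _ hp, ?_⟩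
    rw [cj_X, h1, map_add, map_mul, cf_C, cf_X]

theorem cj_closure (s : RingAut R) {D : ℕ} {g : Aut2 R} (hg : g ∈ Subgroup.closure (gens R D)) :
    cj s g ∈ Subgroup.closure (gens R D) := by
  have h : (Subgroup.closure (gens R D)).map (cj s) ≤ Subgroup.closure (gens R D) := by
    rw [MonoidHom.map_closure, Subgroup.closure_le]
    rintro _ ⟨g, hg, rfl⟩
    exact Subgroup.subset_closure (cj_gens s hg)
  exact h ⟨g, hg, rfl⟩

/-- Products of an element of the group over `R` and a coefficient automorphism. -/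
def LQ (R : Type*) [CommRing R] (D : ℕ) : Subgroup (RingAut (MvPolynomial (Fin 2) R)) where
  carrier := {f | ∃ g ∈ Subgroup.closure (gens R D), ∃ s : RingAut R, f = res g * cf s}
  mul_mem' := by
    rintro _ _ ⟨g, hg, s, rfl⟩ ⟨h, hh, t, rfl⟩
    refine ⟨g * cj s h, mul_mem hg (cj_closure s hh), s * t, ?_⟩
    rw [map_mul, res_cj, cf_mul]
    group
  one_mem' := ⟨1, one_mem _, 1, by rw [map_one, cf_one, one_mul]⟩
  inv_mem' := by
    rintro _ ⟨g, hg, s, rfl⟩
    refine ⟨cj s⁻¹ g⁻¹, cj_closure _ (inv_mem hg), s⁻¹, ?_⟩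
    rw [res_cj, cf_inv, map_inv]
    group

/-- `f` maps the constants onto the constants. -/
def Pres (f : RingAut (MvPolynomial (Fin 2) R)) : Prop :=
  ∀ p, (∃ r, p = C r) ↔ ∃ r, f p = C r

theorem Pres.decomp {f : RingAut (MvPolynomial (Fin 2) R)} (hf : Pres f) :
    ∃ (g : Aut2 R) (s : RingAut R), f = res g * cf s ∧ ∀ i, g (X i) = f (X i) := by
  let a : R →+* R := constantCoeff.comp ((RingEquiv.toRingHom f).comp C)
  let b : R →+* R := constantCoeff.comp ((RingEquiv.toRingHom f⁻¹).comp C)
  have ha : ∀ r, f (C r) = C (a r) := by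
    intro r
    obtain ⟨t, ht⟩ := (hf (C r)).1 ⟨r, rfl⟩
    have : a r = t := by
      change constantCoeff (f (C r)) = t
      rw [ht, constantCoeff_C]
    rw [this, ht]
  have hb : ∀ r, f⁻¹ (C r) = C (b r) := by
    intro r
    obtain ⟨t, ht⟩ := (hf (f⁻¹ (C r))).2 ⟨r, raut_apply_inv f _⟩
    have : b r = t := by
      change constantCoeff (f⁻¹ (C r)) = t
      rw [ht, constantCoeff_C]
    rw [this, ht]
  have hab : ∀ r, a (b r) = r := by
    intro r
    apply C_injective (Fin 2) R
    rw [← ha, ← hb, raut_apply_inv]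
  have hba : ∀ r, b (a r) = r := by
    intro r
    apply C_injective (Fin 2) R
    rw [← hb, ← ha, raut_inv_apply]
  let s : RingAut R := RingEquiv.ofRingHom a b (RingHom.ext hab) (RingHom.ext hba)
  have hs : ∀ r, f (C r) = C (s r) := ha
  have hfix : ∀ r, (f * (cf s)⁻¹) (C r) = C r := by
    intro r
    rw [← cf_inv, raut_mul_apply, cf_C, hs, raut_apply_inv]
  refine ⟨mk (f * (cf s)⁻¹) hfix, s, ?_, fun i => ?_⟩
  · rw [res_mk, inv_mul_cancel_right]
  · rw [mk_apply, ← cf_inv, raut_mul_apply, cf_X]

/-- The generators: ring automorphisms which preserve `R` and have degree at most `D` in `x, y`,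
or are triangular in `x, y`. -/
def gensS (R : Type*) [CommRing R] (D : ℕ) : Set (RingAut (MvPolynomial (Fin 2) R)) :=
  {f | Pres f ∧ ((∀ i, (f (X i)).totalDegree ≤ D) ∨
    ∀ i, ∃ c : R, IsUnit c ∧ ∃ p ∈ supported R {j : Fin 2 | i < j}, f (X i) = C c * X i + p)}

theorem gensS_le (D : ℕ) : Subgroup.closure (gensS R D) ≤ LQ R D := by
  rw [Subgroup.closure_le]
  rintro f ⟨hf, h⟩
  obtain ⟨g, s, h1, h2⟩ := hf.decomp
  refine ⟨g, Subgroup.subset_closure ?_, s, h1⟩
  simp only [gens, Set.mem_ofPred_eq, h2]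
  exact h

theorem notMem_gens [IsDomain R] [CharZero R] {z : R} (hz : z ≠ 0) (hu : ¬ IsUnit z) {D n : ℕ}
    (hD : 1 ≤ D) (hn : D < n) : F hz n ∉ Subgroup.closure (gens R D) := by
  let K := AlgebraicClosure (FractionRing R)
  have hinj : Function.Injective (algebraMap R K) := by
    rw [IsScalarTower.algebraMap_eq R (FractionRing R) K]
    exact (algebraMap (FractionRing R) K).injective.comp (IsFractionRing.injective R _)
  have : CharZero K := by
    have : CharZero (FractionRing R) := IsFractionRing.charZero R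
    exact charZero_of_injective_algebraMap (algebraMap (FractionRing R) K).injective
  refine F_notMem (K := K) hinj hz hu D hD _ ?_ n hn
  rintro g (h | h)
  · refine Or.inr (Or.inr ⟨jung _, max_le ?_ ?_⟩)
    · rw [bc_X]; exact (totalDegree_map_le' _).trans (h 0)
    · rw [bc_X]; exact (totalDegree_map_le' _).trans (h 1)
  · exact Or.inr (Or.inl (bc_triangular K h))

/-- **Semilinear form.** -/
theorem notMem_gensS [IsDomain R] [CharZero R] {z : R} (hz : z ≠ 0) (hu : ¬ IsUnit z) {D n : ℕ}
    (hD : 1 ≤ D) (hn : D < n) : res (F hz n) ∉ Subgroup.closure (gensS R D) := by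
  intro h
  obtain ⟨g, hg, s, h1⟩ := gensS_le D h
  have hs : s = 1 := by
    apply RingEquiv.ext
    intro r
    apply C_injective (Fin 2) R
    have h2 := DFunLike.congr_fun h1 (C r)
    rw [raut_mul_apply, cf_C, res_apply, res_apply] at h2
    have h3 : F hz n (C r) = C r := (F hz n).commutes r
    have h4 : g (C (s r)) = C (s r) := g.commutes _
    rw [h3, h4] at h2
    exact h2.symm
  rw [hs, cf_one, mul_one] at h1
  have h2 : F hz n = g := by
    apply AlgEquiv.ext
    intro p
    exact DFunLike.congr_fun h1 p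
  rw [← h2] at hg
  exact notMem_gens hz hu hD hn hg

end Semi

end Pool.Agent.GAR
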