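import Mathlib
import Pool.Agent.GAR.Semi

set_option autoImplicit false

/-! Automorphisms of the field act on the forest of cosets (Theorem E of helper20, part P3). -/

namespace Pool.Agent.GAR

open MvPolynomial

section Quo
variable {Γ : Type*} [Group Γ]

/-- A group homomorphism which preserves a subgroup acts on its cosets. -/
def quo (f : Γ →* Γ) (A : Subgroup Γ) (h : ∀ a ∈ A, f a ∈ A) : Γ ⧸ A → Γ ⧸ A :=
  Quotient.map' f (by
    intro a b hab
    rw [QuotientGroup.leftRel_apply] at hab ⊢
    have := h _ hab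
    rwa [map_mul, map_inv] at this)

theorem quo_mk (f : Γ →* Γ) (A : Subgroup Γ) (h : ∀ a ∈ A, f a ∈ A) (g : Γ) :
    quo f A h (g : Γ ⧸ A) = ((f g : Γ) : Γ ⧸ A) := rfl

end Quo

section Cj
variable {R : Type*} [CommRing R]

theorem cj_one (g : Aut2 R) : cj (1 : RingAut R) g = g := by
  have h : res (cj 1 g) = res g := by rw [res_cj, cf_one, one_mul, inv_one, mul_one]
  exact AlgEquiv.ext fun p => DFunLike.congr_fun h p

theorem cj_cj (s t : RingAut R) (g : Aut2 R) : cj (s * t) g = cj s (cj t g) := by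
  have h : res (cj (s * t) g) = res (cj s (cj t g)) := by
    rw [res_cj, res_cj, res_cj, cf_mul]
    group
  exact AlgEquiv.ext fun p => DFunLike.congr_fun h p

theorem cj_mul (s t : RingAut R) (g : Aut2 R) : cj (s * t) g = cj s (cj t g) := cj_cj s t g

theorem cj_inv_cj (s : RingAut R) (g : Aut2 R) : cj s⁻¹ (cj s g) = g := by
  rw [← cj_cj, inv_mul_cancel, cj_one]

theorem cj_cj_inv (s : RingAut R) (g : Aut2 R) : cj s (cj s⁻¹ g) = g := by
  rw [← cj_cj, mul_inv_cancel, cj_one]

end Cj

section Sig
variable {K : Type*} [Field K]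

theorem cj_mem_affG (t : RingAut K) {g : Aut2 K} (hg : g ∈ affG K) : cj t g ∈ affG K := by
  refine mem_affG_of _ ?_ ?_
  · rw [cj_X]
    exact (totalDegree_cf_le t _).trans ((hg _).1 (by simp))
  · rw [cj_X]
    exact (totalDegree_cf_le t _).trans ((hg _).1 (by simp))

theorem cj_mem_triG (t : RingAut K) {g : Aut2 K} (hg : g ∈ triG K) : cj t g ∈ triG K := by
  obtain ⟨a, b, c, p, hp, ha, hb, h0, h1⟩ := hg
  refine ⟨t a, t b, t c, cf t p, cf_supported t _ hp, ?_, ?_, ?_, ?_⟩
  · exact (map_ne_zero_iff t t.injective).2 ha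
  · exact (map_ne_zero_iff t t.injective).2 hb
  · rw [cj_X, h0, map_add, map_mul, cf_C, cf_X]
  · rw [cj_X, h1, map_add, map_mul, cf_C, cf_C, cf_X]

theorem cj_affG (t : RingAut K) {g : Aut2 K} (hg : g ∈ affG K) : cj t g ∈ affG K :=
  cj_mem_affG t hg

theorem cj_triG (t : RingAut K) {g : Aut2 K} (hg : g ∈ triG K) : cj t g ∈ triG K :=
  cj_mem_triG t hg

/-- The action of a field automorphism on the forest. -/
noncomputable def sig (t : RingAut K) : Vtx (affG K) (triG K) → Vtx (affG K) (triG K) :=
  Sum.map (quo (cj t) (affG K) fun _ h => cj_mem_affG t h)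
    (quo (cj t) (triG K) fun _ h => cj_mem_triG t h)

theorem sig_inl (t : RingAut K) (g : Aut2 K) :
    sig t (Sum.inl (g : Aut2 K ⧸ affG K)) = Sum.inl ((cj t g : Aut2 K) : Aut2 K ⧸ affG K) := rfl

theorem sig_inr (t : RingAut K) (g : Aut2 K) :
    sig t (Sum.inr (g : Aut2 K ⧸ triG K)) = Sum.inr ((cj t g : Aut2 K) : Aut2 K ⧸ triG K) := rfl

theorem sig_adj (t : RingAut K) {u v : Vtx (affG K) (triG K)}
    (h : (T (affG K) (triG K)).Adj u v) :
    (T (affG K) (triG K)).Adj (sig t u) (sig t v) := by
  obtain ⟨g, ⟨rfl, rfl⟩ | ⟨rfl, rfl⟩⟩ := h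
  · exact ⟨cj t g, Or.inl ⟨rfl, rfl⟩⟩
  · exact ⟨cj t g, Or.inr ⟨rfl, rfl⟩⟩

theorem sig_act (t : RingAut K) (g : Aut2 K) (v : Vtx (affG K) (triG K)) :
    sig t (act g v) = act (cj t g) (sig t v) := by
  rcases v with v | v
  · induction v using QuotientGroup.induction_on with
    | H h =>
      rw [act_inl, sig_inl, sig_inl, act_inl, map_mul]
  · induction v using QuotientGroup.induction_on with
    | H h =>
      rw [act_inr, sig_inr, sig_inr, act_inr, map_mul]

theorem sig_one (v : Vtx (affG K) (triG K)) : sig 1 v = v := by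
  rcases v with v | v
  · induction v using QuotientGroup.induction_on with
    | H h => rw [sig_inl, cj_one]
  · induction v using QuotientGroup.induction_on with
    | H h => rw [sig_inr, cj_one]

theorem sig_mul (s t : RingAut K) (v : Vtx (affG K) (triG K)) :
    sig (s * t) v = sig s (sig t v) := by
  rcases v with v | v
  · induction v using QuotientGroup.induction_on with
    | H h => rw [sig_inl, sig_inl, sig_inl, cj_cj]
  · induction v using QuotientGroup.induction_on with
    | H h => rw [sig_inr, sig_inr, sig_inr, cj_cj]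

theorem sig_inv_sig (t : RingAut K) (v : Vtx (affG K) (triG K)) : sig t⁻¹ (sig t v) = v := by
  rw [← sig_mul, inv_mul_cancel, sig_one]

theorem sig_sig_inv (t : RingAut K) (v : Vtx (affG K) (triG K)) : sig t (sig t⁻¹ v) = v := by
  rw [← sig_mul, mul_inv_cancel, sig_one]

theorem sig_injective (t : RingAut K) :
    Function.Injective (sig t : Vtx (affG K) (triG K) → Vtx (affG K) (triG K)) := by
  intro u v h
  rw [← sig_inv_sig t u, h, sig_inv_sig]

theorem sig_adj_iff (t : RingAut K) {u v : Vtx (affG K) (triG K)} :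
    (T (affG K) (triG K)).Adj (sig t u) (sig t v) ↔ (T (affG K) (triG K)).Adj u v := by
  refine ⟨fun h => ?_, sig_adj t⟩
  have h1 := sig_adj t⁻¹ h
  rwa [sig_inv_sig, sig_inv_sig] at h1

theorem sig_baseA (t : RingAut K) :
    sig t (Sum.inl ((1 : Aut2 K) : Aut2 K ⧸ affG K)) =
      Sum.inl ((1 : Aut2 K) : Aut2 K ⧸ affG K) := by
  rw [sig_inl, map_one]

theorem sig_baseB (t : RingAut K) :
    sig t (Sum.inr ((1 : Aut2 K) : Aut2 K ⧸ triG K)) =
      Sum.inr ((1 : Aut2 K) : Aut2 K ⧸ triG K) := by
  rw [sig_inr, map_one]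

theorem aut2_ext {R : Type*} [CommRing R] {g h : Aut2 R} (hx : ∀ i, g (X i) = h (X i)) :
    g = h := by
  have : (g : MvPolynomial (Fin 2) R →ₐ[R] MvPolynomial (Fin 2) R) = h :=
    MvPolynomial.algHom_ext hx
  exact AlgEquiv.ext fun p => DFunLike.congr_fun this p

theorem cf_aeval (t : RingAut K) (i : Fin 2) (q : Polynomial K) :
    cf t (Polynomial.aeval (X i) q) = Polynomial.aeval (X i) (q.map (t : K →+* K)) := by
  induction q using Polynomial.induction_on' with
  | add p q hp hq => rw [map_add, map_add, hp, hq, Polynomial.map_add, map_add]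
  | monomial n a =>
    rw [Polynomial.map_monomial, Polynomial.aeval_monomial, Polynomial.aeval_monomial, map_mul,
      map_pow, cf_X, algebraMap_eq, cf_C]
    rfl

theorem cj_elem (t : RingAut K) (q : Polynomial K) :
    cj t (elem q) = elem (q.map (t : K →+* K)) := by
  apply aut2_ext
  intro i
  fin_cases i
  · change cj t (elem q) (X 0) = elem (q.map (t : K →+* K)) (X 0)
    rw [cj_X, elem_X0, elem_X0, map_add, cf_X, cf_aeval]
  · change cj t (elem q) (X 1) = elem (q.map (t : K →+* K)) (X 1)
    rw [cj_X, elem_X1, elem_X1, cf_X]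

theorem sig_elem (t : RingAut K) (q : Polynomial K) :
    sig t (Sum.inl ((elem q : Aut2 K) : Aut2 K ⧸ affG K)) =
      Sum.inl ((elem (q.map (t : K →+* K)) : Aut2 K) : Aut2 K ⧸ affG K) := by
  rw [sig_inl, cj_elem]

theorem sig_elem_pow (t : RingAut K) (a : K) (n : ℕ) :
    sig t (Sum.inl ((elem (Polynomial.C a * Polynomial.X ^ n) : Aut2 K) : Aut2 K ⧸ affG K)) =
      Sum.inl ((elem (Polynomial.C (t a) * Polynomial.X ^ n) : Aut2 K) : Aut2 K ⧸ affG K) := by
  rw [sig_elem, Polynomial.map_mul, Polynomial.map_C, Polynomial.map_pow, Polynomial.map_X]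
  rfl

end Sig

section Ext
variable {R : Type*} [CommRing R] {K : Type*} [Field K] [Algebra R K]

theorem cf_map (s : RingAut R) (t : RingAut K)
    (h : ∀ r, t (algebraMap R K r) = algebraMap R K (s r)) (p : MvPolynomial (Fin 2) R) :
    cf t (map (algebraMap R K) p) = map (algebraMap R K) (cf s p) := by
  have e : (t : K →+* K).comp (algebraMap R K) = (algebraMap R K).comp (s : R →+* R) :=
    RingHom.ext h
  rw [cf_apply, cf_apply, map_map, map_map, e]

theorem cj_bc (s : RingAut R) (t : RingAut K)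
    (h : ∀ r, t (algebraMap R K r) = algebraMap R K (s r)) (g : Aut2 R) :
    cj t (bc K g) = bc K (cj s g) := by
  apply aut2_ext
  intro i
  rw [cj_X, bc_X, bc_X, cj_X, cf_map s t h]

theorem sig_act_bc (s : RingAut R) (t : RingAut K)
    (h : ∀ r, t (algebraMap R K r) = algebraMap R K (s r)) (g : Aut2 R)
    (v : Vtx (affG K) (triG K)) :
    sig t (act (bc K g) v) = act (bc K (cj s g)) (sig t v) := by
  rw [sig_act, cj_bc s t h]

end Ext

section Exists
variable {R : Type*} [CommRing R] [IsDomain R]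

/-- Every automorphism of a domain extends to the algebraic closure of its field of fractions. -/
theorem exists_ext (s : RingAut R) :
    ∃ t : RingAut (AlgebraicClosure (FractionRing R)),
      ∀ r, t (algebraMap R (AlgebraicClosure (FractionRing R)) r) =
        algebraMap R (AlgebraicClosure (FractionRing R)) (s r) := by
  let e : FractionRing R ≃+* FractionRing R := IsFractionRing.ringEquivOfRingEquiv s
  have he : ∀ r, e (algebraMap R (FractionRing R) r) = algebraMap R (FractionRing R) (s r) :=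
    fun r => IsFractionRing.ringEquivOfRingEquiv_algebraMap s r
  refine ⟨IsAlgClosure.equivOfEquiv (AlgebraicClosure (FractionRing R))
    (AlgebraicClosure (FractionRing R)) e, fun r => ?_⟩
  rw [IsScalarTower.algebraMap_apply R (FractionRing R) (AlgebraicClosure (FractionRing R)),
    IsScalarTower.algebraMap_apply R (FractionRing R) (AlgebraicClosure (FractionRing R)),
    IsAlgClosure.equivOfEquiv_algebraMap, he]

end Exists

end Pool.Agent.GAR
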