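import Mathlib
import Pool.Agent.GAR.Pot
import Pool.Agent.GAR.Loop
import Pool.Agent.GAR.Sig
import Pool.Agent.GAR.Gam

set_option autoImplicit false

/-! The homomorphism to a free group (helper20). -/

namespace Pool.Agent.GAR

open MvPolynomial

section Wt
variable (R : Type*) [CommRing R] (K : Type*) [Field K] [Algebra R K]

/-- The oriented edges of index `j`: the orbits of the edges `(b, a_d)` for the exponent
`j + 2`. -/
def EE (j : ℕ) (u v : Vtx (affG K) (triG K)) : Prop :=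
  ∃ (γ : Aut2 R) (d : R), d ≠ 0 ∧ ¬ IsUnit d ∧ u = act (bc K γ) (vB 1) ∧
    v = act (bc K γ) (va (algebraMap R K d) (j + 2))

variable {R K}

theorem dA_ae (d : K) {N : ℕ} (hN : 1 ≤ N) : dA (ae d N) ≤ N := by
  refine max_le ?_ ?_
  · rw [ae_X0]
    refine (totalDegree_add _ _).trans (max_le (by simpa using hN) ?_)
    refine (totalDegree_mul _ _).trans ?_
    rw [totalDegree_C, zero_add, totalDegree_X_pow]
  · rw [ae_X1]
    simpa using hN

theorem EE_unique (hinj : Function.Injective (algebraMap R K)) {i j : ℕ}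
    {u v u' : Vtx (affG K) (triG K)} (h : EE R K i u v) (h' : EE R K j u' v) : i = j := by
  obtain ⟨γ, d, hd, hu, -, h1⟩ := h
  obtain ⟨γ', d', hd', hu', -, h1'⟩ := h'
  have key : ∀ (i j : ℕ) (γ γ' : Aut2 R) (d d' : R), d ≠ 0 → ¬ IsUnit d →
      (act (bc K γ) (va (algebraMap R K d) (i + 2)) : Vtx (affG K) (triG K)) =
        act (bc K γ') (va (algebraMap R K d') (j + 2)) → i ≤ j := by
    intro i j γ γ' d d' hd hu h
    have h2 : act (bc K (γ'⁻¹ * γ)) (va (algebraMap R K d) (i + 2)) =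
        (va (algebraMap R K d') (j + 2) : Vtx (affG K) (triG K)) := by
      rw [map_mul, map_inv, act_mul, h, act_inv_act]
    have h3 := size_va hinj hd hu (i + 2) _ _ h2
    have h4 := dA_ae (algebraMap R K d') (show 1 ≤ j + 2 by omega)
    omega
  exact le_antisymm (key i j γ γ' d d' hd hu (h1.symm.trans h1'))
    (key j i γ' γ d' d hd' hu' (h1'.symm.trans h1))

theorem not_EE_inl {j : ℕ} {a : Aut2 K ⧸ affG K} {v : Vtx (affG K) (triG K)} :
    ¬ EE R K j (Sum.inl a) v := by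
  rintro ⟨γ, d, -, -, h, -⟩
  simp [act] at h

theorem not_EE_inr {j : ℕ} {a : Aut2 K ⧸ triG K} {u : Vtx (affG K) (triG K)} :
    ¬ EE R K j u (Sum.inr a) := by
  rintro ⟨γ, d, -, -, -, h⟩
  simp [act] at h

theorem EE_asymm {i j : ℕ} {u v : Vtx (affG K) (triG K)} (h : EE R K i u v) :
    ¬ EE R K j v u := by
  rcases u with u | u
  · exact absurd h not_EE_inl
  · exact not_EE_inr

open Classical in
variable (R K) in
/-- The weights. -/
noncomputable def wt (u v : Vtx (affG K) (triG K)) : FreeGroup ℕ :=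
  if h : ∃ j, EE R K j u v then FreeGroup.of h.choose
  else if h : ∃ j, EE R K j v u then (FreeGroup.of h.choose)⁻¹ else 1

theorem wt_eq (hinj : Function.Injective (algebraMap R K)) {j : ℕ}
    {u v : Vtx (affG K) (triG K)} (h : EE R K j u v) : wt R K u v = FreeGroup.of j := by
  have h1 : ∃ j, EE R K j u v := ⟨j, h⟩
  rw [wt, dif_pos h1, EE_unique hinj h1.choose_spec h]

theorem wt_eq_inv (hinj : Function.Injective (algebraMap R K)) {j : ℕ}
    {u v : Vtx (affG K) (triG K)} (h : EE R K j v u) : wt R K u v = (FreeGroup.of j)⁻¹ := by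
  have h1 : ∃ j, EE R K j v u := ⟨j, h⟩
  have h2 : ¬ ∃ j, EE R K j u v := by
    rintro ⟨i, hi⟩
    exact EE_asymm hi h
  rw [wt, dif_neg h2, dif_pos h1, EE_unique hinj h1.choose_spec h]

theorem wt_eq_one {u v : Vtx (affG K) (triG K)} (h : ∀ j, ¬ EE R K j u v)
    (h' : ∀ j, ¬ EE R K j v u) : wt R K u v = 1 := by
  rw [wt, dif_neg (by rintro ⟨j, hj⟩; exact h j hj), dif_neg (by rintro ⟨j, hj⟩; exact h' j hj)]

theorem wt_anti (hinj : Function.Injective (algebraMap R K)) (u v : Vtx (affG K) (triG K)) :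
    wt R K v u = (wt R K u v)⁻¹ := by
  by_cases h : ∃ j, EE R K j u v
  · obtain ⟨j, h⟩ := h
    rw [wt_eq hinj h, wt_eq_inv hinj h]
  by_cases h' : ∃ j, EE R K j v u
  · obtain ⟨j, h'⟩ := h'
    rw [wt_eq hinj h', wt_eq_inv hinj h', inv_inv]
  rw [wt_eq_one (fun j hj => h ⟨j, hj⟩) (fun j hj => h' ⟨j, hj⟩),
    wt_eq_one (fun j hj => h' ⟨j, hj⟩) (fun j hj => h ⟨j, hj⟩), inv_one]

theorem wt_inv (hinj : Function.Injective (algebraMap R K))
    {f : Vtx (affG K) (triG K) → Vtx (affG K) (triG K)}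
    (hf : ∀ j u v, EE R K j (f u) (f v) ↔ EE R K j u v) (u v : Vtx (affG K) (triG K)) :
    wt R K (f u) (f v) = wt R K u v := by
  by_cases h : ∃ j, EE R K j u v
  · obtain ⟨j, h⟩ := h
    rw [wt_eq hinj h, wt_eq hinj ((hf j u v).2 h)]
  by_cases h' : ∃ j, EE R K j v u
  · obtain ⟨j, h'⟩ := h'
    rw [wt_eq_inv hinj h', wt_eq_inv hinj ((hf j v u).2 h')]
  rw [wt_eq_one (fun j hj => h ⟨j, hj⟩) (fun j hj => h' ⟨j, hj⟩),
    wt_eq_one (fun j hj => h ⟨j, (hf j u v).1 hj⟩) (fun j hj => h' ⟨j, (hf j v u).1 hj⟩)]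

theorem EE_act (g : Aut2 R) {j : ℕ} {u v : Vtx (affG K) (triG K)} (h : EE R K j u v) :
    EE R K j (act (bc K g) u) (act (bc K g) v) := by
  obtain ⟨γ, d, hd, hu, rfl, rfl⟩ := h
  exact ⟨g * γ, d, hd, hu, by rw [map_mul, act_mul], by rw [map_mul, act_mul]⟩

theorem EE_act_iff (g : Aut2 R) (j : ℕ) (u v : Vtx (affG K) (triG K)) :
    EE R K j (act (bc K g) u) (act (bc K g) v) ↔ EE R K j u v := by
  refine ⟨fun h => ?_, EE_act g⟩
  have h1 := EE_act g⁻¹ h
  rwa [map_inv, act_inv_act, act_inv_act] at h1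

theorem EE_sig (s : RingAut R) (t : RingAut K)
    (hst : ∀ r, t (algebraMap R K r) = algebraMap R K (s r)) {j : ℕ}
    {u v : Vtx (affG K) (triG K)} (h : EE R K j u v) : EE R K j (sig t u) (sig t v) := by
  obtain ⟨γ, d, hd, hu, rfl, rfl⟩ := h
  refine ⟨cj s γ, s d, ?_, ?_, ?_, ?_⟩
  · intro h0
    exact hd (s.injective (by rw [h0, map_zero]))
  · intro h0
    apply hu
    have := h0.map ((s⁻¹ : RingAut R) : R →+* R)
    have h2 : (s⁻¹ : RingAut R) (s d) = d := raut_inv_apply s d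
    have h3 : ((s⁻¹ : RingAut R) : R →+* R) (s d) = d := h2
    rwa [h3] at this
  · rw [sig_act_bc s t hst, sig_baseB]
  · rw [sig_act_bc s t hst]
    congr 1
    change sig t (Sum.inl ((elem (Polynomial.C (algebraMap R K d)⁻¹ * Polynomial.X ^ (j + 2)) :
      Aut2 K) : Aut2 K ⧸ affG K)) = Sum.inl ((elem (Polynomial.C (algebraMap R K (s d))⁻¹ *
        Polynomial.X ^ (j + 2)) : Aut2 K) : Aut2 K ⧸ affG K)
    rw [sig_elem_pow, map_inv₀, hst]

theorem ext_inv {s : RingAut R} {t : RingAut K}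
    (hst : ∀ r, t (algebraMap R K r) = algebraMap R K (s r)) (r : R) :
    (t⁻¹ : RingAut K) (algebraMap R K r) = algebraMap R K ((s⁻¹ : RingAut R) r) := by
  have h1 := hst ((s⁻¹ : RingAut R) r)
  rw [raut_apply_inv] at h1
  rw [← h1, raut_inv_apply]

theorem EE_sig_iff (s : RingAut R) (t : RingAut K)
    (hst : ∀ r, t (algebraMap R K r) = algebraMap R K (s r)) (j : ℕ)
    (u v : Vtx (affG K) (triG K)) : EE R K j (sig t u) (sig t v) ↔ EE R K j u v := by
  refine ⟨fun h => ?_, EE_sig s t hst⟩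
  have h1 := EE_sig s⁻¹ t⁻¹ (ext_inv hst) h
  rwa [sig_inv_sig, sig_inv_sig] at h1

end Wt

section Coord
variable {K : Type*} [Field K]

/-- The affine automorphism `x ↦ y`, `y ↦ x + c y`. -/
noncomputable def afc (c : K) : Aut2 K := elem (Polynomial.C c * Polynomial.X) * swap

theorem afc_X0 (c : K) : afc c (X 0) = X 1 := by
  rw [afc, mul_ap, swap_X0, elem_X1]

theorem afc_X1 (c : K) : afc c (X 1) = X 0 + C c * X 1 := by
  rw [afc, mul_ap, swap_X1, elem_X0, map_mul, Polynomial.aeval_C, Polynomial.aeval_X]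
  rfl

theorem afc_mem (c : K) : afc c ∈ affG K := by
  refine mem_affG_of _ ?_ ?_
  · rw [afc_X0]; simp
  · rw [afc_X1]
    refine (totalDegree_add _ _).trans (max_le (by simp) ?_)
    exact (totalDegree_mul _ _).trans (by simp)

/-- `ψ x = y`, `ψ y = x + c y + y ^ N / d`. -/
noncomputable def psic (c d : K) (N : ℕ) : Aut2 K := ae d N * afc c

theorem psic_X0 (c d : K) (N : ℕ) : psic c d N (X 0) = X 1 := by
  rw [psic, mul_ap, afc_X0, ae_X1]

theorem psic_X1 (c d : K) (N : ℕ) :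
    psic c d N (X 1) = X 0 + C c * X 1 + C d⁻¹ * X 1 ^ N := by
  rw [psic, mul_ap, afc_X1, map_add, map_mul, ap_C, ae_X0, ae_X1]
  ring

theorem psic_Qp {c d : K} (hd : d ≠ 0) (N : ℕ) : psic c d N (X 1) = Qp d N 0 c d⁻¹ := by
  have h2 : (C d⁻¹ : MvPolynomial (Fin 2) K) * C d = 1 := by
    rw [← C_mul, inv_mul_cancel₀ hd, C_1]
  rw [psic_X1, Qp, fpol, C_0]
  linear_combination (-X 0) * h2

theorem psic_va (c d : K) (N : ℕ) :
    (Sum.inl (psic c d N : Aut2 K ⧸ affG K) : Vtx (affG K) (triG K)) = va d N :=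
  congrArg Sum.inl (coset_mul _ (afc_mem c))

/-- The vertex of the coordinate `d² x + u y + d y ^ N`. -/
theorem vB_gam {d u e : K} (hd : d ≠ 0) (N : ℕ) {g : Aut2 K}
    (h1 : g (X 1) = C (d ^ 2) * X 0 + C u * X 1 + C d * X 1 ^ N)
    (h0 : C (d ^ 2) * g (X 0) = X 1 - C e * g (X 1) + C (d * e ^ (N + 1)) * g (X 1) ^ N) :
    vB (psic (u * (d ^ 2)⁻¹) d N) = vB g := by
  have hd2 : d ^ 2 ≠ 0 := pow_ne_zero _ hd
  obtain ⟨ψ, hψ⟩ : ∃ ψ, ψ = psic (u * (d ^ 2)⁻¹) d N := ⟨_, rfl⟩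
  rw [← hψ]
  have p0 : ψ (X 0) = X 1 := by rw [hψ, psic_X0]
  have p1 : ψ (C (d ^ 2) * X 1) = g (X 1) := by
    rw [map_mul, ap_C, hψ, psic_X1, h1]
    have e1 : (C (d ^ 2) : MvPolynomial (Fin 2) K) * C (u * (d ^ 2)⁻¹) = C u := by
      rw [← C_mul, mul_comm u, mul_inv_cancel_left₀ hd2]
    have e2 : (C (d ^ 2) : MvPolynomial (Fin 2) K) * C d⁻¹ = C d := by
      rw [← C_mul]
      congr 1
      field_simp
    linear_combination X 1 * e1 + X 1 ^ N * e2
  have q1 : (ψ⁻¹ * g) (X 1) = C (d ^ 2) * X 1 := by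
    rw [mul_ap, ← p1, inv_ap]
  have q0 : (ψ⁻¹ * g) (X 0) = C (d ^ 2)⁻¹ * (X 0 - C e * (C (d ^ 2) * X 1) +
      C (d * e ^ (N + 1)) * (C (d ^ 2) * X 1) ^ N) := by
    have e1 : C (d ^ 2) * (ψ⁻¹ * g) (X 0) = X 0 - C e * (C (d ^ 2) * X 1) +
        C (d * e ^ (N + 1)) * (C (d ^ 2) * X 1) ^ N := by
      have h0' : C (d ^ 2) * g (X 0) = ψ (X 0 - C e * (C (d ^ 2) * X 1) +
          C (d * e ^ (N + 1)) * (C (d ^ 2) * X 1) ^ N) := by
        rw [h0, map_add ψ, map_sub ψ, map_mul ψ, p1, map_mul ψ, map_pow ψ, p1, ap_C, ap_C, p0]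
      have e2 : (C (d ^ 2) * (ψ⁻¹ * g) (X 0) : MvPolynomial (Fin 2) K) =
          ψ⁻¹ (C (d ^ 2) * g (X 0)) := by
        rw [map_mul, ap_C, mul_ap]
      rw [e2, h0', inv_ap]
    rw [← e1, ← mul_assoc, ← C_mul, inv_mul_cancel₀ hd2, C_1, one_mul]
  have hm : ψ⁻¹ * g ∈ triG K := by
    refine ⟨(d ^ 2)⁻¹, d ^ 2, 0, C (d ^ 2)⁻¹ * (- (C e * (C (d ^ 2) * X 1)) +
      C (d * e ^ (N + 1)) * (C (d ^ 2) * X 1) ^ N), ?_, inv_ne_zero hd2, hd2, ?_, ?_⟩
    · have hX : (C (d ^ 2) * X 1 : MvPolynomial (Fin 2) K) ∈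
          supported K ({1} : Set (Fin 2)) := Subalgebra.mul_mem _ (C_supp _) X1_supp
      exact Subalgebra.mul_mem _ (C_supp _) (Subalgebra.add_mem _
        (Subalgebra.neg_mem _ (Subalgebra.mul_mem _ (C_supp _) hX))
        (Subalgebra.mul_mem _ (C_supp _) (Subalgebra.pow_mem _ hX _)))
    · rw [q0]; ring
    · rw [q1]; simp
  have := coset_mul ψ hm
  rw [mul_inv_cancel_left] at this
  exact congrArg Sum.inr this.symm

end Coord

section Chi
variable {R : Type*} [CommRing R] {K : Type*} [Field K] [Algebra R K]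

theorem reach_all [IsAlgClosed K] [CharZero K] (v : Vtx (affG K) (triG K)) :
    (T (affG K) (triG K)).Reachable (o K) v := by
  rcases v with v | v
  · induction v using QuotientGroup.induction_on with
    | H g => exact reach (jung g)
  · induction v using QuotientGroup.induction_on with
    | H g => exact reach_vB (jung g)

/-- The homomorphism attached to a potential. -/
noncomputable def chiHom [IsAlgClosed K] [CharZero K]
    (hinj : Function.Injective (algebraMap R K)) (h : Vtx (affG K) (triG K) → FreeGroup ℕ)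
    (hh : ∀ u v, (T (affG K) (triG K)).Adj u v → h v = h u * wt R K u v) :
    Aut2 R →* FreeGroup ℕ :=
  MonoidHom.mk' (fun g => (h (o K))⁻¹ * h (act (bc K g) (o K))) (by
    intro a b
    have h1 := potential_inv hh (f := act (bc K a)) (fun u v huv => adj_act _ huv)
      (fun u v _ => wt_inv hinj (fun j u v => EE_act_iff a j u v) u v)
      (reach_all (act (bc K b) (o K)))
    rw [map_mul, act_mul, ← h1]
    group)

theorem chiHom_apply [IsAlgClosed K] [CharZero K]
    (hinj : Function.Injective (algebraMap R K)) (h : Vtx (affG K) (triG K) → FreeGroup ℕ)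
    (hh : ∀ u v, (T (affG K) (triG K)).Adj u v → h v = h u * wt R K u v) (g : Aut2 R) :
    chiHom hinj h hh g = (h (o K))⁻¹ * h (act (bc K g) (o K)) := rfl

/-- The homomorphism kills the stabilisers of the vertices. -/
theorem chi_fix [IsAlgClosed K] [CharZero K]
    (hinj : Function.Injective (algebraMap R K)) (h : Vtx (affG K) (triG K) → FreeGroup ℕ)
    (hh : ∀ u v, (T (affG K) (triG K)).Adj u v → h v = h u * wt R K u v) {g : Aut2 R}
    {v : Vtx (affG K) (triG K)} (hv : act (bc K g) v = v) : chiHom hinj h hh g = 1 := by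
  have h1 := potential_inv hh (f := act (bc K g)) (fun u v huv => adj_act _ huv)
    (fun u v _ => wt_inv hinj (fun j u v => EE_act_iff g j u v) u v) (reach_all v)
  rw [hv] at h1
  rw [chiHom_apply]
  have h2 : h (act (bc K g) (o K)) = h (o K) := by
    have h3 := mul_right_cancel h1
    exact inv_injective h3
  rw [h2, inv_mul_cancel]

/-- Elements of degree at most `D` go to a free factor of finite rank. -/
theorem chi_degree [IsAlgClosed K] [CharZero K]
    (hinj : Function.Injective (algebraMap R K)) (h : Vtx (affG K) (triG K) → FreeGroup ℕ)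
    (hh : ∀ u v, (T (affG K) (triG K)).Adj u v → h v = h u * wt R K u v) {g : Aut2 R} {D : ℕ}
    (hD : dA (bc K g) ≤ D) :
    chiHom hinj h hh g ∈ Subgroup.closure (FreeGroup.of '' {j : ℕ | j + 2 ≤ D}) := by
  have h1 := growD.conn (fun g a ha => dA_mul g a ha) hD (reach (jung (bc K g)))
  obtain ⟨p, hp⟩ := h1
  have h2 := potential_mem hh (Subgroup.closure (FreeGroup.of '' {j : ℕ | j + 2 ≤ D}))
    (X := {x | Sm dA dB D x}) ?_ p hp
  · rw [chiHom_apply]
    have h3 : act (bc K g) (o K) = Sum.inl ((bc K g : Aut2 K) : Aut2 K ⧸ affG K) := by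
      change Sum.inl ((bc K g * 1 : Aut2 K) : Aut2 K ⧸ affG K) = _
      rw [mul_one]
    rw [h3]
    exact h2
  · have key : ∀ (j : ℕ) (u v : Vtx (affG K) (triG K)), Sm dA dB D v → EE R K j u v →
        j + 2 ≤ D := by
      rintro j u v ⟨k, ⟨hk, hkD⟩ | ⟨hk, -⟩⟩ hE
      · obtain ⟨γ, d, hd, hu, -, hv⟩ := hE
        rw [hk] at hv
        exact (size_va hinj hd hu (j + 2) γ k hv.symm).trans hkD
      · rw [hk] at hE
        exact absurd hE not_EE_inr
    intro u v _ hu hv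
    by_cases hE : ∃ j, EE R K j u v
    · obtain ⟨j, hj⟩ := hE
      rw [wt_eq hinj hj]
      exact Subgroup.subset_closure ⟨j, key j u v hv hj, rfl⟩
    by_cases hE' : ∃ j, EE R K j v u
    · obtain ⟨j, hj⟩ := hE'
      rw [wt_eq_inv hinj hj]
      exact inv_mem (Subgroup.subset_closure ⟨j, key j v u hu hj, rfl⟩)
    rw [wt_eq_one (fun j hj => hE ⟨j, hj⟩) (fun j hj => hE' ⟨j, hj⟩)]
    exact one_mem _

/-- The homomorphism is invariant under automorphisms of the base. -/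
theorem chi_cj [IsAlgClosed K] [CharZero K]
    (hinj : Function.Injective (algebraMap R K)) (h : Vtx (affG K) (triG K) → FreeGroup ℕ)
    (hh : ∀ u v, (T (affG K) (triG K)).Adj u v → h v = h u * wt R K u v) (s : RingAut R)
    (t : RingAut K) (hst : ∀ r, t (algebraMap R K r) = algebraMap R K (s r)) (g : Aut2 R) :
    chiHom hinj h hh (cj s g) = chiHom hinj h hh g := by
  have h1 := potential_inv hh (f := sig t) (fun u v huv => sig_adj t huv)
    (fun u v _ => wt_inv hinj (fun j u v => EE_sig_iff s t hst j u v) u v)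
    (reach_all (act (bc K g) (o K)))
  rw [sig_act_bc s t hst, sig_baseA] at h1
  exact h1

/-- The homomorphism is surjective. -/
theorem chi_surj [IsDomain R] [IsAlgClosed K] [CharZero K]
    (hinj : Function.Injective (algebraMap R K)) (h : Vtx (affG K) (triG K) → FreeGroup ℕ)
    (hh : ∀ u v, (T (affG K) (triG K)).Adj u v → h v = h u * wt R K u v)
    {d u e f : R} (hd : d ≠ 0) (hdu : ¬ IsUnit d) (heu : e * u + d ^ 2 * f = 1)
    {L : Type*} [Field L] (π₀ π₁ : R →+* L) (h0 : π₀ d = 0) (h1 : π₁ d = 0) (j : ℕ)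
    (hun : ∀ a : R, IsUnit a → π₀ a = π₀ u ^ (j + 2 + 1) → π₁ a = π₁ u ^ (j + 2 + 1) → False) :
    ∃ g : Aut2 R, chiHom hinj h hh g = FreeGroup.of j := by
  have hdK : algebraMap R K d ≠ 0 := fun h0 => hd (hinj (by rw [h0, map_zero]))
  obtain ⟨g, g1, g0⟩ := exists_gam hd heu (j + 2)
  refine ⟨g, ?_⟩
  obtain ⟨ψ, hψ⟩ : ∃ ψ : Aut2 K, ψ = psic (algebraMap R K u * (algebraMap R K d ^ 2)⁻¹)
    (algebraMap R K d) (j + 2) := ⟨_, rfl⟩
  have hvB : vB ψ = vB (bc K g) := by
    rw [hψ]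
    refine vB_gam (e := algebraMap R K e) hdK (j + 2) ?_ ?_
    · rw [bc_X, g1]
      simp
    · rw [bc_X, bc_X]
      have := congrArg (map (algebraMap R K)) g0
      simpa using this
  have hva : (Sum.inl (ψ : Aut2 K ⧸ affG K) : Vtx (affG K) (triG K)) =
      va (algebraMap R K d) (j + 2) := by rw [hψ]; exact psic_va _ _ _
  -- the edges
  have adj1 : (T (affG K) (triG K)).Adj (o K) (vB 1) := ⟨1, Or.inl ⟨rfl, rfl⟩⟩
  have adj2 : (T (affG K) (triG K)).Adj (vB 1) (va (algebraMap R K d) (j + 2)) := by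
    refine ⟨ae (algebraMap R K d) (j + 2), Or.inr ⟨?_, rfl⟩⟩
    have := coset_mul (1 : Aut2 K) (ae_mem (algebraMap R K d) (j + 2))
    rw [one_mul] at this
    exact congrArg Sum.inr this.symm
  have adj3 : (T (affG K) (triG K)).Adj (va (algebraMap R K d) (j + 2)) (vB ψ) :=
    ⟨ψ, Or.inl ⟨hva.symm, rfl⟩⟩
  have adj4 : (T (affG K) (triG K)).Adj (act (bc K g) (vB 1)) (act (bc K g) (o K)) :=
    adj_act _ adj1.symm
  -- the weights
  have w0 : wt R K (vB 1) (o K) = 1 := by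
    refine wt_eq_one (fun i hi => ?_) (fun i hi => not_EE_inl hi)
    obtain ⟨γ, d', hd', hu', -, h3⟩ := hi
    have h4 := size_va hinj hd' hu' (i + 2) γ 1 h3.symm
    have h5 : dA (1 : Aut2 K) ≤ 1 := by
      change max (X 0 : MvPolynomial (Fin 2) K).totalDegree (X 1).totalDegree ≤ _
      simp
    omega
  have w1 : wt R K (o K) (vB 1) = 1 := by rw [wt_anti hinj, w0, inv_one]
  have w2 : wt R K (vB 1) (va (algebraMap R K d) (j + 2)) = FreeGroup.of j :=
    wt_eq hinj ⟨1, d, hd, hdu, by rw [map_one, act_one], by rw [map_one, act_one]⟩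
  have w3 : wt R K (va (algebraMap R K d) (j + 2)) (vB ψ) = 1 := by
    refine wt_eq_one (fun i hi => not_EE_inl hi) (fun i hi => ?_)
    have hj : EE R K j (vB 1) (va (algebraMap R K d) (j + 2)) :=
      ⟨1, d, hd, hdu, by rw [map_one, act_one], by rw [map_one, act_one]⟩
    have hij := EE_unique hinj hi hj
    subst hij
    obtain ⟨γ, d', hd', hu', h3, h4⟩ := hi
    exact no_loop hinj (show 2 ≤ i + 2 by omega) hd hd' heu π₀ π₁ h0 h1 hun
      (by rw [hψ]; exact psic_Qp hdK _) h3.symm h4.symm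
  have w4 : wt R K (act (bc K g) (vB 1)) (act (bc K g) (o K)) = 1 := by
    rw [wt_inv hinj (fun j u v => EE_act_iff g j u v), w0]
  have e1 := hh _ _ adj1
  have e2 := hh _ _ adj2
  have e3 := hh _ _ adj3
  have e4 := hh _ _ adj4
  rw [w1] at e1
  rw [w2, e1] at e2
  rw [w3, e2] at e3
  have hv4 : act (bc K g) (vB 1) = vB ψ := by
    rw [hvB]
    change Sum.inr ((bc K g * 1 : Aut2 K) : Aut2 K ⧸ triG K) = _
    rw [mul_one]
  rw [w4, hv4, e3] at e4
  rw [chiHom_apply, e4]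
  group

end Chi

end Pool.Agent.GAR
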