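import Mathlib
import Pool.Agent.GAR.Orbits
import Pool.Agent.GAR.Jung
import Pool.Agent.GAR.Rentschler

set_option autoImplicit false

/-! A one-parameter subgroup of automorphisms of `R[x, y]` fixes a vertex of the forest. -/

namespace Pool.Agent.GAR

open MvPolynomial

section OneParam
variable {R : Type*} [CommRing R] [CharZero R] {K : Type*} [Field K] [CharZero K] [Algebra R K]
variable {S : Type*} [CommRing S] [Algebra S R]

/-- The parameters, in `K`. -/
noncomputable def par (R : Type*) [CommRing R] (K : Type*) [Field K] [Algebra R K]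
    {S : Type*} [CommRing S] [Algebra S R] (t : S) : K := algebraMap R K (algebraMap S R t)

/-- The coaction. -/
noncomputable def Phi (K : Type*) [Field K] [Algebra R K]
    (P : Fin 2 → Polynomial (MvPolynomial (Fin 2) R)) :
    MvPolynomial (Fin 2) K →ₐ[K] Polynomial (MvPolynomial (Fin 2) K) :=
  aeval fun i => (P i).map (map (algebraMap R K))

omit [CharZero R] [CharZero K] in
theorem Phi_eval (P : Fin 2 → Polynomial (MvPolynomial (Fin 2) R))
    (g : Multiplicative S →* Aut2 R)
    (hg : ∀ (t : S) (i : Fin 2), g (Multiplicative.ofAdd t) (X i) =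
      (P i).eval (C (algebraMap S R t))) (t : S) (p : MvPolynomial (Fin 2) K) :
    (Phi K P p).eval (C (par R K t)) = bc K (g (Multiplicative.ofAdd t)) p := by
  induction p using MvPolynomial.induction_on with
  | C a =>
    rw [ap_C]
    have : Phi K P (C a) = Polynomial.C (C a) := (Phi K P).commutes a
    rw [this, Polynomial.eval_C]
  | add p q hp hq => rw [map_add, map_add, Polynomial.eval_add, hp, hq]
  | mul_X p i hp =>
    rw [map_mul, map_mul, Polynomial.eval_mul, hp]
    congr 1
    have : Phi K P (X i) = (P i).map (map (algebraMap R K)) := aeval_X _ _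
    have h2 : (C (par R K t) : MvPolynomial (Fin 2) K) =
        map (algebraMap R K) (C (algebraMap S R t)) := by rw [map_C]; rfl
    rw [this, bc_X, hg, Polynomial.eval_map, h2, Polynomial.eval₂_at_apply]

omit [CharZero R] [CharZero K] in
theorem Phi_coeff_zero (P : Fin 2 → Polynomial (MvPolynomial (Fin 2) R))
    (g : Multiplicative S →* Aut2 R)
    (hg : ∀ (t : S) (i : Fin 2), g (Multiplicative.ofAdd t) (X i) =
      (P i).eval (C (algebraMap S R t))) (p : MvPolynomial (Fin 2) K) :
    (Phi K P p).coeff 0 = p := by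
  have h := Phi_eval (K := K) P g hg 0 p
  rw [ofAdd_zero, map_one, map_one, par, map_zero, map_zero, C_0] at h
  rw [Polynomial.coeff_zero_eq_eval_zero, h]; rfl

/-- The derivation. -/
noncomputable def der (P : Fin 2 → Polynomial (MvPolynomial (Fin 2) R))
    (h0 : ∀ p : MvPolynomial (Fin 2) K, (Phi K P p).coeff 0 = p) :
    Derivation K (MvPolynomial (Fin 2) K) (MvPolynomial (Fin 2) K) :=
  Derivation.mk'
    { toFun := fun p => (Phi K P p).coeff 1
      map_add' := fun p q => by rw [map_add, Polynomial.coeff_add]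
      map_smul' := fun c p => by
        rw [map_smul, Polynomial.coeff_smul]; rfl }
    (fun p q => by
      change (Phi K P (p * q)).coeff 1 = p • (Phi K P q).coeff 1 + q • (Phi K P p).coeff 1
      rw [map_mul, Polynomial.mul_coeff_one, h0, h0, smul_eq_mul, smul_eq_mul]; ring)

omit [CharZero R] in
theorem par_inf :
    (Set.range fun t : S => (C (par R K t) : MvPolynomial (Fin 2) K)).Infinite := by
  have h : Function.Injective fun n : ℕ => (C (par R K (n : S)) : MvPolynomial (Fin 2) K) := by
    intro a b hab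
    have := C_injective _ _ hab
    rw [par, par, map_natCast, map_natCast, map_natCast, map_natCast] at this
    exact_mod_cast this
  exact (Set.infinite_range_of_injective h).mono (by
    rintro _ ⟨n, rfl⟩
    exact ⟨(n : S), rfl⟩)

omit [CharZero R] in
theorem Phi_der (P : Fin 2 → Polynomial (MvPolynomial (Fin 2) R))
    (g : Multiplicative S →* Aut2 R)
    (hg : ∀ (t : S) (i : Fin 2), g (Multiplicative.ofAdd t) (X i) =
      (P i).eval (C (algebraMap S R t)))
    (p : MvPolynomial (Fin 2) K) :
    Polynomial.derivative (Phi K P p) = Phi K P ((Phi K P p).coeff 1) := by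
  have hinf : (Set.range fun t : S => (C (par R K t) : MvPolynomial (Fin 2) K)).Infinite :=
    par_inf
  -- equality of values
  apply Polynomial.eq_of_infinite_eval_eq
  refine hinf.mono ?_
  rintro _ ⟨t, rfl⟩
  change Polynomial.eval (C (par R K t)) _ = Polynomial.eval (C (par R K t)) _
  rw [Phi_eval P g hg]
  have key : Polynomial.taylor (C (par R K t)) (Phi K P p) =
      (Phi K P p).map ((bc K (g (Multiplicative.ofAdd t)) :
        MvPolynomial (Fin 2) K ≃ₐ[K] MvPolynomial (Fin 2) K) :
        MvPolynomial (Fin 2) K →+* MvPolynomial (Fin 2) K) := by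
    apply Polynomial.eq_of_infinite_eval_eq
    refine hinf.mono ?_
    rintro _ ⟨s, rfl⟩
    change Polynomial.eval (C (par R K s)) _ = Polynomial.eval (C (par R K s)) _
    rw [Polynomial.taylor_eval]
    have e1 : (C (par R K s) : MvPolynomial (Fin 2) K) + C (par R K t) = C (par R K (t + s)) := by
      rw [← C_add]
      congr 1
      rw [par, par, par, map_add, map_add, add_comm]
    rw [e1, Phi_eval P g hg, ofAdd_add, map_mul, map_mul, mul_ap, ← Phi_eval P g hg s p,
      Polynomial.eval_map]
    have e2 : (C (par R K s) : MvPolynomial (Fin 2) K) =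
        ((bc K (g (Multiplicative.ofAdd t)) :
        MvPolynomial (Fin 2) K ≃ₐ[K] MvPolynomial (Fin 2) K) :
        MvPolynomial (Fin 2) K →+* MvPolynomial (Fin 2) K) (C (par R K s)) :=
      (ap_C _ _).symm
    conv_rhs => rw [e2]
    rw [Polynomial.eval₂_at_apply]; rfl
  have h1 := congrArg (fun q => Polynomial.coeff q 1) key
  rw [Polynomial.taylor_coeff_one, Polynomial.coeff_map] at h1
  exact h1

omit [CharZero R] in
theorem der_iter (P : Fin 2 → Polynomial (MvPolynomial (Fin 2) R))
    (g : Multiplicative S →* Aut2 R)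
    (hg : ∀ (t : S) (i : Fin 2), g (Multiplicative.ofAdd t) (X i) =
      (P i).eval (C (algebraMap S R t)))
    (h0 : ∀ p : MvPolynomial (Fin 2) K, (Phi K P p).coeff 0 = p)
    (p : MvPolynomial (Fin 2) K) (n : ℕ) :
    Phi K P ((fun q => der P h0 q)^[n] p) = Polynomial.derivative^[n] (Phi K P p) := by
  induction n with
  | zero => rfl
  | succ n ih =>
    rw [Function.iterate_succ_apply', Function.iterate_succ_apply', ← ih]
    exact (Phi_der P g hg _).symm

omit [CharZero R] in
/-- **A one-parameter subgroup fixes a vertex.** -/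
theorem oneParam_tri [IsAlgClosed K] (P : Fin 2 → Polynomial (MvPolynomial (Fin 2) R))
    (g : Multiplicative S →* Aut2 R)
    (hg : ∀ (t : S) (i : Fin 2), g (Multiplicative.ofAdd t) (X i) =
      (P i).eval (C (algebraMap S R t))) :
    ∃ al : Aut2 K, al ∈ affG K ⊔ triG K ∧ ∀ t, al⁻¹ * bc K (g t) * al ∈ triG K := by
  have h0 := Phi_coeff_zero (K := K) P g hg
  have hnil : ∀ p, ∃ n : ℕ, (fun q => der P h0 q)^[n] p = 0 := by
    intro p
    refine ⟨(Phi K P p).natDegree + 1, ?_⟩
    have h1 := der_iter P g hg h0 p ((Phi K P p).natDegree + 1)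
    rw [Polynomial.iterate_derivative_eq_zero (Nat.lt_succ_self _)] at h1
    have h2 := congrArg (fun q => Polynomial.coeff q 0) h1
    simp only [Polynomial.coeff_zero] at h2
    rw [h0] at h2
    exact h2
  obtain ⟨al, hal, hD1, h, hh, hD0⟩ := rentschler (der P h0) hnil
  refine ⟨al, closure_elemSet_le hal, ?_⟩
  have d1 : Polynomial.derivative (Phi K P (al (X 1))) = 0 := by
    rw [Phi_der P g hg]
    have : (Phi K P (al (X 1))).coeff 1 = 0 := hD1
    rw [this, map_zero]
  have e1 : Phi K P (al (X 1)) = Polynomial.C (al (X 1)) := by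
    rw [Polynomial.eq_C_of_natDegree_eq_zero (Polynomial.derivative_eq_zero.1 d1), h0]
  have e2 : Phi K P (al h) = Polynomial.C (al h) := by
    obtain ⟨q, rfl⟩ := (mem_supp_iff h).1 hh
    rw [ap_aeval, ← Polynomial.aeval_algHom_apply, e1]
    have : (Polynomial.C (al (X 1)) : Polynomial (MvPolynomial (Fin 2) K)) =
      (Polynomial.CAlgHom (R := K) : MvPolynomial (Fin 2) K →ₐ[K] _) (al (X 1)) := rfl
    rw [this, Polynomial.aeval_algHom_apply]; rfl
  have e3 : Phi K P (al (X 0)) = Polynomial.C (al (X 0)) + Polynomial.X * Polynomial.C (al h) := by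
    have d0 : Polynomial.derivative (Phi K P (al (X 0)) -
        (Polynomial.C (al (X 0)) + Polynomial.X * Polynomial.C (al h))) = 0 := by
      rw [Polynomial.derivative_sub, Phi_der P g hg]
      have : (Phi K P (al (X 0))).coeff 1 = al h := hD0
      rw [this, e2]; simp
    have h3 := Polynomial.eq_C_of_natDegree_eq_zero (Polynomial.derivative_eq_zero.1 d0)
    have h4 : (Phi K P (al (X 0)) - (Polynomial.C (al (X 0)) +
        Polynomial.X * Polynomial.C (al h))).coeff 0 = 0 := by
      rw [Polynomial.coeff_sub, h0, Polynomial.coeff_add, Polynomial.coeff_C_zero,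
        Polynomial.mul_coeff_zero, Polynomial.coeff_X_zero, zero_mul, add_zero, sub_self]
    rw [h4, Polynomial.C_0] at h3
    exact sub_eq_zero.1 h3
  intro t
  have f1 : bc K (g t) (al (X 1)) = al (X 1) := by
    have := Phi_eval (K := K) P g hg (Multiplicative.toAdd t) (al (X 1))
    rw [e1, Polynomial.eval_C, ofAdd_toAdd] at this
    exact this.symm
  have f0 : bc K (g t) (al (X 0)) = al (X 0) + C (par R K (Multiplicative.toAdd t)) * al h := by
    have := Phi_eval (K := K) P g hg (Multiplicative.toAdd t) (al (X 0))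
    rw [e3, ofAdd_toAdd] at this
    rw [← this, Polynomial.eval_add, Polynomial.eval_mul, Polynomial.eval_C, Polynomial.eval_C,
      Polynomial.eval_X]
  refine ⟨1, 1, 0, C (par R K (Multiplicative.toAdd t)) * h,
    Subalgebra.mul_mem _ (C_supp _) hh, one_ne_zero, one_ne_zero, ?_, ?_⟩
  · rw [mul_ap, mul_ap, f0]
    apply al.injective
    change al (al⁻¹ _) = _
    rw [ap_inv, map_add, map_mul, map_mul, ap_C, ap_C, C_1, one_mul]
  · rw [mul_ap, mul_ap, f1, inv_ap]; simp

omit [CharZero R] in
theorem oneParam_fix [IsAlgClosed K] (P : Fin 2 → Polynomial (MvPolynomial (Fin 2) R))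
    (g : Multiplicative S →* Aut2 R)
    (hg : ∀ (t : S) (i : Fin 2), g (Multiplicative.ofAdd t) (X i) =
      (P i).eval (C (algebraMap S R t))) :
    ∃ al : Aut2 K, al ∈ affG K ⊔ triG K ∧ ∀ t, act (bc K (g t)) (vB al) = vB al := by
  obtain ⟨al, hal, h⟩ := oneParam_tri (K := K) P g hg
  refine ⟨al, hal, fun t => ?_⟩
  have := coset_mul al (h t)
  rw [mul_assoc, mul_inv_cancel_left] at this
  change Sum.inr _ = Sum.inr _
  exact congrArg Sum.inr this

end OneParam

end Pool.Agent.GAR
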