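import Mathlib
import Pool.Agent.GAR.Orbits

set_option autoImplicit false

/-! The vertices `w z n` for different `z` lie in different orbits. -/

namespace Pool.Agent.GAR

open MvPolynomial

section Orbits2
variable {R : Type*} [CommRing R] {K : Type*} [Field K] [Algebra R K]

theorem coeff_top (z : R) (n : ℕ) : coeff (Finsupp.single 1 n) (fpol z n) = 1 := by
  rw [fpol, coeff_add, coeff_C_mul, coeff_X, if_neg, mul_zero, zero_add, coeff_X_pow, if_pos rfl]
  intro h
  have := DFunLike.congr_fun h 0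
  simp at this

theorem coeff_bot (z : R) {n : ℕ} (hn : 1 ≤ n) : coeff 0 (fpol z n) = 0 := by
  rw [fpol, coeff_add, coeff_C_mul, coeff_X, if_neg, mul_zero, zero_add, coeff_X_pow, if_neg]
  · intro h
    have := DFunLike.congr_fun h 1
    simp at this
    omega
  · intro h
    exact one_ne_zero (Finsupp.single_eq_zero.1 h)

theorem rel (hinj : Function.Injective (algebraMap R K)) {z z' : R} (hz : z ≠ 0)
    (hz' : z' ≠ 0) {n m : ℕ} (hn : 1 ≤ n) (γ : Aut2 R)
    (h : act (bc K γ) (wv K z' m) = wv K z n) :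
    ∃ r s : R, γ (fpol z' m) = C r * fpol z n + C s := by
  have hz1 : algebraMap R K z ≠ 0 := fun h => hz (hinj (by rw [h, map_zero]))
  have hz2 : algebraMap R K z' ≠ 0 := fun h => hz' (hinj (by rw [h, map_zero]))
  have h1 := QuotientGroup.eq.1 (Sum.inr.inj h).symm
  have h1' : (psi (algebraMap R K z)⁻¹ n)⁻¹ * (bc K γ * psi (algebraMap R K z')⁻¹ m) ∈
    triG K := h1
  obtain ⟨u, v, c, p, hp, hu, hv, e0, e1⟩ := h1'
  have e2 : bc K γ (psi (algebraMap R K z')⁻¹ m (X 1)) =
      C v * psi (algebraMap R K z)⁻¹ n (X 1) + C c := by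
    have := congrArg (psi (algebraMap R K z)⁻¹ n) e1
    rw [map_add, map_mul, ap_C, ap_C, mul_ap, ap_inv, mul_ap] at this
    exact this
  rw [← psi_f hinj hz, ← psi_f hinj hz', map_mul, ap_C, bc_map] at e2
  have e3 : map (algebraMap R K) (γ (fpol z' m)) =
      C (algebraMap R K z' * (v * (algebraMap R K z)⁻¹)) * map (algebraMap R K) (fpol z n) +
        C (algebraMap R K z' * c) := by
    have := congrArg (fun t => C (algebraMap R K z') * t) e2
    rw [← mul_assoc, ← C_mul, mul_inv_cancel₀ hz2, C_1, one_mul, mul_add] at this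
    rw [this, C_mul, C_mul, C_mul]; ring
  obtain ⟨v', hv'⟩ : ∃ v', algebraMap R K z' * (v * (algebraMap R K z)⁻¹) = v' := ⟨_, rfl⟩
  obtain ⟨c', hc'⟩ : ∃ c', algebraMap R K z' * c = c' := ⟨_, rfl⟩
  rw [hv', hc'] at e3
  have hv2 : algebraMap R K (coeff (Finsupp.single 1 n) (γ (fpol z' m))) = v' := by
    have := congrArg (coeff (Finsupp.single 1 n)) e3
    rw [coeff_map, coeff_add, coeff_C_mul, coeff_map, coeff_top z n, map_one, mul_one, coeff_C,
      if_neg, add_zero] at this
    · exact this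
    · intro h
      have := DFunLike.congr_fun h 1
      simp at this
      omega
  have hc2 : algebraMap R K (coeff 0 (γ (fpol z' m))) = c' := by
    have := congrArg (coeff 0) e3
    rw [coeff_map, coeff_add, coeff_C_mul, coeff_map, coeff_bot z hn, map_zero, mul_zero, coeff_C,
      if_pos rfl, zero_add] at this
    exact this
  refine ⟨coeff (Finsupp.single 1 n) (γ (fpol z' m)), coeff 0 (γ (fpol z' m)), ?_⟩
  apply map_injective _ hinj
  rw [e3, map_add, map_mul, map_C, map_C, hv2, hc2]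

/-- The scaling `x ↦ c x`. -/
noncomputable def scl {L : Type*} [Field L] (c : L) (hc : c ≠ 0) : Aut2 L :=
  AlgEquiv.ofAlgHom (aeval ![C c * X 0, X 1]) (aeval ![C c⁻¹ * X 0, X 1])
    (by
      ext1 i; fin_cases i
      · simp [← mul_assoc, ← C_mul, inv_mul_cancel₀ hc]
      · simp)
    (by
      ext1 i; fin_cases i
      · simp [← mul_assoc, ← C_mul, mul_inv_cancel₀ hc]
      · simp)

theorem scl_X0 {L : Type*} [Field L] (c : L) (hc : c ≠ 0) : scl c hc (X 0) = C c * X 0 := by
  change aeval ![C c * X 0, X 1] (X 0) = _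
  rw [aeval_X]; rfl

theorem scl_X1 {L : Type*} [Field L] (c : L) (hc : c ≠ 0) : scl c hc (X 1) = X 1 := by
  change aeval ![C c * X 0, X 1] (X 1) = _
  rw [aeval_X]; rfl

/-- **Different orbits.** -/
theorem orbits2 (hinj : Function.Injective (algebraMap R K)) {z z' : R} (hz : z ≠ 0)
    (hz' : z' ≠ 0) (M : Ideal R) (hM : M.IsMaximal) (hzM : z ∈ M) (hzM' : z' ∉ M) {n : ℕ}
    (hn : 2 ≤ n) (γ : Aut2 R) : act (bc K γ) (wv K z' n) ≠ wv K z n := by
  intro h
  obtain ⟨r, s, h1⟩ := rel hinj hz hz' (by omega) γ h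
  have h' : act (bc K γ⁻¹) (wv K z n) = wv K z' n := by
    rw [← h, map_inv, act_inv_act]
  obtain ⟨r', s', h2⟩ := rel hinj hz' hz (by omega) γ⁻¹ h'
  have apC : ∀ (g : Aut2 R) (c : R), g (C c) = C c := fun g c => g.commutes c
  have gi : ∀ (g : Aut2 R) (p : MvPolynomial (Fin 2) R), g⁻¹ (g p) = p := fun g p => by
    change (g⁻¹ * g) p = p
    rw [inv_mul_cancel]; rfl
  have hrr : r * r' = 1 := by
    have h3 : fpol z' n = C r * (C r' * fpol z' n + C s') + C s := by
      have := congrArg (γ⁻¹ : Aut2 R) h1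
      rw [gi, map_add, map_mul, apC, apC, h2] at this
      exact this
    have h4 := congrArg (coeff (Finsupp.single 1 n)) h3
    have hne : (0 : Fin 2 →₀ ℕ) ≠ Finsupp.single 1 n := by
      intro h
      have := DFunLike.congr_fun h 1
      simp at this
      omega
    rw [coeff_add, coeff_C_mul, coeff_add, coeff_C_mul, coeff_top z' n, coeff_C, coeff_C,
      if_neg hne, if_neg hne, mul_one, add_zero, add_zero] at h4
    exact h4.symm
  let _ : Field (R ⧸ M) := Ideal.Quotient.field M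
  have hz0 : algebraMap R (R ⧸ M) z = 0 := Ideal.Quotient.eq_zero_iff_mem.2 hzM
  have hz1 : algebraMap R (R ⧸ M) z' ≠ 0 := fun h0 =>
    hzM' (Ideal.Quotient.eq_zero_iff_mem.1 h0)
  have hr0 : algebraMap R (R ⧸ M) r ≠ 0 := by
    intro h0
    have := congrArg (algebraMap R (R ⧸ M)) hrr
    rw [map_mul, h0, zero_mul, map_one] at this
    exact zero_ne_one this
  have h5 := congrArg (map (algebraMap R (R ⧸ M))) h1
  have h5r : map (algebraMap R (R ⧸ M)) (C r * fpol z n + C s) =
      C (algebraMap R (R ⧸ M) r) * X 1 ^ n + C (algebraMap R (R ⧸ M) s) := by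
    rw [map_add, map_mul, map_fpol, map_C, map_C, hz0, C_0, zero_mul, zero_add]
  rw [← bc_map, map_fpol, h5r] at h5
  obtain ⟨ε, hε⟩ : ∃ ε : Aut2 (R ⧸ M), ε (X 0) =
      C (algebraMap R (R ⧸ M) r) * X 1 ^ n + C (algebraMap R (R ⧸ M) s) := by
    refine ⟨bc (R ⧸ M) γ * (scl _ hz1 * elem (Polynomial.X ^ n)), ?_⟩
    rw [mul_ap, mul_ap, elem_X0, map_add, scl_X0, map_pow, Polynomial.aeval_X, map_pow, scl_X1,
      h5]
  have h6 : (X 0 : MvPolynomial (Fin 2) (R ⧸ M)) =
      C (algebraMap R (R ⧸ M) r) * (ε⁻¹ (X 1)) ^ n + C (algebraMap R (R ⧸ M) s) := by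
    have := congrArg (ε⁻¹ : Aut2 (R ⧸ M)) hε
    rw [inv_ap, map_add, map_mul, map_pow, ap_C, ap_C] at this
    exact this
  have hX : (ε⁻¹ (X 1)) ≠ 0 := by
    intro h0
    have := one_le_deg ε⁻¹ 1
    rw [h0] at this
    simp at this
  have h7 := congrArg totalDegree h6
  have h8 : n ≤ n * (ε⁻¹ (X 1)).totalDegree := Nat.le_mul_of_pos_right n (one_le_deg ε⁻¹ 1)
  rw [totalDegree_add_C _ _ (by rw [totalDegree_C_mul hr0, totalDegree_pow_eq _ hX]; omega),
    totalDegree_C_mul hr0, totalDegree_pow_eq _ hX, totalDegree_X] at h7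
  omega

end Orbits2

end Pool.Agent.GAR
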