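import Mathlib
import Pool.Agent.GAR.Orbits2
import Pool.Agent.GAR.OneParam
import Pool.Agent.GAR.Final

set_option autoImplicit false

/-! Countable families of one-parameter subgroups. -/

namespace Pool.Agent.GAR

open MvPolynomial

section Countable
variable {R : Type*} [CommRing R] [IsDomain R] {K : Type*} [Field K] [Algebra R K]

/-- Let `H` be generated by automorphisms over `R` which over `K` are affine, or triangular, or
tame of degree at most `D`, or fix one of the vertices `v i`. Then the automorphisms `F z n` in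
`H`, `z` in `Z`, inject into a countable (finite) set. -/
theorem inj_of_family (hinj : Function.Injective (algebraMap R K)) (D : ℕ) (hD : 1 ≤ D)
    {ι : Type*} (v : ι → Vtx (affG K) (triG K))
    (hv : ∀ i, (T (affG K) (triG K)).Reachable (o K) (v i))
    (s : Set (Aut2 R))
    (hs : ∀ g ∈ s, bc K g ∈ affG K ∨ bc K g ∈ triG K ∨
      (bc K g ∈ affG K ⊔ triG K ∧ dA (bc K g) ≤ D) ∨ ∃ i, act (bc K g) (v i) = v i)
    (n : ℕ) (hn : D < n) (Z : Set R) (hu : ∀ z ∈ Z, ¬ IsUnit z)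
    (hZ : ∀ z ∈ Z, ∀ z' ∈ Z, z ≠ z' → ∃ M : Ideal R, M.IsMaximal ∧ z ∈ M ∧ z' ∉ M) :
    ∃ S0 : Set (Vtx (affG K) (triG K)), (Finite ι → S0.Finite) ∧ (Countable ι → S0.Countable) ∧
      ∃ f : {z : R | z ∈ Z ∧ ∃ hz : z ≠ 0, F hz n ∈ Subgroup.closure s} → S0,
        Function.Injective f := by
  classical
  have hw : ∀ i, ∃ p : (T (affG K) (triG K)).Walk (o K) (v i), True := fun i => by
    obtain ⟨p⟩ := hv i
    exact ⟨p, trivial⟩
  choose p _ using hw
  let S0 : Set (Vtx (affG K) (triG K)) := ⋃ i, {x | x ∈ (p i).support}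
  refine ⟨S0, fun _ => Set.finite_iUnion fun i => List.finite_toSet _,
    fun _ => Set.countable_iUnion fun i => (List.finite_toSet _).countable, ?_⟩
  let X0 : Set (Vtx (affG K) (triG K)) := {x | Sm dA dB D x} ∪ S0
  let S : Set (Vtx (affG K) (triG K)) := {x | Conn X0 (o K) x}
  have ho1 : o K ∈ {x | Sm (A := affG K) (B := triG K) dA dB D x} := ⟨1, Or.inl ⟨rfl, by
    change max (X 0 : MvPolynomial (Fin 2) K).totalDegree (X 1).totalDegree ≤ _
    simpa using hD⟩⟩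
  have ho0 : o K ∈ X0 := Or.inl ho1
  have hoS : o K ∈ S := Conn.refl ho0
  have hS : ∀ σ ∈ S, Conn S (o K) σ := by
    rintro σ ⟨q, hq⟩
    refine ⟨q, fun x hx => ⟨q.takeUntil x hx, fun y hy => hq y ?_⟩⟩
    exact q.support_takeUntil_subset_support hx hy
  have hv1 : vB (1 : Aut2 K) ∈ S := by
    have h1 : (T (affG K) (triG K)).Adj (o K) (vB 1) := ⟨1, Or.inl ⟨rfl, rfl⟩⟩
    refine ⟨SimpleGraph.Walk.cons h1 SimpleGraph.Walk.nil, fun x hx => ?_⟩
    simp only [SimpleGraph.Walk.support_cons, SimpleGraph.Walk.support_nil, List.mem_cons,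
      List.not_mem_nil, or_false] at hx
    rcases hx with rfl | rfl
    · exact ho0
    · refine Or.inl ⟨1, Or.inr ⟨rfl, ?_⟩⟩
      change (X 1 : MvPolynomial (Fin 2) K).totalDegree ≤ _
      simpa using hD
  have hvS : ∀ i, v i ∈ S := fun i =>
    ⟨p i, fun x hx => Or.inr (Set.mem_iUnion.2 ⟨i, hx⟩)⟩
  let G : Subgroup (Aut2 K) := (Subgroup.closure s).map (bc K)
  have hgen : G ≤ Subgroup.closure {t | t ∈ G ∧
      ((∃ v ∈ S, act t v = v) ∨ act t (Sum.inl ((1 : Aut2 K) : Aut2 K ⧸ affG K)) ∈ S)} := by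
    change (Subgroup.closure s).map (bc K) ≤ _
    rw [MonoidHom.map_closure, Subgroup.closure_le]
    rintro _ ⟨g, hg, rfl⟩
    refine Subgroup.subset_closure ⟨⟨g, Subgroup.subset_closure hg, rfl⟩, ?_⟩
    rcases hs g hg with h | h | ⟨h, h'⟩ | ⟨i, h⟩
    · refine Or.inl ⟨o K, hoS, ?_⟩
      have := coset_mul (1 : Aut2 K) h
      rw [one_mul] at this
      change Sum.inl ((bc K g * 1 : Aut2 K) : Aut2 K ⧸ affG K) = _
      rw [mul_one, this]
    · refine Or.inl ⟨vB 1, hv1, ?_⟩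
      have := coset_mul (1 : Aut2 K) h
      rw [one_mul] at this
      change Sum.inr ((bc K g * 1 : Aut2 K) : Aut2 K ⧸ triG K) = _
      rw [mul_one, this]
    · refine Or.inr ?_
      have := growD.conn (fun g a ha => dA_mul g a ha) h' (reach h)
      change Conn X0 (o K) (Sum.inl ((bc K g * 1 : Aut2 K) : Aut2 K ⧸ affG K))
      rw [mul_one]
      exact this.mono Set.subset_union_left
    · exact Or.inl ⟨v i, hvS i, h⟩
  have key : ∀ z : {z : R | z ∈ Z ∧ ∃ hz : z ≠ 0, F hz n ∈ Subgroup.closure s},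
      ∃ σ : S0, ∃ γ : Aut2 R, wv K z.1 n = act (bc K γ) σ.1 := by
    rintro ⟨z, hzZ, hz, hF⟩
    obtain ⟨σ, hσ, g, hg, hw⟩ := mem_orbit acyclic G S hoS hS hgen (bc K (F hz n))
      ⟨F hz n, hF, rfl⟩ (wv K z n) (F_fix hinj hz n) (F_move hinj hz n)
      (reach_vB (psi_mem _ _)).symm
    obtain ⟨γ, -, rfl⟩ := hg
    have hσ0 : σ ∈ X0 := by
      obtain ⟨q, hq⟩ := hσ
      exact hq σ q.end_mem_support
    rcases hσ0 with ⟨k, ⟨rfl, -⟩ | ⟨rfl, hk⟩⟩ | hσ0
    · exact absurd hw (by simp [act])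
    · have := size_orbit hinj hz (hu z hzZ) n γ k hw.symm
      have h2 : (k (X 1)).totalDegree ≤ D := hk
      omega
    · exact ⟨⟨σ, hσ0⟩, γ, hw⟩
  choose f hf using key
  refine ⟨f, ?_⟩
  rintro ⟨z, hzZ, hz, hF⟩ ⟨z', hzZ', hz', hF'⟩ he
  by_contra hne
  have hne' : z ≠ z' := fun h => hne (Subtype.ext h)
  obtain ⟨M, hM, hzM, hzM'⟩ := hZ z hzZ z' hzZ' hne'
  obtain ⟨γ, hγ⟩ := hf ⟨z, hzZ, hz, hF⟩
  obtain ⟨γ', hγ'⟩ := hf ⟨z', hzZ', hz', hF'⟩
  rw [← he] at hγ'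
  refine orbits2 (K := K) hinj hz hz' M hM hzM hzM' (n := n) (by omega) (γ * γ'⁻¹) ?_
  have e1 : act (bc K γ'⁻¹) (wv K z' n) = (f ⟨z, hzZ, hz, hF⟩).1 := by
    rw [hγ', map_inv, act_inv_act]
  rw [map_mul, act_mul, e1]
  exact hγ.symm

end Countable

end Pool.Agent.GAR
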