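import Mathlib
import Pool.Agent.GAR.Semi

set_option autoImplicit false

/-! The automorphisms of affine `n`-space which preserve the projection to the last `n - 2`
coordinates: part D (helper20). -/

namespace Pool.Agent.GAR

open MvPolynomial

section Transfer
variable (k : Type*) [Field k] (m : ℕ)

/-- `k[x_0, ..., x_(m+1)] = k[z_0, ..., z_(m-1)][x, y]`. -/
noncomputable def ev : MvPolynomial (Fin (2 + m)) k ≃ₐ[k]
    MvPolynomial (Fin 2) (MvPolynomial (Fin m) k) :=
  (renameEquiv k finSumFinEquiv.symm).trans (sumAlgEquiv k (Fin 2) (Fin m))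

variable {k m}

theorem ev_C (c : k) : ev k m (C c) = C (C c) := by
  rw [ev, AlgEquiv.trans_apply, renameEquiv_apply, rename_C, sumAlgEquiv_C_inl]

theorem ev_castAdd (i : Fin 2) : ev k m (X (Fin.castAdd m i)) = X i := by
  rw [ev, AlgEquiv.trans_apply, renameEquiv_apply, rename_X, finSumFinEquiv_symm_apply_castAdd,
    sumAlgEquiv_X_inl]

theorem ev_natAdd (j : Fin m) : ev k m (X (Fin.natAdd 2 j)) = C (X j) := by
  rw [ev, AlgEquiv.trans_apply, renameEquiv_apply, rename_X, finSumFinEquiv_symm_apply_natAdd,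
    sumAlgEquiv_X_inr]

theorem ev_symm_X (i : Fin 2) : (ev k m).symm (X i) = X (Fin.castAdd m i) := by
  rw [AlgEquiv.symm_apply_eq, ev_castAdd]

theorem ev_symm_CC (c : k) : (ev k m).symm (C (C c)) = C c := by
  rw [AlgEquiv.symm_apply_eq, ev_C]

theorem ev_symm_CX (j : Fin m) : (ev k m).symm (C (X j)) = X (Fin.natAdd 2 j) := by
  rw [AlgEquiv.symm_apply_eq, ev_natAdd]

/-- The coordinate ring of the base: polynomials in `x_i`, `i ≥ 2`. -/
def baseSet (n : ℕ) : Set (Fin n) := {i | 2 ≤ (i : ℕ)}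

theorem cases_add {P : Fin (2 + m) → Prop} (h1 : ∀ i : Fin 2, P (Fin.castAdd m i))
    (h2 : ∀ j : Fin m, P (Fin.natAdd 2 j)) (i : Fin (2 + m)) : P i := by
  refine Fin.addCases (motive := P) h1 h2 i

theorem mem_base_iff (p : MvPolynomial (Fin (2 + m)) k) :
    p ∈ supported k (baseSet (2 + m)) ↔ ∃ r, ev k m p = C r := by
  constructor
  · intro hp
    rw [supported_eq_adjoin_X] at hp
    induction hp using Algebra.adjoin_induction with
    | mem x hx =>
      obtain ⟨i, hi, rfl⟩ := hx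
      revert hi
      refine cases_add (P := fun i => i ∈ baseSet (2 + m) → ∃ r, ev k m (X i) = C r) ?_ ?_ i
      · intro i hi
        exfalso
        have h1 : 2 ≤ ((Fin.castAdd m i : Fin (2 + m)) : ℕ) := hi
        rw [Fin.val_castAdd] at h1
        omega
      · intro j _
        exact ⟨X j, ev_natAdd j⟩
    | algebraMap r => exact ⟨C r, by rw [algebraMap_eq, ev_C]⟩
    | add x y _ _ hx hy =>
      obtain ⟨r, hr⟩ := hx
      obtain ⟨t, ht⟩ := hy
      exact ⟨r + t, by rw [map_add, hr, ht, C_add]⟩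
    | mul x y _ _ hx hy =>
      obtain ⟨r, hr⟩ := hx
      obtain ⟨t, ht⟩ := hy
      exact ⟨r * t, by rw [map_mul, hr, ht, C_mul]⟩
  · rintro ⟨r, hr⟩
    have h1 : p = (ev k m).symm (C r) := by rw [← hr, AlgEquiv.symm_apply_apply]
    rw [h1]
    clear h1 hr
    induction r using MvPolynomial.induction_on with
    | C a =>
      rw [ev_symm_CC]
      exact Subalgebra.algebraMap_mem _ a
    | add r t hr ht =>
      rw [C_add, map_add]
      exact add_mem hr ht
    | mul_X r j hr =>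
      rw [C_mul, map_mul, ev_symm_CX]
      refine mul_mem hr (X_mem_supported.2 ?_)
      change 2 ≤ ((Fin.natAdd 2 j : Fin (2 + m)) : ℕ)
      rw [Fin.val_natAdd]
      omega

theorem ev_supported (i : Fin 2) {p : MvPolynomial (Fin (2 + m)) k}
    (hp : p ∈ supported k {j : Fin (2 + m) | Fin.castAdd m i < j}) :
    ev k m p ∈ supported (MvPolynomial (Fin m) k) {j : Fin 2 | i < j} := by
  rw [supported_eq_adjoin_X] at hp
  induction hp using Algebra.adjoin_induction with
  | mem x hx =>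
    obtain ⟨j, hj, rfl⟩ := hx
    revert hj
    refine cases_add (P := fun j => j ∈ {j : Fin (2 + m) | Fin.castAdd m i < j} →
      ev k m (X j) ∈ supported (MvPolynomial (Fin m) k) {j : Fin 2 | i < j}) ?_ ?_ j
    · intro j hj
      rw [ev_castAdd]
      refine X_mem_supported.2 ?_
      have h1 : Fin.castAdd m i < Fin.castAdd m j := hj
      rw [Fin.lt_def, Fin.val_castAdd, Fin.val_castAdd] at h1
      exact h1
    · intro j _
      rw [ev_natAdd]
      exact Subalgebra.algebraMap_mem _ (X j : MvPolynomial (Fin m) k)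
  | algebraMap r =>
    rw [algebraMap_eq, ev_C]
    exact Subalgebra.algebraMap_mem _ (C r : MvPolynomial (Fin m) k)
  | add x y _ _ hx hy =>
    rw [map_add]
    exact add_mem hx hy
  | mul x y _ _ hx hy =>
    rw [map_mul]
    exact mul_mem hx hy

theorem totalDegree_ev_le (p : MvPolynomial (Fin (2 + m)) k) :
    (ev k m p).totalDegree ≤
      degreeOf (Fin.castAdd m 0) p + degreeOf (Fin.castAdd m 1) p := by
  conv_lhs => rw [p.as_sum]
  rw [map_sum]
  refine totalDegree_finsetSum_le fun s hs => ?_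
  rw [monomial_eq, Finsupp.prod_fintype _ _ (by simp), Fin.prod_univ_add, map_mul, map_mul,
    map_prod, map_prod]
  simp only [map_pow, ev_castAdd, ev_natAdd, ev_C]
  rw [Fin.prod_univ_two]
  have hC : (∏ j : Fin m, (C (X j) : MvPolynomial (Fin 2) (MvPolynomial (Fin m) k)) ^
      s (Fin.natAdd 2 j)) = C (∏ j : Fin m, X j ^ s (Fin.natAdd 2 j)) := by
    rw [map_prod]
    simp only [map_pow]
  rw [hC]
  have h1 : s (Fin.castAdd m 0) + s (Fin.castAdd m 1) ≤
      degreeOf (Fin.castAdd m 0) p + degreeOf (Fin.castAdd m 1) p :=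
    add_le_add (monomial_le_degreeOf _ hs) (monomial_le_degreeOf _ hs)
  refine le_trans ?_ h1
  refine (totalDegree_mul _ _).trans ?_
  rw [totalDegree_C, zero_add]
  refine (totalDegree_mul _ _).trans ?_
  rw [totalDegree_C, add_zero]
  refine (totalDegree_mul _ _).trans ?_
  exact add_le_add (by rw [totalDegree_X_pow]) (by rw [totalDegree_X_pow])

end Transfer

section Group
variable (k : Type*) [Field k]

/-- The group of all automorphisms of `k[x_0, ..., x_(n-1)]` which map the subring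
`k[x_2, ..., x_(n-1)]` onto itself. -/
def fib (n : ℕ) : Subgroup (MvPolynomial (Fin n) k ≃ₐ[k] MvPolynomial (Fin n) k) where
  carrier := {φ | ∀ p, p ∈ supported k {i : Fin n | 2 ≤ (i : ℕ)} ↔
    φ p ∈ supported k {i : Fin n | 2 ≤ (i : ℕ)}}
  mul_mem' := fun {a b} ha hb p => (hb p).trans (ha (b p))
  one_mem' := fun _ => Iff.rfl
  inv_mem' := fun {a} ha p => by
    have h := ha (a⁻¹ p)
    have h2 : a (a⁻¹ p) = p := by
      change (a * a⁻¹) p = p
      rw [mul_inv_cancel]; rfl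
    rw [h2] at h
    exact h.symm

variable {k}

theorem mem_fib {n : ℕ} {φ : MvPolynomial (Fin n) k ≃ₐ[k] MvPolynomial (Fin n) k} :
    φ ∈ fib k n ↔ ∀ p, p ∈ supported k {i : Fin n | 2 ≤ (i : ℕ)} ↔
      φ p ∈ supported k {i : Fin n | 2 ≤ (i : ℕ)} := Iff.rfl

variable {m : ℕ}

/-- Transfer of automorphisms. -/
noncomputable def Th : (MvPolynomial (Fin (2 + m)) k ≃ₐ[k] MvPolynomial (Fin (2 + m)) k) →*
    RingAut (MvPolynomial (Fin 2) (MvPolynomial (Fin m) k)) where
  toFun φ := (((ev k m).symm.trans φ).trans (ev k m)).toRingEquiv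
  map_one' := by
    apply RingEquiv.ext
    intro p
    change ev k m ((ev k m).symm p) = p
    rw [AlgEquiv.apply_symm_apply]
  map_mul' a b := by
    apply RingEquiv.ext
    intro p
    change ev k m (a (b ((ev k m).symm p))) =
      ev k m (a ((ev k m).symm (ev k m (b ((ev k m).symm p)))))
    rw [AlgEquiv.symm_apply_apply]

theorem Th_apply (φ : MvPolynomial (Fin (2 + m)) k ≃ₐ[k] MvPolynomial (Fin (2 + m)) k)
    (p : MvPolynomial (Fin 2) (MvPolynomial (Fin m) k)) :
    Th φ p = ev k m (φ ((ev k m).symm p)) := rfl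

theorem Th_X (φ : MvPolynomial (Fin (2 + m)) k ≃ₐ[k] MvPolynomial (Fin (2 + m)) k) (i : Fin 2) :
    Th φ (X i) = ev k m (φ (X (Fin.castAdd m i))) := by
  rw [Th_apply, ev_symm_X]

theorem Th_pres {φ : MvPolynomial (Fin (2 + m)) k ≃ₐ[k] MvPolynomial (Fin (2 + m)) k}
    (h : φ ∈ fib k (2 + m)) : Pres (Th φ) := by
  intro p
  have h1 := h ((ev k m).symm p)
  have h2 := mem_base_iff ((ev k m).symm p)
  have h3 := mem_base_iff (φ ((ev k m).symm p))
  rw [AlgEquiv.apply_symm_apply] at h2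
  rw [Th_apply]
  exact h2.symm.trans (h1.trans h3)

/-- An automorphism over the base ring as an automorphism over `k`. -/
noncomputable def up (g : Aut2 (MvPolynomial (Fin m) k)) :
    MvPolynomial (Fin (2 + m)) k ≃ₐ[k] MvPolynomial (Fin (2 + m)) k :=
  ((ev k m).trans (g.restrictScalars k)).trans (ev k m).symm

theorem up_apply (g : Aut2 (MvPolynomial (Fin m) k)) (p : MvPolynomial (Fin (2 + m)) k) :
    up g p = (ev k m).symm (g (ev k m p)) := rfl

theorem Th_up (g : Aut2 (MvPolynomial (Fin m) k)) : Th (up g) = res g := by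
  apply RingEquiv.ext
  intro p
  rw [Th_apply, up_apply, AlgEquiv.apply_symm_apply, AlgEquiv.apply_symm_apply, res_apply]

theorem up_mem (g : Aut2 (MvPolynomial (Fin m) k)) : up g ∈ fib k (2 + m) := by
  intro p
  have h2 := mem_base_iff p
  have h3 := mem_base_iff (up g p)
  refine h2.trans (Iff.trans ?_ h3.symm)
  rw [up_apply, AlgEquiv.apply_symm_apply]
  constructor
  · rintro ⟨r, hr⟩
    exact ⟨r, by rw [hr]; exact g.commutes r⟩
  · rintro ⟨r, hr⟩
    refine ⟨r, g.injective ?_⟩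
    rw [hr]
    exact (g.commutes r).symm

/-- Triangular automorphisms. -/
def IsTriang {n : ℕ} (φ : MvPolynomial (Fin n) k ≃ₐ[k] MvPolynomial (Fin n) k) : Prop :=
  ∀ i, ∃ c : k, c ≠ 0 ∧ ∃ p ∈ supported k {j : Fin n | i < j}, φ (X i) = C c * X i + p

/-- The degree of `φ x_0` and of `φ x_1` in `x_0` and in `x_1` is at most `d`. -/
def DegLe {n : ℕ} (d : ℕ) (φ : MvPolynomial (Fin n) k ≃ₐ[k] MvPolynomial (Fin n) k) : Prop :=
  ∀ i j : Fin n, (i : ℕ) < 2 → (j : ℕ) < 2 → degreeOf j (φ (X i)) ≤ d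

theorem DegLe.mono {n d e : ℕ} (h : d ≤ e)
    {φ : MvPolynomial (Fin n) k ≃ₐ[k] MvPolynomial (Fin n) k} (hφ : DegLe d φ) : DegLe e φ :=
  fun i j hi hj => (hφ i j hi hj).trans h

theorem DegLe.of_total {n d : ℕ} {φ : MvPolynomial (Fin n) k ≃ₐ[k] MvPolynomial (Fin n) k}
    (hφ : ∀ i, (φ (X i)).totalDegree ≤ d) : DegLe d φ :=
  fun i _ _ _ => (degreeOf_le_totalDegree _ _).trans (hφ i)

theorem Th_gens {D : ℕ}
    {φ : MvPolynomial (Fin (2 + m)) k ≃ₐ[k] MvPolynomial (Fin (2 + m)) k}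
    (h : φ ∈ fib k (2 + m)) (h' : DegLe D φ ∨ IsTriang φ) :
    Th φ ∈ gensS (MvPolynomial (Fin m) k) (2 * D) := by
  refine ⟨Th_pres h, ?_⟩
  rcases h' with h' | h'
  · refine Or.inl fun i => ?_
    rw [Th_X]
    refine (totalDegree_ev_le _).trans ?_
    rw [two_mul]
    exact add_le_add (h' _ _ (by rw [Fin.val_castAdd]; exact i.2) (by rw [Fin.val_castAdd]; decide))
      (h' _ _ (by rw [Fin.val_castAdd]; exact i.2) (by rw [Fin.val_castAdd]; decide))
  · refine Or.inr fun i => ?_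
    obtain ⟨c, hc, p, hp, h1⟩ := h' (Fin.castAdd m i)
    refine ⟨C c, (IsUnit.mk0 c hc).map C, ev k m p, ev_supported i hp, ?_⟩
    rw [Th_X, h1, map_add, map_mul, ev_C, ev_castAdd]

theorem closure_le {D : ℕ}
    {s : Set (MvPolynomial (Fin (2 + m)) k ≃ₐ[k] MvPolynomial (Fin (2 + m)) k)}
    (hs : ∀ φ ∈ s, φ ∈ fib k (2 + m) ∧ (DegLe D φ ∨ IsTriang φ))
    {φ : MvPolynomial (Fin (2 + m)) k ≃ₐ[k] MvPolynomial (Fin (2 + m)) k}
    (h : φ ∈ Subgroup.closure s) :
    Th φ ∈ Subgroup.closure (gensS (MvPolynomial (Fin m) k) (2 * D)) := by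
  have h1 : (Subgroup.closure s).map Th ≤
      Subgroup.closure (gensS (MvPolynomial (Fin m) k) (2 * D)) := by
    rw [MonoidHom.map_closure, Subgroup.closure_le]
    rintro _ ⟨φ, hφ, rfl⟩
    exact Subgroup.subset_closure (Th_gens (hs φ hφ).1 (hs φ hφ).2)
  exact h1 ⟨φ, h, rfl⟩

theorem degree_family' {n : ℕ} (P : Polynomial (MvPolynomial (Fin n) k)) (t : k) :
    (P.eval (C t)).totalDegree ≤ P.support.sup fun i => (P.coeff i).totalDegree := by
  rw [Polynomial.eval_eq_sum, Polynomial.sum]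
  refine totalDegree_finsetSum_le fun i hi => ?_
  refine (totalDegree_mul _ _).trans ?_
  rw [← C_pow, totalDegree_C, add_zero]
  exact Finset.le_sup (f := fun i => (P.coeff i).totalDegree) hi

/-- The set of generators: all automorphisms in `fib k n` which are affine, or triangular, or
have degree at most `d` in `x_0` and in `x_1`, or belong to one of finitely many one-parameter
subgroups. -/
def gensF (n d l : ℕ)
    (g : Fin l → (Multiplicative k →* (MvPolynomial (Fin n) k ≃ₐ[k] MvPolynomial (Fin n) k))) :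
    Set (MvPolynomial (Fin n) k ≃ₐ[k] MvPolynomial (Fin n) k) :=
  {φ | φ ∈ fib k n ∧ ((∀ i, (φ (X i)).totalDegree ≤ 1) ∨ IsTriang φ ∨ DegLe d φ ∨
    ∃ j, φ ∈ Set.range (g j))}

theorem fibre_aux [CharZero k] {m : ℕ} (z : MvPolynomial (Fin m) k) (hz : z ≠ 0)
    (hu : ¬ IsUnit z) (d l : ℕ)
    (g : Fin l → (Multiplicative k →*
      (MvPolynomial (Fin (2 + m)) k ≃ₐ[k] MvPolynomial (Fin (2 + m)) k)))
    (hg : ∀ j, ∃ P : Fin (2 + m) → Polynomial (MvPolynomial (Fin (2 + m)) k),
      ∀ (t : k) (i : Fin (2 + m)), g j (Multiplicative.ofAdd t) (X i) = (P i).eval (C t)) :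
    {N | up (F hz N) ∈ Subgroup.closure (gensF (2 + m) d l g)}.Finite := by
  choose P hP using hg
  let N : ℕ := Finset.univ.sup fun j : Fin l => Finset.univ.sup fun i : Fin (2 + m) =>
    (P j i).support.sup fun k => ((P j i).coeff k).totalDegree
  have hN : ∀ j (x : Multiplicative k) (i : Fin (2 + m)), (g j x (X i)).totalDegree ≤ N := by
    intro j x i
    have h1 := hP j (Multiplicative.toAdd x) i
    rw [ofAdd_toAdd] at h1
    rw [h1]
    refine (degree_family' (P j i) _).trans ?_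
    refine le_trans ?_ (Finset.le_sup (f := fun j : Fin l => Finset.univ.sup
      fun i : Fin (2 + m) => (P j i).support.sup fun k => ((P j i).coeff k).totalDegree)
      (Finset.mem_univ j))
    exact Finset.le_sup (f := fun i : Fin (2 + m) =>
      (P j i).support.sup fun k => ((P j i).coeff k).totalDegree) (Finset.mem_univ i)
  refine (Set.finite_Iic (2 * max 1 (max d N))).subset fun n hn => ?_
  by_contra hlt
  rw [Set.mem_Iic, not_le] at hlt
  have h1 : Th (up (F hz n)) ∈ Subgroup.closure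
      (gensS (MvPolynomial (Fin m) k) (2 * max 1 (max d N))) := by
    refine closure_le ?_ hn
    rintro φ ⟨h0, h | h | h | ⟨j, x, rfl⟩⟩
    · exact ⟨h0, Or.inl ((DegLe.of_total h).mono (le_max_left _ _))⟩
    · exact ⟨h0, Or.inr h⟩
    · exact ⟨h0, Or.inl (h.mono (le_max_of_le_right (le_max_left _ _)))⟩
    · exact ⟨h0, Or.inl ((DegLe.of_total (hN j x)).mono
        (le_max_of_le_right (le_max_right _ _)))⟩
  rw [Th_up] at h1
  refine notMem_gensS hz hu ?_ hlt h1
  have := le_max_left 1 (max d N)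
  omega

/-- **Automorphisms of affine space which preserve a projection to codimension two.** -/
theorem fibre (k : Type*) [Field k] [CharZero k] (n : ℕ) (hn : 3 ≤ n) :
    ∃ F : ℕ → (MvPolynomial (Fin n) k ≃ₐ[k] MvPolynomial (Fin n) k),
      (∀ N, F N ∈ fib k n) ∧
      (∀ N, (∀ i : Fin n, 2 ≤ (i : ℕ) → F N (X i) = X i) ∧
        F N (X ⟨2, hn⟩ * X ⟨0, by omega⟩ + X ⟨1, by omega⟩ ^ N) =
          X ⟨2, hn⟩ * X ⟨0, by omega⟩ + X ⟨1, by omega⟩ ^ N ∧
        F N (X ⟨1, by omega⟩) = X ⟨1, by omega⟩ + X ⟨2, hn⟩ *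
          (X ⟨2, hn⟩ * X ⟨0, by omega⟩ + X ⟨1, by omega⟩ ^ N) ^ 2) ∧
      ∀ (d l : ℕ)
        (g : Fin l → (Multiplicative k →* (MvPolynomial (Fin n) k ≃ₐ[k] MvPolynomial (Fin n) k))),
        (∀ j, ∃ P : Fin n → Polynomial (MvPolynomial (Fin n) k),
          ∀ (t : k) (i : Fin n), g j (Multiplicative.ofAdd t) (X i) = (P i).eval (C t)) →
        {N | F N ∈ Subgroup.closure (gensF n d l g)}.Finite := by
  obtain ⟨m, rfl⟩ : ∃ m, n = 2 + m := ⟨n - 2, by omega⟩
  have hm : 0 < m := by omega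
  obtain ⟨z, hz'⟩ : ∃ z : MvPolynomial (Fin m) k, z = X ⟨0, hm⟩ := ⟨_, rfl⟩
  have hz : z ≠ 0 := by rw [hz']; exact X_ne_zero _
  have hu : ¬ IsUnit z := by
    intro h
    rw [hz'] at h
    have h1 := h.map (eval (0 : Fin m → k))
    simp at h1
  have e0 : (X ⟨0, by omega⟩ : MvPolynomial (Fin (2 + m)) k) = X (Fin.castAdd m 0) := rfl
  have e1 : (X ⟨1, by omega⟩ : MvPolynomial (Fin (2 + m)) k) = X (Fin.castAdd m 1) := rfl
  have e2 : (X ⟨2, hn⟩ : MvPolynomial (Fin (2 + m)) k) = X (Fin.natAdd 2 ⟨0, hm⟩) := rfl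
  have hf : ∀ N, ev k m (X ⟨2, hn⟩ * X ⟨0, by omega⟩ + X ⟨1, by omega⟩ ^ N) = fpol z N := by
    intro N
    rw [e0, e1, e2, map_add, map_mul, map_pow, ev_castAdd, ev_castAdd, ev_natAdd, ← hz']
    rfl
  refine ⟨fun N => up (F hz N), fun N => up_mem _, fun N => ⟨?_, ?_, ?_⟩, ?_⟩
  · intro i
    refine cases_add (P := fun i => 2 ≤ (i : ℕ) → up (F hz N) (X i) = X i) ?_ ?_ i
    · intro i hi
      rw [Fin.val_castAdd] at hi
      omega
    · intro j _
      rw [up_apply, ev_natAdd]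
      have : F hz N (C (X j)) = C (X j) := (F hz N).commutes _
      rw [this, ev_symm_CX]
  · rw [up_apply, hf, F_f, ← hf, AlgEquiv.symm_apply_apply]
  · rw [up_apply, e1, ev_castAdd, F_X1, ← hf, map_add, map_mul, map_pow,
      AlgEquiv.symm_apply_apply, ev_symm_X, hz', ev_symm_CX]
    rfl
  · intro d l g hg
    exact fibre_aux z hz hu d l g hg

/-- The group `fib k n` is not generated. -/
theorem fibre_lt (k : Type*) [Field k] [CharZero k] (n : ℕ) (hn : 3 ≤ n) (d l : ℕ)
    (g : Fin l → (Multiplicative k →* (MvPolynomial (Fin n) k ≃ₐ[k] MvPolynomial (Fin n) k)))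
    (hg : ∀ j, ∃ P : Fin n → Polynomial (MvPolynomial (Fin n) k),
      ∀ (t : k) (i : Fin n), g j (Multiplicative.ofAdd t) (X i) = (P i).eval (C t)) :
    Subgroup.closure (gensF n d l g) < fib k n := by
  obtain ⟨F, hF, -, h⟩ := fibre k n hn
  refine lt_of_le_of_ne ?_ ?_
  · rw [Subgroup.closure_le]
    exact fun φ hφ => hφ.1
  · intro he
    have h1 := h d l g hg
    rw [he] at h1
    have h2 : {N | F N ∈ fib k n} = Set.univ := Set.eq_univ_of_forall hF
    rw [h2] at h1
    exact Set.infinite_univ h1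

end Group

end Pool.Agent.GAR
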