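import Mathlib
import Pool.Agent.GAR.Chi

set_option autoImplicit false

/-! The homomorphism to a free group kills the automorphisms whose powers have bounded degree
(helper20). -/

namespace Pool.Agent.GAR

open MvPolynomial SimpleGraph

section Len
variable {K : Type*} [Field K]

theorem dB_lt {g b : Aut2 K} (hg : PB g) (hb : b ∈ triG K) (hbA : b ∉ affG K) :
    dB g < dA (g * b) := by
  have h := grow.stepB g hg b hb hbA
  obtain ⟨u, v, c, p, hp, hu, hv, e0, e1⟩ := hb
  have h1 : dB g = ((g * b) (X 1)).totalDegree := by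
    rw [dB, mul_ap, e1, map_add, map_mul, ap_C, ap_C, totalDegree_add_C _ _
        (by rw [totalDegree_C_mul hv]; exact hg.2), totalDegree_C_mul hv]
  rw [h1]
  exact h.1.trans_le (le_max_left _ _)

/-- The length of a trail which starts at the base vertex is bounded by the size of its end. -/
theorem trail_len {u v : Vtx (affG K) (triG K)} (p : (T (affG K) (triG K)).Walk u v) :
    u = o K → p.IsTrail → 0 < p.length →
      ∃ g : Aut2 K, (v = Sum.inl (g : Aut2 K ⧸ affG K) ∧
        s(Sum.inr (g : Aut2 K ⧸ triG K), Sum.inl (g : Aut2 K ⧸ affG K)) ∈ p.edges ∧ PA g ∧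
        p.length + 2 ≤ 2 * dA g) ∨
        (v = Sum.inr (g : Aut2 K ⧸ triG K) ∧
        s(Sum.inl (g : Aut2 K ⧸ affG K), Sum.inr (g : Aut2 K ⧸ triG K)) ∈ p.edges ∧ PB g ∧
        p.length + 1 ≤ 2 * dB g) := by
  induction p using Walk.concatRec with
  | Hnil => intro _ _ h0; simp at h0
  | @Hconcat u v w p hadj ih =>
    intro hu ht _
    have hnd : p.IsTrail ∧ s(v, w) ∉ p.edges := by
      rw [Walk.isTrail_def, Walk.edges_concat, List.concat_eq_append, List.nodup_append] at ht
      refine ⟨⟨ht.1⟩, fun hm => ht.2.2 _ hm _ (by simp) rfl⟩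
    have hlen : (p.concat hadj).length = p.length + 1 := Walk.length_concat _ _
    rcases Nat.eq_zero_or_pos p.length with h0 | h0
    · have huv : u = v := Walk.eq_of_length_eq_zero h0
      subst huv
      subst hu
      obtain ⟨a, ha, rfl⟩ := adj_inl.1 hadj
      have hPB := grow.start a ha
      refine ⟨a, Or.inr ⟨by rw [one_mul], ?_, hPB, ?_⟩⟩
      · rw [Walk.edges_concat, List.concat_eq_append, List.mem_append]
        right
        have : ((1 * a : Aut2 K) : Aut2 K ⧸ affG K) = ((1 : Aut2 K) : Aut2 K ⧸ affG K) :=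
          coset_mul _ ha
        rw [one_mul] at this
        rw [this]; simp
      · have h3 : 1 ≤ dB a := hPB.2
        omega
    · obtain ⟨g, hg⟩ := ih hu hnd.1 h0
      rcases hg with ⟨hv, he, hP, hs⟩ | ⟨hv, he, hP, hs⟩
      · subst hv
        obtain ⟨a, ha, rfl⟩ := adj_inl.1 hadj
        have haB : a ∉ triG K := by
          intro hb
          apply hnd.2
          have : ((g * a : Aut2 K) : Aut2 K ⧸ triG K) = ((g : Aut2 K) : Aut2 K ⧸ triG K) :=
            coset_mul _ hb
          rw [this, Sym2.eq_swap]; exact he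
        refine ⟨g * a, Or.inr ⟨rfl, ?_, grow.stepA g hP a ha haB, ?_⟩⟩
        · rw [Walk.edges_concat, List.concat_eq_append, List.mem_append]
          right
          have : ((g * a : Aut2 K) : Aut2 K ⧸ affG K) = ((g : Aut2 K) : Aut2 K ⧸ affG K) :=
            coset_mul _ ha
          rw [this]; simp
        · have h3 : dA g ≤ dB (g * a) := growD.stepAD g hP a ha haB
          omega
      · subst hv
        obtain ⟨b, hb, rfl⟩ := adj_inr.1 hadj
        have hbA : b ∉ affG K := by
          intro ha
          apply hnd.2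
          have : ((g * b : Aut2 K) : Aut2 K ⧸ affG K) = ((g : Aut2 K) : Aut2 K ⧸ affG K) :=
            coset_mul _ ha
          rw [this, Sym2.eq_swap]; exact he
        refine ⟨g * b, Or.inl ⟨rfl, ?_, grow.stepB g hP b hb hbA, ?_⟩⟩
        · rw [Walk.edges_concat, List.concat_eq_append, List.mem_append]
          right
          have : ((g * b : Aut2 K) : Aut2 K ⧸ triG K) = ((g : Aut2 K) : Aut2 K ⧸ triG K) :=
            coset_mul _ hb
          rw [this]; simp
        · have h3 : dB g < dA (g * b) := dB_lt hP hb hbA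
          omega

/-- A walk of bounded length to a vertex of bounded size. -/
theorem walk_len {g : Aut2 K} (hg : g ∈ affG K ⊔ triG K) :
    ∃ p : (T (affG K) (triG K)).Walk (o K) (Sum.inl (g : Aut2 K ⧸ affG K)),
      p.length ≤ 2 * dA g := by
  classical
  obtain ⟨W⟩ := reach hg
  have hp := W.bypass_isPath
  obtain ⟨p, hpp⟩ : ∃ p, p = W.bypass := ⟨_, rfl⟩
  rw [← hpp] at hp
  refine ⟨p, ?_⟩
  rcases Nat.eq_zero_or_pos p.length with h0 | h0
  · omega
  · obtain ⟨k, ⟨h1, -, -, h2⟩ | ⟨h1, -⟩⟩ := trail_len p rfl hp.isTrail h0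
    · have h3 := QuotientGroup.eq.1 (Sum.inl.inj h1)
      have h4 := dA_mul g _ h3
      rw [mul_inv_cancel_left] at h4
      omega
    · exact absurd h1 (by simp)

end Len

section Norm
variable {R : Type*} [CommRing R] {K : Type*} [Field K] [Algebra R K]

theorem norm_wt_le (hinj : Function.Injective (algebraMap R K)) (u v : Vtx (affG K) (triG K)) :
    (wt R K u v).norm ≤ 1 := by
  by_cases h : ∃ j, EE R K j u v
  · obtain ⟨j, h⟩ := h
    rw [wt_eq hinj h, FreeGroup.norm_of]
  by_cases h' : ∃ j, EE R K j v u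
  · obtain ⟨j, h'⟩ := h'
    rw [wt_eq_inv hinj h', FreeGroup.norm_inv_eq, FreeGroup.norm_of]
  rw [wt_eq_one (fun j hj => h ⟨j, hj⟩) (fun j hj => h' ⟨j, hj⟩), FreeGroup.norm_one]
  exact Nat.zero_le _

theorem potential_norm (hinj : Function.Injective (algebraMap R K))
    {h : Vtx (affG K) (triG K) → FreeGroup ℕ}
    (hh : ∀ u v, (T (affG K) (triG K)).Adj u v → h v = h u * wt R K u v)
    {u v : Vtx (affG K) (triG K)} (p : (T (affG K) (triG K)).Walk u v) :
    ((h u)⁻¹ * h v).norm ≤ p.length := by
  induction p with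
  | nil => simp
  | @cons a b c hab p ih =>
    have h1 : (h a)⁻¹ * h c = wt R K a b * ((h b)⁻¹ * h c) := by
      rw [hh a b hab]
      group
    rw [h1, Walk.length_cons]
    refine (FreeGroup.norm_mul_le _ _).trans ?_
    have := norm_wt_le hinj a b
    omega

theorem norm_chi_le [IsAlgClosed K] [CharZero K]
    (hinj : Function.Injective (algebraMap R K)) (h : Vtx (affG K) (triG K) → FreeGroup ℕ)
    (hh : ∀ u v, (T (affG K) (triG K)).Adj u v → h v = h u * wt R K u v) (g : Aut2 R) :
    (chiHom hinj h hh g).norm ≤ 2 * dA (bc K g) := by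
  obtain ⟨p, hp⟩ := walk_len (jung (bc K g))
  have h3 : act (bc K g) (o K) = Sum.inl ((bc K g : Aut2 K) : Aut2 K ⧸ affG K) := by
    change Sum.inl ((bc K g * 1 : Aut2 K) : Aut2 K ⧸ affG K) = _
    rw [mul_one]
  rw [chiHom_apply, h3]
  exact (potential_norm hinj hh p).trans hp

end Norm

end Pool.Agent.GAR
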