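import Mathlib
import Pool.Agent.GAR.Chi
import Pool.Agent.GAR.Len
import Pool.Agent.GAR.Fibre

set_option autoImplicit false

/-! The homomorphism to a free group for the automorphisms of affine space which preserve the
projection to codimension two (helper20). -/

namespace Pool.Agent.GAR

open MvPolynomial

section SemiQ
variable {R : Type*} [CommRing R]

/-- The group of ring automorphisms of `R[x, y]` which map `R` onto `R`. -/
def PresG (R : Type*) [CommRing R] : Subgroup (RingAut (MvPolynomial (Fin 2) R)) where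
  carrier := {f | Pres f}
  mul_mem' := fun {a b} ha hb p => (hb p).trans (ha (b p))
  one_mem' := fun _ => Iff.rfl
  inv_mem' := fun {a} ha p => by
    have h := ha (a⁻¹ p)
    rw [raut_apply_inv] at h
    exact h.symm

theorem part_unique {g g' : Aut2 R} {s s' : RingAut R} (h : res g * cf s = res g' * cf s') :
    g = g' := by
  apply aut2_ext
  intro i
  have h1 := DFunLike.congr_fun h (X i)
  rw [raut_mul_apply, raut_mul_apply, cf_X, cf_X, res_apply, res_apply] at h1
  exact h1

/-- The part over `R` of a ring automorphism which preserves `R`. -/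
noncomputable def part (f : PresG R) : Aut2 R := (Pres.decomp f.2).choose

theorem part_spec (f : PresG R) : ∃ s : RingAut R, f.1 = res (part f) * cf s := by
  obtain ⟨s, hs, -⟩ := (Pres.decomp f.2).choose_spec
  exact ⟨s, hs⟩

theorem part_X (f : PresG R) (i : Fin 2) : part f (X i) = f.1 (X i) := by
  obtain ⟨s, -, hs⟩ := (Pres.decomp f.2).choose_spec
  exact hs i

theorem part_mul (f f' : PresG R) : ∃ s : RingAut R, part (f * f') = part f * cj s (part f') := by
  obtain ⟨s, hs⟩ := part_spec f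
  obtain ⟨s', hs'⟩ := part_spec f'
  obtain ⟨s'', hs''⟩ := part_spec (f * f')
  refine ⟨s, part_unique (s := s'') (s' := s * s') ?_⟩
  rw [← hs'', map_mul, res_cj, cf_mul]
  change f.1 * f'.1 = _
  rw [hs, hs']
  group

/-- Extension of a homomorphism which is invariant under the automorphisms of the base. -/
noncomputable def extHom {M : Type*} [Group M] (χ : Aut2 R →* M)
    (hχ : ∀ (s : RingAut R) (g : Aut2 R), χ (cj s g) = χ g) : PresG R →* M :=
  MonoidHom.mk' (fun f => χ (part f)) (by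
    intro a b
    obtain ⟨s, hs⟩ := part_mul a b
    rw [hs, map_mul, hχ])

theorem extHom_apply {M : Type*} [Group M] (χ : Aut2 R →* M)
    (hχ : ∀ (s : RingAut R) (g : Aut2 R), χ (cj s g) = χ g) (f : PresG R) :
    extHom χ hχ f = χ (part f) := rfl

end SemiQ

universe u v

section Dom

/-- The homomorphism for a domain of characteristic zero. -/
theorem exists_chi (R : Type u) [CommRing R] [IsDomain R] [CharZero R] :
    ∃ χ : PresG R →* FreeGroup ℕ,
    (∀ f : PresG R, (∀ i, ∃ c : R, IsUnit c ∧ ∃ p ∈ supported R {j : Fin 2 | i < j},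
      f.1 (X i) = C c * X i + p) → χ f = 1) ∧
    (∀ (D : ℕ) (f : PresG R), (∀ i, (f.1 (X i)).totalDegree ≤ D) →
      χ f ∈ Subgroup.closure (FreeGroup.of '' {j : ℕ | j + 2 ≤ D})) ∧
    (∀ f : PresG R, (∃ D : ℕ, ∀ (m : ℕ) (i : Fin 2), ((f ^ m).1 (X i)).totalDegree ≤ D) →
      χ f = 1) ∧
    (∀ (d u e f : R), d ≠ 0 → ¬ IsUnit d → e * u + d ^ 2 * f = 1 → ∀ (L : Type v) [Field L]
      (π₀ π₁ : R →+* L), π₀ d = 0 → π₁ d = 0 → ∀ j : ℕ,
      (∀ a : R, IsUnit a → π₀ a = π₀ u ^ (j + 2 + 1) → π₁ a = π₁ u ^ (j + 2 + 1) → False) →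
      ∃ f : PresG R, (∀ r, f.1 (C r) = C r) ∧ χ f = FreeGroup.of j) := by
  let K := AlgebraicClosure (FractionRing R)
  have hinj : Function.Injective (algebraMap R K) := by
    rw [IsScalarTower.algebraMap_eq R (FractionRing R) K]
    exact (algebraMap (FractionRing R) K).injective.comp (IsFractionRing.injective R _)
  have : CharZero K := by
    have : CharZero (FractionRing R) := IsFractionRing.charZero R
    exact charZero_of_injective_algebraMap (algebraMap (FractionRing R) K).injective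
  obtain ⟨h, hh⟩ := exists_potential (acyclic (K := K)) (wt R K)
    (fun u v _ => wt_anti hinj u v)
  have hcj : ∀ (s : RingAut R) (g : Aut2 R),
      chiHom hinj h hh (cj s g) = chiHom hinj h hh g := by
    intro s g
    obtain ⟨t, ht⟩ := exists_ext s
    exact chi_cj hinj h hh s t ht g
  refine ⟨extHom (chiHom hinj h hh) hcj, ?_, ?_, ?_, ?_⟩
  · intro f hf
    rw [extHom_apply]
    have h1 : bc K (part f) ∈ triG K := bc_triangular K (fun i => by
      rw [part_X]
      exact hf i)
    refine chi_fix hinj h hh (v := vB 1) ?_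
    have h2 := coset_mul (1 : Aut2 K) h1
    rw [one_mul] at h2
    change Sum.inr ((bc K (part f) * 1 : Aut2 K) : Aut2 K ⧸ triG K) = _
    rw [mul_one, h2]
  · intro D f hf
    rw [extHom_apply]
    refine chi_degree hinj h hh (max_le ?_ ?_)
    · rw [bc_X, part_X]; exact (totalDegree_map_le' _).trans (hf 0)
    · rw [bc_X, part_X]; exact (totalDegree_map_le' _).trans (hf 1)
  · rintro f ⟨D, hf⟩
    by_contra hne
    have h1 := le_norm_pow hne (2 * D + 1)
    rw [← map_pow, extHom_apply] at h1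
    have h2 := norm_chi_le hinj h hh (part (f ^ (2 * D + 1)))
    have h3 : dA (bc K (part (f ^ (2 * D + 1)))) ≤ D := by
      refine max_le ?_ ?_
      · rw [bc_X, part_X]; exact (totalDegree_map_le' _).trans (hf _ 0)
      · rw [bc_X, part_X]; exact (totalDegree_map_le' _).trans (hf _ 1)
    omega
  · intro d u e f hd hdu heu L _ π₀ π₁ h0 h1 j hun
    obtain ⟨g, hg⟩ := chi_surj hinj h hh hd hdu heu π₀ π₁ h0 h1 j hun
    have hgP : Pres (res g) := by
      intro p
      constructor
      · rintro ⟨r, rfl⟩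
        exact ⟨r, g.commutes r⟩
      · rintro ⟨r, hr⟩
        refine ⟨r, g.injective ?_⟩
        have h3 : g p = C r := hr
        rw [h3]
        exact (g.commutes r).symm
    refine ⟨⟨res g, hgP⟩, fun r => g.commutes r, ?_⟩
    rw [extHom_apply]
    have h2 : part (⟨res g, hgP⟩ : PresG R) = g := by
      apply aut2_ext
      intro i
      rw [part_X]
      rfl
    rw [h2, hg]

end Dom

section Poly
variable (k : Type*) [Field k] [CharZero k] {m : ℕ}

/-- The elements `z (z - 1)` and `1 + z` of a polynomial ring. -/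
theorem exists_du (hm : 0 < m) : ∃ d u e f : MvPolynomial (Fin m) k,
    d ≠ 0 ∧ ¬ IsUnit d ∧ e * u + d ^ 2 * f = 1 ∧
    ∃ π₀ π₁ : MvPolynomial (Fin m) k →+* k, π₀ d = 0 ∧ π₁ d = 0 ∧ ∀ j : ℕ,
      ∀ a : MvPolynomial (Fin m) k, IsUnit a → π₀ a = π₀ u ^ (j + 2 + 1) →
        π₁ a = π₁ u ^ (j + 2 + 1) → False := by
  obtain ⟨z, hz⟩ : ∃ z : MvPolynomial (Fin m) k, z = X ⟨0, hm⟩ := ⟨_, rfl⟩
  have he : ∀ c : k, eval (fun _ => c) z = c := by
    intro c
    rw [hz, eval_X]
  have h4 : (C (1 / 4 : k) : MvPolynomial (Fin m) k) * 4 = 1 := by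
    have : (4 : MvPolynomial (Fin m) k) = C (4 : k) := by
      rw [map_ofNat]
    rw [this, ← C_mul, one_div, inv_mul_cancel₀ (by norm_num), C_1]
  refine ⟨z * (z - 1), 1 + z, - (C (1 / 4) * (z ^ 3 - 3 * z ^ 2 + 4 * z - 4)), C (1 / 4),
    ?_, ?_, ?_, eval fun _ => 0, eval fun _ => 1, ?_, ?_, ?_⟩
  · intro h
    have h1 := congrArg (eval fun _ => (2 : k)) h
    rw [map_mul, map_sub, map_one, he, map_zero] at h1
    norm_num at h1
  · intro h
    have h1 := h.map (eval fun _ => (0 : k))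
    rw [map_mul, he, zero_mul] at h1
    exact not_isUnit_zero h1
  · linear_combination h4
  · rw [map_mul, he, zero_mul]
  · rw [map_mul, map_sub, map_one, he, sub_self, mul_zero]
  · intro j a ha h0 h1
    obtain ⟨c, -, rfl⟩ := isUnit_iff_eq_C_of_isReduced.1 ha
    rw [eval_C, map_add, map_one, he, add_zero, one_pow] at h0
    rw [eval_C, map_add, map_one, he, h0] at h1
    have h2 : ((2 ^ (j + 2 + 1) : ℕ) : k) = ((1 : ℕ) : k) := by
      push_cast
      rw [← one_add_one_eq_two]
      exact h1.symm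
    rw [Nat.cast_inj] at h2
    have h3 : 1 < 2 ^ (j + 2 + 1) := Nat.one_lt_pow (by omega) (by omega)
    omega

end Poly

section Main
variable {k : Type*} [Field k] {m : ℕ}

/-- The degree in the first two variables. -/
theorem totalDegree_ev_le' {D : ℕ} {p : MvPolynomial (Fin (2 + m)) k}
    (hp : ∀ s ∈ p.support, s (Fin.castAdd m 0) + s (Fin.castAdd m 1) ≤ D) :
    (ev k m p).totalDegree ≤ D := by
  conv_lhs => rw [p.as_sum]
  rw [map_sum]
  refine totalDegree_finsetSum_le fun s hs => ?_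
  rw [monomial_eq, Finsupp.prod_fintype _ _ (by simp), Fin.prod_univ_add, map_mul, map_mul,
    map_prod, map_prod]
  simp only [map_pow, ev_castAdd, ev_natAdd, ev_C]
  rw [Fin.prod_univ_two]
  have hC : (∏ j : Fin m, (C (X j) : MvPolynomial (Fin 2) (MvPolynomial (Fin m) k)) ^
      s (Fin.natAdd 2 j)) = C (∏ j : Fin m, X j ^ s (Fin.natAdd 2 j)) := by
    rw [map_prod]
    simp only [map_pow]
  rw [hC]
  refine le_trans ?_ (hp s hs)
  refine (totalDegree_mul _ _).trans ?_
  rw [totalDegree_C, zero_add]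
  refine (totalDegree_mul _ _).trans ?_
  rw [totalDegree_C, add_zero]
  refine (totalDegree_mul _ _).trans ?_
  exact add_le_add (by rw [totalDegree_X_pow]) (by rw [totalDegree_X_pow])

/-- Transfer, as a homomorphism between the groups. -/
noncomputable def ThP : fib k (2 + m) →* PresG (MvPolynomial (Fin m) k) :=
  (Th.comp (fib k (2 + m)).subtype).codRestrict (PresG (MvPolynomial (Fin m) k))
    fun φ => Th_pres φ.2

theorem ThP_val (φ : fib k (2 + m)) : (ThP φ).1 = Th φ.1 := rfl

/-- The degree of `φ x_0` and of `φ x_1` in `x_0, x_1` is at most `D`. -/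
def FLe {n : ℕ} (hn : 3 ≤ n) (D : ℕ) (φ : MvPolynomial (Fin n) k ≃ₐ[k] MvPolynomial (Fin n) k) :
    Prop :=
  ∀ i : Fin n, (i : ℕ) < 2 → ∀ s ∈ (φ (X i)).support, s ⟨0, by omega⟩ + s ⟨1, by omega⟩ ≤ D

theorem ThP_degree {hn : 3 ≤ 2 + m} {D : ℕ} {φ : fib k (2 + m)} (hφ : FLe hn D φ.1)
    (i : Fin 2) : ((ThP φ).1 (X i)).totalDegree ≤ D := by
  rw [ThP_val, Th_X]
  exact totalDegree_ev_le' fun s hs => hφ (Fin.castAdd m i)
    (by rw [Fin.val_castAdd]; exact i.2) s hs

/-- **The free quotient.** -/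
theorem free_quotient (k : Type*) [Field k] [CharZero k] (n : ℕ) (hn : 3 ≤ n) :
    ∃ χ : fib k n →* FreeGroup ℕ,
      (∀ y : FreeGroup ℕ, ∃ φ : fib k n, (∀ i : Fin n, 2 ≤ (i : ℕ) → φ.1 (X i) = X i) ∧
        χ φ = y) ∧
      (∀ φ : fib k n, IsTriang φ.1 → χ φ = 1) ∧
      (∀ φ : fib k n, FLe hn 1 φ.1 → χ φ = 1) ∧
      (∀ (g : Multiplicative k →* fib k n) (t : Multiplicative k), χ (g t) = 1) ∧
      (∀ φ : fib k n, (∀ m : ℕ, m ≠ 0 → ∃ ψ : fib k n, ψ ^ m = φ) → χ φ = 1) ∧
      (∀ φ : fib k n, (∃ D : ℕ, ∀ m : ℕ, FLe hn D (φ ^ m).1) → χ φ = 1) ∧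
      (∀ (D : ℕ) (φ : fib k n), FLe hn D φ.1 →
        χ φ ∈ Subgroup.closure (FreeGroup.of '' {j : ℕ | j + 2 ≤ D})) := by
  obtain ⟨m, rfl⟩ : ∃ m, n = 2 + m := ⟨n - 2, by omega⟩
  have hm : 0 < m := by omega
  obtain ⟨χ, h1, h2, h2', h3⟩ := exists_chi (MvPolynomial (Fin m) k)
  obtain ⟨d, u, e, f, hd, hdu, heu, π₀, π₁, hπ₀, hπ₁, hun⟩ := exists_du k hm
  have hdiv : ∀ φ : fib k (2 + m), (∀ m' : ℕ, m' ≠ 0 → ∃ ψ : fib k (2 + m), ψ ^ m' = φ) →
      (χ.comp ThP) φ = 1 := by
    intro φ h
    refine free_div fun l hl => ?_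
    obtain ⟨ψ, hψ⟩ := h l hl
    exact ⟨χ.comp ThP ψ, by rw [← map_pow, hψ]⟩
  refine ⟨χ.comp ThP, ?_, ?_, ?_, ?_, hdiv, ?_, ?_⟩
  · -- the elements which fix the base and their images
    let S : Subgroup (fib k (2 + m)) :=
      { carrier := {φ | ∀ i : Fin (2 + m), 2 ≤ (i : ℕ) → φ.1 (X i) = X i}
        mul_mem' := fun {a b} ha hb i hi => by
          change a.1 (b.1 (X i)) = X i
          rw [hb i hi, ha i hi]
        one_mem' := fun _ _ => rfl
        inv_mem' := fun {a} ha i hi => by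
          change a.1⁻¹ (X i) = X i
          apply a.1.injective
          change (a.1 * a.1⁻¹) (X i) = _
          rw [mul_inv_cancel, ha i hi]
          rfl }
    have hS : ∀ y : FreeGroup ℕ, y ∈ S.map (χ.comp ThP) := by
      have hcl : (⊤ : Subgroup (FreeGroup ℕ)) ≤ S.map (χ.comp ThP) := by
        rw [← FreeGroup.closure_range_of, Subgroup.closure_le]
        rintro _ ⟨j, rfl⟩
        obtain ⟨F, hF, hFj⟩ := h3 d u e f hd hdu heu k π₀ π₁ hπ₀ hπ₁ j (hun j)
        obtain ⟨g, s, hg, hgX⟩ := Pres.decomp F.2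
        have hFg : F.1 = res g := by
          have hs : s = 1 := by
            apply RingEquiv.ext
            intro r
            apply C_injective (Fin 2) _
            have h5 := DFunLike.congr_fun hg (C r)
            rw [hF, raut_mul_apply, cf_C, res_apply] at h5
            have h6 : g (C (s r)) = C (s r) := g.commutes _
            rw [h6] at h5
            exact h5.symm
          rw [hg, hs, cf_one, mul_one]
        refine ⟨⟨up g, up_mem g⟩, ?_, ?_⟩
        · intro i
          refine cases_add (P := fun i => 2 ≤ (i : ℕ) → up g (X i) = X i) ?_ ?_ i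
          · intro i hi
            rw [Fin.val_castAdd] at hi
            omega
          · intro j _
            rw [up_apply, ev_natAdd]
            have : g (C (X j)) = C (X j) := g.commutes _
            rw [this, ev_symm_CX]
        · rw [MonoidHom.comp_apply, ← hFj]
          congr 1
          apply Subtype.ext
          rw [ThP_val, Th_up, hFg]
      exact fun y => hcl (Subgroup.mem_top y)
    intro y
    obtain ⟨φ, hφ, hy⟩ := hS y
    exact ⟨φ, hφ, hy⟩
  · intro φ hφ
    refine h1 (ThP φ) fun i => ?_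
    obtain ⟨c, hc, p, hp, h5⟩ := hφ (Fin.castAdd m i)
    refine ⟨C c, (IsUnit.mk0 c hc).map C, ev k m p, ev_supported i hp, ?_⟩
    rw [ThP_val, Th_X, h5, map_add, map_mul, ev_C, ev_castAdd]
  · intro φ hφ
    have h5 := h2 1 (ThP φ) (ThP_degree hφ)
    have h6 : {j : ℕ | j + 2 ≤ 1} = ∅ := by
      ext j
      simp
    rw [h6, Set.image_empty, Subgroup.closure_empty, Subgroup.mem_bot] at h5
    exact h5
  · intro g t
    refine hdiv (g t) fun l hl => ⟨g (Multiplicative.ofAdd (Multiplicative.toAdd t / l)), ?_⟩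
    rw [← map_pow, ← ofAdd_nsmul, nsmul_eq_mul, mul_div_cancel₀ _ (Nat.cast_ne_zero.2 hl),
      ofAdd_toAdd]
  · rintro φ ⟨D, hφ⟩
    exact h2' (ThP φ) ⟨D, fun l i => by
      rw [← map_pow]
      exact ThP_degree (hφ l) i⟩
  · intro D φ hφ
    exact h2 D (ThP φ) (ThP_degree hφ)

end Main

end Pool.Agent.GAR
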