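import Mathlib
import Pool.Agent.GAR.FreeQ

set_option autoImplicit false

/-! Infinite index (helper20). -/

namespace Pool.Agent.GAR

open MvPolynomial

/-- The exponent sum of the generator `r`. -/
noncomputable def expo (r : ℕ) : FreeGroup ℕ →* Multiplicative ℤ :=
  FreeGroup.lift fun j => if j = r then Multiplicative.ofAdd 1 else 1

theorem expo_of (r j : ℕ) :
    expo r (FreeGroup.of j) = if j = r then Multiplicative.ofAdd 1 else 1 := by
  rw [expo, FreeGroup.lift_apply_of]

theorem expo_eventually (x : FreeGroup ℕ) : ∃ r0 : ℕ, ∀ r, r0 ≤ r → expo r x = 1 := by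
  induction x using FreeGroup.induction_on with
  | C1 => exact ⟨0, fun r _ => map_one _⟩
  | of j =>
    refine ⟨j + 1, fun r hr => ?_⟩
    rw [expo_of, if_neg (by omega)]
  | inv_of j h =>
    obtain ⟨r0, h⟩ := h
    exact ⟨r0, fun r hr => by rw [map_inv, h r hr, inv_one]⟩
  | mul x y hx hy =>
    obtain ⟨r1, h1⟩ := hx
    obtain ⟨r2, h2⟩ := hy
    exact ⟨max r1 r2, fun r hr => by
      rw [map_mul, h1 r ((le_max_left _ _).trans hr), h2 r ((le_max_right _ _).trans hr),
        mul_one]⟩

theorem expo_closure {D r : ℕ} (hr : D ≤ r) {x : FreeGroup ℕ}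
    (hx : x ∈ Subgroup.closure (FreeGroup.of '' {j : ℕ | j + 2 ≤ D})) : expo r x = 1 := by
  have h : Subgroup.closure (FreeGroup.of '' {j : ℕ | j + 2 ≤ D}) ≤ (expo r).ker := by
    rw [Subgroup.closure_le]
    rintro _ ⟨j, hj, rfl⟩
    have hj' : j + 2 ≤ D := hj
    rw [SetLike.mem_coe, MonoidHom.mem_ker, expo_of, if_neg (by omega)]
  exact h hx

theorem expo_surj (r : ℕ) : Function.Surjective (expo r) := by
  intro y
  refine ⟨FreeGroup.of r ^ (Multiplicative.toAdd y), ?_⟩
  rw [map_zpow, expo_of, if_pos rfl, ← ofAdd_zsmul, smul_eq_mul, mul_one, ofAdd_toAdd]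

/-- A set whose image in a free group of infinite rank lies in a finitely generated free factor,
together with finitely many elements, generates a subgroup whose normal closure has infinite
index. -/
theorem index_zero {Γ : Type*} [Group Γ] (χ : Γ →* FreeGroup ℕ) (hχ : Function.Surjective χ)
    (D : ℕ) (S A : Set Γ) (hS : S.Finite)
    (hA : ∀ a ∈ A, χ a ∈ Subgroup.closure (FreeGroup.of '' {j : ℕ | j + 2 ≤ D})) :
    (Subgroup.normalClosure (S ∪ A)).index = 0 := by
  have h1 : ∃ r0 : ℕ, ∀ s ∈ S, ∀ r, r0 ≤ r → expo r (χ s) = 1 := by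
    induction S, hS using Set.Finite.induction_on with
    | empty => exact ⟨0, fun s hs => absurd hs (Set.notMem_empty s)⟩
    | @insert a S _ _ ih =>
      obtain ⟨r1, h1⟩ := ih
      obtain ⟨r2, h2⟩ := expo_eventually (χ a)
      refine ⟨max r1 r2, fun s hs r hr => ?_⟩
      rcases Set.mem_insert_iff.1 hs with rfl | hs
      · exact h2 r ((le_max_right _ _).trans hr)
      · exact h1 s hs r ((le_max_left _ _).trans hr)
  obtain ⟨r0, h1⟩ := h1
  obtain ⟨r, hr⟩ : ∃ r, r = max r0 D := ⟨_, rfl⟩
  have h2 : Subgroup.normalClosure (S ∪ A) ≤ ((expo r).comp χ).ker := by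
    refine Subgroup.normalClosure_le_normal ?_
    rintro s (hs | hs)
    · exact h1 s hs r (by rw [hr]; exact le_max_left _ _)
    · exact expo_closure (by rw [hr]; exact le_max_right _ _) (hA s hs)
  have h3 : ((expo r).comp χ).ker.index = 0 := by
    rw [Subgroup.index_ker]
    have h4 : ((expo r).comp χ).range = ⊤ :=
      MonoidHom.range_eq_top.2 ((expo_surj r).comp hχ)
    rw [h4]
    have h5 : Infinite (⊤ : Subgroup (Multiplicative ℤ)) :=
      Infinite.of_injective _ (Subgroup.topEquiv (G := Multiplicative ℤ)).symm.injective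
    exact Nat.card_eq_zero_of_infinite
  exact Nat.eq_zero_of_zero_dvd (h3 ▸ Subgroup.index_dvd_of_le h2)

end Pool.Agent.GAR
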