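import Pool.Agent.GAR.ArtDefs
import Pool.Agent.GAR.Semi

set_option autoImplicit false

/-! Jung's theorem over an arbitrary field of characteristic zero, from the algebraically closed
case: a step which lowers the degrees descends to the ground field. -/

namespace Pool.Agent.GAR

open MvPolynomial

section Red
variable {K : Type*} [Field K]

/-- Reduced products. -/
inductive Red : Aut2 K → Prop
  | aff (a : Aut2 K) (ha : a ∈ affG K) : Red a
  | step (k b a : Aut2 K) (hk : Red k) (hP : PB k) (hb : b ∈ triG K) (hb' : b ∉ affG K)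
      (ha : a ∈ affG K) : Red (k * b * a)

theorem Red.mul_aff {h a : Aut2 K} (hh : Red h) (ha : a ∈ affG K) : Red (h * a) := by
  cases hh with
  | aff a' ha' => exact Red.aff _ (mul_mem ha' ha)
  | step k b a' hk hP hb hb' ha' =>
    rw [mul_assoc]
    exact Red.step k b (a' * a) hk hP hb hb' (mul_mem ha' ha)

theorem Red.mul_tri {h t : Aut2 K} (hh : Red h) (ht : t ∈ triG K) : Red (h * t) := by
  by_cases htA : t ∈ affG K
  · exact hh.mul_aff htA
  cases hh with
  | aff a ha =>
    have := Red.step h t 1 (Red.aff _ ha) (grow.start _ ha) ht htA (one_mem _)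
    simpa using this
  | step k b a hk hP hb hb' ha =>
    by_cases haT : a ∈ triG K
    · have hb2 : b * a * t ∈ triG K := mul_mem (mul_mem hb haT) ht
      have e : k * b * a * t = k * (b * a * t) := by simp only [mul_assoc]
      rw [e]
      by_cases hb3 : b * a * t ∈ affG K
      · exact hk.mul_aff hb3
      · have := Red.step k (b * a * t) 1 hk hP hb2 hb3 (one_mem _)
        rwa [mul_one] at this
    · have h1 : PB (k * b * a) := grow.stepA _ (grow.stepB _ hP _ hb hb') _ ha haT
      have := Red.step (k * b * a) t 1 (Red.step k b a hk hP hb hb' ha) h1 ht htA (one_mem _)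
      rwa [mul_one] at this

theorem red_all {h : Aut2 K} (hh : h ∈ affG K ⊔ triG K) : Red h := by
  have key : ∀ g ∈ affG K ⊔ triG K,
      (∀ x, Red x → Red (x * g)) ∧ (∀ x, Red x → Red (x * g⁻¹)) := by
    intro g hg
    rw [Subgroup.sup_eq_closure] at hg
    induction hg using Subgroup.closure_induction with
    | mem s hs =>
      rcases hs with hs | hs
      · exact ⟨fun x hx => hx.mul_aff hs, fun x hx => hx.mul_aff (inv_mem hs)⟩
      · exact ⟨fun x hx => hx.mul_tri hs, fun x hx => hx.mul_tri (inv_mem hs)⟩
    | one => exact ⟨fun x hx => by rwa [mul_one], fun x hx => by rwa [inv_one, mul_one]⟩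
    | mul a b _ _ ha hb =>
      refine ⟨fun x hx => ?_, fun x hx => ?_⟩
      · rw [← mul_assoc]; exact hb.1 _ (ha.1 _ hx)
      · rw [mul_inv_rev, ← mul_assoc]; exact ha.2 _ (hb.2 _ hx)
    | inv a _ ha =>
      exact ⟨ha.2, fun x hx => by rw [inv_inv]; exact ha.1 _ hx⟩
  have := (key h hh).1 1 (Red.aff _ (one_mem _))
  rwa [one_mul] at this

end Red

section Step
variable {K : Type*} [Field K]

theorem deg_aeval_lt {W : MvPolynomial (Fin 2) K} (hW : 1 ≤ W.totalDegree) {s : ℕ}
    {P : Polynomial K} (hP : P.natDegree < s) :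
    (Polynomial.aeval W P).totalDegree < s * W.totalDegree := by
  rw [totalDegree_aeval hW]
  exact Nat.mul_lt_mul_of_pos_right hP (by omega)

theorem deg_low {Z W : MvPolynomial (Fin 2) K} (hW : 1 ≤ W.totalDegree)
    (hZ : Z.totalDegree ≤ W.totalDegree) {s : ℕ} (hs : 2 ≤ s) (r : K)
    {P : Polynomial K} (hP : P.natDegree < s) :
    (C r * Z + Polynomial.aeval W P).totalDegree < s * W.totalDegree := by
  refine (totalDegree_add _ _).trans_lt (max_lt ?_ (deg_aeval_lt hW hP))
  refine ((totalDegree_mul _ _).trans (by rw [totalDegree_C, zero_add])).trans_lt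
    (hZ.trans_lt ?_)
  nlinarith

theorem deg_high {Z W : MvPolynomial (Fin 2) K} (hW : 1 ≤ W.totalDegree)
    (hZ : Z.totalDegree ≤ W.totalDegree) {s : ℕ} (hs : 2 ≤ s) (r : K)
    {P : Polynomial K} (hP : P.natDegree = s) :
    (C r * Z + Polynomial.aeval W P).totalDegree = s * W.totalDegree := by
  have h1 : (C r * Z).totalDegree < (Polynomial.aeval W P).totalDegree := by
    rw [totalDegree_aeval hW, hP]
    refine ((totalDegree_mul _ _).trans (by rw [totalDegree_C, zero_add])).trans_lt
      (hZ.trans_lt ?_)
    nlinarith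
  rw [totalDegree_add_eq_right_of_totalDegree_lt h1, totalDegree_aeval hW, hP]

theorem step_A {Z W : MvPolynomial (Fin 2) K} (hW : 1 ≤ W.totalDegree)
    (hZ : Z.totalDegree ≤ W.totalDegree) {q : Polynomial K} (hq : 2 ≤ q.natDegree)
    {u a a' b b' : K} (ha : a ≠ 0) (ha' : a' ≠ 0) (r r' : K) {f f' : MvPolynomial (Fin 2) K}
    (hf : f = C (a * u) * Z + Polynomial.aeval W
      (Polynomial.C a * q + (Polynomial.C b * Polynomial.X + Polynomial.C r)))
    (hf' : f' = C (a' * u) * Z + Polynomial.aeval W
      (Polynomial.C a' * q + (Polynomial.C b' * Polynomial.X + Polynomial.C r'))) :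
    (f - C (a / a') * f' ^ 1).totalDegree < f.totalDegree := by
  have h1 : (Polynomial.C a * q + (Polynomial.C b * Polynomial.X + Polynomial.C r)).natDegree =
      q.natDegree := by
    rw [Polynomial.natDegree_add_eq_left_of_natDegree_lt, Polynomial.natDegree_C_mul ha]
    rw [Polynomial.natDegree_C_mul ha]
    exact (Polynomial.natDegree_linear_le).trans_lt (by omega)
  have h2 : f - C (a / a') * f' ^ 1 = C 0 * Z + Polynomial.aeval W
      (Polynomial.C (b - a / a' * b') * Polynomial.X + Polynomial.C (r - a / a' * r')) := by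
    have e1 : a / a' * a' = a := div_mul_cancel₀ _ ha'
    rw [hf, hf', pow_one]
    simp only [map_add, map_mul, Polynomial.aeval_C, Polynomial.aeval_X, algebraMap_eq, C_sub,
      C_0]
    have e2 : (C (a / a') : MvPolynomial (Fin 2) K) * C a' = C a := by rw [← C_mul, e1]
    linear_combination (-(C u * Z + Polynomial.aeval W q)) * e2
  rw [h2, hf, deg_high hW hZ hq _ h1]
  exact deg_low hW hZ hq _ ((Polynomial.natDegree_linear_le).trans_lt (by omega))

theorem step_B {Z W : MvPolynomial (Fin 2) K} (hW : 1 ≤ W.totalDegree)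
    (hZ : Z.totalDegree ≤ W.totalDegree) {q : Polynomial K} (hq : 2 ≤ q.natDegree)
    {u a b b' : K} (ha : a ≠ 0) (hb' : b' ≠ 0) (r r' : K) {f f' : MvPolynomial (Fin 2) K}
    (hf : f = C (a * u) * Z + Polynomial.aeval W
      (Polynomial.C a * q + (Polynomial.C b * Polynomial.X + Polynomial.C r)))
    (hf' : f' = Polynomial.aeval W (Polynomial.C b' * Polynomial.X + Polynomial.C r')) :
    ∃ c : K, (f - C c * f' ^ q.natDegree).totalDegree < f.totalDegree := by
  have h1 : (Polynomial.C a * q + (Polynomial.C b * Polynomial.X + Polynomial.C r)).natDegree =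
      q.natDegree := by
    rw [Polynomial.natDegree_add_eq_left_of_natDegree_lt, Polynomial.natDegree_C_mul ha]
    rw [Polynomial.natDegree_C_mul ha]
    exact (Polynomial.natDegree_linear_le).trans_lt (by omega)
  set Q : Polynomial K :=
    Polynomial.C a * q + (Polynomial.C b * Polynomial.X + Polynomial.C r) with hQ
  set L : Polynomial K := Polynomial.C b' * Polynomial.X + Polynomial.C r' with hL
  set s := q.natDegree with hs
  have hQ0 : Q ≠ 0 := by
    intro h
    rw [h, Polynomial.natDegree_zero] at h1
    omega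
  have hLn : L.natDegree = 1 := Polynomial.natDegree_linear hb'
  have hL0 : L ≠ 0 := by
    intro h
    rw [h, Polynomial.natDegree_zero] at hLn
    omega
  have hlc : (L ^ s).leadingCoeff ≠ 0 := Polynomial.leadingCoeff_ne_zero.2 (pow_ne_zero _ hL0)
  set c := Q.leadingCoeff / (L ^ s).leadingCoeff with hc
  have hc0 : c ≠ 0 := div_ne_zero (Polynomial.leadingCoeff_ne_zero.2 hQ0) hlc
  have hnd : (Polynomial.C c * L ^ s).natDegree = s := by
    rw [Polynomial.natDegree_C_mul hc0, Polynomial.natDegree_pow, hLn, mul_one]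
  have hne : Polynomial.C c * L ^ s ≠ 0 := by
    intro h
    rw [h, Polynomial.natDegree_zero] at hnd
    omega
  have hdeg : Q.degree = (Polynomial.C c * L ^ s).degree := by
    rw [Polynomial.degree_eq_natDegree hQ0, Polynomial.degree_eq_natDegree hne, hnd, h1]
  have hlead : Q.leadingCoeff = (Polynomial.C c * L ^ s).leadingCoeff := by
    rw [Polynomial.leadingCoeff_mul, Polynomial.leadingCoeff_C, hc, div_mul_cancel₀ _ hlc]
  have hlt := Polynomial.degree_sub_lt_left hdeg hQ0 hlead
  have hlt2 : (Q - Polynomial.C c * L ^ s).natDegree < s := by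
    by_cases h0 : Q - Polynomial.C c * L ^ s = 0
    · rw [h0, Polynomial.natDegree_zero]; omega
    · rw [Polynomial.degree_eq_natDegree h0, Polynomial.degree_eq_natDegree hQ0, h1] at hlt
      exact_mod_cast hlt
  refine ⟨c, ?_⟩
  have h2 : f - C c * f' ^ s = C (a * u) * Z + Polynomial.aeval W
      (Q - Polynomial.C c * L ^ s) := by
    have e1 : Polynomial.aeval W (Q - Polynomial.C c * L ^ s) =
        Polynomial.aeval W Q - C c * (Polynomial.aeval W L) ^ s := by
      simp only [map_sub, map_mul, map_pow, Polynomial.aeval_C, algebraMap_eq]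
    rw [e1, hf, hf']
    ring
  rw [h2, hf, deg_high hW hZ hq _ h1]
  exact deg_low hW hZ hq _ hlt2

/-- A reduced product which is not affine admits a step which lowers the degree of one of the two
images. -/
theorem red_step {h : Aut2 K} (hh : Red h) (hA : h ∉ affG K) :
    ∃ i j : Fin 2, i ≠ j ∧ ∃ r : ℕ, ∃ c : K,
      (h (X i) - C c * h (X j) ^ r).totalDegree < (h (X i)).totalDegree := by
  cases hh with
  | aff a ha => exact absurd ha hA
  | step k b a hk hP hb hb' ha =>
    obtain ⟨u, v, c, p, hp, hu, hv, e0, e1⟩ := hb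
    obtain ⟨q, rfl⟩ := (mem_supp_iff p).1 hp
    obtain ⟨hZ, hW⟩ := hP
    have hq : 2 ≤ q.natDegree := by
      by_contra hq
      apply hb'
      refine mem_affG_of b ?_ ?_
      · rw [e0]
        refine (totalDegree_add _ _).trans (max_le ?_ ?_)
        · exact (totalDegree_mul _ _).trans (by simp)
        · rw [totalDegree_aeval (by simp)]; simp; omega
      · rw [e1]
        refine (totalDegree_add _ _).trans (max_le ?_ ?_)
        · exact (totalDegree_mul _ _).trans (by simp)
        · simp
    have h0 : (a (X 0)).totalDegree ≤ 1 := (ha _).1 (by simp)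
    have h1 : (a (X 1)).totalDegree ≤ 1 := (ha _).1 (by simp)
    obtain ⟨c0, a0, b0, g0⟩ := linear_form _ h0
    obtain ⟨c1, a1, b1, g1⟩ := linear_form _ h1
    have hdet : a0 * b1 - a1 * b0 ≠ 0 := by
      intro hD
      have k1 : a (C a1 * X 0 - C a0 * X 1) = a (C (a1 * c0 - a0 * c1)) := by
        rw [map_sub, map_mul, map_mul, ap_C, ap_C, ap_C, g0, g1, C_sub, C_mul, C_mul]
        have : (C a0 : MvPolynomial (Fin 2) K) * C b1 - C a1 * C b0 = 0 := by
          rw [← C_mul, ← C_mul, ← C_sub, hD, C_0]
        linear_combination (-(X 1 : MvPolynomial (Fin 2) K)) * this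
      have k2 : a (C b1 * X 0 - C b0 * X 1) = a (C (b1 * c0 - b0 * c1)) := by
        rw [map_sub, map_mul, map_mul, ap_C, ap_C, ap_C, g0, g1, C_sub, C_mul, C_mul]
        have : (C a0 : MvPolynomial (Fin 2) K) * C b1 - C a1 * C b0 = 0 := by
          rw [← C_mul, ← C_mul, ← C_sub, hD, C_0]
        linear_combination ((X 0 : MvPolynomial (Fin 2) K)) * this
      have m1 := congrArg (coeff (Finsupp.single 0 1)) (a.injective k1)
      have m2 := congrArg (coeff (Finsupp.single 1 1)) (a.injective k1)
      have m3 := congrArg (coeff (Finsupp.single 0 1)) (a.injective k2)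
      have m4 := congrArg (coeff (Finsupp.single 1 1)) (a.injective k2)
      simp [coeff_X, coeff_C, Finsupp.single_left_inj, eq_comm] at m1 m2 m3 m4
      have := one_le_deg a 0
      rw [g0, m2, m4] at this
      simp at this
    have f0 : (k * b * a) (X 0) = C (a0 * u) * k (X 0) + Polynomial.aeval (k (X 1))
        (Polynomial.C a0 * q + (Polynomial.C (b0 * v) * Polynomial.X +
          Polynomial.C (b0 * c + c0))) := by
      rw [mul_ap, mul_ap, g0]
      simp only [map_add, map_mul, ap_C, e0, e1, ap_aeval, Polynomial.aeval_C,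
        Polynomial.aeval_X, algebraMap_eq, C_mul, C_add]
      ring
    have f1 : (k * b * a) (X 1) = C (a1 * u) * k (X 0) + Polynomial.aeval (k (X 1))
        (Polynomial.C a1 * q + (Polynomial.C (b1 * v) * Polynomial.X +
          Polynomial.C (b1 * c + c1))) := by
      rw [mul_ap, mul_ap, g1]
      simp only [map_add, map_mul, ap_C, e0, e1, ap_aeval, Polynomial.aeval_C,
        Polynomial.aeval_X, algebraMap_eq, C_mul, C_add]
      ring
    by_cases ha0 : a0 = 0
    · have ha1 : a1 ≠ 0 := by
        rintro rfl; apply hdet; rw [ha0]; ring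
      have hb0 : b0 ≠ 0 := by
        rintro rfl; apply hdet; rw [ha0]; ring
      have f0' : (k * b * a) (X 0) = Polynomial.aeval (k (X 1))
          (Polynomial.C (b0 * v) * Polynomial.X + Polynomial.C (b0 * c + c0)) := by
        rw [f0, ha0]; simp
      obtain ⟨cc, hcc⟩ := step_B hW hZ hq ha1 (mul_ne_zero hb0 hv) _ _ f1 f0'
      exact ⟨1, 0, by decide, _, cc, hcc⟩
    · by_cases ha1 : a1 = 0
      · have hb1 : b1 ≠ 0 := by
          rintro rfl; apply hdet; rw [ha1]; ring
        have f1' : (k * b * a) (X 1) = Polynomial.aeval (k (X 1))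
            (Polynomial.C (b1 * v) * Polynomial.X + Polynomial.C (b1 * c + c1)) := by
          rw [f1, ha1]; simp
        obtain ⟨cc, hcc⟩ := step_B hW hZ hq ha0 (mul_ne_zero hb1 hv) _ _ f0 f1'
        exact ⟨0, 1, by decide, _, cc, hcc⟩
      · exact ⟨0, 1, by decide, 1, _, step_A hW hZ hq ha0 ha1 _ _ f0 f1⟩

end Step

section Descent
variable {K : Type*} [Field K] {L : Type*} [Field L] [Algebra K L]

/-- A step over an extension field descends. -/
theorem descend {f f' : MvPolynomial (Fin 2) K} {r : ℕ} {c : L}
    (h : (map (algebraMap K L) f - C c * map (algebraMap K L) f' ^ r).totalDegree <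
      (map (algebraMap K L) f).totalDegree) :
    ∃ c0 : K, (f - C c0 * f' ^ r).totalDegree < f.totalDegree := by
  have hinj : Function.Injective (algebraMap K L) := (algebraMap K L).injective
  have hmap : ∀ p : MvPolynomial (Fin 2) K, (map (algebraMap K L) p).totalDegree =
      p.totalDegree := fun p => by
    rw [totalDegree, totalDegree, support_map_of_injective _ hinj]
  have hf0 : f ≠ 0 := by
    rintro rfl
    simp at h
  obtain ⟨m, hm, hmd⟩ : ∃ m ∈ f.support, (m.sum fun _ e => e) = f.totalDegree := by
    have hne : f.support.Nonempty := by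
      rw [Finset.nonempty_iff_ne_empty]
      intro h; exact hf0 (by rwa [support_eq_empty] at h)
    obtain ⟨m, hm, hm2⟩ := Finset.exists_mem_eq_sup f.support hne fun s => s.sum fun _ e => e
    exact ⟨m, hm, hm2.symm⟩
  have hcoef : coeff m (map (algebraMap K L) f - C c * map (algebraMap K L) f' ^ r) = 0 := by
    apply coeff_eq_zero_of_totalDegree_lt
    have : (∑ i ∈ m.support, m i) = f.totalDegree := hmd
    rw [this, ← hmap f]
    exact h
  rw [← map_pow, coeff_sub, coeff_C_mul, coeff_map, coeff_map, sub_eq_zero] at hcoef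
  have hmf : coeff m f ≠ 0 := mem_support_iff.1 hm
  have hmr : coeff m (f' ^ r) ≠ 0 := by
    intro h0
    rw [h0, map_zero, mul_zero] at hcoef
    exact hmf (hinj (by rw [hcoef, map_zero]))
  have hc : c = algebraMap K L (coeff m f / coeff m (f' ^ r)) := by
    rw [map_div₀, hcoef, mul_div_assoc, div_self, mul_one]
    intro h0
    exact hmr (hinj (by rw [h0, map_zero]))
  refine ⟨coeff m f / coeff m (f' ^ r), ?_⟩
  rw [← hmap f, ← hmap (f - _)]
  rw [map_sub, map_mul, map_C, map_pow, ← hc]
  exact h

end Descent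

section Main
variable {K : Type*} [Field K]

theorem elem_tame (q : Polynomial K) : elem q ∈ TAR K := by
  apply Subgroup.subset_closure
  right
  intro i
  fin_cases i
  · refine ⟨1, isUnit_one, Polynomial.aeval (X 1) q, ?_, ?_⟩
    · have e0 : {j : Fin 2 | (0 : Fin 2) < j} = {1} := by ext j; fin_cases j <;> simp
      change _ ∈ supported K {j : Fin 2 | (0 : Fin 2) < j}
      rw [e0]
      exact (mem_supp_iff _).2 ⟨q, rfl⟩
    · change elem q (X 0) = C 1 * X 0 + _
      rw [elem_X0, C_1, one_mul]
  · refine ⟨1, isUnit_one, 0, Subalgebra.zero_mem _, ?_⟩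
    change elem q (X 1) = C 1 * X 1 + 0
    rw [elem_X1, C_1, one_mul, add_zero]

theorem swap_tame : (swap : Aut2 K) ∈ TAR K := by
  apply Subgroup.subset_closure
  left
  intro i
  fin_cases i
  · change ((swap : Aut2 K) (X 0)).totalDegree ≤ 1
    rw [swap_X0]; simp
  · change ((swap : Aut2 K) (X 1)).totalDegree ≤ 1
    rw [swap_X1]; simp

/-- **Jung's theorem** over a field of characteristic zero. -/
theorem jung_field {K : Type*} [Field K] [CharZero K] (g : Aut2 K) : g ∈ TAR K := by
  have : CharZero (AlgebraicClosure K) :=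
    charZero_of_injective_algebraMap (algebraMap K (AlgebraicClosure K)).injective
  induction hn : (g (X 0)).totalDegree + (g (X 1)).totalDegree using Nat.strong_induction_on
    generalizing g with
  | _ n ih =>
    by_cases hA : ∀ i, (g (X i)).totalDegree ≤ 1
    · exact Subgroup.subset_closure (Or.inl hA)
    have hred : Red (bc (AlgebraicClosure K) g) := red_all (jung _)
    have hnot : bc (AlgebraicClosure K) g ∉ affG (AlgebraicClosure K) := by
      intro hmem
      apply hA
      intro i
      have h1 := (hmem (X i)).1 (by simp)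
      rw [bc_X, totalDegree, support_map_of_injective _
        (algebraMap K (AlgebraicClosure K)).injective] at h1
      exact h1
    obtain ⟨i, j, hij, r, c, hlt⟩ := red_step hred hnot
    rw [bc_X, bc_X] at hlt
    obtain ⟨c0, hc0⟩ := descend hlt
    have hcase : (i = 0 ∧ j = 1) ∨ (i = 1 ∧ j = 0) := by
      fin_cases i <;> fin_cases j <;> simp_all
    set q : Polynomial K := Polynomial.C (-c0) * Polynomial.X ^ r with hq
    have hqa : ∀ f : MvPolynomial (Fin 2) K, Polynomial.aeval f q = - (C c0 * f ^ r) := by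
      intro f
      rw [hq, map_mul, Polynomial.aeval_C, map_pow, Polynomial.aeval_X, algebraMap_eq, C_neg]
      ring
    rcases hcase with ⟨rfl, rfl⟩ | ⟨rfl, rfl⟩
    · have h0 : (g * elem q) (X 0) = g (X 0) - C c0 * g (X 1) ^ r := by
        rw [mul_ap, elem_X0, map_add, ap_aeval, hqa]; ring
      have h1 : (g * elem q) (X 1) = g (X 1) := by rw [mul_ap, elem_X1]
      have h2 : g * elem q ∈ TAR K := by
        refine ih _ ?_ _ rfl
        rw [h0, h1]
        omega
      have h3 := mul_mem h2 (inv_mem (elem_tame q))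
      rwa [mul_inv_cancel_right] at h3
    · have h0 : (g * (swap * elem q * swap) : Aut2 K) (X 1) = g (X 1) - C c0 * g (X 0) ^ r := by
        rw [mul_ap, mul_ap, mul_ap, swap_X1, elem_X0, map_add, ap_aeval, swap_X0, swap_X1,
          map_add, ap_aeval, hqa]; ring
      have h1 : (g * (swap * elem q * swap) : Aut2 K) (X 0) = g (X 0) := by
        rw [mul_ap, mul_ap, mul_ap, swap_X0, elem_X1, swap_X1]
      have h2 : g * (swap * elem q * swap) ∈ TAR K := by
        refine ih _ ?_ _ rfl
        rw [h0, h1]
        omega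
      have h3 := mul_mem h2 (inv_mem (mul_mem (mul_mem swap_tame (elem_tame q)) swap_tame))
      rwa [mul_inv_cancel_right] at h3

end Main

end Pool.Agent.GAR
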