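import Pool.Agent.GAR.ArtDefs

set_option autoImplicit false

/-! Finite products of rings on which every automorphism of `K[x, y]` is tame; reduced Artinian
rings. -/

namespace Pool.Agent.GAR

open MvPolynomial

section Lift

variable {S : Type*} [CommRing S] {ι : Type*} {K : ι → Type*} [∀ i, CommRing (K i)]
  [∀ i, Algebra S (K i)]

/-- Joint injectivity on polynomials. -/
theorem map_inj (hinj : ∀ a b : S, (∀ i, algebraMap S (K i) a = algebraMap S (K i) b) → a = b)
    {p q : MvPolynomial (Fin 2) S}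
    (h : ∀ i, map (algebraMap S (K i)) p = map (algebraMap S (K i)) q) : p = q := by
  ext s
  refine hinj _ _ fun i => ?_
  rw [← coeff_map, ← coeff_map, h i]

/-- Joint injectivity on automorphisms. -/
theorem bc_inj (hinj : ∀ a b : S, (∀ i, algebraMap S (K i) a = algebraMap S (K i) b) → a = b)
    {g h : Aut2 S} (hgh : ∀ i, bc (K i) g = bc (K i) h) : g = h := by
  apply AlgEquiv.ext
  intro p
  refine map_inj hinj fun i => ?_
  rw [← bc_map, ← bc_map, hgh i]

/-- The coefficientwise lift along a section `σ`. -/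
noncomputable def lft {L : Type*} [CommRing L] (σ : L → S) (f : MvPolynomial (Fin 2) L) :
    MvPolynomial (Fin 2) S := ∑ s ∈ f.support, monomial s (σ (coeff s f))

theorem map_lft_same {L : Type*} [CommRing L] [Algebra S L] {σ : L → S}
    (h1 : ∀ a, algebraMap S L (σ a) = a) (f : MvPolynomial (Fin 2) L) :
    map (algebraMap S L) (lft σ f) = f := by
  unfold lft
  rw [map_sum]
  conv_rhs => rw [f.as_sum]
  refine Finset.sum_congr rfl fun s _ => ?_
  rw [map_monomial, h1]

theorem map_lft_other {L : Type*} [CommRing L] {M : Type*} [CommRing M] [Algebra S M] {σ : L → S}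
    (h2 : ∀ a, algebraMap S M (σ a) = 0) (f : MvPolynomial (Fin 2) L) :
    map (algebraMap S M) (lft σ f) = 0 := by
  unfold lft
  rw [map_sum]
  refine Finset.sum_eq_zero fun s _ => ?_
  rw [map_monomial, h2, monomial_zero]

theorem lft_supported {L : Type*} [CommRing L] (σ : L → S) {A : Set (Fin 2)}
    {f : MvPolynomial (Fin 2) L} (hf : f ∈ supported L A) : lft σ f ∈ supported S A := by
  unfold lft
  refine Subalgebra.sum_mem _ fun s hs => ?_
  rw [mem_supported] at hf ⊢
  intro j hj
  rcases eq_or_ne (σ (coeff s f)) 0 with h0 | h0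
  · rw [h0, monomial_zero, vars_0] at hj
    simp at hj
  · rw [vars_monomial h0] at hj
    refine hf ?_
    rw [Finset.mem_coe, mem_vars_iff_mem_support]
    exact ⟨s, hs, hj⟩

end Lift

section Prod

variable {S : Type*} [CommRing S] {ι : Type*} [DecidableEq ι] [Fintype ι] {K : ι → Type*}
  [∀ i, CommRing (K i)] [∀ i, Algebra S (K i)]

/-- The images of the variables under the lift. -/
noncomputable def liftX {L : Type*} [CommRing L] (σ : L → S) (h : Aut2 L) (k : Fin 2) :
    MvPolynomial (Fin 2) S := lft σ (h (X k)) + C (1 - σ 1) * X k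

omit [DecidableEq ι] [Fintype ι] in
theorem map_liftX_same {σ : ∀ i, K i → S} (h1 : ∀ i a, algebraMap S (K i) (σ i a) = a)
    (i : ι) (h : Aut2 (K i)) (k : Fin 2) :
    map (algebraMap S (K i)) (liftX (σ i) h k) = h (X k) := by
  unfold liftX
  rw [map_add, map_lft_same (h1 i), map_mul, map_C, map_sub, map_one, h1, sub_self, C_0, zero_mul,
    add_zero]

omit [DecidableEq ι] [Fintype ι] in
theorem map_liftX_other {σ : ∀ i, K i → S} (h2 : ∀ i j, i ≠ j → ∀ a, algebraMap S (K j) (σ i a) = 0)
    {i j : ι} (hij : i ≠ j) (h : Aut2 (K i)) (k : Fin 2) :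
    map (algebraMap S (K j)) (liftX (σ i) h k) = X k := by
  unfold liftX
  rw [map_add, map_lft_other (h2 i j hij), map_mul, map_C, map_sub, map_one, h2 i j hij, sub_zero,
    C_1, one_mul, zero_add, map_X]

/-- naturality of evaluation -/
theorem map_aeval_nat {L : Type*} [CommRing L] [Algebra S L] (P : Fin 2 → MvPolynomial (Fin 2) S)
    (q : MvPolynomial (Fin 2) S) :
    map (algebraMap S L) (aeval P q) =
      aeval (fun k => map (algebraMap S L) (P k)) (map (algebraMap S L) q) := by
  induction q using MvPolynomial.induction_on with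
  | C a => simp [algebraMap_eq]
  | add p q hp hq => rw [map_add, map_add, map_add, map_add, hp, hq]
  | mul_X p i hp => rw [map_mul, map_mul, map_mul, map_mul, hp, map_X, aeval_X, aeval_X]

omit [Fintype ι] in
theorem comp_liftX {σ : ∀ i, K i → S} (h1 : ∀ i a, algebraMap S (K i) (σ i a) = a)
    (h2 : ∀ i j, i ≠ j → ∀ a, algebraMap S (K j) (σ i a) = 0)
    (hinj : ∀ a b : S, (∀ i, algebraMap S (K i) a = algebraMap S (K i) b) → a = b)
    (i : ι) (g h : Aut2 (K i)) (hgh : g * h = 1) :
    (aeval (liftX (σ i) g)).comp (aeval (liftX (σ i) h)) = AlgHom.id S _ := by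
  ext1 k
  rw [AlgHom.comp_apply, aeval_X]
  refine map_inj hinj fun j => ?_
  rw [map_aeval_nat]
  change _ = map _ (X k)
  rw [map_X]
  by_cases hij : i = j
  · subst hij
    rw [map_liftX_same h1]
    have h3 : (fun k => map (algebraMap S (K i)) (liftX (σ i) g k)) = fun k => g (X k) := by
      funext k
      exact map_liftX_same h1 i g k
    rw [h3]
    have h4 : (aeval fun k => g (X k)) = (g : MvPolynomial (Fin 2) (K i) →ₐ[K i] _) := by
      ext1 l
      rw [aeval_X]
      rfl
    rw [h4]
    change (g * h) (X k) = X k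
    rw [hgh]
    rfl
  · rw [map_liftX_other h2 hij, aeval_X, map_liftX_other h2 hij]

omit [Fintype ι] in
/-- The lift of an automorphism of one factor. -/
theorem exists_lift {σ : ∀ i, K i → S} (h1 : ∀ i a, algebraMap S (K i) (σ i a) = a)
    (h2 : ∀ i j, i ≠ j → ∀ a, algebraMap S (K j) (σ i a) = 0)
    (hinj : ∀ a b : S, (∀ i, algebraMap S (K i) a = algebraMap S (K i) b) → a = b)
    (i : ι) (h : Aut2 (K i)) :
    ∃ g : Aut2 S, (∀ k, g (X k) = liftX (σ i) h k) ∧ bc (K i) g = h ∧
      ∀ j, i ≠ j → bc (K j) g = 1 := by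
  let g : Aut2 S := AlgEquiv.ofAlgHom (aeval (liftX (σ i) h)) (aeval (liftX (σ i) h⁻¹))
    (comp_liftX h1 h2 hinj i h h⁻¹ (mul_inv_cancel h))
    (comp_liftX h1 h2 hinj i h⁻¹ h (inv_mul_cancel h))
  have hg : ∀ k, g (X k) = liftX (σ i) h k := fun k => aeval_X _ _
  have hext : ∀ {j : ι} (u v : Aut2 (K j)), (∀ k, u (X k) = v (X k)) → u = v := by
    intro j u v huv
    apply AlgEquiv.ext
    intro p
    have h3 : (u : MvPolynomial (Fin 2) (K j) →ₐ[K j] MvPolynomial (Fin 2) (K j)) =
        (v : MvPolynomial (Fin 2) (K j) →ₐ[K j] MvPolynomial (Fin 2) (K j)) := by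
      ext1 k
      exact huv k
    exact congrArg (fun f : MvPolynomial (Fin 2) (K j) →ₐ[K j] MvPolynomial (Fin 2) (K j) => f p) h3
  refine ⟨g, hg, hext _ _ fun k => ?_, fun j hij => hext _ _ fun k => ?_⟩
  · rw [bc_X, hg, map_liftX_same h1]
  · rw [bc_X, hg, map_liftX_other h2 hij]
    rfl

omit [Fintype ι] [DecidableEq ι] in
theorem totalDegree_le_of_map
    (hinj : ∀ a b : S, (∀ i, algebraMap S (K i) a = algebraMap S (K i) b) → a = b)
    {p : MvPolynomial (Fin 2) S} {n : ℕ}
    (h : ∀ i, (map (algebraMap S (K i)) p).totalDegree ≤ n) : p.totalDegree ≤ n := by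
  refine Finset.sup_le fun s hs => ?_
  by_contra hcon
  push Not at hcon
  rw [mem_support_iff] at hs
  apply hs
  refine hinj _ _ fun i => ?_
  rw [map_zero, ← coeff_map]
  by_contra hne
  have h3 := le_totalDegree (mem_support_iff.2 hne)
  have h4 := h i
  omega

omit [Fintype ι] in
/-- The lift of an affine automorphism is affine. -/
theorem lift_aff {σ : ∀ i, K i → S} (h1 : ∀ i a, algebraMap S (K i) (σ i a) = a)
    (h2 : ∀ i j, i ≠ j → ∀ a, algebraMap S (K j) (σ i a) = 0)
    (hinj : ∀ a b : S, (∀ i, algebraMap S (K i) a = algebraMap S (K i) b) → a = b)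
    (i : ι) {h : Aut2 (K i)} (hh : h ∈ affR (K i)) {g : Aut2 S}
    (hg : ∀ k, g (X k) = liftX (σ i) h k) : g ∈ affR S := by
  intro k
  rw [hg]
  refine totalDegree_le_of_map hinj fun j => ?_
  by_cases hij : i = j
  · subst hij
    rw [map_liftX_same h1]
    exact hh k
  · rw [map_liftX_other h2 hij]
    rcases subsingleton_or_nontrivial (K j) with hs | hn
    · have : (X k : MvPolynomial (Fin 2) (K j)) = 0 := Subsingleton.elim _ _
      rw [this, totalDegree_zero]
      exact Nat.zero_le _
    · rw [totalDegree_X]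

omit [Fintype ι] in
/-- The lift of a triangular automorphism is triangular. -/
theorem lift_tri {σ : ∀ i, K i → S} (h1 : ∀ i a, algebraMap S (K i) (σ i a) = a)
    (h2 : ∀ i j, i ≠ j → ∀ a, algebraMap S (K j) (σ i a) = 0)
    (hinj : ∀ a b : S, (∀ i, algebraMap S (K i) a = algebraMap S (K i) b) → a = b)
    (i : ι) {h : Aut2 (K i)} (hh : h ∈ triR (K i)) {g : Aut2 S}
    (hg : ∀ k, g (X k) = liftX (σ i) h k) : g ∈ triR S := by
  intro k
  obtain ⟨c, hc, p, hp, e⟩ := hh k
  obtain ⟨u, rfl⟩ := hc
  refine ⟨σ i u + (1 - σ i 1), ?_, lft (σ i) p, lft_supported _ hp, ?_⟩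
  · refine IsUnit.of_mul_eq_one (σ i (↑u⁻¹ : K i) + (1 - σ i 1)) (hinj _ _ fun j => ?_)
    by_cases hij : i = j
    · subst hij
      simp only [map_mul, map_add, map_sub, map_one, h1, sub_self, add_zero, Units.mul_inv]
    · simp only [map_mul, map_add, map_sub, map_one, h2 i j hij, sub_zero, zero_add, mul_one]
  · rw [hg]
    refine map_inj hinj fun j => ?_
    by_cases hij : i = j
    · subst hij
      rw [map_liftX_same h1, e, map_add, map_mul, map_C, map_X, map_lft_same (h1 i), map_add,
        map_sub, map_one, h1, h1, sub_self, add_zero]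
    · rw [map_liftX_other h2 hij, map_add, map_mul, map_C, map_X, map_lft_other (h2 i j hij),
        map_add, map_sub, map_one, h2 i j hij, h2 i j hij, sub_zero, zero_add, C_1, one_mul,
        add_zero]

omit [Fintype ι] in
/-- The lift of a tame automorphism is tame. -/
theorem lift_tame {σ : ∀ i, K i → S} (h1 : ∀ i a, algebraMap S (K i) (σ i a) = a)
    (h2 : ∀ i j, i ≠ j → ∀ a, algebraMap S (K j) (σ i a) = 0)
    (hinj : ∀ a b : S, (∀ i, algebraMap S (K i) a = algebraMap S (K i) b) → a = b)
    (i : ι) {h : Aut2 (K i)} (hh : h ∈ TAR (K i)) :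
    ∃ g ∈ TAR S, bc (K i) g = h ∧ ∀ j, i ≠ j → bc (K j) g = 1 := by
  unfold TAR at hh
  induction hh using Subgroup.closure_induction with
  | mem h hh =>
    obtain ⟨g, hg, hg1, hg2⟩ := exists_lift h1 h2 hinj i h
    refine ⟨g, Subgroup.subset_closure ?_, hg1, hg2⟩
    rcases hh with hh | hh
    · exact Or.inl (lift_aff h1 h2 hinj i hh hg)
    · exact Or.inr (lift_tri h1 h2 hinj i hh hg)
  | one => exact ⟨1, one_mem _, map_one _, fun j _ => map_one _⟩
  | mul h h' _ _ ih ih' =>
    obtain ⟨g, hg, hg1, hg2⟩ := ih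
    obtain ⟨g', hg', hg1', hg2'⟩ := ih'
    refine ⟨g * g', mul_mem hg hg', by rw [map_mul, hg1, hg1'], fun j hij => ?_⟩
    rw [map_mul, hg2 j hij, hg2' j hij, one_mul]
  | inv h _ ih =>
    obtain ⟨g, hg, hg1, hg2⟩ := ih
    refine ⟨g⁻¹, inv_mem hg, by rw [map_inv, hg1], fun j hij => ?_⟩
    rw [map_inv, hg2 j hij, inv_one]

/-- Finite products: if every automorphism over every factor is tame, so is every automorphism
over the product. -/
theorem jung_prod {σ : ∀ i, K i → S} (h1 : ∀ i a, algebraMap S (K i) (σ i a) = a)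
    (h2 : ∀ i j, i ≠ j → ∀ a, algebraMap S (K j) (σ i a) = 0)
    (hinj : ∀ a b : S, (∀ i, algebraMap S (K i) a = algebraMap S (K i) b) → a = b)
    (hJ : ∀ i (g : Aut2 (K i)), g ∈ TAR (K i)) (g : Aut2 S) : g ∈ TAR S := by
  have key : ∀ (F : Finset ι) (g : Aut2 S), (∀ i, i ∉ F → bc (K i) g = 1) → g ∈ TAR S := by
    intro F
    induction F using Finset.induction_on with
    | empty =>
      intro g hg
      have : g = 1 := bc_inj hinj fun i => by rw [hg i (Finset.notMem_empty i), map_one]
      rw [this]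
      exact one_mem _
    | insert a F _ ih =>
      intro g hg
      obtain ⟨l, hl, hl1, hl2⟩ := lift_tame h1 h2 hinj a (hJ a (bc (K a) g))
      have h3 : l⁻¹ * g ∈ TAR S := by
        refine ih _ fun i hi => ?_
        by_cases hia : a = i
        · subst hia
          rw [map_mul, map_inv, hl1, inv_mul_cancel]
        · rw [map_mul, map_inv, hl2 i hia, inv_one, one_mul]
          refine hg i ?_
          rw [Finset.mem_insert]
          rintro (h | h)
          · exact hia h.symm
          · exact hi h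
      have h4 : g = l * (l⁻¹ * g) := by rw [mul_inv_cancel_left]
      rw [h4]
      exact mul_mem hl h3
  exact key Finset.univ g fun i hi => absurd (Finset.mem_univ i) hi

end Prod

/-- (P2 of Theorem C) A reduced Artinian ring inherits tameness from its residue fields. -/
theorem jung_reduced {S : Type*} [CommRing S] [IsArtinianRing S] [IsReduced S]
    (hJ : ∀ (m : Ideal S) [m.IsMaximal] (g : Aut2 (S ⧸ m)), g ∈ TAR (S ⧸ m)) (g : Aut2 S) :
    g ∈ TAR S := by
  classical
  have : Fintype (MaximalSpectrum S) := Fintype.ofFinite _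
  let E := IsArtinianRing.equivPi S
  have hE : ∀ (s : S) (m : MaximalSpectrum S), E s m = algebraMap S (S ⧸ m.asIdeal) s :=
    fun s m => rfl
  refine jung_prod (ι := MaximalSpectrum S) (K := fun m => S ⧸ m.asIdeal)
    (σ := fun m a => E.symm (Pi.single m a)) (fun m a => ?_) (fun m m' hm a => ?_)
    (fun a b hab => ?_) (fun m g => hJ m.asIdeal g) g
  · rw [← hE, E.apply_symm_apply, Pi.single_eq_same]
  · rw [← hE, E.apply_symm_apply, Pi.single_eq_of_ne (Ne.symm hm)]
  · apply E.injective
    funext m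
    rw [hE, hE]
    exact hab m

end Pool.Agent.GAR
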