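import Mathlib

set_option autoImplicit false

/-! Reduced rings of Krull dimension zero (von Neumann regular rings): idempotents. -/

namespace Pool.Agent.GAR

section VnReg
variable {S : Type*} [CommRing S]

/-- In a reduced ring of dimension zero every element of a maximal ideal `m` is killed by an
element outside of `m`. -/
theorem exists_ann [IsReduced S] [Ring.KrullDimLE 0 S] (m : Ideal S) [hm : m.IsMaximal] {a : S}
    (ha : a ∈ m) : ∃ s, s ∉ m ∧ s * a = 0 := by
  by_contra hno
  push Not at hno
  have hmp : m.IsPrime := hm.isPrime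
  have hdis : Disjoint ((⊥ : Ideal S) : Set S)
      ((Submonoid.powers a ⊔ m.primeCompl : Submonoid S) : Set S) := by
    rw [Set.disjoint_left]
    intro x hx hxS
    have hx0 : x = 0 := by simpa using hx
    subst hx0
    obtain ⟨y, ⟨n, rfl⟩, z, hz, hyz⟩ := Submonoid.mem_sup.1 hxS
    have hz' : z ∉ m := hz
    refine hno z hz' ?_
    rcases Nat.eq_zero_or_pos n with rfl | hn
    · exfalso
      apply hz'
      have : z = 0 := by simpa using hyz
      rw [this]; exact m.zero_mem
    · apply eq_zero_of_pow_eq_zero (n := n)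
      obtain ⟨k, rfl⟩ : ∃ k, n = k + 1 := ⟨n - 1, by omega⟩
      have h1 : a ^ (k + 1) * z = 0 := hyz
      rw [mul_pow, pow_succ z]
      calc z ^ k * z * a ^ (k + 1) = z ^ k * (a ^ (k + 1) * z) := by ring
        _ = 0 := by rw [h1, mul_zero]
  obtain ⟨p, hp, -, hpS⟩ := Ideal.exists_le_prime_disjoint _ _ hdis
  have hpm : p ≤ m := by
    intro x hx
    by_contra hxm
    refine Set.disjoint_left.1 hpS hx ?_
    exact (le_sup_right : m.primeCompl ≤ Submonoid.powers a ⊔ m.primeCompl) hxm
  have hpmax : p.IsMaximal := Ideal.isMaximal_of_isPrime p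
  have heq : p = m := hpmax.eq_of_le hm.ne_top hpm
  refine Set.disjoint_left.1 hpS (show a ∈ (p : Set S) by rw [heq]; exact ha) ?_
  exact (le_sup_left : Submonoid.powers a ≤ Submonoid.powers a ⊔ m.primeCompl)
    (Submonoid.mem_powers a)

/-- Von Neumann regularity. -/
theorem exists_vn [IsReduced S] [Ring.KrullDimLE 0 S] (a : S) : ∃ b : S, a = a ^ 2 * b := by
  let J : Ideal S :=
    { carrier := {s | ∃ b, s * a = a ^ 2 * b}
      add_mem' := by
        rintro s t ⟨b, hb⟩ ⟨c, hc⟩
        exact ⟨b + c, by rw [add_mul, hb, hc, mul_add]⟩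
      zero_mem' := ⟨0, by rw [zero_mul, mul_zero]⟩
      smul_mem' := by
        rintro c s ⟨b, hb⟩
        exact ⟨c * b, by rw [smul_eq_mul, mul_assoc, hb]; ring⟩ }
  have hJ : J = ⊤ := by
    by_contra hJ
    obtain ⟨m, hm, hle⟩ := Ideal.exists_le_maximal J hJ
    have ha : a ∈ m := hle ⟨1, by ring⟩
    obtain ⟨s, hs, hsa⟩ := exists_ann m ha
    exact hs (hle ⟨0, by rw [hsa, mul_zero]⟩)
  have h1 : (1 : S) ∈ J := by rw [hJ]; trivial
  obtain ⟨b, hb⟩ := h1
  exact ⟨b, by rw [← hb, one_mul]⟩

/-- Every principal ideal is generated by an idempotent. -/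
theorem exists_idem [IsReduced S] [Ring.KrullDimLE 0 S] (a : S) :
    ∃ e : S, IsIdempotentElem e ∧ a * e = a ∧ ∃ b, e = a * b := by
  obtain ⟨b, hb⟩ := exists_vn a
  refine ⟨a * b, ?_, ?_, b, rfl⟩
  · change a * b * (a * b) = a * b
    calc a * b * (a * b) = (a ^ 2 * b) * b := by ring
      _ = a * b := by rw [← hb]
  · calc a * (a * b) = a ^ 2 * b := by ring
      _ = a := hb.symm

/-- Finitely many elements of a maximal ideal are killed by an idempotent outside of it. -/
theorem exists_idem_kill [IsReduced S] [Ring.KrullDimLE 0 S] (m : Ideal S) [hm : m.IsMaximal]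
    (t : Finset S) (ht : ∀ x ∈ t, x ∈ m) :
    ∃ e : S, IsIdempotentElem e ∧ e ∉ m ∧ ∀ x ∈ t, x * e = 0 := by
  classical
  have hmp : m.IsPrime := hm.isPrime
  induction t using Finset.induction_on with
  | empty =>
    exact ⟨1, IsIdempotentElem.one, fun h => hm.ne_top ((Ideal.eq_top_iff_one m).2 h), by simp⟩
  | insert a t _ ih =>
    obtain ⟨e, he, hem, hek⟩ := ih fun x hx => ht x (Finset.mem_insert_of_mem hx)
    obtain ⟨f, hf, haf, b, hfb⟩ := exists_idem a
    have ham : a ∈ m := ht a (Finset.mem_insert_self a t)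
    have hfm : f ∈ m := by rw [hfb]; exact m.mul_mem_right b ham
    have hf' : 1 - f ∉ m := fun h =>
      hm.ne_top ((Ideal.eq_top_iff_one m).2 (by have := m.add_mem h hfm; rwa [sub_add_cancel] at this))
    refine ⟨(1 - f) * e, hf.one_sub.mul he, fun h => ?_, fun x hx => ?_⟩
    · rcases hmp.mem_or_mem h with h | h
      · exact hf' h
      · exact hem h
    · rcases Finset.mem_insert.1 hx with rfl | hx
      · rw [← mul_assoc, mul_sub, mul_one, haf, sub_self, zero_mul]
      · calc x * ((1 - f) * e) = (1 - f) * (x * e) := by ring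
          _ = 0 := by rw [hek x hx, mul_zero]

/-- A property of idempotents which is inherited by smaller idempotents and by orthogonal sums and
which holds locally, holds for `1`. -/
theorem idem_induction {P : S → Prop} (h0 : P 0)
    (hle : ∀ e f : S, IsIdempotentElem e → IsIdempotentElem f → P e → f * e = f → P f)
    (hadd : ∀ e f : S, IsIdempotentElem e → IsIdempotentElem f → P e → P f → e * f = 0 →
      P (e + f))
    (hloc : ∀ m : Ideal S, m.IsMaximal → ∃ e : S, IsIdempotentElem e ∧ e ∉ m ∧ P e) : P 1 := by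
  let I : Ideal S :=
    { carrier := {x | ∃ e : S, IsIdempotentElem e ∧ P e ∧ x * e = x}
      add_mem' := by
        rintro x y ⟨e, he, hPe, hx⟩ ⟨f, hf, hPf, hy⟩
        have hg : IsIdempotentElem (f * (1 - e)) := hf.mul he.one_sub
        have he' : e * e = e := he
        have hf' : f * f = f := hf
        have hort : e * (f * (1 - e)) = 0 := by
          calc e * (f * (1 - e)) = f * (e - e * e) := by ring
            _ = 0 := by rw [he', sub_self, mul_zero]
        have hPg : P (f * (1 - e)) := hle f _ hf hg hPf (by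
          calc f * (1 - e) * f = (f * f) * (1 - e) := by ring
            _ = f * (1 - e) := by rw [hf'])
        refine ⟨e + f * (1 - e), ?_, hadd e _ he hg hPe hPg hort, ?_⟩
        · change (e + f * (1 - e)) * (e + f * (1 - e)) = e + f * (1 - e)
          calc (e + f * (1 - e)) * (e + f * (1 - e))
              = e * e + 2 * (e * (f * (1 - e))) + (f * (1 - e)) * (f * (1 - e)) := by ring
            _ = e + f * (1 - e) := by rw [he', hort, hg.eq]; ring
        · calc (x + y) * (e + f * (1 - e))
              = x * e + (x - x * e) * f + (y * f + y * e - y * f * e) := by ring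
            _ = x + y := by rw [hx, hy]; ring
      zero_mem' := ⟨0, IsIdempotentElem.zero, h0, by rw [zero_mul]⟩
      smul_mem' := by
        rintro c x ⟨e, he, hPe, hx⟩
        exact ⟨e, he, hPe, by rw [smul_eq_mul, mul_assoc, hx]⟩ }
  have hI : I = ⊤ := by
    by_contra hI
    obtain ⟨m, hm, hle'⟩ := Ideal.exists_le_maximal I hI
    obtain ⟨e, he, hem, hPe⟩ := hloc m hm
    exact hem (hle' ⟨e, he, hPe, he⟩)
  have h1 : (1 : S) ∈ I := by rw [hI]; trivial
  obtain ⟨e, -, hPe, h1e⟩ := h1
  rw [one_mul] at h1e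
  rwa [h1e] at hPe

end VnReg

end Pool.Agent.GAR
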