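import Mathlib
import Pool.Agent.GAR.ArtDefs
import Pool.Agent.GAR.JungField
import Pool.Agent.GAR.VnReg

set_option autoImplicit false

/-! Every automorphism of `S[x, y]` is tame, `S` a reduced `ℚ`-algebra of dimension zero. -/

namespace Pool.Agent.GAR

open MvPolynomial

section Reg
variable {S : Type*} [CommRing S]

/-- `a` and `b` agree on the part of the idempotent `e`. -/
def OnP (e : S) (a b : Aut2 S) : Prop := ∀ q, C e * a q = C e * b q

theorem autC (a : Aut2 S) (c : S) : a (C c) = C c := a.commutes c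

theorem autM (a b : Aut2 S) (q : MvPolynomial (Fin 2) S) : (a * b) q = a (b q) := rfl

theorem aut_inv_ap (a : Aut2 S) (q : MvPolynomial (Fin 2) S) : a⁻¹ (a q) = q := by
  rw [← autM, inv_mul_cancel]; rfl

theorem aut_ap_inv (a : Aut2 S) (q : MvPolynomial (Fin 2) S) : a (a⁻¹ q) = q := by
  rw [← autM, mul_inv_cancel]; rfl

theorem aut_ext {a b : Aut2 S} (h : ∀ k, a (X k) = b (X k)) : a = b := by
  apply AlgEquiv.ext
  intro p
  have h3 : (a : MvPolynomial (Fin 2) S →ₐ[S] MvPolynomial (Fin 2) S) =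
      (b : MvPolynomial (Fin 2) S →ₐ[S] MvPolynomial (Fin 2) S) := by
    ext1 k
    exact h k
  exact congrArg (fun f : MvPolynomial (Fin 2) S →ₐ[S] MvPolynomial (Fin 2) S => f p) h3

theorem OnP.refl (e : S) (a : Aut2 S) : OnP e a a := fun _ => rfl

theorem OnP.symm {e : S} {a b : Aut2 S} (h : OnP e a b) : OnP e b a := fun q => (h q).symm

theorem OnP.trans {e : S} {a b c : Aut2 S} (h : OnP e a b) (h' : OnP e b c) : OnP e a c :=
  fun q => (h q).trans (h' q)

theorem OnP.mul {e : S} {a b a' b' : Aut2 S} (h : OnP e a b) (h' : OnP e a' b') :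
    OnP e (a * a') (b * b') := fun q => by
  rw [autM, autM, h]
  calc C e * b (a' q) = b (C e * a' q) := by rw [map_mul, autC]
    _ = b (C e * b' q) := by rw [h']
    _ = C e * b (b' q) := by rw [map_mul, autC]

theorem OnP.inv {e : S} {a b : Aut2 S} (h : OnP e a b) : OnP e a⁻¹ b⁻¹ := fun q => by
  calc C e * a⁻¹ q = a⁻¹ (C e * b (b⁻¹ q)) := by rw [aut_ap_inv, map_mul, autC]
    _ = a⁻¹ (C e * a (b⁻¹ q)) := by rw [h]
    _ = C e * b⁻¹ q := by rw [map_mul, autC, aut_inv_ap]

theorem OnP.mono {e f : S} (hf : f * e = f) {a b : Aut2 S} (h : OnP e a b) : OnP f a b :=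
  fun q => by
    rw [← hf, C_mul, mul_assoc, mul_assoc, h]

theorem OnP.add {e f : S} {a b : Aut2 S} (h : OnP e a b) (h' : OnP f a b) : OnP (e + f) a b :=
  fun q => by
    rw [C_add, add_mul, add_mul, h, h']

theorem OnP.of_X {e : S} (he : IsIdempotentElem e) {a b : Aut2 S}
    (h : ∀ k, C e * a (X k) = C e * b (X k)) : OnP e a b := by
  intro q
  have hC : (C e : MvPolynomial (Fin 2) S) * C e = C e := by rw [← C_mul, he.eq]
  induction q using MvPolynomial.induction_on with
  | C c => rw [autC, autC]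
  | add p q hp hq => rw [map_add, map_add, mul_add, mul_add, hp, hq]
  | mul_X p k hp =>
    calc C e * a (p * X k) = (C e * C e) * (a p * a (X k)) := by rw [hC, map_mul]
      _ = (C e * a p) * (C e * a (X k)) := by ring
      _ = (C e * b p) * (C e * b (X k)) := by rw [hp, h]
      _ = (C e * C e) * (b p * b (X k)) := by ring
      _ = C e * b (p * X k) := by rw [hC, map_mul]

/-- evaluation on the part `e` -/
theorem part_aeval {e : S} (he : IsIdempotentElem e) {G G' : Fin 2 → MvPolynomial (Fin 2) S}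
    (h : ∀ k, C e * G k = C e * G' k) (q : MvPolynomial (Fin 2) S) :
    C e * aeval G q = C e * aeval G' q := by
  have hC : (C e : MvPolynomial (Fin 2) S) * C e = C e := by rw [← C_mul, he.eq]
  induction q using MvPolynomial.induction_on with
  | C c => simp [algebraMap_eq]
  | add p q hp hq => rw [map_add, map_add, mul_add, mul_add, hp, hq]
  | mul_X p k hp =>
    calc C e * aeval G (p * X k) = (C e * C e) * (aeval G p * G k) := by
          rw [hC, map_mul, aeval_X]
      _ = (C e * aeval G p) * (C e * G k) := by ring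
      _ = (C e * aeval G' p) * (C e * G' k) := by rw [hp, h]
      _ = (C e * C e) * (aeval G' p * G' k) := by ring
      _ = C e * aeval G' (p * X k) := by rw [hC, map_mul, aeval_X]

/-- `G` on the part `e`, the identity on the other part -/
noncomputable def gl (e : S) (G : Fin 2 → MvPolynomial (Fin 2) S) (k : Fin 2) :
    MvPolynomial (Fin 2) S := C e * G k + C (1 - e) * X k

theorem gl_e {e : S} (he : IsIdempotentElem e) (G : Fin 2 → MvPolynomial (Fin 2) S) (k : Fin 2) :
    C e * gl e G k = C e * G k := by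
  have hC : (C e : MvPolynomial (Fin 2) S) * C e = C e := by rw [← C_mul, he.eq]
  have hC' : (C e : MvPolynomial (Fin 2) S) * C (1 - e) = 0 := by
    rw [← C_mul, mul_sub, mul_one, he.eq, sub_self, C_0]
  rw [gl, mul_add, ← mul_assoc, hC, ← mul_assoc, hC', zero_mul, add_zero]

theorem gl_f {e : S} (he : IsIdempotentElem e) (G : Fin 2 → MvPolynomial (Fin 2) S) (k : Fin 2) :
    C (1 - e) * gl e G k = C (1 - e) * X k := by
  have hC : (C (1 - e) : MvPolynomial (Fin 2) S) * C (1 - e) = C (1 - e) := by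
    rw [← C_mul, he.one_sub.eq]
  have hC' : (C (1 - e) : MvPolynomial (Fin 2) S) * C e = 0 := by
    rw [← C_mul, sub_mul, one_mul, he.eq, sub_self, C_0]
  rw [gl, mul_add, ← mul_assoc, hC', zero_mul, zero_add, ← mul_assoc, hC]

theorem gl_comp {e : S} (he : IsIdempotentElem e) {G H : Fin 2 → MvPolynomial (Fin 2) S}
    (h : ∀ k, C e * aeval G (H k) = C e * X k) :
    (aeval (gl e G)).comp (aeval (gl e H)) = AlgHom.id S (MvPolynomial (Fin 2) S) := by
  ext1 k
  rw [AlgHom.comp_apply, aeval_X]
  change aeval (gl e G) (gl e H k) = X k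
  have h1 : aeval (gl e G) (gl e H k) =
      C e * aeval (gl e G) (H k) + C (1 - e) * gl e G k := by
    conv_lhs => rw [gl]
    rw [map_add, map_mul, map_mul, aeval_X, ← algebraMap_eq, AlgHom.commutes, AlgHom.commutes]
  rw [h1, part_aeval he (gl_e he G), h, gl_f he, ← add_mul, ← C_add, add_sub_cancel, C_1, one_mul]

theorem exists_gl {e : S} (he : IsIdempotentElem e) {G H : Fin 2 → MvPolynomial (Fin 2) S}
    (h : ∀ k, C e * aeval G (H k) = C e * X k) (h' : ∀ k, C e * aeval H (G k) = C e * X k) :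
    ∃ g : Aut2 S, ∀ k, g (X k) = gl e G k :=
  ⟨AlgEquiv.ofAlgHom (aeval (gl e G)) (aeval (gl e H)) (gl_comp he h) (gl_comp he h'),
    fun _ => aeval_X _ _⟩

theorem gl_affR {e : S} {G : Fin 2 → MvPolynomial (Fin 2) S} (hG : ∀ k, (G k).totalDegree ≤ 1)
    {g : Aut2 S} (hg : ∀ k, g (X k) = gl e G k) : g ∈ affR S := by
  intro k
  rw [hg, gl]
  refine (totalDegree_add _ _).trans (max_le ?_ ?_)
  · exact (totalDegree_mul _ _).trans (by rw [totalDegree_C, zero_add]; exact hG k)
  · refine (totalDegree_mul _ _).trans ?_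
    rw [totalDegree_C, zero_add]
    rcases subsingleton_or_nontrivial S with hs | hn
    · have : (X k : MvPolynomial (Fin 2) S) = 0 := Subsingleton.elim _ _
      rw [this, totalDegree_zero]
      exact Nat.zero_le _
    · rw [totalDegree_X]

theorem gl_triR {e : S} (he : IsIdempotentElem e) {G : Fin 2 → MvPolynomial (Fin 2) S}
    (hG : ∀ i, ∃ c c' : S, e * (c * c') = e ∧ ∃ p ∈ supported S {j : Fin 2 | i < j},
      G i = C c * X i + p)
    {g : Aut2 S} (hg : ∀ k, g (X k) = gl e G k) : g ∈ triR S := by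
  intro k
  obtain ⟨c, c', hc, p, hp, hGk⟩ := hG k
  refine ⟨e * c + (1 - e), ?_, C e * p, Subalgebra.mul_mem _ (Subalgebra.algebraMap_mem _ e) hp,
    ?_⟩
  · refine IsUnit.of_mul_eq_one (e * c' + (1 - e)) ?_
    calc (e * c + (1 - e)) * (e * c' + (1 - e))
        = (e * e) * (c * c') + (1 - e) * (1 - e) + (e - e * e) * (c + c') := by ring
      _ = e * (c * c') + (1 - e) := by rw [he.eq, he.one_sub.eq, sub_self, zero_mul, add_zero]
      _ = 1 := by rw [hc]; ring
  · rw [hg, gl, hGk, C_add, C_mul]; ring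

/-- Cutting a tame automorphism with an idempotent. -/
theorem exists_cut {e : S} (he : IsIdempotentElem e) {h : Aut2 S} (hh : h ∈ TAR S) :
    ∃ h' ∈ TAR S, OnP e h' h ∧ OnP (1 - e) h' 1 := by
  unfold TAR at hh
  induction hh using Subgroup.closure_induction with
  | mem a ha =>
    have hGH : ∀ a : Aut2 S, ∀ k, C e * aeval (fun k => a (X k)) (a⁻¹ (X k)) = C e * X k := by
      intro a k
      have h4 : (aeval fun k => a (X k)) =
          (a : MvPolynomial (Fin 2) S →ₐ[S] MvPolynomial (Fin 2) S) := by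
        ext1 l
        rw [aeval_X]
        rfl
      rw [h4]
      change C e * a (a⁻¹ (X k)) = _
      rw [aut_ap_inv]
    obtain ⟨g, hg⟩ := exists_gl (G := fun k => a (X k)) (H := fun k => a⁻¹ (X k)) he (hGH a)
      (by have := hGH a⁻¹; rwa [inv_inv] at this)
    refine ⟨g, Subgroup.subset_closure ?_, OnP.of_X he fun k => by rw [hg, gl_e he],
      OnP.of_X he.one_sub fun k => by rw [hg, gl_f he]; rfl⟩
    rcases ha with ha | ha
    · exact Or.inl (gl_affR (fun k => ha k) hg)
    · refine Or.inr (gl_triR he (fun k => ?_) hg)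
      obtain ⟨c, hc, p, hp, e1⟩ := ha k
      obtain ⟨u, rfl⟩ := hc
      exact ⟨u, (u⁻¹ : Sˣ), by rw [Units.mul_inv, mul_one], p, hp, e1⟩
  | one => exact ⟨1, one_mem _, OnP.refl _ _, OnP.refl _ _⟩
  | mul a b _ _ iha ihb =>
    obtain ⟨a', ha', h1, h2⟩ := iha
    obtain ⟨b', hb', h3, h4⟩ := ihb
    refine ⟨a' * b', mul_mem ha' hb', h1.mul h3, ?_⟩
    have := h2.mul h4
    rwa [mul_one] at this
  | inv a _ iha =>
    obtain ⟨a', ha', h1, h2⟩ := iha
    refine ⟨a'⁻¹, inv_mem ha', h1.inv, ?_⟩
    have := h2.inv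
    rwa [inv_one] at this

/-- coefficientwise lift -/
noncomputable def cl {L : Type*} [CommRing L] (σ : L → S) (f : MvPolynomial (Fin 2) L) :
    MvPolynomial (Fin 2) S := ∑ s ∈ f.support, monomial s (σ (coeff s f))

theorem map_cl {L : Type*} [CommRing L] [Algebra S L] {σ : L → S}
    (h1 : ∀ a, algebraMap S L (σ a) = a) (f : MvPolynomial (Fin 2) L) :
    map (algebraMap S L) (cl σ f) = f := by
  unfold cl
  rw [map_sum]
  conv_rhs => rw [f.as_sum]
  refine Finset.sum_congr rfl fun s _ => ?_
  rw [map_monomial, h1]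

theorem totalDegree_cl {L : Type*} [CommRing L] (σ : L → S) (f : MvPolynomial (Fin 2) L) :
    (cl σ f).totalDegree ≤ f.totalDegree := by
  unfold cl
  refine totalDegree_finsetSum_le fun s hs => ?_
  exact (totalDegree_monomial_le _ _).trans (le_totalDegree hs)

theorem cl_supported {L : Type*} [CommRing L] (σ : L → S) {A : Set (Fin 2)}
    {f : MvPolynomial (Fin 2) L} (hf : f ∈ supported L A) : cl σ f ∈ supported S A := by
  unfold cl
  refine Subalgebra.sum_mem _ fun s hs => ?_
  rw [mem_supported] at hf ⊢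
  intro j hj
  rcases eq_or_ne (σ (coeff s f)) 0 with h0 | h0
  · rw [h0, monomial_zero, vars_0] at hj
    simp at hj
  · rw [vars_monomial h0] at hj
    refine hf ?_
    rw [Finset.mem_coe, mem_vars_iff_mem_support]
    exact ⟨s, hs, hj⟩

theorem map_aeval_nat' {L : Type*} [CommRing L] [Algebra S L]
    (P : Fin 2 → MvPolynomial (Fin 2) S) (q : MvPolynomial (Fin 2) S) :
    map (algebraMap S L) (aeval P q) =
      aeval (fun k => map (algebraMap S L) (P k)) (map (algebraMap S L) q) := by
  induction q using MvPolynomial.induction_on with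
  | C a => simp [algebraMap_eq]
  | add p q hp hq => rw [map_add, map_add, map_add, map_add, hp, hq]
  | mul_X p i hp => rw [map_mul, map_mul, map_mul, map_mul, hp, map_X, aeval_X, aeval_X]

section Local
variable [IsReduced S] [Ring.KrullDimLE 0 S]

/-- killing the difference of two polynomials which agree modulo `m` -/
theorem exists_kill (m : Ideal S) [m.IsMaximal] (T : Finset (MvPolynomial (Fin 2) S × MvPolynomial (Fin 2) S))
    (hT : ∀ x ∈ T, map (algebraMap S (S ⧸ m)) x.1 = map (algebraMap S (S ⧸ m)) x.2) :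
    ∃ e : S, IsIdempotentElem e ∧ e ∉ m ∧ ∀ x ∈ T, C e * x.1 = C e * x.2 := by
  classical
  obtain ⟨e, he, hem, hk⟩ := exists_idem_kill m
    (T.biUnion fun x => (x.1 - x.2).support.image fun s => coeff s (x.1 - x.2)) (by
      intro y hy
      obtain ⟨x, hx, hy⟩ := Finset.mem_biUnion.1 hy
      obtain ⟨s, hs, rfl⟩ := Finset.mem_image.1 hy
      rw [← Ideal.Quotient.eq_zero_iff_mem]
      change algebraMap S (S ⧸ m) _ = 0
      rw [← coeff_map, map_sub, hT x hx, sub_self, coeff_zero])
  refine ⟨e, he, hem, fun x hx => ?_⟩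
  rw [← sub_eq_zero, ← mul_sub]
  ext s
  rw [coeff_C_mul, coeff_zero, mul_comm]
  by_cases hs : s ∈ (x.1 - x.2).support
  · exact hk _ (Finset.mem_biUnion.2 ⟨x, hx, Finset.mem_image.2 ⟨s, hs, rfl⟩⟩)
  · rw [notMem_support_iff.1 hs, zero_mul]

omit [IsReduced S] [Ring.KrullDimLE 0 S] in
theorem algebraMap_idem {m : Ideal S} [hm : m.IsMaximal] {e : S} (he : IsIdempotentElem e)
    (hem : e ∉ m) : algebraMap S (S ⧸ m) e = 1 := by
  have h1 : (1 - e) ∈ m := by
    have h2 : e * (1 - e) ∈ m := by
      rw [mul_sub, mul_one, he.eq, sub_self]; exact m.zero_mem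
    exact (hm.isPrime.mem_or_mem h2).resolve_left hem
  have h2 : algebraMap S (S ⧸ m) (1 - e) = 0 := Ideal.Quotient.eq_zero_iff_mem.2 h1
  rw [map_sub, map_one, sub_eq_zero] at h2
  exact h2.symm

/-- Tame automorphisms of the residue field lift to tame automorphisms. -/
theorem exists_tame_lift (m : Ideal S) [hm : m.IsMaximal] {h : Aut2 (S ⧸ m)}
    (hh : h ∈ TAR (S ⧸ m)) : ∃ g ∈ TAR S, bc (S ⧸ m) g = h := by
  classical
  unfold TAR at hh
  induction hh using Subgroup.closure_induction with
  | mem a ha =>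
    have hsur : ∀ x : S ⧸ m, ∃ y : S, algebraMap S (S ⧸ m) y = x :=
      fun x => Ideal.Quotient.mk_surjective x
    choose σ hσ using hsur
    obtain ⟨G, hGdef⟩ : ∃ G : Fin 2 → MvPolynomial (Fin 2) S, G = fun k => cl σ (a (X k)) :=
      ⟨_, rfl⟩
    obtain ⟨H, hHdef⟩ : ∃ H : Fin 2 → MvPolynomial (Fin 2) S, H = fun k => cl σ (a⁻¹ (X k)) :=
      ⟨_, rfl⟩
    have hG : ∀ k, map (algebraMap S (S ⧸ m)) (G k) = a (X k) := fun k => by
      rw [hGdef]; exact map_cl hσ _
    have hH : ∀ k, map (algebraMap S (S ⧸ m)) (H k) = a⁻¹ (X k) := fun k => by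
      rw [hHdef]; exact map_cl hσ _
    have hae : ∀ (b : Aut2 (S ⧸ m)) (P : Fin 2 → MvPolynomial (Fin 2) S),
        (∀ k, map (algebraMap S (S ⧸ m)) (P k) = b (X k)) → ∀ q,
        map (algebraMap S (S ⧸ m)) (aeval P q) = b (map (algebraMap S (S ⧸ m)) q) := by
      intro b P hP q
      rw [map_aeval_nat']
      have h4 : (aeval fun k => map (algebraMap S (S ⧸ m)) (P k)) =
          (b : MvPolynomial (Fin 2) (S ⧸ m) →ₐ[S ⧸ m] MvPolynomial (Fin 2) (S ⧸ m)) := by
        ext1 l
        rw [aeval_X, hP]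
        rfl
      rw [h4]
      rfl
    have hGH : ∀ k, map (algebraMap S (S ⧸ m)) (aeval G (H k)) =
        map (algebraMap S (S ⧸ m)) (X k) := fun k => by
      rw [hae a G hG, hH, aut_ap_inv, map_X]
    have hHG : ∀ k, map (algebraMap S (S ⧸ m)) (aeval H (G k)) =
        map (algebraMap S (S ⧸ m)) (X k) := fun k => by
      rw [hae a⁻¹ H hH, hG, aut_inv_ap, map_X]
    rcases ha with ha | ha
    · obtain ⟨e, he, hem, hk⟩ := exists_kill m
        (Finset.univ.image (fun k : Fin 2 => (aeval G (H k), (X k : MvPolynomial (Fin 2) S))) ∪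
          Finset.univ.image (fun k : Fin 2 => (aeval H (G k), (X k : MvPolynomial (Fin 2) S)))) (by
          intro x hx
          rcases Finset.mem_union.1 hx with hx | hx
          · obtain ⟨k, -, rfl⟩ := Finset.mem_image.1 hx
            exact hGH k
          · obtain ⟨k, -, rfl⟩ := Finset.mem_image.1 hx
            exact hHG k)
      obtain ⟨g, hg⟩ := exists_gl (G := G) (H := H) he
        (fun k => hk _ (Finset.mem_union_left _ (Finset.mem_image.2 ⟨k, Finset.mem_univ _, rfl⟩)))
        (fun k => hk _ (Finset.mem_union_right _ (Finset.mem_image.2 ⟨k, Finset.mem_univ _, rfl⟩)))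
      refine ⟨g, Subgroup.subset_closure (Or.inl (gl_affR (fun k => ?_) hg)), aut_ext fun k => ?_⟩
      · rw [hGdef]
        exact (totalDegree_cl σ _).trans (ha k)
      · rw [bc_X, hg, gl, map_add, map_mul, map_mul, map_C, map_C, map_sub, map_one,
          algebraMap_idem he hem, sub_self, C_1, C_0, one_mul, zero_mul, add_zero, hG]
    · choose c hc p hp hap using ha
      choose c' hc' using fun k => (hc k).exists_right_inv
      obtain ⟨e, he, hem, hk⟩ := exists_kill m
        ((Finset.univ.image (fun k : Fin 2 => (aeval G (H k), (X k : MvPolynomial (Fin 2) S))) ∪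
          Finset.univ.image (fun k : Fin 2 => (aeval H (G k), (X k : MvPolynomial (Fin 2) S)))) ∪
          (Finset.univ.image (fun k : Fin 2 => ((C (σ (c k) * σ (c' k)) :
            MvPolynomial (Fin 2) S), (1 : MvPolynomial (Fin 2) S))) ∪
          Finset.univ.image (fun k : Fin 2 => (G k, C (σ (c k)) * X k + cl σ (p k))))) (by
          intro x hx
          rcases Finset.mem_union.1 hx with hx | hx
          · rcases Finset.mem_union.1 hx with hx | hx
            · obtain ⟨k, -, rfl⟩ := Finset.mem_image.1 hx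
              exact hGH k
            · obtain ⟨k, -, rfl⟩ := Finset.mem_image.1 hx
              exact hHG k
          · rcases Finset.mem_union.1 hx with hx | hx
            · obtain ⟨k, -, rfl⟩ := Finset.mem_image.1 hx
              change map _ (C _) = map _ 1
              rw [map_C, map_mul, hσ, hσ, hc', C_1, map_one]
            · obtain ⟨k, -, rfl⟩ := Finset.mem_image.1 hx
              change map _ (G k) = map _ (C _ * X k + _)
              rw [hG, hap, map_add, map_mul, map_C, map_X, hσ, map_cl hσ])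
      have hk1 : ∀ k, C e * aeval G (H k) = C e * X k := fun k =>
        hk (aeval G (H k), X k) (Finset.mem_union_left _ (Finset.mem_union_left _
          (Finset.mem_image.2 ⟨k, Finset.mem_univ _, rfl⟩)))
      have hk2 : ∀ k, C e * aeval H (G k) = C e * X k := fun k =>
        hk (aeval H (G k), X k) (Finset.mem_union_left _ (Finset.mem_union_right _
          (Finset.mem_image.2 ⟨k, Finset.mem_univ _, rfl⟩)))
      have hk3 : ∀ k, C e * C (σ (c k) * σ (c' k)) = C e * (1 : MvPolynomial (Fin 2) S) :=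
        fun k => hk (C (σ (c k) * σ (c' k)), 1) (Finset.mem_union_right _
          (Finset.mem_union_left _ (Finset.mem_image.2 ⟨k, Finset.mem_univ _, rfl⟩)))
      have hk4 : ∀ k, C e * G k = C e * (C (σ (c k)) * X k + cl σ (p k)) := fun k =>
        hk (G k, C (σ (c k)) * X k + cl σ (p k)) (Finset.mem_union_right _
          (Finset.mem_union_right _ (Finset.mem_image.2 ⟨k, Finset.mem_univ _, rfl⟩)))
      obtain ⟨g, hg⟩ := exists_gl (G := G) (H := H) he hk1 hk2
      have hg' : ∀ k, g (X k) = gl e (fun k => C (σ (c k)) * X k + cl σ (p k)) k := fun k => by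
        rw [hg, gl, gl, hk4]
      refine ⟨g, Subgroup.subset_closure (Or.inr (gl_triR he (fun k => ?_) hg')),
        aut_ext fun k => ?_⟩
      · refine ⟨σ (c k), σ (c' k), ?_, cl σ (p k), cl_supported σ (hp k), rfl⟩
        have h5 := hk3 k
        rw [← C_mul, mul_one] at h5
        exact C_injective (Fin 2) S h5
      · rw [bc_X, hg, gl, map_add, map_mul, map_mul, map_C, map_C, map_sub, map_one,
          algebraMap_idem he hem, sub_self, C_1, C_0, one_mul, zero_mul, add_zero, hG]
  | one => exact ⟨1, one_mem _, map_one _⟩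
  | mul a b _ _ iha ihb =>
    obtain ⟨a', ha', h1⟩ := iha
    obtain ⟨b', hb', h2⟩ := ihb
    exact ⟨a' * b', mul_mem ha' hb', by rw [map_mul, h1, h2]⟩
  | inv a _ iha =>
    obtain ⟨a', ha', h1⟩ := iha
    exact ⟨a'⁻¹, inv_mem ha', by rw [map_inv, h1]⟩

/-- The local-global principle: if every automorphism over every residue field is tame, so is
every automorphism over `S`. -/
theorem tame_of_residue (hJ : ∀ (m : Ideal S) [m.IsMaximal] (g : Aut2 (S ⧸ m)), g ∈ TAR (S ⧸ m))
    (g : Aut2 S) : g ∈ TAR S := by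
  classical
  have key : ∃ h ∈ TAR S, OnP (1 : S) h g := by
    refine idem_induction (P := fun e : S => ∃ h ∈ TAR S, OnP e h g) ?_ ?_ ?_ ?_
    · exact ⟨1, one_mem _, fun q => by rw [C_0, zero_mul, zero_mul]⟩
    · rintro e f _ _ ⟨h, hh, h1⟩ hfe
      exact ⟨h, hh, h1.mono hfe⟩
    · rintro e f he hf ⟨a, ha, h1⟩ ⟨b, hb, h2⟩ hef
      obtain ⟨a', ha', h3, h4⟩ := exists_cut he ha
      obtain ⟨b', hb', h5, h6⟩ := exists_cut hf hb
      refine ⟨a' * b', mul_mem ha' hb', OnP.add ?_ ?_⟩
      · have h7 : OnP e b' 1 := h6.mono (by rw [mul_sub, mul_one, hef, sub_zero])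
        have h8 := (h3.trans h1).mul h7
        rwa [mul_one] at h8
      · have h7 : OnP f a' 1 := h4.mono (by rw [mul_sub, mul_one, mul_comm f e, hef, sub_zero])
        have h8 := h7.mul (h5.trans h2)
        rwa [one_mul] at h8
    · intro m hm
      obtain ⟨h, hh, h1⟩ := exists_tame_lift m (hJ m (bc (S ⧸ m) g))
      obtain ⟨e, he, hem, hk⟩ := exists_kill m
        (Finset.univ.image (fun k : Fin 2 => (h (X k), g (X k)))) (by
          intro x hx
          obtain ⟨k, -, rfl⟩ := Finset.mem_image.1 hx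
          change map _ (h (X k)) = map _ (g (X k))
          rw [← bc_X, ← bc_X, h1])
      exact ⟨e, he, hem, h, hh, OnP.of_X he fun k =>
        hk (h (X k), g (X k)) (Finset.mem_image.2 ⟨k, Finset.mem_univ _, rfl⟩)⟩
  obtain ⟨h, hh, h1⟩ := key
  have h2 : h = g := aut_ext fun k => by
    have := h1 (X k)
    rwa [C_1, one_mul, one_mul] at this
  rwa [h2] at hh

end Local

/-- **Jung's theorem** over reduced `ℚ`-algebras of Krull dimension zero. -/
theorem jung_reg {S : Type*} [CommRing S] [Algebra ℚ S] [IsReduced S] [Ring.KrullDimLE 0 S]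
    (g : Aut2 S) : g ∈ TAR S := by
  refine tame_of_residue (fun m hm g => ?_) g
  let _ : Field (S ⧸ m) := Ideal.Quotient.field m
  have : CharZero (S ⧸ m) := algebraRat.charZero (S ⧸ m)
  exact jung_field g

end Reg

end Pool.Agent.GAR
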