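import Mathlib
import Pool.Agent.GAR.ArtDefs

set_option autoImplicit false

/-! The Jacobian determinant of an automorphism of `R[x, y]`. -/

namespace Pool.Agent.GAR

open MvPolynomial

section Jac
variable {R : Type*} [CommRing R]

/-- The Jacobian determinant. -/
noncomputable def Jac (φ : Aut2 R) : MvPolynomial (Fin 2) R :=
  pderiv 0 (φ (X 0)) * pderiv 1 (φ (X 1)) - pderiv 1 (φ (X 0)) * pderiv 0 (φ (X 1))

theorem pderiv_ap (g : Aut2 R) (i : Fin 2) (p : MvPolynomial (Fin 2) R) :
    pderiv i (g p) = g (pderiv 0 p) * pderiv i (g (X 0)) + g (pderiv 1 p) * pderiv i (g (X 1)) := by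
  induction p using MvPolynomial.induction_on with
  | C a =>
    have : g (C a) = C a := g.commutes a
    rw [this, pderiv_C, pderiv_C, pderiv_C, map_zero]
    ring
  | add p q hp hq =>
    rw [map_add, map_add, map_add, map_add, map_add, map_add, hp, hq]
    ring
  | mul_X p j hp =>
    rw [map_mul, pderiv_mul, hp, pderiv_mul, pderiv_mul, map_add, map_add, map_mul, map_mul,
      map_mul, map_mul]
    fin_cases j
    · change _ * g (X 0) + g p * pderiv i (g (X 0)) = (g (pderiv 0 p) * g (X 0) +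
        g p * g (pderiv 0 (X 0))) * _ + (g (pderiv 1 p) * g (X 0) + g p * g (pderiv 1 (X 0))) * _
      rw [pderiv_X_self, pderiv_X_of_ne (by decide), map_one, map_zero]
      ring
    · change _ * g (X 1) + g p * pderiv i (g (X 1)) = (g (pderiv 0 p) * g (X 1) +
        g p * g (pderiv 0 (X 1))) * _ + (g (pderiv 1 p) * g (X 1) + g p * g (pderiv 1 (X 1))) * _
      rw [pderiv_X_self, pderiv_X_of_ne (by decide), map_one, map_zero]
      ring

theorem Jac_mul (g h : Aut2 R) : Jac (g * h) = g (Jac h) * Jac g := by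
  have e : ∀ i, (g * h) (X i) = g (h (X i)) := fun _ => rfl
  rw [Jac, e, e, pderiv_ap g 0 (h (X 0)), pderiv_ap g 1 (h (X 0)), pderiv_ap g 0 (h (X 1)),
    pderiv_ap g 1 (h (X 1)), Jac, Jac, map_sub, map_mul, map_mul]
  ring

theorem Jac_one : Jac (1 : Aut2 R) = 1 := by
  change pderiv 0 (X 0) * pderiv 1 (X 1) - pderiv 1 (X 0) * pderiv 0 (X 1) = 1
  rw [pderiv_X_self, pderiv_X_self, pderiv_X_of_ne (by decide), pderiv_X_of_ne (by decide)]
  ring

theorem one_par_unit {A : Type*} [CommRing A] [IsDomain A] [Algebra ℚ A]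
    (JP : Polynomial (MvPolynomial (Fin 2) A))
    (h : ∀ s : ℚ, JP.eval (C (algebraMap ℚ A s)) * JP.eval (C (algebraMap ℚ A (-s))) = 1)
    (h0 : JP.eval 0 = 1) : JP = 1 := by
  have h1 : JP * JP.comp (-Polynomial.X) = 1 := by
    rw [← sub_eq_zero]
    apply Polynomial.eq_zero_of_infinite_isRoot
    have hinj : Function.Injective (fun s : ℚ => (C (algebraMap ℚ A s) :
        MvPolynomial (Fin 2) A)) :=
      (C_injective _ _).comp (algebraMap ℚ A).injective
    refine (Set.infinite_range_of_injective hinj).mono ?_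
    rintro _ ⟨s, rfl⟩
    change (JP * JP.comp (-Polynomial.X) - 1).eval _ = 0
    rw [Polynomial.eval_sub, Polynomial.eval_mul, Polynomial.eval_comp, Polynomial.eval_neg,
      Polynomial.eval_X, Polynomial.eval_one, ← C_neg, ← map_neg, h s, sub_self]
  have h2 : IsUnit JP := IsUnit.of_mul_eq_one _ h1
  obtain ⟨c, -, hc⟩ := Polynomial.isUnit_iff.1 h2
  rw [← hc, Polynomial.eval_C] at h0
  rw [← hc, h0, map_one]

end Jac

end Pool.Agent.GAR
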