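import Mathlib
import Pool.Agent.GAR.ArtExp
import Pool.Agent.GAR.NilJac

set_option autoImplicit false

/-! If `GA_2(R)` is generated by the tame subgroup and finitely many one-parameter subgroups, then
the nilradical of `R` is finitely generated. -/

namespace Pool.Agent.GAR

open MvPolynomial

section CoeffDeriv
variable {R : Type*} [CommRing R]

/-- The coefficientwise partial derivative. -/
noncomputable def pdc (i : Fin 2) (p : Polynomial (MvPolynomial (Fin 2) R)) :
    Polynomial (MvPolynomial (Fin 2) R) :=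
  ∑ n ∈ Finset.range (p.natDegree + 1), Polynomial.monomial n (pderiv i (p.coeff n))

theorem eval_pdc (i : Fin 2) (p : Polynomial (MvPolynomial (Fin 2) R)) (t : R) :
    (pdc i p).eval (C t) = pderiv i (p.eval (C t)) := by
  rw [pdc, Polynomial.eval_finsetSum, Polynomial.eval_eq_sum_range, map_sum]
  refine Finset.sum_congr rfl fun n _ => ?_
  rw [Polynomial.eval_monomial, ← C_pow, mul_comm, mul_comm (p.coeff n), pderiv_C_mul]

/-- The Jacobian determinant of a one-parameter family. -/
noncomputable def JP (P : Fin 2 → Polynomial (MvPolynomial (Fin 2) R)) :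
    Polynomial (MvPolynomial (Fin 2) R) :=
  pdc 0 (P 0) * pdc 1 (P 1) - pdc 1 (P 0) * pdc 0 (P 1)

theorem eval_JP {P : Fin 2 → Polynomial (MvPolynomial (Fin 2) R)} {φ : Aut2 R} {t : R}
    (h : ∀ i, φ (X i) = (P i).eval (C t)) : (JP P).eval (C t) = Jac φ := by
  rw [JP, Polynomial.eval_sub, Polynomial.eval_mul, Polynomial.eval_mul, eval_pdc, eval_pdc,
    eval_pdc, eval_pdc, Jac, h, h]

end CoeffDeriv

section Units

theorem isUnit_Jac {R : Type*} [CommRing R] (φ : Aut2 R) : IsUnit (Jac φ) := by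
  have h := Jac_mul φ φ⁻¹
  rw [mul_inv_cancel, Jac_one] at h
  exact IsUnit.of_mul_eq_one _ (by rw [mul_comm]; exact h.symm)

theorem Jac_inv {R : Type*} [CommRing R] {φ : Aut2 R} {a : R} (h : Jac φ = C a) :
    ∃ b : R, Jac φ⁻¹ = C b := by
  have hu := isUnit_Jac φ
  rw [h] at hu
  have ha : IsUnit a := by
    have := hu.map (constantCoeff (R := R) (σ := Fin 2))
    rwa [constantCoeff_C] at this
  obtain ⟨b, hb⟩ := ha.exists_right_inv
  refine ⟨b, ?_⟩
  have h1 := Jac_mul φ φ⁻¹
  rw [mul_inv_cancel, Jac_one, h] at h1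
  have h2 : φ (Jac φ⁻¹) = C b := by
    calc φ (Jac φ⁻¹) = φ (Jac φ⁻¹) * (C a * C b) := by rw [← C_mul, hb, C_1, mul_one]
      _ = (φ (Jac φ⁻¹) * C a) * C b := by ring
      _ = C b := by rw [← h1, one_mul]
  have h3 : φ (C b) = C b := φ.commutes b
  exact φ.injective (h2.trans h3.symm)

/-- Over a domain the Jacobian determinant is constant. -/
theorem Jac_domain {A : Type*} [CommRing A] [IsDomain A] (φ : Aut2 A) : ∃ a : A, Jac φ = C a := by
  have h := isUnit_Jac φ
  rw [MvPolynomial.isUnit_iff_eq_C_of_isReduced] at h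
  obtain ⟨a, -, ha⟩ := h
  exact ⟨a, ha⟩

theorem Jac_affR {A : Type*} [CommRing A] {φ : Aut2 A} (h : φ ∈ affR A) : ∃ a : A, Jac φ = C a := by
  obtain ⟨c, a, b, e0⟩ := linear_form _ (h 0)
  obtain ⟨c', a', b', e1⟩ := linear_form _ (h 1)
  refine ⟨a * b' - b * a', ?_⟩
  rw [Jac, e0, e1]
  simp

theorem Jac_triR {A : Type*} [CommRing A] {φ : Aut2 A} (h : φ ∈ triR A) : ∃ a : A, Jac φ = C a := by
  obtain ⟨c0, -, p0, hp0, e0⟩ := h 0
  obtain ⟨c1, -, p1, hp1, e1⟩ := h 1
  rw [mem_supported] at hp0 hp1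
  have z0 : pderiv 0 p0 = 0 := pderiv_eq_zero_of_notMem_vars fun hm => by
    have := hp0 hm
    simp at this
  have z1 : ∀ i : Fin 2, pderiv i p1 = 0 := fun i => pderiv_eq_zero_of_notMem_vars fun hm => by
    have := hp1 hm
    simp only [Set.mem_ofPred_eq] at this
    omega
  refine ⟨c0 * c1, ?_⟩
  rw [Jac, e0, e1]
  simp [z0, z1]

end Units

section BaseChangeJac
variable {R : Type*} [CommRing R]

theorem Jac_bc (S : Type*) [CommRing S] [Algebra R S] (φ : Aut2 R) :
    Jac (bc S φ) = map (algebraMap R S) (Jac φ) := by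
  rw [Jac, Jac, bc_X, bc_X, pderiv_map, pderiv_map, pderiv_map, pderiv_map, map_sub, map_mul,
    map_mul]

theorem affR_bc (A : Type*) [CommRing A] [Algebra R A] {φ : Aut2 R} (h : φ ∈ affR R) :
    bc A φ ∈ affR A := fun i => by
  rw [bc_X]
  refine le_trans ?_ (h i)
  rw [totalDegree, totalDegree]
  exact Finset.sup_mono (support_map_subset _ _)

theorem triR_bc (A : Type*) [CommRing A] [Algebra R A] {φ : Aut2 R} (h : φ ∈ triR R) :
    bc A φ ∈ triR A := fun i => by
  obtain ⟨c, hc, p, hp, e⟩ := h i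
  refine ⟨algebraMap R A c, hc.map _, map (algebraMap R A) p, ?_, ?_⟩
  · rw [mem_supported] at hp ⊢
    intro j hj
    refine hp ?_
    rw [Finset.mem_coe] at hj ⊢
    exact vars_map p (algebraMap R A) hj
  · rw [bc_X, e, map_add, map_mul, map_C, map_X]

/-- The automorphisms whose Jacobian determinant is constant over `B`, a subgroup. -/
noncomputable def constJac (B : Type*) [CommRing B] [Algebra R B] : Subgroup (Aut2 R) where
  carrier := {φ | ∃ a : B, Jac (bc B φ) = C a}
  one_mem' := ⟨1, by rw [map_one, Jac_one, C_1]⟩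
  mul_mem' := by
    rintro φ ψ ⟨a, ha⟩ ⟨b, hb⟩
    refine ⟨b * a, ?_⟩
    rw [map_mul, Jac_mul, ha, hb, C_mul]
    have : bc B φ (C b) = C b := (bc B φ).commutes b
    rw [this]
  inv_mem' := by
    rintro φ ⟨a, ha⟩
    obtain ⟨b, hb⟩ := Jac_inv ha
    exact ⟨b, by rw [map_inv, hb]⟩

end BaseChangeJac

/-- The polynomial family has Jacobian determinant `1` over a domain. -/
theorem JP_domain {R : Type*} [CommRing R] [Algebra ℚ R] {A : Type*} [CommRing A] [IsDomain A]
    [Algebra ℚ A] [Algebra R A] [IsScalarTower ℚ R A] {g : Multiplicative R →* Aut2 R}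
    {P : Fin 2 → Polynomial (MvPolynomial (Fin 2) R)}
    (hP : ∀ (t : R) (i : Fin 2), g (Multiplicative.ofAdd t) (X i) = (P i).eval (C t)) :
    (JP P).map (map (algebraMap R A)) = 1 := by
  have ev : ∀ t : R, ((JP P).map (map (algebraMap R A))).eval (C (algebraMap R A t)) =
      Jac (bc A (g (Multiplicative.ofAdd t))) := by
    intro t
    rw [Jac_bc, ← eval_JP (hP t)]
    have := Polynomial.eval_map_apply (map (algebraMap R A) : MvPolynomial (Fin 2) R →+* _) (p := JP P) (C t)
    rw [map_C] at this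
    exact this
  apply one_par_unit
  · intro s
    rw [IsScalarTower.algebraMap_apply ℚ R A, IsScalarTower.algebraMap_apply ℚ R A, ev, ev]
    obtain ⟨a, ha⟩ := Jac_domain (bc A (g (Multiplicative.ofAdd (algebraMap ℚ R (-s)))))
    have h1 := Jac_mul (bc A (g (Multiplicative.ofAdd (algebraMap ℚ R s))))
      (bc A (g (Multiplicative.ofAdd (algebraMap ℚ R (-s)))))
    rw [← map_mul, ← map_mul, ← ofAdd_add, ← map_add, add_neg_cancel, map_zero, ofAdd_zero,
      map_one, map_one, Jac_one, ha] at h1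
    have h2 : bc A (g (Multiplicative.ofAdd (algebraMap ℚ R s))) (C a) = C a :=
      (bc A (g (Multiplicative.ofAdd (algebraMap ℚ R s)))).commutes a
    rw [h2] at h1
    rw [ha, mul_comm]
    exact h1.symm
  · have h1 := ev 0
    rw [map_zero, C_0, ofAdd_zero, map_one, map_one, Jac_one] at h1
    exact h1

/-- **The nilradical is finitely generated.** -/
theorem nil_fg {R : Type*} [CommRing R] [Algebra ℚ R] {m : ℕ}
    (g : Fin m → (Multiplicative R →* Aut2 R)) (hg : ∀ j, IsOne (g j))
    (h : Subgroup.closure (affR R ∪ triR R ∪ ⋃ j, Set.range (g j)) = ⊤) : (nilradical R).FG := by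
  classical
  choose P hP using hg
  -- the ideal of the coefficients
  let T : Finset R := Finset.univ.biUnion fun j : Fin m =>
    (JP (P j) - 1).support.biUnion fun n =>
      ((JP (P j) - 1).coeff n).support.image fun s => coeff s ((JP (P j) - 1).coeff n)
  let I : Ideal R := Ideal.span (T : Set R)
  have hI : I.FG := ⟨T, rfl⟩
  have hmem : ∀ (j : Fin m) (n : ℕ) (s : Fin 2 →₀ ℕ), coeff s ((JP (P j) - 1).coeff n) ∈ I := by
    intro j n s
    by_cases h1 : n ∈ (JP (P j) - 1).support
    · by_cases h2 : s ∈ ((JP (P j) - 1).coeff n).support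
      · apply Ideal.subset_span
        rw [Finset.mem_coe, Finset.mem_biUnion]
        refine ⟨j, Finset.mem_univ _, ?_⟩
        rw [Finset.mem_biUnion]
        refine ⟨n, h1, ?_⟩
        rw [Finset.mem_image]
        exact ⟨s, h2, rfl⟩
      · rw [notMem_support_iff.1 h2]; exact I.zero_mem
    · rw [Polynomial.notMem_support_iff.1 h1, coeff_zero]; exact I.zero_mem
  have hle : I ≤ nilradical R := by
    rw [Ideal.span_le]
    intro x hx
    rw [Finset.mem_coe, Finset.mem_biUnion] at hx
    obtain ⟨j, -, hx⟩ := hx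
    rw [Finset.mem_biUnion] at hx
    obtain ⟨n, -, hx⟩ := hx
    rw [Finset.mem_image] at hx
    obtain ⟨s, -, rfl⟩ := hx
    rw [SetLike.mem_coe, nilradical_eq_sInf, Ideal.mem_sInf]
    intro p hp
    have hp' : p.IsPrime := hp
    have : IsDomain (R ⧸ p) := Ideal.Quotient.isDomain p
    have h1 := JP_domain (A := R ⧸ p) (hP j)
    have h2 : (JP (P j) - 1).map (map (algebraMap R (R ⧸ p))) = 0 := by
      rw [Polynomial.map_sub, h1, Polynomial.map_one, sub_self]
    have h3 := congrArg (fun q => coeff s (q.coeff n)) h2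
    simp only [Polynomial.coeff_map, coeff_map, Polynomial.coeff_zero, coeff_zero] at h3
    exact Ideal.Quotient.eq_zero_iff_mem.1 h3
  -- everything has constant Jacobian determinant over `R ⧸ I`
  have htop : constJac (R := R) (R ⧸ I) = ⊤ := by
    rw [eq_top_iff, ← h, Subgroup.closure_le]
    rintro φ ((hφ | hφ) | hφ)
    · exact Jac_affR (affR_bc _ hφ)
    · exact Jac_triR (triR_bc _ hφ)
    · obtain ⟨j, t, rfl⟩ := Set.mem_iUnion.1 hφ
      refine ⟨1, ?_⟩
      have e0 := eval_JP (hP j t.toAdd)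
      rw [ofAdd_toAdd] at e0
      rw [Jac_bc, ← e0]
      have h1 : (JP (P j)).map (map (algebraMap R (R ⧸ I))) = 1 := by
        rw [← sub_eq_zero, ← Polynomial.map_one (map (algebraMap R (R ⧸ I))), ← Polynomial.map_sub]
        ext n s
        rw [Polynomial.coeff_map, coeff_map, Polynomial.coeff_zero, coeff_zero]
        exact Ideal.Quotient.eq_zero_iff_mem.2 (hmem j n s)
      have h2 := Polynomial.eval_map_apply (map (algebraMap R (R ⧸ I)) : MvPolynomial (Fin 2) R →+* _)
        (p := JP (P j)) (C t.toAdd)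
      rw [h1, Polynomial.eval_one] at h2
      rw [← h2, C_1]
  have hge : nilradical R ≤ I := by
    intro ν hν
    rw [mem_nilradical] at hν
    obtain ⟨M, hM⟩ := hν
    have hmemφ : U hM (Multiplicative.ofAdd 1) ∈ constJac (R := R) (R ⧸ I) := by
      rw [htop]; exact Subgroup.mem_top _
    obtain ⟨a, ha⟩ := hmemφ
    rw [Jac_bc] at ha
    have h1 : Jac (U hM (Multiplicative.ofAdd 1)) =
        1 + C (2 * ν) * X 0 + X 0 ^ 2 * (C (ν * ν) * (C 3 * Sg ν M 1 + X 0 * pderiv 0 (Sg ν M 1))) := by
      have e := U_second hM 1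
      have e0 : U hM (Multiplicative.ofAdd 1) (X 0) = X 0 + C ν * X 0 ^ 2 +
          C (ν * ν) * (X 0 ^ 3 * Sg ν M 1) := by
        rw [C_1, one_mul, one_pow, one_mul] at e
        linear_combination e
      rw [Jac, U_X1, e0]
      simp only [map_add, pderiv_X_self, pderiv_pow, pderiv_mul, C_mul, pderiv_C]
      have e3 : (C 2 : MvPolynomial (Fin 2) R) = 2 := map_ofNat C 2
      have e4 : (C 3 : MvPolynomial (Fin 2) R) = 3 := map_ofNat C 3
      rw [e3, e4, pderiv_X_of_ne (by decide : (1 : Fin 2) ≠ 0)]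
      push_cast
      ring
    have h2 := congrArg (coeff (Finsupp.single 0 1)) ha
    have h3 : coeff (Finsupp.single (0 : Fin 2) 1) (Jac (U hM (Multiplicative.ofAdd 1))) = 2 * ν := by
      have e5 : ∀ q : MvPolynomial (Fin 2) R,
          coeff (Finsupp.single (0 : Fin 2) 1) (X 0 ^ 2 * q) = 0 := by
        intro q
        rw [show (X 0 ^ 2 * q : MvPolynomial (Fin 2) R) = (q * X 0) * X 0 by ring, coeff_mul_X',
          coeff_mul_X']
        simp
      have e6 : coeff (Finsupp.single (0 : Fin 2) 1) (1 : MvPolynomial (Fin 2) R) = 0 := by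
        rw [coeff_one, if_neg]
        intro hh
        have := DFunLike.congr_fun hh 0
        simp at this
      rw [h1, coeff_add, coeff_add, coeff_C_mul, coeff_X, e5, e6]
      simp
    have h4 : algebraMap R (R ⧸ I) (2 * ν) = 0 := by
      rw [coeff_map, h3, coeff_C] at h2
      rw [h2, if_neg]
      intro hh
      have := DFunLike.congr_fun hh 0
      simp at this
    have h5 : 2 * ν ∈ I := Ideal.Quotient.eq_zero_iff_mem.1 h4
    have h6 := I.mul_mem_left (algebraMap ℚ R (1 / 2)) h5
    have h7 : algebraMap ℚ R (1 / 2) * (2 * ν) = ν := by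
      have : (2 : R) = algebraMap ℚ R 2 := (map_ofNat (algebraMap ℚ R) 2).symm
      rw [← mul_assoc, this, ← map_mul]
      norm_num
    rwa [h7] at h6
  rw [le_antisymm hge hle]
  exact hI

end Pool.Agent.GAR
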