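import Mathlib
import Pool.Agent.GAR.ArtDefs
import Pool.Agent.GAR.Final
import Pool.Agent.GAR.Jung
import Pool.Agent.GAR.Rentschler

set_option autoImplicit false

/-! A prime ideal which is not maximal: the automorphisms of `R[x, y]` are not generated by the
affine and triangular ones and finitely many one-parameter subgroups. -/

namespace Pool.Agent.GAR

open MvPolynomial

section NonArt
variable {R : Type*} [CommRing R]

/-- `Fhom z n e` and `Fhom z n (-e)` are inverse to each other, over every ring. -/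
theorem Fhom_comp_ring (z : R) (n : ℕ) (e : R) :
    (Fhom z n e).comp (Fhom z n (-e)) = AlgHom.id R _ := by
  have hC : ∀ a : R, Fhom z n e (C a) = C a := fun a => (Fhom z n e).commutes a
  have h1 : Fhom z n e (X 1 + C (z * -e) * fpol z n ^ 2) = X 1 := by
    rw [map_add, map_mul, map_pow, Fhom_X1, Fhom_f, hC, mul_neg, C_neg]; ring
  have h0 : Fhom z n e (Fhom z n (-e) (X 0)) = X 0 := by
    rw [Fhom_X0 z n (-e), map_sub, map_mul, map_mul, map_pow, map_sum, hC, Fhom_f, Fhom_X0]
    have h2 : ∑ i ∈ Finset.range n, Fhom z n e ((X 1 + C (z * -e) * fpol z n ^ 2) ^ i *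
          X 1 ^ (n - 1 - i)) =
        ∑ i ∈ Finset.range n, (X 1 + C (z * e) * fpol z n ^ 2) ^ i * X 1 ^ (n - 1 - i) := by
      rw [← Finset.sum_range_reflect]
      refine Finset.sum_congr rfl fun i hi => ?_
      rw [Finset.mem_range] at hi
      rw [map_mul, map_pow, map_pow, h1, Fhom_X1, show n - 1 - (n - 1 - i) = i by omega]
      ring
    rw [h2, C_neg]
    ring
  ext1 i
  fin_cases i
  · exact h0
  · change Fhom z n e (Fhom z n (-e) (X 1)) = X 1
    rw [Fhom_X1 z n (-e)]
    exact h1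

/-- The automorphism `F` over a ring. -/
noncomputable def FR (z : R) (n : ℕ) : Aut2 R :=
  AlgEquiv.ofAlgHom (Fhom z n 1) (Fhom z n (-1)) (Fhom_comp_ring z n 1)
    (by have := Fhom_comp_ring z n (-1); rwa [neg_neg] at this)

theorem FR_ap (z : R) (n : ℕ) (p : MvPolynomial (Fin 2) R) : FR z n p = Fhom z n 1 p := rfl

theorem map_Fhom_X (A : Type*) [CommRing A] [Algebra R A] (z : R) (n : ℕ) (i : Fin 2) :
    map (algebraMap R A) (Fhom z n 1 (X i)) = Fhom (algebraMap R A z) n 1 (X i) := by
  have hf : map (algebraMap R A) (fpol z n) = fpol (algebraMap R A z) n := by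
    rw [fpol, fpol, map_add, map_mul, map_C, map_X, map_pow, map_X]
  fin_cases i
  · change map (algebraMap R A) (Fhom z n 1 (X 0)) = Fhom (algebraMap R A z) n 1 (X 0)
    rw [Fhom_X0, Fhom_X0, map_sub, map_mul, map_mul, map_pow, map_sum, map_C, map_X, hf, map_one]
    refine congrArg (fun q => X 0 - C 1 * fpol (algebraMap R A z) n ^ 2 * q) ?_
    refine Finset.sum_congr rfl fun i _ => ?_
    rw [map_mul, map_pow, map_pow, map_add, map_mul, map_pow, map_C, map_X, hf, mul_one, mul_one]
  · change map (algebraMap R A) (Fhom z n 1 (X 1)) = Fhom (algebraMap R A z) n 1 (X 1)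
    rw [Fhom_X1, Fhom_X1, map_add, map_mul, map_pow, map_C, map_X, hf, mul_one, mul_one]

theorem bc_FR (A : Type*) [CommRing A] [IsDomain A] [Algebra R A] {z : R}
    (hz : algebraMap R A z ≠ 0) (n : ℕ) : bc A (FR z n) = F hz n := by
  apply AlgEquiv.ext
  intro p
  have h : ((bc A (FR z n) : Aut2 A) : MvPolynomial (Fin 2) A →ₐ[A] MvPolynomial (Fin 2) A) =
      ((F hz n : Aut2 A) : MvPolynomial (Fin 2) A →ₐ[A] MvPolynomial (Fin 2) A) := by
    ext1 i
    change bc A (FR z n) (X i) = Fhom (algebraMap R A z) n 1 (X i)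
    rw [bc_X, FR_ap, map_Fhom_X]
  exact DFunLike.congr_fun h p

theorem bc_affR (A : Type*) [CommRing A] [Algebra R A] {φ : Aut2 R} (h : φ ∈ affR R) :
    bc A φ ∈ affR A := fun i => by
  rw [bc_X]
  exact (totalDegree_map_le' _).trans (h i)

theorem bc_triR (A : Type*) [CommRing A] [Algebra R A] {φ : Aut2 R} (h : φ ∈ triR R) :
    bc A φ ∈ triR A := fun i => by
  obtain ⟨c, hc, p, hp, e⟩ := h i
  refine ⟨algebraMap R A c, hc.map _, map (algebraMap R A) p, ?_, ?_⟩
  · rw [mem_supported] at hp ⊢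
    intro j hj
    refine hp ?_
    rw [Finset.mem_coe] at hj ⊢
    exact vars_map p (algebraMap R A) hj
  · rw [bc_X, e, map_add, map_mul, map_C, map_X]

/-- **A prime ideal which is not maximal**, with all automorphisms of bounded degree. -/
theorem non_art_deg [Algebra ℚ R] (p : Ideal R) [p.IsPrime] (hp : ¬ p.IsMaximal) (d m : ℕ)
    (g : Fin m → (Multiplicative R →* Aut2 R)) (hg : ∀ j, IsOne (g j)) :
    Subgroup.closure (affR R ∪ triR R ∪ {φ : Aut2 R | ∀ i, (φ (X i)).totalDegree ≤ d} ∪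
      ⋃ j, Set.range (g j)) ≠ ⊤ := by
  intro htop
  -- the quotient
  let A := R ⧸ p
  have : IsDomain A := Ideal.Quotient.isDomain p
  have : CharZero A := algebraRat.charZero A
  obtain ⟨z, hz, hu⟩ : ∃ z : R, algebraMap R A z ≠ 0 ∧ ¬ IsUnit (algebraMap R A z) := by
    by_contra hcon
    push Not at hcon
    apply hp
    refine Ideal.Quotient.maximal_of_isField p ⟨⟨0, 1, zero_ne_one⟩, mul_comm, ?_⟩
    intro a ha
    obtain ⟨r, rfl⟩ := Ideal.Quotient.mk_surjective a
    obtain ⟨b, hb⟩ := (hcon r ha).exists_right_inv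
    exact ⟨b, hb⟩
  let K := AlgebraicClosure (FractionRing A)
  have hinj : Function.Injective (algebraMap A K) := by
    rw [IsScalarTower.algebraMap_eq A (FractionRing A) K]
    exact (algebraMap (FractionRing A) K).injective.comp
      (IsFractionRing.injective A (FractionRing A))
  choose P hP using hg
  have hfin := final K hinj (jung_of rentschler) hz hu d m
    (S := R) (g := fun j => (bc A).comp (g j)) (fun j => by
      refine ⟨fun i => (P j i).map (map (algebraMap R A)), fun t i => ?_⟩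
      change bc A (g j (Multiplicative.ofAdd t)) (X i) = _
      rw [bc_X, hP j t i, Polynomial.eval_map, ← map_C (algebraMap R A), Polynomial.eval₂_hom])
  apply Set.infinite_univ (α := ℕ)
  refine hfin.subset fun n _ => ?_
  have h1 : FR z n ∈ Subgroup.closure (affR R ∪ triR R ∪
      {φ : Aut2 R | ∀ i, (φ (X i)).totalDegree ≤ d} ∪ ⋃ j, Set.range (g j)) := by
    rw [htop]; trivial
  have h2 : bc A (FR z n) ∈ (Subgroup.closure (affR R ∪ triR R ∪
      {φ : Aut2 R | ∀ i, (φ (X i)).totalDegree ≤ d} ∪ ⋃ j, Set.range (g j))).map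
      (bc A) := ⟨_, h1, rfl⟩
  rw [bc_FR A hz, MonoidHom.map_closure] at h2
  refine Subgroup.closure_mono ?_ h2
  rintro _ ⟨φ, ((h | h) | h) | h, rfl⟩
  · exact Or.inl (Or.inl (Or.inl (bc_affR A h)))
  · exact Or.inl (Or.inl (Or.inr (bc_triR A h)))
  · refine Or.inl (Or.inr fun i => ?_)
    rw [bc_X]
    exact (totalDegree_map_le' _).trans (h i)
  · obtain ⟨j, x, rfl⟩ := Set.mem_iUnion.1 h
    exact Or.inr (Set.mem_iUnion.2 ⟨j, x, rfl⟩)

/-- **A prime ideal which is not maximal.** -/
theorem non_art [Algebra ℚ R] (p : Ideal R) [p.IsPrime] (hp : ¬ p.IsMaximal) (m : ℕ)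
    (g : Fin m → (Multiplicative R →* Aut2 R)) (hg : ∀ j, IsOne (g j)) :
    Subgroup.closure (affR R ∪ triR R ∪ ⋃ j, Set.range (g j)) ≠ ⊤ := fun htop => by
  refine non_art_deg p hp 0 m g hg (top_le_iff.1 ?_)
  rw [← htop]
  refine Subgroup.closure_mono ?_
  rintro φ (h | h)
  · exact Or.inl (Or.inl h)
  · exact Or.inr h

end NonArt

end Pool.Agent.GAR
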