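import Mathlib
import Pool.Agent.GAR.Semi

set_option autoImplicit false

/-! A one-parameter subgroup of `Aut R[x, y]` over `R` fixes a vertex of the coset forest
(helper20). -/

namespace Pool.Agent.GAR

open MvPolynomial

section OnePar
variable {R : Type*} [CommRing R] {K : Type*} [Field K] [Algebra R K]
  {S : Type*} [CommRing S] [Algebra S R]

/-- The generic automorphism of the family. -/
noncomputable def gE (K : Type*) [Field K] [Algebra R K]
    (P : Fin 2 → Polynomial (MvPolynomial (Fin 2) R)) :
    MvPolynomial (Fin 2) K →ₐ[K] Polynomial (MvPolynomial (Fin 2) K) :=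
  aeval fun i => (P i).map (map (algebraMap R K))

/-- The parameter `t` in `K`. -/
noncomputable def tK (R K : Type*) [CommRing R] [Field K] [Algebra R K] {S : Type*} [CommRing S]
    [Algebra S R] (t : S) : K := algebraMap R K (algebraMap S R t)

variable (g : Multiplicative S →* Aut2 R) (P : Fin 2 → Polynomial (MvPolynomial (Fin 2) R))
  (hP : ∀ (t : S) (i : Fin 2),
    g (Multiplicative.ofAdd t) (X i) = (P i).eval (C (algebraMap S R t)))

include hP

theorem gE_eval (t : S) (p : MvPolynomial (Fin 2) K) :
    (gE K P p).eval (C (tK R K t)) = bc K (g (Multiplicative.ofAdd t)) p := by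
  have h : ((Polynomial.aeval (C (tK R K t) : MvPolynomial (Fin 2) K)).restrictScalars K).comp
      (gE K P) = (bc K (g (Multiplicative.ofAdd t)) : Aut2 K).toAlgHom := by
    refine algHom_ext fun i => ?_
    change Polynomial.aeval (C (tK R K t) : MvPolynomial (Fin 2) K) (gE K P (X i)) =
      bc K (g (Multiplicative.ofAdd t)) (X i)
    rw [gE, aeval_X, bc_X, hP, Polynomial.coe_aeval_eq_eval, Polynomial.eval_map]
    have : (C (tK R K t) : MvPolynomial (Fin 2) K) =
        map (algebraMap R K) (C (algebraMap S R t)) := by rw [map_C]; rfl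
    rw [this, Polynomial.eval₂_at_apply]
  exact DFunLike.congr_fun h p

variable [Infinite S] (hinj : Function.Injective fun t : S => tK R K t)

include hinj

omit hP in
theorem infinite_par (Q : Set (MvPolynomial (Fin 2) K)) (h : ∀ t : S, C (tK R K t) ∈ Q) :
    Q.Infinite := by
  refine Set.infinite_of_injective_forall_mem (f := fun t : S =>
    (C (tK R K t) : MvPolynomial (Fin 2) K)) ?_ h
  intro s t hst
  exact hinj (C_injective _ _ hst)

theorem gE_shift (s : S) (p : MvPolynomial (Fin 2) K) :
    (gE K P p).map (RingEquiv.toRingHom (bc K (g (Multiplicative.ofAdd s)) : Aut2 K).toRingEquiv) =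
      Polynomial.taylor (C (tK R K s)) (gE K P p) := by
  refine Polynomial.eq_of_infinite_eval_eq _ _ (infinite_par hinj _ fun t => ?_)
  change Polynomial.eval _ _ = Polynomial.eval _ _
  rw [Polynomial.taylor_eval, Polynomial.eval_map]
  have h1 : (C (tK R K t) : MvPolynomial (Fin 2) K) =
      (RingEquiv.toRingHom (bc K (g (Multiplicative.ofAdd s)) : Aut2 K).toRingEquiv)
        (C (tK R K t)) := (ap_C _ _).symm
  conv_lhs => rw [h1]
  rw [Polynomial.eval₂_at_apply, gE_eval g P hP]
  have h2 : (C (tK R K t) + C (tK R K s) : MvPolynomial (Fin 2) K) = C (tK R K (s + t)) := by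
    rw [← C_add]
    congr 1
    simp only [tK, map_add]
    ring
  rw [h2, gE_eval g P hP, ofAdd_add, map_mul, map_mul]
  rfl

/-- The derivation as a map. -/
theorem gE_coeff_one (p : MvPolynomial (Fin 2) K) :
    gE K P ((gE K P p).coeff 1) = Polynomial.derivative (gE K P p) := by
  refine Polynomial.eq_of_infinite_eval_eq _ _ (infinite_par hinj _ fun s => ?_)
  change Polynomial.eval _ _ = Polynomial.eval _ _
  have h := congrArg (fun q => Polynomial.coeff q 1) (gE_shift g P hP hinj s p)
  simp only [Polynomial.coeff_map, Polynomial.taylor_coeff_one] at h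
  rw [← h, gE_eval g P hP]
  rfl

theorem gE_coeff_zero (p : MvPolynomial (Fin 2) K) : (gE K P p).coeff 0 = p := by
  have h := gE_eval g P hP (K := K) 0 p
  rw [Polynomial.coeff_zero_eq_eval_zero]
  have h0 : (C (tK R K (0 : S)) : MvPolynomial (Fin 2) K) = 0 := by
    simp [tK]
  rw [h0, ofAdd_zero, map_one, map_one] at h
  exact h

/-- The derivation of the family. -/
noncomputable def gD : Derivation K (MvPolynomial (Fin 2) K) (MvPolynomial (Fin 2) K) :=
  Derivation.mk' ((((Polynomial.lcoeff (MvPolynomial (Fin 2) K) 1).restrictScalars K) ∘ₗ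
    (gE K P).toLinearMap)) (fun a b => by
      change (gE K P (a * b)).coeff 1 = a • (gE K P b).coeff 1 + b • (gE K P a).coeff 1
      rw [map_mul, Polynomial.mul_coeff_one, gE_coeff_zero g P hP hinj,
        gE_coeff_zero g P hP hinj, smul_eq_mul, smul_eq_mul]
      ring)

theorem gD_apply (p : MvPolynomial (Fin 2) K) : gD g P hP hinj p = (gE K P p).coeff 1 := rfl

theorem gE_gD (p : MvPolynomial (Fin 2) K) :
    gE K P (gD g P hP hinj p) = Polynomial.derivative (gE K P p) :=
  gE_coeff_one g P hP hinj p

theorem gD_iter (n : ℕ) : ∀ p : MvPolynomial (Fin 2) K,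
    (fun q => gD g P hP hinj q)^[n] p = (n.factorial : MvPolynomial (Fin 2) K) *
      (gE K P p).coeff n := by
  induction n with
  | zero =>
    intro p
    rw [Function.iterate_zero, id, gE_coeff_zero g P hP hinj, Nat.factorial_zero, Nat.cast_one,
      one_mul]
  | succ n ih =>
    intro p
    rw [Function.iterate_succ_apply, ih, gE_gD, Polynomial.coeff_derivative, Nat.factorial_succ]
    push_cast
    ring

theorem gD_nilp (p : MvPolynomial (Fin 2) K) :
    ∃ n : ℕ, (fun q => gD g P hP hinj q)^[n] p = 0 := by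
  refine ⟨(gE K P p).natDegree + 1, ?_⟩
  rw [gD_iter, Polynomial.coeff_eq_zero_of_natDegree_lt (Nat.lt_succ_self _), mul_zero]

theorem eq_of_gD_zero [CharZero K] {q : MvPolynomial (Fin 2) K} (hq : gD g P hP hinj q = 0) :
    gE K P q = Polynomial.C q := by
  have h := gE_gD g P hP hinj q
  rw [hq, map_zero] at h
  have h1 := Polynomial.derivative_eq_zero.1 h.symm
  rw [Polynomial.eq_C_of_natDegree_eq_zero h1, gE_coeff_zero g P hP hinj]

theorem eq_of_gD_gD_zero [CharZero K] {q r : MvPolynomial (Fin 2) K}
    (hq : gD g P hP hinj q = r) (hr : gD g P hP hinj r = 0) :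
    gE K P q = Polynomial.C q + Polynomial.C r * Polynomial.X := by
  have h := gE_gD g P hP hinj q
  rw [hq, eq_of_gD_zero g P hP hinj hr] at h
  have h2 : Polynomial.derivative (gE K P q - Polynomial.C r * Polynomial.X) = 0 := by
    rw [Polynomial.derivative_sub, ← h, Polynomial.derivative_C_mul, Polynomial.derivative_X,
      mul_one, sub_self]
  have h3 := Polynomial.derivative_eq_zero.1 h2
  have h4 := Polynomial.eq_C_of_natDegree_eq_zero h3
  rw [Polynomial.coeff_sub, gE_coeff_zero g P hP hinj, Polynomial.mul_coeff_zero,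
    Polynomial.coeff_X_zero, mul_zero, sub_zero] at h4
  rw [← h4]
  ring

/-- **A one-parameter subgroup over `R` is conjugate, over `K`, to a subgroup of the triangular
group.** -/
theorem onePar_fix [IsAlgClosed K] [CharZero K] :
    ∃ al : Aut2 K, ∀ t : S, al⁻¹ * bc K (g (Multiplicative.ofAdd t)) * al ∈ triG K := by
  obtain ⟨al, -, h1, h, hh, h0⟩ := rentschler (gD g P hP hinj) (gD_nilp g P hP hinj)
  refine ⟨al, fun t => ?_⟩
  have hD : gD g P hP hinj (al h) = 0 := by
    obtain ⟨q, rfl⟩ := (mem_supp_iff h).1 hh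
    rw [ap_aeval, Derivation.map_aeval, h1, smul_zero]
  have e1 : bc K (g (Multiplicative.ofAdd t)) (al (X 1)) = al (X 1) := by
    rw [← gE_eval g P hP, eq_of_gD_zero g P hP hinj h1, Polynomial.eval_C]
  have e0 : bc K (g (Multiplicative.ofAdd t)) (al (X 0)) =
      al (X 0) + al h * C (tK R K t) := by
    rw [← gE_eval g P hP, eq_of_gD_gD_zero g P hP hinj h0 hD, Polynomial.eval_add,
      Polynomial.eval_mul, Polynomial.eval_C, Polynomial.eval_C, Polynomial.eval_X]
  refine ⟨1, 1, 0, h * C (tK R K t), ?_, one_ne_zero, one_ne_zero, ?_, ?_⟩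
  · exact Subalgebra.mul_mem _ hh (C_supp _)
  · rw [mul_ap, mul_ap, e0, map_add, map_mul, inv_ap, inv_ap, ap_C]
    simp
  · rw [mul_ap, mul_ap, e1, inv_ap]
    simp

end OnePar

end Pool.Agent.GAR
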