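import Mathlib

/-! Locally nilpotent derivations of commutative domains of characteristic zero: the degree
function of a derivation (iterated Leibniz rule), and two consequences.  (Part B of helper18's
plan for MP_cf7cfc_al, helper20.) -/

namespace Pool.Agent.GAR.Rent

open Finset Nat

section General

variable {K A : Type*} [CommRing K] [CommRing A] [Algebra K A]

/-- locally nilpotent -/
def LND (D : Derivation K A A) : Prop := ∀ p : A, ∃ n : ℕ, (fun q => D q)^[n] p = 0

theorem it_eq (D : Derivation K A A) (n : ℕ) (p : A) : (fun q => D q)^[n] p = (⇑D)^[n] p := rfl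

theorem it_zero (D : Derivation K A A) (n : ℕ) : (⇑D)^[n] (0 : A) = 0 := by
  induction n with
  | zero => rfl
  | succ n ih => rw [Function.iterate_succ_apply', ih, map_zero]

theorem it_add (D : Derivation K A A) (n : ℕ) (p q : A) :
    (⇑D)^[n] (p + q) = (⇑D)^[n] p + (⇑D)^[n] q := by
  induction n with
  | zero => rfl
  | succ n ih => rw [Function.iterate_succ_apply', ih, map_add, Function.iterate_succ_apply',
      Function.iterate_succ_apply']

theorem it_of_le (D : Derivation K A A) {m n : ℕ} (h : m ≤ n) {p : A} (hp : (⇑D)^[m] p = 0) :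
    (⇑D)^[n] p = 0 := by
  obtain ⟨k, rfl⟩ := Nat.exists_eq_add_of_le h
  rw [Nat.add_comm, Function.iterate_add_apply, hp, it_zero]

theorem it_mul (D : Derivation K A A) (n : ℕ) (a b : A) :
    (⇑D)^[n] (a * b) = ∑ ij ∈ antidiagonal n, choose n ij.1 • ((⇑D)^[ij.1] a * (⇑D)^[ij.2] b) := by
  induction n with
  | zero => simp
  | succ n ih =>
    rw [sum_antidiagonal_choose_succ_nsmul (M := A) (fun i j => (⇑D)^[i] a * (⇑D)^[j] b) n]
    simp only [Function.iterate_succ_apply', ih, map_sum, map_nsmul, Derivation.leibniz, smul_eq_mul,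
      smul_add, sum_add_distrib]
    congr 1
    refine sum_congr rfl fun ⟨i, j⟩ hij ↦ ?_
    rw [n.choose_symm_of_eq_add (HasAntidiagonal.mem_antidiagonal.1 hij).symm, mul_comm]

/-- `p` has degree `n` for `D` -/
def IsDeg (D : Derivation K A A) (p : A) (n : ℕ) : Prop := (⇑D)^[n] p ≠ 0 ∧ (⇑D)^[n + 1] p = 0

theorem IsDeg.unique {D : Derivation K A A} {p : A} {m n : ℕ} (hm : IsDeg D p m)
    (hn : IsDeg D p n) : m = n := by
  rcases lt_trichotomy m n with h | h | h
  · exact absurd (it_of_le D (Nat.succ_le_of_lt h) hm.2) hn.1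
  · exact h
  · exact absurd (it_of_le D (Nat.succ_le_of_lt h) hn.2) hm.1

theorem LND.exists_isDeg {D : Derivation K A A} (hD : LND D) {p : A} (hp : p ≠ 0) :
    ∃ n, IsDeg D p n := by
  classical
  have h := hD p
  simp only [it_eq] at h
  have h0 : Nat.find h ≠ 0 := by
    intro h0
    have := Nat.find_spec h
    rw [h0] at this
    exact hp this
  obtain ⟨n, hn⟩ := Nat.exists_eq_succ_of_ne_zero h0
  refine ⟨n, ?_, ?_⟩
  · exact Nat.find_min h (by omega)
  · have := Nat.find_spec h
    rw [hn] at this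
    exact this

theorem IsDeg.pred {D : Derivation K A A} {p : A} {n : ℕ} (h : IsDeg D p (n + 1)) :
    IsDeg D (D p) n := by
  refine ⟨?_, ?_⟩
  · rw [← Function.iterate_succ_apply]; exact h.1
  · rw [← Function.iterate_succ_apply]; exact h.2

theorem IsDeg.mul [IsDomain A] [CharZero A] {D : Derivation K A A} {p q : A} {m n : ℕ}
    (hp : IsDeg D p m) (hq : IsDeg D q n) : IsDeg D (p * q) (m + n) := by
  refine ⟨?_, ?_⟩
  · rw [it_mul, Finset.sum_eq_single (m, n)]
    · rw [nsmul_eq_mul]
      refine mul_ne_zero ?_ (mul_ne_zero hp.1 hq.1)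
      exact_mod_cast (Nat.choose_pos (Nat.le_add_right m n)).ne'
    · rintro ⟨i, j⟩ hij hne
      rw [HasAntidiagonal.mem_antidiagonal] at hij
      simp only at hij ⊢
      rcases Nat.lt_or_ge m i with h | h
      · rw [it_of_le D (Nat.succ_le_of_lt h) hp.2, zero_mul, smul_zero]
      · have : n < j := by
          rcases Nat.lt_or_ge n j with h' | h'
          · exact h'
          · exfalso; apply hne
            have : i = m := by omega
            have : j = n := by omega
            subst_vars; rfl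
        rw [it_of_le D (Nat.succ_le_of_lt this) hq.2, mul_zero, smul_zero]
    · intro h
      exact (h (HasAntidiagonal.mem_antidiagonal.2 rfl)).elim
  · rw [it_mul]
    refine Finset.sum_eq_zero ?_
    rintro ⟨i, j⟩ hij
    rw [HasAntidiagonal.mem_antidiagonal] at hij
    simp only at hij ⊢
    rcases Nat.lt_or_ge m i with h | h
    · rw [it_of_le D (Nat.succ_le_of_lt h) hp.2, zero_mul, smul_zero]
    · rw [it_of_le D (by omega : n + 1 ≤ j) hq.2, mul_zero, smul_zero]

/-- degree of `D p` when `D p ≠ 0` -/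
theorem LND.isDeg_of_ne {D : Derivation K A A} (hD : LND D) {p : A} (hp : D p ≠ 0) :
    ∃ n, IsDeg D p (n + 1) ∧ IsDeg D (D p) n := by
  have hp0 : p ≠ 0 := by rintro rfl; exact hp (map_zero D)
  obtain ⟨m, hm⟩ := hD.exists_isDeg hp0
  rcases m with _ | m
  · exact absurd hm.2 hp
  · exact ⟨m, hm, hm.pred⟩

/-- an element which divides its derivative is a constant -/
theorem LND.eq_zero_of_dvd [IsDomain A] [CharZero A] {D : Derivation K A A} (hD : LND D) {p : A}
    (h : p ∣ D p) : D p = 0 := by
  by_contra hne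
  obtain ⟨a, ha⟩ := h
  obtain ⟨n, h1, h2⟩ := hD.isDeg_of_ne hne
  have ha0 : a ≠ 0 := by rintro rfl; rw [mul_zero] at ha; exact hne ha
  obtain ⟨k, hk⟩ := hD.exists_isDeg ha0
  have h3 := h1.mul hk
  rw [← ha] at h3
  have := h2.unique h3
  omega

/-- `q ∣ D p` and `p ∣ D q` only if one of them is a constant -/
theorem LND.cross [IsDomain A] [CharZero A] {D : Derivation K A A} (hD : LND D) {p q : A}
    (h : q ∣ D p) (h' : p ∣ D q) : D p = 0 ∨ D q = 0 := by
  by_contra hne
  push Not at hne
  obtain ⟨h0, h0'⟩ := hne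
  obtain ⟨a, ha⟩ := h
  obtain ⟨b, hb⟩ := h'
  obtain ⟨m, hm1, hm2⟩ := hD.isDeg_of_ne h0
  obtain ⟨n, hn1, hn2⟩ := hD.isDeg_of_ne h0'
  have ha0 : a ≠ 0 := by rintro rfl; rw [mul_zero] at ha; exact h0 ha
  have hb0 : b ≠ 0 := by rintro rfl; rw [mul_zero] at hb; exact h0' hb
  obtain ⟨k, hk⟩ := hD.exists_isDeg ha0
  obtain ⟨l, hl⟩ := hD.exists_isDeg hb0
  have h3 := hn1.mul hk
  rw [← ha] at h3
  have h4 := hm1.mul hl
  rw [← hb] at h4
  have := hm2.unique h3
  have := hn2.unique h4
  omega

/-- conjugate of a derivation by an algebra automorphism -/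
noncomputable def conj (e : A ≃ₐ[K] A) (D : Derivation K A A) : Derivation K A A where
  toLinearMap := e.symm.toLinearMap ∘ₗ (D : A →ₗ[K] A) ∘ₗ e.toLinearMap
  map_one_eq_zero' := by simp
  leibniz' a b := by simp

@[simp] theorem conj_apply (e : A ≃ₐ[K] A) (D : Derivation K A A) (p : A) :
    conj e D p = e.symm (D (e p)) := rfl

theorem conj_it (e : A ≃ₐ[K] A) (D : Derivation K A A) (n : ℕ) (p : A) :
    (⇑(conj e D))^[n] p = e.symm ((⇑D)^[n] (e p)) := by
  induction n with
  | zero => simp
  | succ n ih => rw [Function.iterate_succ_apply', ih, conj_apply, e.apply_symm_apply,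
      Function.iterate_succ_apply']

theorem LND.conj {D : Derivation K A A} (hD : LND D) (e : A ≃ₐ[K] A) : LND (conj e D) := by
  intro p
  obtain ⟨n, hn⟩ := hD (e p)
  refine ⟨n, ?_⟩
  rw [it_eq] at hn ⊢
  rw [conj_it, hn, map_zero]

end General

end Pool.Agent.GAR.Rent
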