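import Pool.Agent.GAR.RentTop

/-! The reduction step in Rentschler's theorem (helper20, part B of MP_cf7cfc_al). -/

namespace Pool.Agent.GAR.Rent

open MvPolynomial

variable {K : Type*} [Field K]

theorem Xdvd (i : Fin 2) {p : MvPolynomial (Fin 2) K} (h : ∀ s, coeff s p ≠ 0 → s i ≠ 0) :
    X i ∣ p := by
  rw [X_dvd_iff_modMonomial_eq_zero]
  ext s
  rw [coeff_zero]
  by_cases hs : Finsupp.single i 1 ≤ s
  · exact coeff_modMonomial_of_le _ hs
  · rw [coeff_modMonomial_of_not_le _ hs]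
    by_contra hne
    apply hs
    rw [Finsupp.single_le_iff]
    have := h s hne
    omega

theorem single_one_of {s : Fin 2 →₀ ℕ} (h : s 0 = 0) : s = Finsupp.single 1 (s 1) := by
  ext k
  fin_cases k
  · simpa using h
  · simp

theorem single_zero_of {s : Fin 2 →₀ ℕ} (h : s 1 = 0) : s = Finsupp.single 0 (s 0) := by
  ext k
  fin_cases k
  · simp
  · simpa using h

theorem exists_max (q : MvPolynomial (Fin 2) K) (k : Fin 2)
    (h : ∃ j, coeff (Finsupp.single k j) q ≠ 0) :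
    ∃ v, coeff (Finsupp.single k v) q ≠ 0 ∧ ∀ j, coeff (Finsupp.single k j) q ≠ 0 → j ≤ v := by
  classical
  have hb : ∀ j, coeff (Finsupp.single k j) q ≠ 0 → j ≤ q.totalDegree := by
    intro j hj
    have h1 := le_totalDegree (mem_support_iff.2 hj)
    rwa [Finsupp.sum_single_index rfl] at h1
  obtain ⟨j0, h0⟩ := h
  refine ⟨Nat.findGreatest (fun j => coeff (Finsupp.single k j) q ≠ 0) q.totalDegree, ?_, ?_⟩
  · exact Nat.findGreatest_spec (P := fun j => coeff (Finsupp.single k j) q ≠ 0) (hb j0 h0) h0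
  · intro j hj
    exact Nat.le_findGreatest (hb j hj) hj

/-- `y ^ v` is the largest pure power of `y` in `D x`, and `x ^ u` that of `x` in `D y` -/
structure Mx (D : Derivation K (MvPolynomial (Fin 2) K) (MvPolynomial (Fin 2) K)) (v u : ℕ) :
    Prop where
  hv : coeff (Finsupp.single 1 v) (D (X 0)) ≠ 0
  hv' : ∀ j, coeff (Finsupp.single 1 j) (D (X 0)) ≠ 0 → j ≤ v
  hu : coeff (Finsupp.single 0 u) (D (X 1)) ≠ 0
  hu' : ∀ i, coeff (Finsupp.single 0 i) (D (X 1)) ≠ 0 → i ≤ u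

variable {D : Derivation K (MvPolynomial (Fin 2) K) (MvPolynomial (Fin 2) K)}

theorem pure_zero [CharZero K] (hD : LND D) (h0 : D (X 0) ≠ 0) :
    ∃ j, coeff (Finsupp.single 1 j) (D (X 0)) ≠ 0 := by
  by_contra hcon
  push Not at hcon
  refine h0 (hD.eq_zero_of_dvd (Xdvd 0 fun s hs hs0 => hs ?_))
  rw [single_one_of hs0]
  exact hcon _

theorem pure_one [CharZero K] (hD : LND D) (h1 : D (X 1) ≠ 0) :
    ∃ i, coeff (Finsupp.single 0 i) (D (X 1)) ≠ 0 := by
  by_contra hcon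
  push Not at hcon
  refine h1 (hD.eq_zero_of_dvd (Xdvd 1 fun s hs hs0 => hs ?_))
  rw [single_zero_of hs0]
  exact hcon _

theorem exists_Mx [CharZero K] (hD : LND D) (h0 : D (X 0) ≠ 0) (h1 : D (X 1) ≠ 0) :
    ∃ v u, Mx D v u := by
  obtain ⟨v, hv, hv'⟩ := exists_max _ 1 (pure_zero hD h0)
  obtain ⟨u, hu, hu'⟩ := exists_max _ 0 (pure_one hD h1)
  exact ⟨v, u, hv, hv', hu, hu'⟩

/-- weights of the two variables, and the degree -/
theorem Mx.bound [CharZero K] (hD : LND D) {v u : ℕ} (h : Mx D v u) (i : Fin 2)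
    (s : Fin 2 →₀ ℕ) (hs : coeff s (D (X i)) ≠ 0) :
    wt (v + 1) (u + 1) s ≤ ![(v : ℤ) + 1, (u : ℤ) + 1] i + (u * v - 1) := by
  classical
  let S : Finset (Σ _ : Fin 2, (Fin 2 →₀ ℕ)) :=
    (Finset.univ : Finset (Fin 2)).sigma (fun i => (D (X i)).support)
  have hmem : ∀ i s, coeff s (D (X i)) ≠ 0 → (⟨i, s⟩ : Σ _ : Fin 2, (Fin 2 →₀ ℕ)) ∈ S := by
    intro i s hs
    exact Finset.mem_sigma.2 ⟨Finset.mem_univ _, mem_support_iff.2 hs⟩
  obtain ⟨⟨i0, s0⟩, h0, hmax⟩ := Finset.exists_max_image S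
    (fun t => wt (v + 1) (u + 1) t.2 - ![(v : ℤ) + 1, (u : ℤ) + 1] t.1) ⟨_, hmem i s hs⟩
  have hc0 : coeff s0 (D (X i0)) ≠ 0 := mem_support_iff.1 (Finset.mem_sigma.1 h0).2
  by_contra hlt
  push Not at hlt
  obtain ⟨d', hd'⟩ : ∃ d' : ℤ, d' = wt (v + 1) (u + 1) s0 - ![(v : ℤ) + 1, (u : ℤ) + 1] i0 :=
    ⟨_, rfl⟩
  have hmax' : ∀ i s, coeff s (D (X i)) ≠ 0 →
      wt (v + 1) (u + 1) s ≤ ![(v : ℤ) + 1, (u : ℤ) + 1] i + d' := by
    intro i s hs
    have := hmax _ (hmem i s hs)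
    simp only at this
    rw [← hd'] at this
    linarith
  have hd : (u : ℤ) * v - 1 < d' := by
    have := hmax' i s hs
    linarith
  have hE := (topD_dTop hmax').lnd hD
  have e0 : topD (v + 1) (u + 1) d' D (X 0) = 0 := by
    refine hE.eq_zero_of_dvd (Xdvd 0 fun t ht ht0 => ?_)
    rw [coeff_topD] at ht
    split_ifs at ht with hw
    · have h3 := single_one_of ht0
      rw [h3] at ht
      have h4 := h.hv' _ ht
      rw [wt_apply, ht0] at hw
      simp only [Matrix.cons_val_zero] at hw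
      push_cast at hw
      have h5 : ((t 1 : ℕ) : ℤ) ≤ v := by exact_mod_cast h4
      have h6 : (0 : ℤ) ≤ u := Int.natCast_nonneg u
      nlinarith
    · exact ht rfl
  have e1 : topD (v + 1) (u + 1) d' D (X 1) = 0 := by
    refine hE.eq_zero_of_dvd (Xdvd 1 fun t ht ht0 => ?_)
    rw [coeff_topD] at ht
    split_ifs at ht with hw
    · have h3 := single_zero_of ht0
      rw [h3] at ht
      have h4 := h.hu' _ ht
      rw [wt_apply, ht0] at hw
      simp only [Matrix.cons_val_one, Matrix.cons_val_zero] at hw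
      push_cast at hw
      have h5 : ((t 0 : ℕ) : ℤ) ≤ u := by exact_mod_cast h4
      have h6 : (0 : ℤ) ≤ v := Int.natCast_nonneg v
      nlinarith
    · exact ht rfl
  have e2 : topD (v + 1) (u + 1) d' D (X i0) = 0 := by
    fin_cases i0
    · exact e0
    · exact e1
  have e3 := coeff_topD (v + 1) (u + 1) d' D i0 s0
  rw [e2, coeff_zero, if_pos (by rw [hd']; ring)] at e3
  exact hc0 e3.symm

/-- the top part -/
noncomputable def tp (D : Derivation K (MvPolynomial (Fin 2) K) (MvPolynomial (Fin 2) K))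
    (v u : ℕ) : Derivation K (MvPolynomial (Fin 2) K) (MvPolynomial (Fin 2) K) :=
  topD (v + 1) (u + 1) (u * v - 1) D

theorem Mx.dTop [CharZero K] (hD : LND D) {v u : ℕ} (h : Mx D v u) :
    DTop (v + 1) (u + 1) (u * v - 1) D (tp D v u) :=
  topD_dTop (h.bound hD)

theorem Mx.coeff_zero {v u : ℕ} (h : Mx D v u) :
    coeff (Finsupp.single 1 v) (tp D v u (X 0)) ≠ 0 := by
  rw [tp, coeff_topD, if_pos]
  · exact h.hv
  · rw [wt_apply]
    simp
    ring

theorem Mx.coeff_one {v u : ℕ} (h : Mx D v u) :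
    coeff (Finsupp.single 0 u) (tp D v u (X 1)) ≠ 0 := by
  rw [tp, coeff_topD, if_pos]
  · exact h.hu
  · rw [wt_apply]
    simp
    ring

/-- all monomials of the top part of `D x` -/
theorem wt_zero {v u : ℕ} {s : Fin 2 →₀ ℕ} (hs : coeff s (tp D v u (X 0)) ≠ 0) :
    (v + 1) * s 0 + (u + 1) * s 1 = v * (u + 1) := by
  rw [tp, coeff_topD] at hs
  split_ifs at hs with hw
  · rw [wt_apply] at hw
    simp only [Matrix.cons_val_zero] at hw
    have : ((v : ℤ) + 1) * s 0 + (u + 1) * s 1 = v * (u + 1) := by linarith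
    exact_mod_cast this
  · exact absurd rfl hs

theorem wt_one {v u : ℕ} {s : Fin 2 →₀ ℕ} (hs : coeff s (tp D v u (X 1)) ≠ 0) :
    (v + 1) * s 0 + (u + 1) * s 1 = u * (v + 1) := by
  rw [tp, coeff_topD] at hs
  split_ifs at hs with hw
  · rw [wt_apply] at hw
    simp only [Matrix.cons_val_one, Matrix.cons_val_zero] at hw
    have : ((v : ℤ) + 1) * s 0 + (u + 1) * s 1 = u * (v + 1) := by linarith
    exact_mod_cast this
  · exact absurd rfl hs

theorem Mx.dvd [CharZero K] (hD : LND D) {v u : ℕ} (h : Mx D v u) :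
    (v + 1) ∣ (u + 1) ∨ (u + 1) ∣ (v + 1) := by
  by_contra hcon
  push Not at hcon
  obtain ⟨n1, n2⟩ := hcon
  have hE := (h.dTop hD).lnd hD
  have c1 : X 1 ∣ tp D v u (X 0) := by
    refine Xdvd 1 fun s hs h0 => n1 ?_
    have h1 := wt_zero hs
    rw [h0] at h1
    refine (Nat.dvd_add_right (Dvd.intro (s 0) rfl : v + 1 ∣ (v + 1) * s 0)).1 ⟨u + 1, ?_⟩
    rw [mul_zero, add_zero] at h1
    rw [h1]
    ring
  have c2 : X 0 ∣ tp D v u (X 1) := by
    refine Xdvd 0 fun s hs h0 => n2 ?_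
    have h1 := wt_one hs
    rw [h0] at h1
    refine (Nat.dvd_add_right (Dvd.intro (s 1) rfl : u + 1 ∣ (u + 1) * s 1)).1 ⟨v + 1, ?_⟩
    rw [mul_zero, zero_add] at h1
    rw [h1]
    ring
  rcases hE.cross c1 c2 with h0 | h0
  · apply h.coeff_zero
    rw [h0, MvPolynomial.coeff_zero]
  · apply h.coeff_one
    rw [h0, MvPolynomial.coeff_zero]

/-! ### shears -/

/-- `x ↦ x + c y ^ r` -/
noncomputable def sh (c : K) (r : ℕ) : MvPolynomial (Fin 2) K →ₐ[K] MvPolynomial (Fin 2) K :=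
  aeval ![X 0 + C c * X 1 ^ r, X 1]

@[simp] theorem sh_zero (c : K) (r : ℕ) : sh c r (X 0) = X 0 + C c * X 1 ^ r := by
  simp [sh]

@[simp] theorem sh_one (c : K) (r : ℕ) : sh c r (X 1) = X 1 := by
  simp [sh]

theorem sh_comp (c : K) (r : ℕ) : (sh c r).comp (sh (-c) r) = AlgHom.id K _ := by
  refine algHom_ext fun i => ?_
  fin_cases i
  · change sh c r (sh (-c) r (X 0)) = X 0
    rw [sh_zero, map_add, sh_zero, map_mul, map_pow, sh_one, ← algebraMap_eq, AlgHom.commutes]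
    rw [map_neg]
    ring
  · change sh c r (sh (-c) r (X 1)) = X 1
    rw [sh_one, sh_one]

/-- the automorphism `x ↦ x + c y ^ r`, `y ↦ y` -/
noncomputable def tau (c : K) (r : ℕ) : MvPolynomial (Fin 2) K ≃ₐ[K] MvPolynomial (Fin 2) K :=
  AlgEquiv.ofAlgHom (sh c r) (sh (-c) r) (sh_comp c r)
    (by have := sh_comp (-c) r; rwa [neg_neg] at this)

theorem tau_apply (c : K) (r : ℕ) (p : MvPolynomial (Fin 2) K) : tau c r p = sh c r p := rfl

theorem tau_symm_apply (c : K) (r : ℕ) (p : MvPolynomial (Fin 2) K) :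
    (tau c r).symm p = sh (-c) r p := rfl

/-- substitution `x ↦ -c y ^ r` -/
noncomputable def rho (c : K) (r : ℕ) : MvPolynomial (Fin 2) K →ₐ[K] MvPolynomial (Fin 2) K :=
  aeval ![C (-c) * X 1 ^ r, X 1]

theorem dvd_sub_rho (c : K) (r : ℕ) (p : MvPolynomial (Fin 2) K) :
    (X 0 + C c * X 1 ^ r) ∣ p - rho c r p := by
  induction p using MvPolynomial.induction_on with
  | C a =>
    rw [← algebraMap_eq, AlgHom.commutes, sub_self]
    exact dvd_zero _
  | add p q hp hq =>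
    rw [map_add]
    have : p + q - (rho c r p + rho c r q) = (p - rho c r p) + (q - rho c r q) := by ring
    rw [this]
    exact dvd_add hp hq
  | mul_X p i hp =>
    rw [map_mul]
    have e : p * X i - rho c r p * rho c r (X i)
        = (p - rho c r p) * X i + rho c r p * (X i - rho c r (X i)) := by ring
    rw [e]
    refine dvd_add (Dvd.dvd.mul_right hp _) (Dvd.dvd.mul_left ?_ _)
    fin_cases i
    · refine ⟨1, ?_⟩
      simp [rho]
    · refine ⟨0, ?_⟩
      simp [rho]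

theorem rho_hom (c : K) (r m : ℕ) {p : MvPolynomial (Fin 2) K}
    (h : ∀ s, coeff s p ≠ 0 → r * s 0 + s 1 = m) :
    rho c r p = C (eval ![-c, 1] p) * X 1 ^ m := by
  rw [rho, aeval_def, eval₂_eq', eval_eq', map_sum, Finset.sum_mul]
  refine Finset.sum_congr rfl fun s hs => ?_
  have h1 := h s (mem_support_iff.1 hs)
  rw [Fin.prod_univ_two, Fin.prod_univ_two, algebraMap_eq]
  simp only [Matrix.cons_val_zero, Matrix.cons_val_one, one_pow, mul_one]
  rw [mul_pow, ← pow_mul, ← h1, pow_add, map_mul, map_pow]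
  ring

/-- the univariate polynomial `p (T, 1)` -/
noncomputable def uni (p : MvPolynomial (Fin 2) K) : Polynomial K :=
  aeval ![Polynomial.X, 1] p

theorem uni_eq (p : MvPolynomial (Fin 2) K) :
    uni p = ∑ s ∈ p.support, Polynomial.C (coeff s p) * Polynomial.X ^ (s 0) := by
  rw [uni, aeval_def, eval₂_eq']
  refine Finset.sum_congr rfl fun s _ => ?_
  rw [Fin.prod_univ_two]
  simp

theorem uni_eval (p : MvPolynomial (Fin 2) K) (l : K) : (uni p).eval l = eval ![l, 1] p := by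
  rw [uni_eq, Polynomial.eval_finsetSum, eval_eq']
  refine Finset.sum_congr rfl fun s _ => ?_
  rw [Fin.prod_univ_two]
  simp

theorem uni_coeff (p : MvPolynomial (Fin 2) K) (n : ℕ) :
    (uni p).coeff n = ∑ s ∈ p.support, if n = s 0 then coeff s p else 0 := by
  rw [uni_eq, Polynomial.finsetSum_coeff]
  refine Finset.sum_congr rfl fun s _ => ?_
  rw [Polynomial.coeff_C_mul, Polynomial.coeff_X_pow]
  simp

end Pool.Agent.GAR.Rent
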