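import Pool.Agent.GAR.RentLnd

/-! Weights on `K[x, y]` and the top part of a derivation (helper20, part B of MP_cf7cfc_al). -/

namespace Pool.Agent.GAR.Rent

open MvPolynomial

open scoped Pointwise

variable {K : Type*} [Field K]

/-- weight of an exponent: `a * i + b * j` -/
noncomputable def wt (a b : ℤ) : (Fin 2 →₀ ℕ) →+ ℤ := Finsupp.weight ![a, b]

theorem wt_apply (a b : ℤ) (s : Fin 2 →₀ ℕ) : wt a b s = a * s 0 + b * s 1 := by
  rw [wt, Finsupp.weight_apply, Finsupp.sum_fintype _ _ (by simp), Fin.sum_univ_two]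
  simp [mul_comm]

/-- polynomials all whose monomials have weight in `I` -/
noncomputable def Wm (K : Type*) [Field K] (a b : ℤ) (I : Set ℤ) : Submodule K (MvPolynomial (Fin 2) K) :=
  restrictSupport K {s | wt a b s ∈ I}

theorem mem_Wm {a b : ℤ} {I : Set ℤ} {p : MvPolynomial (Fin 2) K} :
    p ∈ Wm K a b I ↔ ∀ s, coeff s p ≠ 0 → wt a b s ∈ I := by
  rw [Wm, mem_restrictSupport_iff]
  constructor
  · intro h s hs
    exact h (mem_support_iff.2 hs)
  · intro h s hs
    exact h s (mem_support_iff.1 hs)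

theorem Wm_mono {a b : ℤ} {I J : Set ℤ} (h : I ⊆ J) : Wm K a b I ≤ Wm K a b J :=
  fun _ hp => mem_Wm.2 fun s hs => h (mem_Wm.1 hp s hs)

theorem Wm_mul {a b : ℤ} {I J L : Set ℤ} (h : ∀ i ∈ I, ∀ j ∈ J, i + j ∈ L)
    {p q : MvPolynomial (Fin 2) K} (hp : p ∈ Wm K a b I) (hq : q ∈ Wm K a b J) :
    p * q ∈ Wm K a b L := by
  have h1 : p * q ∈ restrictSupport K ({s | wt a b s ∈ I} + {s | wt a b s ∈ J}) := by
    rw [restrictSupport_add]
    exact Submodule.mul_mem_mul hp hq
  refine restrictSupport_mono K ?_ h1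
  rintro s ⟨t, ht, u, hu, rfl⟩
  simp only [Set.mem_ofPred_eq] at ht hu ⊢
  rw [map_add]
  exact h _ ht _ hu

theorem Wm_map {a b a' b' : ℤ} {I J : Set ℤ}
    (f : MvPolynomial (Fin 2) K →ₗ[K] MvPolynomial (Fin 2) K)
    (h : ∀ s, wt a b s ∈ I → f (monomial s 1) ∈ Wm K a' b' J) {p : MvPolynomial (Fin 2) K}
    (hp : p ∈ Wm K a b I) : f p ∈ Wm K a' b' J := by
  rw [Wm, restrictSupport_eq_span] at hp
  have : Submodule.span K ((fun s => monomial s (1 : K)) '' {s | wt a b s ∈ I})
      ≤ (Wm K a' b' J).comap f := by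
    rw [Submodule.span_le]
    rintro _ ⟨s, hs, rfl⟩
    exact h s hs
  exact this hp

/-- `q` is the part of weight `m` of `p` and all monomials of `p` have weight at most `m` -/
def Top (a b m : ℤ) (p q : MvPolynomial (Fin 2) K) : Prop :=
  q ∈ Wm K a b {m} ∧ p - q ∈ Wm K a b (Set.Iio m)

theorem Top.add {a b m : ℤ} {p q p' q' : MvPolynomial (Fin 2) K} (h : Top a b m p q)
    (h' : Top a b m p' q') : Top a b m (p + p') (q + q') :=
  ⟨add_mem h.1 h'.1, by
    have : p + p' - (q + q') = (p - q) + (p' - q') := by ring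
    rw [this]; exact add_mem h.2 h'.2⟩

theorem Top.of_hom {a b m : ℤ} {p : MvPolynomial (Fin 2) K} (h : p ∈ Wm K a b {m}) :
    Top a b m p p := ⟨h, by rw [sub_self]; exact zero_mem _⟩

theorem Top.mem_le {a b m : ℤ} {p q : MvPolynomial (Fin 2) K} (h : Top a b m p q) :
    p ∈ Wm K a b (Set.Iic m) := by
  have : p = q + (p - q) := by ring
  rw [this]
  refine add_mem (Wm_mono ?_ h.1) (Wm_mono ?_ h.2)
  · rintro x hx
    exact Set.mem_Iic.2 (le_of_eq (Set.mem_singleton_iff.1 hx))
  · intro x hx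
    exact Set.mem_Iic.2 (le_of_lt (Set.mem_Iio.1 hx))

theorem Top.mul {a b m n : ℤ} {p q p' q' : MvPolynomial (Fin 2) K} (h : Top a b m p q)
    (h' : Top a b n p' q') : Top a b (m + n) (p * p') (q * q') := by
  refine ⟨Wm_mul ?_ h.1 h'.1, ?_⟩
  · rintro _ rfl _ rfl; rfl
  · have : p * p' - q * q' = p * (p' - q') + (p - q) * q' := by ring
    rw [this]
    refine add_mem (Wm_mul ?_ h.mem_le h'.2) (Wm_mul ?_ h.2 h'.1)
    · intro i hi j hj
      simp only [Set.mem_Iic, Set.mem_Iio] at *
      omega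
    · rintro i hi _ rfl
      simp only [Set.mem_Iio] at *
      omega

theorem Top.eq_zero {a b m : ℤ} {q : MvPolynomial (Fin 2) K} (h : Top a b m 0 q) : q = 0 := by
  ext s
  rw [coeff_zero]
  by_contra hs
  have h1 := mem_Wm.1 h.1 s hs
  have h2 := mem_Wm.1 h.2 s (by rw [zero_sub, coeff_neg]; exact neg_ne_zero.2 hs)
  simp only [Set.mem_singleton_iff, Set.mem_Iio] at h1 h2
  omega

theorem Top.coeff_eq {a b m : ℤ} {p q : MvPolynomial (Fin 2) K} (h : Top a b m p q)
    {s : Fin 2 →₀ ℕ} (hs : wt a b s = m) : coeff s p = coeff s q := by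
  by_contra hne
  have := mem_Wm.1 h.2 s (by rw [coeff_sub]; exact sub_ne_zero.2 hne)
  simp only [Set.mem_Iio] at this
  omega

theorem mono_mem {a b : ℤ} (s : Fin 2 →₀ ℕ) : monomial s (1 : K) ∈ Wm K a b {wt a b s} := by
  refine mem_Wm.2 fun t ht => ?_
  classical
  rw [coeff_monomial] at ht
  by_cases h : s = t
  · rw [h]; rfl
  · rw [if_neg h] at ht; exact absurd rfl ht

theorem X_mem {a b : ℤ} (i : Fin 2) : (X i : MvPolynomial (Fin 2) K) ∈ Wm K a b {![a, b] i} := by
  have h := mono_mem (K := K) (a := a) (b := b) (Finsupp.single i 1)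
  have h2 : wt a b (Finsupp.single i 1) = ![a, b] i := by
    rw [wt, Finsupp.weight_single]; simp
  rw [h2] at h
  exact h

/-- the derivation `E` is the part of degree `d` of `D` -/
def DTop (a b d : ℤ) (D E : Derivation K (MvPolynomial (Fin 2) K) (MvPolynomial (Fin 2) K)) : Prop :=
  ∀ i, Top a b (![a, b] i + d) (D (X i)) (E (X i))

theorem DTop.mono {a b d : ℤ} {D E : Derivation K (MvPolynomial (Fin 2) K) (MvPolynomial (Fin 2) K)}
    (h : DTop a b d D E) (s : Fin 2 →₀ ℕ) :
    Top a b (wt a b s + d) (D (monomial s 1)) (E (monomial s 1)) := by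
  have key : ∀ (s : Fin 2 →₀ ℕ) (c : K), ∃ m, monomial s c ∈ Wm K a b {m} ∧
      Top a b (m + d) (D (monomial s c)) (E (monomial s c)) := by
    intro s c
    refine induction_on_monomial (motive := fun p => ∃ m, p ∈ Wm K a b {m} ∧
      Top a b (m + d) (D p) (E p)) ?_ ?_ s c
    · intro c
      refine ⟨0, mem_Wm.2 fun s hs => ?_, ?_⟩
      · classical
        rw [coeff_C] at hs
        by_cases h0 : 0 = s
        · rw [← h0, map_zero]; rfl
        · rw [if_neg h0] at hs; exact absurd rfl hs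
      · rw [derivation_C, derivation_C]
        exact Top.of_hom (zero_mem _)
    · rintro p i ⟨m, hm, ht⟩
      refine ⟨m + ![a, b] i, Wm_mul ?_ hm (X_mem i), ?_⟩
      · rintro _ rfl _ rfl; rfl
      · rw [Derivation.leibniz, Derivation.leibniz, smul_eq_mul, smul_eq_mul, smul_eq_mul,
          smul_eq_mul]
        have h1 := (Top.of_hom hm).mul (h i)
        have h2 := (Top.of_hom (X_mem (K := K) (a := a) (b := b) i)).mul ht
        have e1 : m + (![a, b] i + d) = m + ![a, b] i + d := by ring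
        have e2 : ![a, b] i + (m + d) = m + ![a, b] i + d := by ring
        rw [e1] at h1
        rw [e2] at h2
        exact h1.add h2
  obtain ⟨m, hm, ht⟩ := key s 1
  have : wt a b s = m := mem_Wm.1 hm s (by simp)
  rw [this]
  exact ht

theorem DTop.top {a b d : ℤ} {D E : Derivation K (MvPolynomial (Fin 2) K) (MvPolynomial (Fin 2) K)}
    (h : DTop a b d D E) {m : ℤ} {p q : MvPolynomial (Fin 2) K} (hpq : Top a b m p q) :
    Top a b (m + d) (D p) (E q) := by
  refine ⟨Wm_map (E : MvPolynomial (Fin 2) K →ₗ[K] MvPolynomial (Fin 2) K) ?_ hpq.1, ?_⟩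
  · rintro s hs
    have hs' : wt a b s = m := hs
    have := (h.mono s).1
    rw [hs'] at this
    exact this
  · have e : D p - E q = D (p - q) + (D q - E q) := by rw [map_sub]; ring
    rw [e]
    refine add_mem (Wm_map (D : MvPolynomial (Fin 2) K →ₗ[K] MvPolynomial (Fin 2) K) ?_ hpq.2)
      (Wm_map ((D : MvPolynomial (Fin 2) K →ₗ[K] MvPolynomial (Fin 2) K) - (E : MvPolynomial (Fin 2) K →ₗ[K] MvPolynomial (Fin 2) K)) ?_ hpq.1)
    · intro s hs
      refine Wm_mono ?_ (h.mono s).mem_le
      intro x hx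
      simp only [Set.mem_Iio, Set.mem_Iic] at *
      omega
    · intro s hs
      have hs' : wt a b s = m := hs
      have := (h.mono s).2
      rw [hs'] at this
      exact this

theorem DTop.iter {a b d : ℤ} {D E : Derivation K (MvPolynomial (Fin 2) K) (MvPolynomial (Fin 2) K)}
    (h : DTop a b d D E) {m : ℤ} {p q : MvPolynomial (Fin 2) K} (hpq : Top a b m p q) (n : ℕ) :
    Top a b (m + n * d) ((⇑D)^[n] p) ((⇑E)^[n] q) := by
  induction n with
  | zero => simpa using hpq
  | succ n ih =>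
    rw [Function.iterate_succ_apply', Function.iterate_succ_apply']
    have := h.top ih
    have e : m + (n : ℤ) * d + d = m + ((n + 1 : ℕ) : ℤ) * d := by push_cast; ring
    rw [e] at this
    exact this

theorem it_smul (D : Derivation K (MvPolynomial (Fin 2) K) (MvPolynomial (Fin 2) K)) (n : ℕ) (c : K)
    (p : MvPolynomial (Fin 2) K) : (⇑D)^[n] (c • p) = c • (⇑D)^[n] p := by
  induction n with
  | zero => rfl
  | succ n ih => rw [Function.iterate_succ_apply', ih, Derivation.map_smul,
      Function.iterate_succ_apply']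

/-- the top part of a locally nilpotent derivation is locally nilpotent -/
theorem DTop.lnd {a b d : ℤ} {D E : Derivation K (MvPolynomial (Fin 2) K) (MvPolynomial (Fin 2) K)}
    (h : DTop a b d D E) (hD : LND D) : LND E := by
  intro p
  induction p using MvPolynomial.induction_on' with
  | monomial s c =>
    obtain ⟨n, hn⟩ := hD (monomial s 1)
    refine ⟨n, ?_⟩
    rw [it_eq] at hn ⊢
    have h1 := h.iter (Top.of_hom (mono_mem (K := K) (a := a) (b := b) s)) n
    rw [hn] at h1
    have h2 : (monomial s c : MvPolynomial (Fin 2) K) = c • monomial s 1 := by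
      rw [smul_monomial, smul_eq_mul, mul_one]
    rw [h2, it_smul, h1.eq_zero, smul_zero]
  | add p q hp hq =>
    obtain ⟨m, hm⟩ := hp
    obtain ⟨n, hn⟩ := hq
    refine ⟨max m n, ?_⟩
    rw [it_eq] at hm hn ⊢
    rw [it_add, it_of_le E (le_max_left m n) hm, it_of_le E (le_max_right m n) hn, add_zero]

/-- the top part of a derivation for given weights and degree -/
noncomputable def topD (a b d : ℤ)
    (D : Derivation K (MvPolynomial (Fin 2) K) (MvPolynomial (Fin 2) K)) :
    Derivation K (MvPolynomial (Fin 2) K) (MvPolynomial (Fin 2) K) :=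
  mkDerivation K fun i => weightedHomogeneousComponent ![a, b] (![a, b] i + d) (D (X i))

theorem coeff_topD (a b d : ℤ)
    (D : Derivation K (MvPolynomial (Fin 2) K) (MvPolynomial (Fin 2) K)) (i : Fin 2)
    (s : Fin 2 →₀ ℕ) : coeff s (topD a b d D (X i)) =
      if wt a b s = ![a, b] i + d then coeff s (D (X i)) else 0 := by
  classical
  rw [topD, mkDerivation_X, coeff_weightedHomogeneousComponent]
  rfl

theorem topD_dTop {a b d : ℤ}
    {D : Derivation K (MvPolynomial (Fin 2) K) (MvPolynomial (Fin 2) K)}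
    (h : ∀ i s, coeff s (D (X i)) ≠ 0 → wt a b s ≤ ![a, b] i + d) : DTop a b d D (topD a b d D) := by
  intro i
  refine ⟨mem_Wm.2 fun s hs => ?_, mem_Wm.2 fun s hs => ?_⟩
  · rw [coeff_topD] at hs
    by_contra hne
    have hne' : ¬ wt a b s = ![a, b] i + d := hne
    rw [if_neg hne'] at hs
    exact hs rfl
  · rw [coeff_sub, coeff_topD] at hs
    by_cases hc : wt a b s = ![a, b] i + d
    · rw [if_pos hc, sub_self] at hs
      exact absurd rfl hs
    · rw [if_neg hc, sub_zero] at hs
      exact lt_of_le_of_ne (h i s hs) hc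

/-- homogeneous homomorphisms -/
theorem Top.map {a b m : ℤ} {p q : MvPolynomial (Fin 2) K}
    (f : MvPolynomial (Fin 2) K →ₐ[K] MvPolynomial (Fin 2) K)
    (hf : ∀ i, f (X i) ∈ Wm K a b {![a, b] i}) (h : Top a b m p q) : Top a b m (f p) (f q) := by
  have key : ∀ (s : Fin 2 →₀ ℕ) (c : K), ∃ m, monomial s c ∈ Wm K a b {m} ∧
      f (monomial s c) ∈ Wm K a b {m} := by
    intro s c
    refine induction_on_monomial (motive := fun p => ∃ m, p ∈ Wm K a b {m} ∧
      f p ∈ Wm K a b {m}) ?_ ?_ s c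
    · intro c
      have hC : (C c : MvPolynomial (Fin 2) K) ∈ Wm K a b {0} := by
        refine mem_Wm.2 fun s hs => ?_
        classical
        rw [coeff_C] at hs
        by_cases h0 : 0 = s
        · rw [← h0, map_zero]; rfl
        · rw [if_neg h0] at hs; exact absurd rfl hs
      refine ⟨0, hC, ?_⟩
      rw [← algebraMap_eq, f.commutes, algebraMap_eq]
      exact hC
    · rintro p i ⟨m, hm, ht⟩
      refine ⟨m + ![a, b] i, Wm_mul ?_ hm (X_mem i), ?_⟩
      · rintro _ rfl _ rfl; rfl
      · rw [map_mul]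
        refine Wm_mul ?_ ht (hf i)
        rintro _ rfl _ rfl; rfl
  have key' : ∀ s : Fin 2 →₀ ℕ, f (monomial s 1) ∈ Wm K a b {wt a b s} := by
    intro s
    obtain ⟨m, hm, ht⟩ := key s 1
    have : wt a b s = m := mem_Wm.1 hm s (by simp)
    rw [this]
    exact ht
  refine ⟨Wm_map f.toLinearMap ?_ h.1, ?_⟩
  · intro s hs
    have hs' : wt a b s = m := hs
    rw [← hs']
    exact key' s
  · rw [← map_sub]
    refine Wm_map f.toLinearMap ?_ h.2
    intro s hs
    refine Wm_mono ?_ (key' s)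
    rintro _ rfl
    exact hs

end Pool.Agent.GAR.Rent
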