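import Mathlib
import Pool.Agent.GAR.Final

set_option autoImplicit false

/-! Semilinear automorphisms of `R[x, y]`: ring automorphisms which preserve `R`. -/

namespace Pool.Agent.GAR

open MvPolynomial

section Semi
variable {R : Type*} [CommRing R]

/-- Conjugation of an automorphism over `R` by an automorphism of `R`. -/
noncomputable def conj (σ : R ≃+* R) (h : Aut2 R) : Aut2 R :=
  AlgEquiv.ofRingEquiv
    (f := ((mapEquiv (Fin 2) σ.symm).trans (h : MvPolynomial (Fin 2) R ≃+* _)).trans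
      (mapEquiv (Fin 2) σ))
    (by
      intro r
      have : h (C (σ.symm r)) = C (σ.symm r) := h.commutes _
      simp [algebraMap_eq, this])

theorem conj_apply (σ : R ≃+* R) (h : Aut2 R) (p : MvPolynomial (Fin 2) R) :
    conj σ h p = map (σ : R →+* R) (h (map (σ.symm : R →+* R) p)) := rfl

theorem map_symm_map (σ : R ≃+* R) (p : MvPolynomial (Fin 2) R) :
    map (σ.symm : R →+* R) (map (σ : R →+* R) p) = p := by
  rw [map_map]
  have : (σ.symm : R →+* R).comp (σ : R →+* R) = RingHom.id R := by ext; simp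
  rw [this, map_id]

theorem map_map_symm (σ : R ≃+* R) (p : MvPolynomial (Fin 2) R) :
    map (σ : R →+* R) (map (σ.symm : R →+* R) p) = p := by
  rw [map_map]
  have : (σ : R →+* R).comp (σ.symm : R →+* R) = RingHom.id R := by ext; simp
  rw [this, map_id]

theorem conj_mul (σ : R ≃+* R) (g h : Aut2 R) : conj σ (g * h) = conj σ g * conj σ h := by
  apply AlgEquiv.ext
  intro p
  change conj σ (g * h) p = conj σ g (conj σ h p)
  rw [conj_apply, conj_apply, conj_apply, map_symm_map]; rfl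

theorem conj_one (σ : R ≃+* R) : conj σ (1 : Aut2 R) = 1 := by
  apply AlgEquiv.ext
  intro p
  rw [conj_apply]
  exact map_map_symm σ p

/-- Conjugation as a homomorphism. -/
noncomputable def conjHom (σ : R ≃+* R) : Aut2 R →* Aut2 R where
  toFun := conj σ
  map_one' := conj_one σ
  map_mul' := conj_mul σ

/-- The linear generators: triangular automorphisms and automorphisms of degree at most `d`. -/
def linGen (R : Type*) [CommRing R] (d : ℕ) : Set (Aut2 R) :=
  {φ | ∀ i, ∃ c : R, IsUnit c ∧ ∃ p ∈ supported R {j : Fin 2 | i < j},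
          φ (X i) = C c * X i + p} ∪
  {φ | ∀ i, (φ (X i)).totalDegree ≤ d}

theorem map_supported {S : Type*} [CommRing S] (f : R →+* S) {s : Set (Fin 2)}
    {p : MvPolynomial (Fin 2) R} (hp : p ∈ supported R s) : map f p ∈ supported S s := by
  rw [mem_supported] at hp ⊢
  refine (Finset.coe_subset.2 ?_).trans hp
  classical
  exact vars_map (f := f) p

theorem conj_mem (σ : R ≃+* R) {d : ℕ} {h : Aut2 R}
    (hh : h ∈ Subgroup.closure (linGen R d)) : conj σ h ∈ Subgroup.closure (linGen R d) := by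
  have : (Subgroup.closure (linGen R d)).map (conjHom σ) ≤ Subgroup.closure (linGen R d) := by
    rw [MonoidHom.map_closure, Subgroup.closure_le]
    rintro _ ⟨g, hg, rfl⟩
    refine Subgroup.subset_closure ?_
    have e : ∀ i, conj σ g (X i) = map (σ : R →+* R) (g (X i)) := fun i => by
      rw [conj_apply, map_X]
    rcases hg with hg | hg
    · refine Or.inl fun i => ?_
      obtain ⟨c, hc, p, hp, h0⟩ := hg i
      refine ⟨σ c, hc.map σ, map (σ : R →+* R) p, map_supported _ hp, ?_⟩
      change conj σ g (X i) = _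
      rw [e, h0, map_add, map_mul, map_C, map_X]; rfl
    · refine Or.inr fun i => ?_
      change (conj σ g (X i)).totalDegree ≤ d
      rw [e]
      exact (Finset.sup_mono (support_map_subset _ _)).trans (hg i)
  exact this ⟨h, hh, rfl⟩

/-- Semilinear ring automorphisms of `R[x, y]`. -/
def IsSemi (φ : MvPolynomial (Fin 2) R ≃+* MvPolynomial (Fin 2) R) : Prop :=
  ∃ σ : R ≃+* R, ∀ r, φ (C r) = C (σ r)

/-- The semilinear generators. -/
def semiGen (R : Type*) [CommRing R] (d : ℕ) :
    Set (MvPolynomial (Fin 2) R ≃+* MvPolynomial (Fin 2) R) :=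
  {φ | IsSemi φ ∧ ∀ i, ∃ c : R, IsUnit c ∧ ∃ p ∈ supported R {j : Fin 2 | i < j},
          φ (X i) = C c * X i + p} ∪
  {φ | IsSemi φ ∧ ∀ i, (φ (X i)).totalDegree ≤ d}

/-- The linear part of a semilinear automorphism. -/
theorem lin_exists (φ : MvPolynomial (Fin 2) R ≃+* MvPolynomial (Fin 2) R) (σ : R ≃+* R)
    (h : ∀ r, φ (C r) = C (σ r)) :
    ∃ g : Aut2 R, (∀ p, φ p = g (map (σ : R →+* R) p)) ∧ ∀ i, g (X i) = φ (X i) := by
  refine ⟨AlgEquiv.ofRingEquiv (f := (mapEquiv (Fin 2) σ.symm).trans φ) ?_, ?_, ?_⟩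
  · intro r
    simp [algebraMap_eq, h]
  · intro p
    change _ = φ (map (σ.symm : R →+* R) (map (σ : R →+* R) p))
    rw [map_symm_map]
  · intro i
    change φ (map (σ.symm : R →+* R) (X i)) = _
    rw [map_X]

theorem semi_closure {d : ℕ} {φ : MvPolynomial (Fin 2) R ≃+* MvPolynomial (Fin 2) R}
    (hφ : φ ∈ Subgroup.closure (semiGen R d)) :
    ∃ σ : R ≃+* R, (∀ r, φ (C r) = C (σ r)) ∧
      ∃ g ∈ Subgroup.closure (linGen R d), ∀ p, φ p = g (map (σ : R →+* R) p) := by
  have apC : ∀ (g : Aut2 R) (c : R), g (C c) = C c := fun g c => g.commutes c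
  induction hφ using Subgroup.closure_induction with
  | mem φ h =>
    rcases h with ⟨⟨σ, hσ⟩, h⟩ | ⟨⟨σ, hσ⟩, h⟩
    · obtain ⟨g, hg, hX⟩ := lin_exists φ σ hσ
      exact ⟨σ, hσ, g, Subgroup.subset_closure (Or.inl fun i => by rw [hX]; exact h i), hg⟩
    · obtain ⟨g, hg, hX⟩ := lin_exists φ σ hσ
      exact ⟨σ, hσ, g, Subgroup.subset_closure (Or.inr fun i => by rw [hX]; exact h i), hg⟩
  | one =>
    refine ⟨RingEquiv.refl R, fun r => rfl, 1, Subgroup.one_mem _, fun p => ?_⟩
    change p = map (RingHom.id R) p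
    rw [map_id]
  | mul φ ψ _ _ h1 h2 =>
    obtain ⟨σ, hσ, g, hg, h1⟩ := h1
    obtain ⟨τ, hτ, h, hh, h2⟩ := h2
    refine ⟨τ.trans σ, fun r => ?_, g * conj σ h, Subgroup.mul_mem _ hg (conj_mem σ hh),
      fun p => ?_⟩
    · change φ (ψ (C r)) = _
      rw [hτ, hσ]; rfl
    · change φ (ψ p) = g (conj σ h _)
      rw [h2, h1, conj_apply]
      have e1 : ((σ.symm : R ≃+* R) : R →+* R).comp ((τ.trans σ : R ≃+* R) : R →+* R) =
          (τ : R →+* R) := by ext r; simp
      rw [map_map, e1]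
  | inv φ _ h1 =>
    obtain ⟨σ, hσ, g, hg, h1⟩ := h1
    refine ⟨σ.symm, fun r => ?_, conj σ.symm g⁻¹, conj_mem _ (Subgroup.inv_mem _ hg),
      fun p => ?_⟩
    · apply φ.injective
      change (φ * φ⁻¹) (C r) = _
      rw [mul_inv_cancel, hσ, RingEquiv.apply_symm_apply]; rfl
    · apply φ.injective
      change (φ * φ⁻¹) p = _
      rw [mul_inv_cancel, h1, conj_apply]
      have e1 : (σ.symm.symm : R →+* R) = (σ : R →+* R) := rfl
      rw [e1, map_map_symm, map_map_symm]
      change p = (g * g⁻¹) p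
      rw [mul_inv_cancel]; rfl

theorem lin_of_semi {d : ℕ} {g : Aut2 R}
    (h : (g : MvPolynomial (Fin 2) R ≃+* MvPolynomial (Fin 2) R) ∈
      Subgroup.closure (semiGen R d)) : g ∈ Subgroup.closure (linGen R d) := by
  obtain ⟨σ, hσ, h, hh, he⟩ := semi_closure h
  have h1 : σ = RingEquiv.refl R := by
    ext r
    have h2 : g (C r) = C (σ r) := hσ r
    have h3 : g (C r) = C r := g.commutes r
    rw [h3] at h2
    exact (C_injective _ _ h2).symm
  have h2 : g = h := by
    apply AlgEquiv.ext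
    intro p
    have h3 : g p = h (map (σ : R →+* R) p) := he p
    rw [h3, h1]
    change h (map (RingHom.id R) p) = h p
    rw [map_id]
  rw [h2]; exact hh

end Semi

section SemiFinal
variable {R : Type*} [CommRing R] [IsDomain R]

/-- **Final form for semilinear automorphisms**, given Jung's theorem over one field. -/
theorem finalSemi (K : Type*) [Field K] [Algebra R K]
    (hinj : Function.Injective (algebraMap R K)) (jung : ∀ g : Aut2 K, g ∈ affG K ⊔ triG K)
    {z : R} (hz : z ≠ 0) (hu : ¬ IsUnit z)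
    (d m : ℕ) {S : Type*} [CommRing S] [Algebra S R]
    (g : Fin m → (Multiplicative S →*
      (MvPolynomial (Fin 2) R ≃+* MvPolynomial (Fin 2) R)))
    (hg : ∀ j, (∀ t, ∃ σ : R ≃+* R, ∀ r, g j t (C r) = C (σ r)) ∧
      ∃ P : Fin 2 → Polynomial (MvPolynomial (Fin 2) R), ∀ (t : S) (i : Fin 2),
      g j (Multiplicative.ofAdd t) (X i) = (P i).eval (C (algebraMap S R t))) :
    {n | (F hz n : MvPolynomial (Fin 2) R ≃+* MvPolynomial (Fin 2) R) ∈ Subgroup.closure
      ({φ : MvPolynomial (Fin 2) R ≃+* MvPolynomial (Fin 2) R |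
          (∃ σ : R ≃+* R, ∀ r, φ (C r) = C (σ r)) ∧
          ∀ i, ∃ c : R, IsUnit c ∧ ∃ p ∈ supported R {j : Fin 2 | i < j},
            φ (X i) = C c * X i + p} ∪
       {φ : MvPolynomial (Fin 2) R ≃+* MvPolynomial (Fin 2) R |
          (∃ σ : R ≃+* R, ∀ r, φ (C r) = C (σ r)) ∧ ∀ i, (φ (X i)).totalDegree ≤ d} ∪
       ⋃ j, Set.range (g j))}.Finite := by
  choose h0 P hP using hg
  let N : ℕ := Finset.univ.sup fun j : Fin m => Finset.univ.sup fun i : Fin 2 =>
    (P j i).support.sup fun k => ((P j i).coeff k).totalDegree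
  have hN : ∀ j (x : Multiplicative S) (i : Fin 2), (g j x (X i)).totalDegree ≤ N := by
    intro j x i
    have h1 := hP j (Multiplicative.toAdd x) i
    rw [ofAdd_toAdd] at h1
    rw [h1]
    refine (degree_family (P j i) _).trans ?_
    refine le_trans ?_ (Finset.le_sup (f := fun j : Fin m => Finset.univ.sup fun i : Fin 2 =>
      (P j i).support.sup fun k => ((P j i).coeff k).totalDegree) (Finset.mem_univ j))
    exact Finset.le_sup (f := fun i : Fin 2 =>
      (P j i).support.sup fun k => ((P j i).coeff k).totalDegree) (Finset.mem_univ i)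
  set D := max 1 (max d N) with hD
  have hle : ({φ : MvPolynomial (Fin 2) R ≃+* MvPolynomial (Fin 2) R |
          (∃ σ : R ≃+* R, ∀ r, φ (C r) = C (σ r)) ∧
          ∀ i, ∃ c : R, IsUnit c ∧ ∃ p ∈ supported R {j : Fin 2 | i < j},
            φ (X i) = C c * X i + p} ∪
       {φ : MvPolynomial (Fin 2) R ≃+* MvPolynomial (Fin 2) R |
          (∃ σ : R ≃+* R, ∀ r, φ (C r) = C (σ r)) ∧ ∀ i, (φ (X i)).totalDegree ≤ d} ∪
       ⋃ j, Set.range (g j)) ⊆ semiGen R D := by
    rintro φ ((h | h) | h)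
    · exact Or.inl h
    · exact Or.inr ⟨h.1, fun i => (h.2 i).trans (le_max_of_le_right (le_max_left _ _))⟩
    · obtain ⟨j, x, rfl⟩ := Set.mem_iUnion.1 h
      exact Or.inr ⟨h0 j x, fun i => (hN j x i).trans (le_max_of_le_right (le_max_right _ _))⟩
  refine (Set.finite_Iic D).subset fun n hn => ?_
  by_contra hlt
  rw [Set.mem_Iic, not_le] at hlt
  have h1 := lin_of_semi (Subgroup.closure_mono hle hn)
  refine F_notMem (K := K) hinj hz hu D (le_max_left _ _) _ ?_ n hlt h1
  rintro φ (h | h)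
  · exact Or.inr (Or.inl (bc_triangular K h))
  · refine Or.inr (Or.inr ⟨jung _, max_le ?_ ?_⟩)
    · rw [bc_X]; exact (totalDegree_map_le' _).trans (h 0)
    · rw [bc_X]; exact (totalDegree_map_le' _).trans (h 1)

end SemiFinal

end Pool.Agent.GAR
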